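import Pool.Agent.MP_dc2c90_ag.H20.SpecB

/-!
Change of cover for objects and isomorphisms of the quotient stack.
-/

namespace Pool.Agent.MP_dc2c90_ag.H20

open WittVector

noncomputable section

variable {p : ℕ} [Fact p.Prime] {n : Type} [Fintype n] [DecidableEq n] {k : Type} [Field k]
  [CharP k p] {D : Data p k n}

namespace RA1b

/-- A point of `H` that is given, uniquely and naturally, over some of the `A`-algebras, among
them a faithfully flat one, comes from `A`. -/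
theorem glue (hS : SSheaf D) {A : Type} [CommRing A] (χ : WittVector p k →+* A)
    (T : ∀ (B : Type) [CommRing B], (A →+* B) → HP p n B → Prop)
    (ex : ∃ (A' : Type) (_ : CommRing A') (ψ : A →+* A') (w : HP p n A'),
      ψ.FaithfullyFlat ∧ T A' ψ w)
    (isH : ∀ (B : Type) [CommRing B] (ψ : A →+* B) (w : HP p n B), T B ψ w → D.IsH (ψ.comp χ) w)
    (nat : ∀ (B B' : Type) [CommRing B] [CommRing B'] (θ : B →+* B') (ψ : A →+* B)
      (w : HP p n B), T B ψ w → T B' (θ.comp ψ) (hmap θ w))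
    (uniq : ∀ (B : Type) [CommRing B] (ψ : A →+* B) (w w' : HP p n B),
      T B ψ w → T B ψ w' → w = w') :
    ∃ u, D.IsH χ u ∧ ∀ (B : Type) [CommRing B] (ψ : A →+* B) (w : HP p n B),
      T B ψ w → hmap ψ u = w := by
  obtain ⟨A', _, ψ₀, w₀, hf, h₀⟩ := ex
  obtain ⟨u, hu, eu⟩ := hS.sH A A' χ ψ₀ hf w₀ (isH A' ψ₀ w₀ h₀) fun B _ γ δ e => by
    have h1 := nat A' B δ ψ₀ w₀ h₀
    rw [← e] at h1
    exact uniq B _ _ _ (nat A' B γ ψ₀ w₀ h₀) h1
  refine ⟨u, hu, fun B _ ψ w hw => ?_⟩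
  obtain ⟨B', _, θ, c, hθ, e⟩ := cov hf ψ
  refine hmap_injective hθ.injective ?_
  have h1 := nat A' B' c ψ₀ w₀ h₀
  rw [e] at h1
  rw [hmap_hmap, ← e, ← hmap_hmap, eu]
  exact uniq B' _ _ _ h1 (nat B B' θ ψ w hw)

theorem sqr {R C C₁ E B : Type} [CommRing R] [CommRing C] [CommRing C₁] [CommRing E] [CommRing B]
    {j : R →+* C} {j₁ : R →+* C₁} {α : C →+* E} {e : C₁ →+* E} (h : α.comp j = e.comp j₁)
    (a : E →+* B) : (a.comp α).comp j = (a.comp e).comp j₁ := by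
  rw [RingHom.comp_assoc, h, RingHom.comp_assoc]

theorem cov₂ {C E A : Type} [CommRing C] [CommRing E] [CommRing A] {e : C →+* E}
    (he : e.FaithfullyFlat) (γ δ : C →+* A) :
    ∃ (A' : Type) (_ : CommRing A') (ψ : A →+* A') (a b : E →+* A'),
      ψ.FaithfullyFlat ∧ a.comp e = ψ.comp γ ∧ b.comp e = ψ.comp δ := by
  obtain ⟨A₁, _, ψ₁, a, h1, e1⟩ := cov he γ
  obtain ⟨A₂, _, ψ₂, b, h2, e2⟩ := cov he (ψ₁.comp δ)
  exact ⟨A₂, inferInstance, ψ₂.comp ψ₁, ψ₂.comp a, b, ff_comp h1 h2,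
    by rw [RingHom.comp_assoc, e1, RingHom.comp_assoc], by rw [e2, RingHom.comp_assoc]⟩

theorem cov₃ {C E A : Type} [CommRing C] [CommRing E] [CommRing A] {e : C →+* E}
    (he : e.FaithfullyFlat) (γ δ ε : C →+* A) :
    ∃ (A' : Type) (_ : CommRing A') (ψ : A →+* A') (a b c : E →+* A'),
      ψ.FaithfullyFlat ∧ a.comp e = ψ.comp γ ∧ b.comp e = ψ.comp δ ∧ c.comp e = ψ.comp ε := by
  obtain ⟨A₁, _, ψ₁, a, b, h1, e1, e1'⟩ := cov₂ he γ δ
  obtain ⟨A₂, _, ψ₂, c, h2, e2⟩ := cov he (ψ₁.comp ε)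
  exact ⟨A₂, inferInstance, ψ₂.comp ψ₁, ψ₂.comp a, ψ₂.comp b, c, ff_comp h1 h2,
    by rw [RingHom.comp_assoc, e1, RingHom.comp_assoc],
    by rw [RingHom.comp_assoc, e1', RingHom.comp_assoc], by rw [e2, RingHom.comp_assoc]⟩

section Key

variable {R C₁ E : Type} [CommRing R] [CommRing C₁] [CommRing E] {χ : WittVector p k →+* R}
  {ξ : D.Obj χ} {j₁ : R →+* C₁} {α : ξ.C →+* E} {e : C₁ →+* E} {u v : HP p n E}

/-- The descent datum on the new cover. -/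
theorem key (hD : D.Good) (hS : SSheaf D) (he : e.FaithfullyFlat)
    (hα : α.comp ξ.j = e.comp j₁) (hu : D.IsH (e.comp (j₁.comp χ)) u)
    (hv : D.IsH (e.comp (j₁.comp χ)) v) (uv : u * v = 1)
    (hc : ∀ (B : Type) [CommRing B] (a b : E →+* B), a.comp e = b.comp e →
      ξ.h B (a.comp α) (b.comp α) * hmap b u = hmap a u)
    (A : Type) [CommRing A] (γ δ : C₁ →+* A) (h : γ.comp j₁ = δ.comp j₁) :
    ∃ w, D.IsH (γ.comp (j₁.comp χ)) w ∧ ∀ (B : Type) [CommRing B] (ψ : A →+* B) (a b : E →+* B),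
      a.comp e = ψ.comp γ → b.comp e = ψ.comp δ →
      hmap ψ w = hmap a v * ξ.h B (a.comp α) (b.comp α) * hmap b u := by
  have s1 : ∀ (B : Type) [CommRing B] (ψ : A →+* B) (a : E →+* B), a.comp e = ψ.comp γ →
      (a.comp α).comp ξ.j = ψ.comp (γ.comp j₁) := fun B _ ψ a ha => by
    rw [sqr hα, ha, RingHom.comp_assoc]
  have s2 : ∀ (B : Type) [CommRing B] (ψ : A →+* B) (b : E →+* B), b.comp e = ψ.comp δ →
      (b.comp α).comp ξ.j = ψ.comp (γ.comp j₁) := fun B _ ψ b hb => by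
    rw [sqr hα, hb, RingHom.comp_assoc, h]
  have G := glue hS (γ.comp (j₁.comp χ))
    (fun B _ ψ w => ∃ a b : E →+* B, a.comp e = ψ.comp γ ∧ b.comp e = ψ.comp δ ∧
      w = hmap a v * ξ.h B (a.comp α) (b.comp α) * hmap b u) ?_ ?_ ?_ ?_
  · obtain ⟨w, hw, kp⟩ := G
    exact ⟨w, hw, fun B _ ψ a b ha hb => kp B ψ _ ⟨a, b, ha, hb, rfl⟩⟩
  · obtain ⟨A', _, ψ, a, b, hψ, ha, hb⟩ := cov₂ he γ δ
    exact ⟨A', inferInstance, ψ, _, hψ, a, b, ha, hb, rfl⟩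
  · rintro B _ ψ _ ⟨a, b, ha, hb, rfl⟩
    refine hD.isH_mul (hD.isH_mul (hv.map a ?_) ?_) (hu.map b ?_)
    · rw [← RingHom.comp_assoc, ha, RingHom.comp_assoc]
    · have h1 := ξ.hh B (a.comp α) (b.comp α) ((s1 B ψ a ha).trans (s2 B ψ b hb).symm)
      rwa [← RingHom.comp_assoc, s1 B ψ a ha, RingHom.comp_assoc, RingHom.comp_assoc] at h1
    · rw [← RingHom.comp_assoc, hb, RingHom.comp_assoc, ← RingHom.comp_assoc χ j₁ δ, ← h,
        RingHom.comp_assoc]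
  · rintro B B' _ _ θ ψ _ ⟨a, b, ha, hb, rfl⟩
    refine ⟨θ.comp a, θ.comp b, by rw [RingHom.comp_assoc, ha, RingHom.comp_assoc],
      by rw [RingHom.comp_assoc, hb, RingHom.comp_assoc], ?_⟩
    rw [hmap_mul, hmap_mul, hmap_hmap, hmap_hmap,
      ξ.nat B B' θ _ _ ((s1 B ψ a ha).trans (s2 B ψ b hb).symm), RingHom.comp_assoc,
      RingHom.comp_assoc]
  · rintro B _ ψ _ _ ⟨a, b, ha, hb, rfl⟩ ⟨a', b', ha', hb', rfl⟩
    have h1 := hc B a a' (ha.trans ha'.symm)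
    have h2 := hc B b' b (hb'.trans hb.symm)
    have h3 : hmap a' u * hmap a' v = 1 := by rw [← hmap_mul, uv, hmap_one]
    have h4 : hmap a v * hmap a u = 1 := by rw [← hmap_mul, hp_mul_eq_one_comm uv, hmap_one]
    have h5 : hmap a' v = hmap a v * ξ.h B (a.comp α) (a'.comp α) := by
      rw [← mul_one (ξ.h B (a.comp α) (a'.comp α)), ← h3, ← mul_assoc (ξ.h B _ _), h1,
        ← mul_assoc, h4, one_mul]
    rw [h5, ← h2, ← ξ.coc B (a.comp α) (a'.comp α) (b.comp α)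
        ((s1 B ψ a ha).trans (s1 B ψ a' ha').symm) ((s1 B ψ a' ha').trans (s2 B ψ b hb).symm),
      ← ξ.coc B (a'.comp α) (b'.comp α) (b.comp α)
        ((s1 B ψ a' ha').trans (s2 B ψ b' hb').symm) ((s2 B ψ b' hb').trans (s2 B ψ b hb).symm)]
    simp only [mul_assoc]

end Key

end RA1b

open RA1b

theorem rA1b (hD : D.Good) (h : SSheaf D) : SA1b D := by
  intro R _ χ ξ C₁ _ j₁ E _ α e u hsm hj he hα hu hc
  classical
  have hv := hD.isH_inv hu
  have uv := hD.mul_hinv hu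
  generalize hinv u = v at hv uv
  have vu := hp_mul_eq_one_comm uv
  obtain ⟨y, hy⟩ : ∃ y, Act (xmap α ξ.x) u y := ⟨_, hD.exists_act hu _⟩
  have hX : D.IsX (e.comp (j₁.comp χ)) y :=
    hD.isX_of_act (ξ.hx.map α (by rw [← RingHom.comp_assoc, hα, RingHom.comp_assoc])) hu hy
  have hy' : ∀ (B : Type) [CommRing B] (a : E →+* B),
      Act (xmap (a.comp α) ξ.x) (hmap a u) (xmap a y) := fun B _ a => by
    have h1 := hy.map a
    rwa [xmap_xmap] at h1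
  obtain ⟨x₀, hx₀, ex₀⟩ := h.sX C₁ E (j₁.comp χ) e he y hX fun B _ a b hab => by
    have h1 := (ξ.act B (a.comp α) (b.comp α) (by rw [sqr hα, sqr hα, hab])).mul (hy' B b)
    rw [hc B a b hab] at h1
    exact hD.act_unique (hu.map a rfl) (hy' B a) h1
  choose w hw kp using key hD h he hα hu hv uv hc
  have s0 : ∀ (A B : Type) [CommRing A] [CommRing B] (ψ : A →+* B) (γ δ : C₁ →+* A)
      (a b : E →+* B), γ.comp j₁ = δ.comp j₁ → a.comp e = ψ.comp γ → b.comp e = ψ.comp δ →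
      (a.comp α).comp ξ.j = (b.comp α).comp ξ.j := fun A B _ _ ψ γ δ a b h0 ha hb => by
    rw [sqr hα, sqr hα, ha, hb, RingHom.comp_assoc, RingHom.comp_assoc, h0]
  refine ⟨
    { C := C₁
      j := j₁
      ff := hj
      x := x₀
      hx := hx₀
      h := fun B _ γ δ => if h0 : γ.comp j₁ = δ.comp j₁ then w B γ δ h0 else 1
      hh := fun B _ γ δ h0 => by rw [dif_pos h0]; exact hw B γ δ h0
      act := fun B _ γ δ h0 => ?_
      nat := fun B B' _ _ θ γ δ h0 => ?_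
      coc := fun B _ γ δ ε h0 h1 => ?_ }, hsm,
    E, inferInstance, e.comp j₁, α, e, u, ff_comp hj he, hα, rfl, hu, ?_, fun B _ γ δ h0 => ?_⟩
  · rw [dif_pos h0]
    obtain ⟨A', _, ψ, a, b, hψ, ha, hb⟩ := cov₂ he γ δ
    refine Act.of_map hψ.injective ?_
    rw [kp B γ δ h0 A' ψ a b ha hb, xmap_xmap, xmap_xmap, ← ha, ← hb, ← xmap_xmap, ← xmap_xmap,
      ex₀]
    refine (((hy' A' a).inv ?_).mul (ξ.act A' _ _ (s0 B A' ψ γ δ a b h0 ha hb))).mul (hy' A' b)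
    rw [← hmap_mul, uv, hmap_one]
  · have h1 : (θ.comp γ).comp j₁ = (θ.comp δ).comp j₁ := by
      rw [RingHom.comp_assoc, h0, RingHom.comp_assoc]
    rw [dif_pos h0, dif_pos h1]
    obtain ⟨A', _, ψ, a, b, hψ, ha, hb⟩ := cov₂ he (θ.comp γ) (θ.comp δ)
    refine hmap_injective hψ.injective ?_
    rw [hmap_hmap, kp B' _ _ h1 A' ψ a b ha hb,
      kp B γ δ h0 A' (ψ.comp θ) a b (by rw [ha, RingHom.comp_assoc])
        (by rw [hb, RingHom.comp_assoc])]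
  · rw [dif_pos h0, dif_pos h1, dif_pos (h0.trans h1)]
    obtain ⟨A', _, ψ, a, b, c, hψ, ha, hb, hc'⟩ := cov₃ he γ δ ε
    refine hmap_injective hψ.injective ?_
    have h3 : hmap b u * hmap b v = 1 := by rw [← hmap_mul, uv, hmap_one]
    rw [hmap_mul, kp B γ δ h0 A' ψ a b ha hb, kp B δ ε h1 A' ψ b c hb hc',
      kp B γ ε (h0.trans h1) A' ψ a c ha hc',
      ← ξ.coc A' (a.comp α) (b.comp α) (c.comp α) (s0 B A' ψ γ δ a b h0 ha hb)
        (s0 B A' ψ δ ε b c h1 hb hc')]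
    simp only [mul_assoc]
    rw [← mul_assoc (hmap b u), h3, one_mul]
  · change Act (xmap α ξ.x) u (xmap e x₀)
    rw [ex₀]; exact hy
  · have h1 : (γ.comp e).comp j₁ = (δ.comp e).comp j₁ := by
      rw [RingHom.comp_assoc, h0, RingHom.comp_assoc]
    change ξ.h B (γ.comp α) (δ.comp α) * hmap δ u = hmap γ u *
      (if h0 : (γ.comp e).comp j₁ = (δ.comp e).comp j₁ then w B (γ.comp e) (δ.comp e) h0 else 1)
    have h2 := kp B _ _ h1 B (RingHom.id B) γ δ (RingHom.id_comp _).symm (RingHom.id_comp _).symm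
    have h3 : hmap γ u * hmap γ v = 1 := by rw [← hmap_mul, uv, hmap_one]
    rw [hmap_id] at h2
    rw [dif_pos h1, h2, ← mul_assoc, ← mul_assoc, h3, one_mul]

theorem rNorm (hD : D.Good) (h : SSheaf D) : SNorm D := by
  intro R₁ R₂ A _ _ _ χ₁ χ₂ φ₁ φ₂ ξ η hχ ⟨A', _, e', α', β', u', he', hα', hβ', hu', ha', hc'⟩
    A₁ _ e α β hα hβ
  have s1 : ∀ (B : Type) [CommRing B] (ψ : A₁ →+* B) (a : A' →+* B), a.comp e' = ψ.comp e →
      (ψ.comp α).comp ξ.j = (a.comp α').comp ξ.j := fun B _ ψ a ha => by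
    rw [sqr hα, sqr hα', ha]
  have s2 : ∀ (B : Type) [CommRing B] (ψ : A₁ →+* B) (a : A' →+* B), a.comp e' = ψ.comp e →
      (a.comp β').comp η.j = (ψ.comp β).comp η.j := fun B _ ψ a ha => by
    rw [sqr hβ, sqr hβ', ha]
  have G := glue h (e.comp (φ₁.comp χ₁))
    (fun B _ ψ w => ∃ a : A' →+* B, a.comp e' = ψ.comp e ∧
      w = ξ.h B (ψ.comp α) (a.comp α') * hmap a u' * η.h B (a.comp β') (ψ.comp β)) ?_ ?_ ?_ ?_
  · obtain ⟨u, hu, kp⟩ := G
    refine ⟨u, hu, ?_, fun B _ γ δ h0 => ?_⟩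
    · obtain ⟨B, _, ψ, a, hψ, ha⟩ := cov he' e
      refine Act.of_map hψ.injective ?_
      have h1 := ha'.map a
      rw [xmap_xmap, xmap_xmap] at h1
      rw [kp B ψ _ ⟨a, ha, rfl⟩, xmap_xmap, xmap_xmap]
      exact ((ξ.act B _ _ (s1 B ψ a ha)).mul h1).mul (η.act B _ _ (s2 B ψ a ha))
    · obtain ⟨B', _, θ, a, hθ, ha⟩ := cov he' (γ.comp e)
      have hγ : a.comp e' = (θ.comp γ).comp e := by rw [ha, RingHom.comp_assoc]
      have hδ : a.comp e' = (θ.comp δ).comp e := by rw [ha, h0, RingHom.comp_assoc]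
      refine hmap_injective hθ.injective ?_
      rw [hmap_mul, hmap_mul, hmap_hmap, hmap_hmap, kp B' _ _ ⟨a, hγ, rfl⟩,
        kp B' _ _ ⟨a, hδ, rfl⟩, ξ.nat B B' θ _ _ (by rw [sqr hα, sqr hα, h0]),
        η.nat B B' θ _ _ (by rw [sqr hβ, sqr hβ, h0]), ← RingHom.comp_assoc α γ θ,
        ← RingHom.comp_assoc α δ θ, ← RingHom.comp_assoc β γ θ, ← RingHom.comp_assoc β δ θ,
        ← ξ.coc B' ((θ.comp γ).comp α) ((θ.comp δ).comp α) (a.comp α')
          ((s1 B' _ a hγ).trans (s1 B' _ a hδ).symm) (s1 B' _ a hδ),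
        ← η.coc B' (a.comp β') ((θ.comp γ).comp β) ((θ.comp δ).comp β) (s2 B' _ a hγ)
          ((s2 B' _ a hγ).symm.trans (s2 B' _ a hδ))]
      simp only [mul_assoc]
  · obtain ⟨B, _, ψ, a, hψ, ha⟩ := cov he' e
    exact ⟨B, inferInstance, ψ, _, hψ, a, ha, rfl⟩
  · rintro B _ ψ _ ⟨a, ha, rfl⟩
    refine hD.isH_mul (hD.isH_mul ?_ (hu'.map a ?_)) ?_
    · have h1 := ξ.hh B _ _ (s1 B ψ a ha)
      rwa [← RingHom.comp_assoc, sqr hα, RingHom.comp_assoc, RingHom.comp_assoc] at h1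
    · rw [← RingHom.comp_assoc, ha, RingHom.comp_assoc]
    · have h1 := η.hh B _ _ (s2 B ψ a ha)
      rwa [← RingHom.comp_assoc, sqr hβ', ha, RingHom.comp_assoc, RingHom.comp_assoc, ← hχ] at h1
  · rintro B B' _ _ θ ψ _ ⟨a, ha, rfl⟩
    refine ⟨θ.comp a, by rw [RingHom.comp_assoc, ha, RingHom.comp_assoc], ?_⟩
    rw [hmap_mul, hmap_mul, hmap_hmap, ξ.nat B B' θ _ _ (s1 B ψ a ha),
      η.nat B B' θ _ _ (s2 B ψ a ha)]
    simp only [RingHom.comp_assoc]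
  · rintro B _ ψ _ _ ⟨a, ha, rfl⟩ ⟨b, hb, rfl⟩
    have h1 := hc' B a b (ha.trans hb.symm)
    rw [← ξ.coc B (ψ.comp α) (a.comp α') (b.comp α') (s1 B ψ a ha)
        ((s1 B ψ a ha).symm.trans (s1 B ψ b hb)),
      ← η.coc B (a.comp β') (b.comp β') (ψ.comp β) ((s2 B ψ a ha).trans (s2 B ψ b hb).symm)
        (s2 B ψ b hb), mul_assoc _ (ξ.h B (a.comp α') (b.comp α')), h1]
    simp only [mul_assoc]

end

end Pool.Agent.MP_dc2c90_ag.H20
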