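import Pool.Agent.MP_dc2c90_ag.H20.SpecA

/-!
Torsion in rings of Witt vectors.
-/

namespace Pool.Agent.MP_dc2c90_ag.H20

open WittVector

namespace RTF

variable {p : ℕ} [Fact p.Prime]

theorem iter_zero_iff {S : Type} [CommRing S] [CharP S p] (v : ℕ) (x : WittVector p S) :
    (p : WittVector p S) ^ v * x = 0 ↔ frobenius^[v] x = 0 := by
  induction v generalizing x with
  | zero => simp
  | succ v ih =>
    rw [Function.iterate_succ_apply, ← ih, pow_succ', mul_assoc, mul_comm,
      ← verschiebung_frobenius, _root_.map_eq_zero_iff _ (verschiebung_injective p S), map_mul,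
      map_pow, map_natCast]

theorem map_iter {R S : Type} [CommRing R] [CommRing S] (g : R →+* S) (v : ℕ)
    (x : WittVector p R) : map g (frobenius^[v] x) = frobenius^[v] (map g x) := by
  induction v generalizing x with
  | zero => rfl
  | succ v ih =>
    rw [Function.iterate_succ_apply, Function.iterate_succ_apply, ih,
      (frobenius_isPoly p).map g x]

theorem dvd_iff {R : Type} [CommRing R] (z : WittVector p R) :
    map (Ideal.Quotient.mk (Ideal.span {(p : R)})) z = 0 ↔ ∀ l, (p : R) ∣ z.coeff l := by
  rw [WittVector.map_eq_zero_iff]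
  simp only [Ideal.Quotient.eq_zero_iff_mem, Ideal.mem_span_singleton]

theorem key {R : Type} [CommRing R] (v : ℕ) (z : WittVector p R)
    (hz : (p : WittVector p R) ^ v * z = 0) (l : ℕ) : (p : R) ∣ (frobenius^[v] z).coeff l := by
  by_cases hp : IsUnit (p : R)
  · exact hp.dvd
  · have := CharP.quotient R p hp
    revert l
    rw [← dvd_iff, map_iter, ← iter_zero_iff]
    have := congrArg (map (Ideal.Quotient.mk (Ideal.span {(p : R)}))) hz
    rwa [map_mul, map_pow, map_natCast, map_zero] at this

end RTF

theorem rTF (h : SW1) : STF := by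
  intro p _ R _ v u
  induction u generalizing v with
  | zero => exact ⟨0, fun z _ => ⟨z, by simp⟩⟩
  | succ u ih =>
    obtain ⟨l, hl⟩ := ih (v + 1)
    refine ⟨l + (v + 1), fun z hz => ?_⟩
    obtain ⟨z₁, h1⟩ := (h p R _ (RTF.key v z hz)).1
    have h2 : ((frobenius : WittVector p R →+* WittVector p R) ^ (v + 1)) z =
        (p : WittVector p R) * z₁ := by
      rw [RingHom.coe_pow, Function.iterate_succ_apply', h1]
    have h3 : (p : WittVector p R) ^ (v + 1) * z₁ = 0 := by
      have := congrArg ((frobenius : WittVector p R →+* WittVector p R) ^ (v + 1)) hz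
      rw [map_mul, map_pow, map_natCast, map_zero, h2] at this
      rw [pow_succ, mul_assoc, this]
    obtain ⟨z', h4⟩ := hl z₁ h3
    refine ⟨z', ?_⟩
    rw [pow_add, RingHom.coe_mul, Function.comp_apply, h2, map_mul, map_natCast, h4, pow_succ',
      mul_assoc]

theorem rBT (h : SW1) : SBT := by
  intro p hp R _ _ ⟨s, hs⟩
  by_cases hu : IsUnit (p : R)
  · exact ⟨s, fun z _ _ => (h p R z fun _ => hu.dvd).2 s hs⟩
  · have := CharP.quotient R p hu
    obtain ⟨e, he⟩ := IsNoetherianRing.isNilpotent_nilradical (R ⧸ Ideal.span {(p : R)})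
    refine ⟨s + e, fun z u hz => ?_⟩
    have h1 := congrArg (map (Ideal.Quotient.mk (Ideal.span {(p : R)}))) hz
    rw [map_mul, map_pow, map_natCast, map_zero, RTF.iter_zero_iff] at h1
    have h2 : frobenius^[e] (map (Ideal.Quotient.mk (Ideal.span {(p : R)})) z) = 0 := by
      ext l
      have h3 := congrArg (fun x => WittVector.coeff x l) h1
      simp only [iterate_frobenius_coeff, zero_coeff] at h3
      have h4 := Ideal.pow_mem_pow (mem_nilradical.2 ⟨_, h3⟩) e
      rw [he, Ideal.zero_eq_bot, Ideal.mem_bot] at h4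
      rw [iterate_frobenius_coeff, zero_coeff]
      exact pow_eq_zero_of_le (Nat.lt_pow_self hp.out.one_lt).le h4
    rw [← RTF.iter_zero_iff] at h2
    have h5 : ∀ l, (p : R) ∣ ((p : WittVector p R) ^ e * z).coeff l := by
      rw [← RTF.dvd_iff, map_mul, map_pow, map_natCast, h2]
    rw [pow_add, mul_assoc]
    exact (h p R _ h5).2 s hs

end Pool.Agent.MP_dc2c90_ag.H20
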