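import Pool.Agent.MP_dc2c90_ag.H20.SpecA

/-!
Witt vectors with all coordinates divisible by `p`.
-/

namespace Pool.Agent.MP_dc2c90_ag.H20

noncomputable section

namespace RW1

variable {p : ℕ} [hp : Fact p.Prime]

theorem ghost_eq {A : Type} [CommRing A] (n : ℕ) (x : WittVector p A) :
    WittVector.ghostComponent n x =
      ∑ i ∈ Finset.range (n + 1), (p : A) ^ i * x.coeff i ^ p ^ (n - i) := by
  rw [WittVector.ghostComponent_apply, aeval_wittPolynomial]

theorem exp_le (u i n : ℕ) (hu : 1 ≤ u) (hi : i ≤ n) : n + u ≤ i + u * p ^ (n - i) := by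
  have h1 : n - i < p ^ (n - i) := Nat.lt_pow_self hp.out.one_lt
  obtain ⟨m, rfl⟩ := Nat.exists_eq_add_of_le hi
  simp only [Nat.add_sub_cancel_left] at h1 ⊢
  have h2 : u * (m + 1) ≤ u * p ^ m := Nat.mul_le_mul_left u h1
  nlinarith

theorem term_eq {A : Type} [CommRing A] (u i n : ℕ) (hu : 1 ≤ u) (hi : i ≤ n) (a : A) :
    (p : A) ^ i * ((p : A) ^ u * a) ^ p ^ (n - i) =
      (p : A) ^ (n + u) * ((p : A) ^ (i + u * p ^ (n - i) - (n + u)) * a ^ p ^ (n - i)) := by
  have h := exp_le (p := p) u i n hu hi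
  rw [mul_pow, ← pow_mul, ← mul_assoc, ← pow_add, ← mul_assoc, ← pow_add,
    Nat.add_sub_cancel' h]

/-- Coordinates in `p ^ u A` give ghost components in `p ^ (n + u) A`. -/
theorem ghost_dvd {A : Type} [CommRing A] (u : ℕ) (hu : 1 ≤ u) (x : WittVector p A)
    (hx : ∀ l, (p : A) ^ u ∣ x.coeff l) (n : ℕ) :
    (p : A) ^ (n + u) ∣ WittVector.ghostComponent n x := by
  rw [ghost_eq]
  refine Finset.dvd_sum fun i hi => ?_
  obtain ⟨a, ha⟩ := hx i
  rw [ha, term_eq u i n hu (Nat.lt_succ_iff.mp (Finset.mem_range.mp hi))]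
  exact Dvd.intro _ rfl

/-- The recursive solution of the ghost equations. -/
def sol {A : Type} [CommRing A] (p u : ℕ) (g : ℕ → A) (n : ℕ) : A :=
  g n - ∑ i : Fin n, (p : A) ^ (i.1 + u * p ^ (n - i.1) - (n + u)) * sol p u g i.1 ^ p ^ (n - i.1)
termination_by n
decreasing_by exact i.2

theorem exists_ghost {A : Type} [CommRing A] (u : ℕ) (hu : 1 ≤ u) (g : ℕ → A) :
    ∃ y : WittVector p A, (∀ l, (p : A) ^ u ∣ y.coeff l) ∧
      ∀ n, WittVector.ghostComponent n y = (p : A) ^ (n + u) * g n := by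
  refine ⟨WittVector.mk p fun l => (p : A) ^ u * sol p u g l, fun l => Dvd.intro _ rfl,
    fun n => ?_⟩
  rw [ghost_eq, Finset.sum_range_succ]
  simp only [WittVector.coeff_mk, Nat.sub_self, pow_zero, pow_one]
  rw [Finset.sum_congr rfl fun i hi =>
    term_eq u i n hu (Finset.mem_range.mp hi).le (sol p u g i), ← Finset.mul_sum]
  rw [Finset.sum_range fun i =>
    (p : A) ^ (i + u * p ^ (n - i) - (n + u)) * sol p u g i ^ p ^ (n - i)]
  conv_lhs => rw [sol.eq_1 p u g n]
  ring

theorem ghost_inj {A : Type} [CommRing A] [IsDomain A] [CharZero A] (x y : WittVector p A)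
    (h : ∀ n, WittVector.ghostComponent n x = WittVector.ghostComponent n y) : x = y := by
  have hp0 : (p : A) ≠ 0 := Nat.cast_ne_zero.mpr hp.out.ne_zero
  have key : ∀ n, x.coeff n = y.coeff n := by
    intro n
    induction n using Nat.strong_induction_on with
    | _ n ih =>
      have h1 := h n
      rw [ghost_eq, ghost_eq, Finset.sum_range_succ, Finset.sum_range_succ,
        Finset.sum_congr rfl fun i hi => by rw [ih i (Finset.mem_range.mp hi)]] at h1
      simp only [Nat.sub_self, pow_zero, pow_one] at h1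
      exact mul_left_cancel₀ (pow_ne_zero n hp0) (add_left_cancel h1)
  ext n
  exact key n

theorem dom {A : Type} [CommRing A] [IsDomain A] [CharZero A] (z : WittVector p A)
    (hz : ∀ l, (p : A) ∣ z.coeff l) :
    (∃ z', WittVector.frobenius z = (p : WittVector p A) * z') ∧
    ∀ s : ℕ, ∀ l, (p : A) ^ (s + 1) ∣ ((p : WittVector p A) ^ s * z).coeff l := by
  have hg := ghost_dvd 1 le_rfl z (by simpa using hz)
  choose g hg using hg
  constructor
  · obtain ⟨y, -, hy⟩ := exists_ghost (p := p) 1 le_rfl fun n => g (n + 1)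
    refine ⟨y, ghost_inj _ _ fun n => ?_⟩
    rw [WittVector.ghostComponent_frobenius, map_mul, map_natCast, hy, hg]
    ring
  · intro s
    obtain ⟨y, hy1, hy⟩ := exists_ghost (p := p) (s + 1) (Nat.le_add_left 1 s) g
    have : (p : WittVector p A) ^ s * z = y := by
      refine ghost_inj _ _ fun n => ?_
      rw [map_mul, map_pow, map_natCast, hy, hg]
      ring
    rw [this]
    exact hy1

theorem map_frobenius {A R : Type} [CommRing A] [CommRing R] (f : A →+* R)
    (x : WittVector p A) :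
    WittVector.map f (WittVector.frobenius x) = WittVector.frobenius (WittVector.map f x) :=
  (WittVector.frobenius_isPoly p).map f x

end RW1

theorem rW1 : SW1 := by
  intro p _ R _ z hz
  choose a ha using hz
  let f : MvPolynomial R ℤ →+* R := MvPolynomial.eval₂Hom (Int.castRingHom R) id
  let z₁ : WittVector p (MvPolynomial R ℤ) :=
    WittVector.mk p fun l => (p : MvPolynomial R ℤ) * MvPolynomial.X (a l)
  have hz₁ : WittVector.map f z₁ = z := by
    ext l
    simp [z₁, f, ha l]
  obtain ⟨⟨y, hy⟩, h2⟩ := RW1.dom z₁ fun l => Dvd.intro _ rfl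
  constructor
  · refine ⟨WittVector.map f y, ?_⟩
    rw [← hz₁, ← RW1.map_frobenius, hy, map_mul, map_natCast]
  · intro s hs
    have h3 : (p : WittVector p R) ^ s * z =
        WittVector.map f ((p : WittVector p (MvPolynomial R ℤ)) ^ s * z₁) := by
      rw [map_mul, map_pow, map_natCast, hz₁]
    rw [h3]
    ext l
    obtain ⟨b, hb⟩ := h2 s l
    rw [WittVector.map_coeff, hb, map_mul, map_pow, map_natCast, pow_succ, hs]
    simp

end

end Pool.Agent.MP_dc2c90_ag.H20
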