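import Pool.Agent.MP_dc2c90_ag.H20.SpecB
import Pool.Agent.MP_dc2c90_ag.H20.RTF
import Pool.Agent.MP_dc2c90_ag.H20.RW1

/-!
Adjoint nilpotence of every point of `X`.
-/

namespace Pool.Agent.MP_dc2c90_ag.H20

open WittVector

noncomputable section

variable {p : ℕ} [Fact p.Prime] {n : Type} [Fintype n] [DecidableEq n] {k : Type} [Field k]
  [IsAlgClosed k] [CharP k p] {D : Data p k n} {π : Matrix (n × n) (n × n) ℤ_[p]}

namespace RAdNil

theorem twist {S d : Type} [CommRing S] [Fintype d] [DecidableEq d] (F : S →+* S)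
    {b β g : Matrix d d S} (h : b * g.map F = g * β) (i : ℕ) :
    twProd F b i * g.map (F ^ i : S →+* S) = g * twProd F β i := by
  induction i with
  | zero =>
    rw [twProd_zero, twProd_zero, Matrix.one_mul, Matrix.mul_one, pow_zero]
    ext; rfl
  | succ i ih =>
    have h1 : g.map (F ^ (i + 1) : S →+* S) = (g.map (F ^ i : S →+* S)).map F := by
      rw [Matrix.map_map, pow_succ']; rfl
    rw [twProd_succ, twProd_succ, h1, Matrix.mul_assoc, ← Matrix.map_mul, ih, Matrix.map_mul,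
      ← Matrix.mul_assoc, h, Matrix.mul_assoc]

omit [IsAlgClosed k] in
theorem psi_mul (h1 : SDD D π) {R : Type} [CommRing R] (χ : WittVector p k →+* R)
    (U : Matrix n n (WittVector p R)) : D.psi π χ U * π.map (D.zeta χ) = D.psi π χ U := by
  have h : π.map (D.zeta χ) = (π.map (zO p k)).map ((D.iota χ).comp frobenius) := by
    ext1 s t
    simp only [Matrix.map_apply, RingHom.comp_apply, Data.zeta, frob_zO]
  rw [Data.psi, Matrix.mul_assoc, h, ← Matrix.map_mul, h1.right]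

omit [IsAlgClosed k] in
theorem AA_mul (hD : D.Good) (h1 : SDD D π) {R : Type} [CommRing R] (χ : WittVector p k →+* R)
    (U : Matrix n n (WittVector p R)) {i : ℕ} (hi : 1 ≤ i) :
    D.AA π χ U i * π.map (D.zeta χ) = D.AA π χ U i := by
  obtain ⟨i, rfl⟩ := Nat.exists_eq_add_of_le' hi
  have h : π.map (D.zeta χ) = (π.map (D.zeta χ)).map (Fi p R i) := by
    ext1 s t
    exact (RingHom.congr_fun (hD.Fi_comp_zeta χ i) (π s t)).symm
  rw [Data.AA, twProd_succ', Matrix.mul_assoc, h, ← Matrix.map_mul, psi_mul h1]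

omit [Fact p.Prime] in
theorem smul_map {S S' m m' : Type} [CommRing S] [CommRing S'] (φ : S →+* S') (u : ℕ)
    (A : Matrix m m' S) : ((p : S) ^ u • A).map φ = (p : S') ^ u • A.map φ := by
  ext i j
  simp only [Matrix.map_apply, Matrix.smul_apply, smul_eq_mul, map_mul, map_pow, map_natCast]

theorem of_toT {R m : Type} [CommRing R] [Finite m] {A Z : Matrix m m (WittVector p R)} {u : ℕ}
    (h : A.map (toT p R) = ((p : WittVector p R) ^ u • Z).map (toT p R)) :
    ∃ (l : ℕ) (Z' : Matrix m m (WittVector p R)),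
      A.map (Fi p R l) = (p : WittVector p R) ^ u • Z' := by
  obtain ⟨v, hv⟩ := map_toT_eq_iff.1 h
  obtain ⟨l, hl⟩ := rTF rW1 p R v u
  have h2 : ∀ s t, ∃ z', Fi p R l (A s t - (p : WittVector p R) ^ u * Z s t) =
      (p : WittVector p R) ^ u * z' := fun s t => hl _ (by
    have := congrFun (congrFun hv s) t
    simp only [Matrix.smul_apply, smul_eq_mul] at this
    rw [mul_sub, this, sub_self])
  choose z hz using h2
  refine ⟨l, Matrix.of fun s t => z s t + Fi p R l (Z s t), ?_⟩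
  ext1 s t
  have := hz s t
  rw [map_sub, map_mul, map_pow, map_natCast, sub_eq_iff_eq_add] at this
  simp only [Matrix.map_apply, Matrix.smul_apply, Matrix.of_apply, smul_eq_mul]
  rw [this, mul_add]

end RAdNil

open RAdNil in
theorem rAdNil (hD : D.Good) (hπ : IsProj D.I π) (h1 : SDD D π) (h2 : SPhi D π)
    (h3 : SSlopeB D π) : SAdNil D π := by
  have _ := hπ
  rintro R _ χ ⟨U, g⟩ ⟨hU, hg, hb⟩ u
  dsimp only at hU hg hb ⊢
  obtain ⟨N₁, X₁, hX₁⟩ := exists_rep_matrix (adM g⁻¹ g)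
  obtain ⟨N₂, X₂, hX₂⟩ := exists_rep_matrix (adM g g⁻¹)
  obtain ⟨i, hi, Y, hY⟩ := h3 (u + (N₁ + N₂))
  have hY' := hY R χ
  have hA := h2.ad R χ U hU i
  set P := π.map ((toT p R).comp (D.zeta χ)) with hP
  set bi := twProd (fT p R) (D.b (D.iota χ)) i with hbi
  set gi := g.map (fTi p R i) with hgi
  have hgi' : Pt D.I ((toT p R).comp (D.zeta χ)) gi := hg.map _ (hD.fTi_comp_zeta χ i)
  have hΦ : D.Phi χ U i = g⁻¹ * (bi * gi) := by
    have := twist (fT p R) (hb.trans (Matrix.mul_assoc _ _ _)) i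
    rw [hbi, hgi, this, ← Matrix.mul_assoc, hD.inv_mul hg, Matrix.one_mul, Data.Phi]
  have hgg : g⁻¹⁻¹ = g := Matrix.inv_eq_right_inv (hD.inv_mul hg)
  have had : adM (D.Phi χ U i) (D.Phi χ U i)⁻¹ =
      adM g⁻¹ g * (adM bi bi⁻¹ * adM gi gi⁻¹) := by
    rw [adM_mul, adM_mul, hΦ, Matrix.mul_inv_rev, Matrix.mul_inv_rev, hgg]
  have hX₃ : (p : T p R) ^ N₂ • adM gi gi⁻¹ = (X₂.map (Fi p R i)).map (toT p R) := by
    have := congrArg (fun M => Matrix.map M (fTi p R i)) hX₂
    simp only [smul_map, adM_map] at this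
    rw [map_inv_of_isUnit _ (hD.isUnit hg)] at this
    rw [hgi, this]
    ext1 s t
    exact fTi_toT i _
  have hPm : P = (π.map (D.zeta χ)).map (toT p R) := by rw [hP, Matrix.map_map]; rfl
  have hYm : Y.map ((toT p R).comp (D.iota χ)) = (Y.map (D.iota χ)).map (toT p R) := by
    rw [Matrix.map_map]; rfl
  have key : (D.AA π χ U i).map (toT p R) = ((p : WittVector p R) ^ u •
      (X₁ * (Y.map (D.iota χ) * (X₂.map (Fi p R i) * π.map (D.zeta χ))))).map (toT p R) := by
    rw [smul_map, Matrix.map_mul, Matrix.map_mul, Matrix.map_mul, ← hX₁, ← hX₃, ← hPm, ← hYm,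
      ← AA_mul hD h1 χ U hi, Matrix.map_mul, ← hPm, ← hA, had, Matrix.mul_assoc,
      Matrix.mul_assoc, ← h1.ad _ _ gi hgi', ← hP, ← Matrix.mul_assoc (adM bi bi⁻¹),
      ← Matrix.mul_smul, ← Matrix.smul_mul, hY']
    simp only [Matrix.smul_mul, Matrix.mul_smul, smul_smul, pow_add]
    rw [mul_comm ((p : T p R) ^ N₁)]
  obtain ⟨l, Z, hZ⟩ := of_toT key
  exact ⟨i, l, Z, hZ⟩

end

end Pool.Agent.MP_dc2c90_ag.H20
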