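import Pool.Agent.MP_dc2c90_ag.H20.SpecA

/-! Newton iteration with denominators. -/

namespace Pool.Agent.MP_dc2c90_ag.H20

open MvPolynomial

namespace RHD

variable {Λ σ : Type} [CommRing Λ]

/-- the value of `R`, cleared of denominators, is divisible by the `k`-th power of the error -/
def Pw (N : ℕ) (gens : Finset (MvPolynomial σ Λ)) (k d : ℕ) (R : MvPolynomial σ Λ) : Prop :=
  ∀ (A : Type) [CommRing A] (ζ : Λ →+* A) (B : Subring A) (ϖ : A), ϖ ∈ B → (∀ x, ζ x ∈ B) →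
    ∀ y : σ → A, (∀ s, ϖ ^ N * y s ∈ B) → ∀ c : A,
      (∀ P ∈ gens, ∃ r ∈ B, eval₂ ζ y P = c * r) → ∃ t ∈ B, ϖ ^ d * eval₂ ζ y R = c ^ k * t

variable {N : ℕ} {gens : Finset (MvPolynomial σ Λ)}

theorem Pw.mono {k d d' : ℕ} {R : MvPolynomial σ Λ} (hd : d ≤ d') (h : Pw N gens k d R) :
    Pw N gens k d' R := by
  intro A _ ζ B ϖ h1 h2 y h3 c h4
  obtain ⟨t, ht, e⟩ := h A ζ B ϖ h1 h2 y h3 c h4
  obtain ⟨m, rfl⟩ := Nat.exists_eq_add_of_le hd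
  refine ⟨ϖ ^ m * t, mul_mem (pow_mem h1 m) ht, ?_⟩
  linear_combination ϖ ^ m * e

theorem Pw.add {k d d' : ℕ} {R R' : MvPolynomial σ Λ} (h : Pw N gens k d R)
    (h' : Pw N gens k d' R') : Pw N gens k (d + d') (R + R') := by
  intro A _ ζ B ϖ h1 h2 y h3 c h4
  obtain ⟨t, ht, e⟩ := h.mono (Nat.le_add_right d d') A ζ B ϖ h1 h2 y h3 c h4
  obtain ⟨t', ht', e'⟩ := h'.mono (Nat.le_add_left d' d) A ζ B ϖ h1 h2 y h3 c h4
  refine ⟨t + t', add_mem ht ht', ?_⟩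
  rw [eval₂_add]
  linear_combination e + e'

theorem Pw.mul {k k' d d' : ℕ} {R R' : MvPolynomial σ Λ} (h : Pw N gens k d R)
    (h' : Pw N gens k' d' R') : Pw N gens (k + k') (d + d') (R * R') := by
  intro A _ ζ B ϖ h1 h2 y h3 c h4
  obtain ⟨t, ht, e⟩ := h A ζ B ϖ h1 h2 y h3 c h4
  obtain ⟨t', ht', e'⟩ := h' A ζ B ϖ h1 h2 y h3 c h4
  refine ⟨t * t', mul_mem ht ht', ?_⟩
  rw [eval₂_mul]
  linear_combination (ϖ ^ d' * eval₂ ζ y R') * e + (c ^ k * t) * e'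

theorem pw0 (N : ℕ) (gens : Finset (MvPolynomial σ Λ)) (R : MvPolynomial σ Λ) :
    ∃ d, Pw N gens 0 d R := by
  induction R using MvPolynomial.induction_on with
  | C a => exact ⟨0, fun A _ ζ B ϖ _ h2 y _ c _ => ⟨ζ a, h2 a, by simp⟩⟩
  | add R R' h h' =>
    obtain ⟨d, h⟩ := h
    obtain ⟨d', h'⟩ := h'
    exact ⟨_, h.add h'⟩
  | mul_X R s h =>
    obtain ⟨d, h⟩ := h
    have hX : Pw N gens 0 N (X s : MvPolynomial σ Λ) :=
      fun A _ ζ B ϖ _ _ y h3 c _ => ⟨_, h3 s, by simp⟩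
    exact ⟨_, h.mul hX⟩

theorem pw1 (N : ℕ) (R : MvPolynomial σ Λ)
    (hR : R ∈ Ideal.span (gens : Set (MvPolynomial σ Λ))) : ∃ d, Pw N gens 1 d R := by
  induction hR using Submodule.span_induction with
  | mem P hP =>
    refine ⟨0, fun A _ ζ B ϖ _ _ y _ c h4 => ?_⟩
    obtain ⟨r, hr, e⟩ := h4 P hP
    exact ⟨r, hr, by simp [e]⟩
  | zero => exact ⟨0, fun A _ ζ B ϖ _ _ y _ c _ => ⟨0, zero_mem B, by simp⟩⟩
  | add R R' _ _ h h' =>
    obtain ⟨d, h⟩ := h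
    obtain ⟨d', h'⟩ := h'
    exact ⟨_, h.add h'⟩
  | smul q R _ h =>
    obtain ⟨d, h⟩ := h
    obtain ⟨d', h'⟩ := pw0 N gens q
    exact ⟨_, h'.mul h⟩

theorem pw2 (N : ℕ) (R : MvPolynomial σ Λ)
    (hR : R ∈ Ideal.span (gens : Set (MvPolynomial σ Λ)) ^ 2) : ∃ d, Pw N gens 2 d R := by
  rw [pow_two] at hR
  refine Submodule.mul_induction_on hR (fun a ha b hb => ?_) fun R R' h h' => ?_
  · obtain ⟨d, h⟩ := pw1 N a ha
    obtain ⟨d', h'⟩ := pw1 N b hb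
    exact ⟨_, h.mul h'⟩
  · obtain ⟨d, h⟩ := h
    obtain ⟨d', h'⟩ := h'
    exact ⟨_, h.add h'⟩

theorem fin_bound {ι : Type} (s : Finset ι) (k : ℕ) (R : ι → MvPolynomial σ Λ)
    (h : ∀ i ∈ s, ∃ d, Pw N gens k d (R i)) : ∃ d, ∀ i ∈ s, Pw N gens k d (R i) := by
  choose! d hd using h
  exact ⟨s.sup d, fun i hi => (hd i hi).mono (Finset.le_sup hi)⟩

theorem lip {A : Type} [CommRing A] (ζ : Λ →+* A) (B : Subring A) (ϖ : A) (h1 : ϖ ∈ B)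
    (h2 : ∀ x, ζ x ∈ B) (N : ℕ) (R : MvPolynomial σ Λ) :
    ∃ d, ∀ (y r : σ → A) (c : A), (∀ s, ϖ ^ N * y s ∈ B) → (∀ s, r s ∈ B) → c ∈ B →
      ∃ t ∈ B, ϖ ^ d * (eval₂ ζ (fun s => y s + c * r s) R - eval₂ ζ y R) = c * t := by
  induction R using MvPolynomial.induction_on with
  | C a => exact ⟨0, fun y r c _ _ _ => ⟨0, zero_mem B, by simp⟩⟩
  | add R R' h h' =>
    obtain ⟨d, h⟩ := h
    obtain ⟨d', h'⟩ := h'
    refine ⟨d + d', fun y r c a1 a2 a3 => ?_⟩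
    obtain ⟨t, ht, e⟩ := h y r c a1 a2 a3
    obtain ⟨t', ht', e'⟩ := h' y r c a1 a2 a3
    refine ⟨ϖ ^ d' * t + ϖ ^ d * t',
      add_mem (mul_mem (pow_mem h1 _) ht) (mul_mem (pow_mem h1 _) ht'), ?_⟩
    rw [eval₂_add, eval₂_add]
    linear_combination ϖ ^ d' * e + ϖ ^ d * e'
  | mul_X R s h =>
    obtain ⟨d, h⟩ := h
    obtain ⟨d', h'⟩ := pw0 N (∅ : Finset (MvPolynomial σ Λ)) R
    refine ⟨d + d' + N, fun y r c a1 a2 a3 => ?_⟩
    obtain ⟨t, ht, e⟩ := h y r c a1 a2 a3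
    obtain ⟨t', ht', e'⟩ := h' A ζ B ϖ h1 h2 y a1 1 (by simp)
    refine ⟨ϖ ^ d' * t * (ϖ ^ N * y s + ϖ ^ N * c * r s) + ϖ ^ d * ϖ ^ N * t' * r s,
      add_mem (mul_mem (mul_mem (pow_mem h1 _) ht)
        (add_mem (a1 s) (mul_mem (mul_mem (pow_mem h1 _) a3) (a2 s))))
        (mul_mem (mul_mem (mul_mem (pow_mem h1 _) (pow_mem h1 _)) ht') (a2 s)), ?_⟩
    rw [eval₂_mul, eval₂_mul, eval₂_X, eval₂_X]
    linear_combination (ϖ ^ d' * ϖ ^ N * (y s + c * r s)) * e + (ϖ ^ d * ϖ ^ N * c * r s) * e'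

theorem ev_comp {A : Type} [CommRing A] (ζ : Λ →+* A) (y : σ → A) (Q : σ → MvPolynomial σ Λ)
    (P : MvPolynomial σ Λ) :
    eval₂ ζ (fun s => y s - eval₂ ζ y (Q s)) P = eval₂ ζ y (aeval (fun s => X s - Q s) P) := by
  have h := eval₂Hom_bind₁ ζ y (fun s => X s - Q s) P
  simp only [coe_eval₂Hom, eval₂_sub, eval₂_X] at h
  rw [aeval_eq_bind₁, h]

end RHD

open RHD in
theorem rHD : SHD := by
  intro Λ σ _ _ I Q hQ gens hI N
  subst hI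
  obtain ⟨d₁, hd₁⟩ := fin_bound (N := N) (gens := gens) Finset.univ 1 Q
    fun s _ => pw1 N _ (hQ.mem s)
  obtain ⟨d₂, hd₂⟩ := fin_bound (N := N) (gens := gens) gens 2
    (fun P => aeval (fun s => X s - Q s) P) fun P hP => pw2 N _ (hQ.sq P (Ideal.subset_span hP))
  refine ⟨d₁ + d₂ + 1, ?_⟩
  intro A _ ζ B ϖ hu h1 h2 hser hsep y e hy herr
  let u : ℕ → σ → A := fun l => (fun v : σ → A => fun s => v s - eval₂ ζ v (Q s))^[l] y
  have hus : ∀ l, u (l + 1) = fun s => u l s - eval₂ ζ (u l) (Q s) := fun l =>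
    Function.iterate_succ_apply' _ l y
  have step : ∀ l, ((∀ s, ϖ ^ N * u l s ∈ B) ∧
      ∀ P ∈ gens, ∃ r ∈ B, eval₂ ζ (u l) P = ϖ ^ (e + (d₁ + d₂ + 1) + l) * r) →
      ∀ s, ∃ z ∈ B, u (l + 1) s = u l s + ϖ ^ e * (ϖ ^ l * z) := by
    intro l h s
    obtain ⟨t, ht, e1⟩ := hd₁ s (Finset.mem_univ s) A ζ B ϖ h1 h2 (u l) h.1 _ h.2
    refine ⟨-(ϖ ^ (d₂ + 1) * t), neg_mem (mul_mem (pow_mem h1 _) ht), ?_⟩
    have e2 : eval₂ ζ (u l) (Q s) = ϖ ^ e * (ϖ ^ l * (ϖ ^ (d₂ + 1) * t)) := by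
      refine (hu.pow d₁).mul_left_cancel ?_
      rw [e1]
      ring
    rw [hus]
    simp only [e2]
    ring
  have inv : ∀ l, (∀ s, ϖ ^ N * u l s ∈ B) ∧
      ∀ P ∈ gens, ∃ r ∈ B, eval₂ ζ (u l) P = ϖ ^ (e + (d₁ + d₂ + 1) + l) * r := by
    intro l
    induction l with
    | zero => exact ⟨hy, herr⟩
    | succ l ih =>
      refine ⟨fun s => ?_, fun P hP => ?_⟩
      · obtain ⟨z, hz, e1⟩ := step l ih s
        rw [e1, mul_add]
        exact add_mem (ih.1 s)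
          (mul_mem (pow_mem h1 _) (mul_mem (pow_mem h1 _) (mul_mem (pow_mem h1 _) hz)))
      · obtain ⟨t, ht, e1⟩ := hd₂ P hP A ζ B ϖ h1 h2 (u l) ih.1 _ ih.2
        refine ⟨ϖ ^ (e + d₁ + l) * t, mul_mem (pow_mem h1 _) ht, ?_⟩
        rw [hus, ev_comp]
        refine (hu.pow d₂).mul_left_cancel ?_
        rw [e1]
        ring
  choose z hz hz' using fun l => step l (inv l)
  have hsum : ∀ K s, u K s = y s + ϖ ^ e * ∑ l ∈ Finset.range K, ϖ ^ l * z l s := by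
    intro K s
    induction K with
    | zero => simp [u]
    | succ K ih => rw [hz', ih, Finset.sum_range_succ]; ring
  choose Y hY using fun s => hser (fun l => z l s) fun l => hz l s
  refine ⟨Y, fun s => ?_, ?_⟩
  · obtain ⟨r, hr, e1⟩ := hY s 0
    rw [e1]
    simpa using hr
  · have hg : ∀ P ∈ gens, eval₂ ζ (fun s => y s + ϖ ^ e * Y s) P = 0 := by
      intro P hP
      obtain ⟨d, hd⟩ := lip ζ B ϖ h1 h2 N P
      refine (hu.pow d).mul_right_eq_zero.1 (hsep _ fun K => ?_)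
      choose r hr hr' using fun s => hY s K
      have e1 : (fun s => y s + ϖ ^ e * Y s) = fun s => u K s + ϖ ^ (e + K) * r s := by
        funext s
        rw [hsum, hr' s]
        ring
      obtain ⟨t, ht, e2⟩ := hd (u K) r (ϖ ^ (e + K)) (inv K).1 hr (pow_mem h1 _)
      obtain ⟨t', ht', e3⟩ := (inv K).2 P hP
      refine ⟨ϖ ^ e * t + ϖ ^ (d + e + (d₁ + d₂ + 1)) * t',
        add_mem (mul_mem (pow_mem h1 _) ht) (mul_mem (pow_mem h1 _) ht'), ?_⟩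
      rw [e1]
      linear_combination e2 + ϖ ^ d * e3
    intro P hP
    have hle : Ideal.span (gens : Set (MvPolynomial σ Λ)) ≤
        RingHom.ker (eval₂Hom ζ fun s => y s + ϖ ^ e * Y s) :=
      Ideal.span_le.2 fun P hP => hg P hP
    exact hle hP

end Pool.Agent.MP_dc2c90_ag.H20
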