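import Pool.Agent.MP_dc2c90_ag.H20.SpecA

/-!
Newton iteration and Newton data.
-/

set_option autoImplicit false

namespace Pool.Agent.MP_dc2c90_ag.H20

open MvPolynomial

namespace RHens

variable {Λ A σ : Type} [CommRing Λ] [CommRing A]

theorem congr_mod (κ : Λ →+* A) (J : Ideal A) (y y' : σ → A) (h : ∀ s, y s - y' s ∈ J)
    (P : MvPolynomial σ Λ) : eval₂ κ y P - eval₂ κ y' P ∈ J := by
  rw [← Ideal.Quotient.eq, eval₂_comp_left, eval₂_comp_left]
  congr 1
  funext s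
  exact Ideal.Quotient.eq.mpr (h s)

theorem step (κ : Λ →+* A) {I : Ideal (MvPolynomial σ Λ)} {Q : σ → MvPolynomial σ Λ}
    (hN : IsNewton I Q) (𝔟 : Ideal A) (y : σ → A) (h : ∀ P ∈ I, eval₂ κ y P ∈ 𝔟)
    (P : MvPolynomial σ Λ) (hP : P ∈ I) :
    eval₂ κ (fun s => y s - eval₂ κ y (Q s)) P ∈ 𝔟 ^ 2 := by
  have e : eval₂Hom κ (fun s => y s - eval₂ κ y (Q s)) = (eval₂Hom κ y).comp
      (aeval (fun s => X s - Q s) : MvPolynomial σ Λ →ₐ[Λ] MvPolynomial σ Λ).toRingHom := by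
    apply MvPolynomial.ringHom_ext
    · intro r
      simp
    · intro s
      simp
  have h1 : I.map (eval₂Hom κ y) ≤ 𝔟 := Ideal.map_le_iff_le_comap.mpr fun R hR => h R hR
  have h2 := Ideal.mem_map_of_mem (eval₂Hom κ y) (hN.sq P hP)
  rw [Ideal.map_pow] at h2
  change eval₂Hom κ _ P ∈ _
  rw [e]
  exact Ideal.pow_right_mono h1 2 h2

/-- The Newton sequence. -/
noncomputable def seq (κ : Λ →+* A) (Q : σ → MvPolynomial σ Λ) (y : σ → A) : ℕ → σ → A
  | 0 => y
  | l + 1 => fun s => seq κ Q y l s - eval₂ κ (seq κ Q y l) (Q s)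

end RHens

open RHens

theorem rHens : SHens := by
  intro Λ A σ _ _ _ κ J I Q 𝔞 Dc y hc hsep hN ha hac hDc hD hy hI
  have h1 : ∀ l, ∀ P ∈ I, eval₂ κ (seq κ Q y l) P ∈ 𝔞 ^ (l + 1) := by
    intro l
    induction l with
    | zero => simpa [seq] using hI
    | succ l ih =>
      intro P hP
      have := step κ hN _ _ ih P hP
      rw [← pow_mul] at this
      exact Ideal.pow_le_pow_right (by omega) this
  have h2 : ∀ K l, K ≤ l → ∀ s, seq κ Q y l s - seq κ Q y K s ∈ 𝔞 ^ (K + 1) := by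
    intro K l hl s
    induction l, hl using Nat.le_induction with
    | base => simp
    | succ l hl ih =>
      have e : seq κ Q y (l + 1) s - seq κ Q y K s =
          (seq κ Q y l s - seq κ Q y K s) - eval₂ κ (seq κ Q y l) (Q s) := by
        simp only [seq]
        ring
      rw [e]
      exact Ideal.sub_mem _ ih (Ideal.pow_le_pow_right (by omega) (h1 l _ (hN.mem s)))
  have h3 : ∀ l s, seq κ Q y l s ∈ Dc s := by
    intro l
    induction l with
    | zero => exact hy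
    | succ l ih => exact hD _ ih
  have h4 : ∀ s, ∃ z, ∀ m, ∃ K, ∀ l ≥ K, seq κ Q y l s - z ∈ J m := fun s =>
    hc (fun l => seq κ Q y l s) fun m => by
      obtain ⟨K, hK⟩ := ha m
      refine ⟨K, fun l hl l' hl' => hK (Ideal.pow_le_pow_right (Nat.le_succ K) ?_)⟩
      have := Ideal.sub_mem _ (h2 K l hl s) (h2 K l' hl' s)
      rwa [sub_sub_sub_cancel_right] at this
  choose z hz using h4
  have h5 : ∀ m K, ∃ l ≥ K, ∀ s, z s - seq κ Q y l s ∈ J m := fun m K => by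
    choose f hf using fun s => hz s m
    refine ⟨max K (Finset.univ.sup f), le_max_left _ _, fun s => ?_⟩
    rw [← neg_sub]
    exact (J m).neg_mem
      (hf s _ ((Finset.le_sup (Finset.mem_univ s)).trans (le_max_right _ _)))
  refine ⟨z, fun P hP => hsep _ fun m => ?_, fun s => hac _ fun m => ?_,
    fun s => hDc s _ fun m => ?_⟩
  · obtain ⟨K, hK⟩ := ha m
    obtain ⟨l, hl, h⟩ := h5 m K
    have := Ideal.add_mem _ (congr_mod κ (J m) _ _ h P)
      (hK (Ideal.pow_le_pow_right (by omega) (h1 l P hP)))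
    rwa [sub_add_cancel] at this
  · obtain ⟨l, -, h⟩ := h5 m 0
    refine ⟨seq κ Q y l s - y s, by simpa [seq] using h2 0 l (Nat.zero_le l) s, ?_⟩
    rw [sub_sub_sub_cancel_right]
    exact h s
  · obtain ⟨l, -, h⟩ := h5 m 0
    exact ⟨_, h3 l s, h s⟩

theorem rNewt : SNewt := by
  intro Λ σ _ I hI
  let g : (MvPolynomial σ Λ ⧸ I ^ 2) →ₐ[Λ] MvPolynomial σ Λ ⧸ I :=
    Ideal.Quotient.factorₐ Λ (Ideal.pow_le_self two_ne_zero)
  have hg0 : ∀ x, g (Ideal.Quotient.mk _ x) = Ideal.Quotient.mk _ x := fun _ => rfl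
  have hg : Function.Surjective g := fun x => by
    obtain ⟨x, rfl⟩ := Ideal.Quotient.mk_surjective x
    exact ⟨_, hg0 x⟩
  have hk : RingHom.ker (g : (MvPolynomial σ Λ ⧸ I ^ 2) →+* MvPolynomial σ Λ ⧸ I) ≤
      I.map (Ideal.Quotient.mk (I ^ 2)) := fun x hx => by
    obtain ⟨x, rfl⟩ := Ideal.Quotient.mk_surjective x
    exact Ideal.mem_map_of_mem _ (Ideal.Quotient.eq_zero_iff_mem.mp hx)
  have hn : IsNilpotent
      (RingHom.ker (g : (MvPolynomial σ Λ ⧸ I ^ 2) →+* MvPolynomial σ Λ ⧸ I)) := by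
    refine ⟨2, le_bot_iff.mp ((Ideal.pow_right_mono hk 2).trans ?_)⟩
    rw [← Ideal.map_pow, Ideal.map_quotient_self]
  let s := Algebra.FormallySmooth.liftOfSurjective (AlgHom.id Λ _) g hg hn
  have hs : ∀ x, g (s x) = x := fun x =>
    Algebra.FormallySmooth.liftOfSurjective_apply (AlgHom.id Λ _) g hg hn x
  choose θ hθ using fun x : σ =>
    Ideal.Quotient.mk_surjective (I := I ^ 2) (s (Ideal.Quotient.mk I (X x)))
  refine ⟨fun x => X x - θ x, fun x => ?_, fun P hP => ?_⟩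
  · rw [← Ideal.Quotient.eq, ← hg0 (θ x), hθ, hs]
  · have e : (Ideal.Quotient.mkₐ Λ (I ^ 2)).comp (aeval fun x => X x - (X x - θ x)) =
        s.comp (Ideal.Quotient.mkₐ Λ I) := by
      apply MvPolynomial.algHom_ext
      intro x
      simp [hθ]
    have h := AlgHom.congr_fun e P
    rw [AlgHom.comp_apply, AlgHom.comp_apply, Ideal.Quotient.mkₐ_eq_mk, Ideal.Quotient.mkₐ_eq_mk,
      Ideal.Quotient.eq_zero_iff_mem.mpr hP, map_zero] at h
    exact Ideal.Quotient.eq_zero_iff_mem.mp h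

end Pool.Agent.MP_dc2c90_ag.H20
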