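import Pool.Agent.MP_dc2c90_ag.H20.SpecA

/-!
Tensor products commute with directed colimits; finitely generated subalgebras are Noetherian.
-/

namespace Pool.Agent.MP_dc2c90_ag.H20

open TensorProduct

namespace RTens

variable {Λ ι : Type} [CommRing Λ] [Preorder ι]

/-- Families that vanish from some index on. -/
def ev0 (Λ : Type) [CommRing Λ] [Nonempty ι] (hd : ∀ i j : ι, ∃ l, i ≤ l ∧ j ≤ l) (M : ι → Type)
    [∀ i, AddCommGroup (M i)] [∀ i, Module Λ (M i)] : Submodule Λ (∀ i, M i) where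
  carrier := {x | ∃ i, ∀ j, i ≤ j → x j = 0}
  zero_mem' := ⟨Classical.arbitrary ι, fun _ _ => rfl⟩
  add_mem' := by
    rintro x y ⟨i, hi⟩ ⟨j, hj⟩
    obtain ⟨l, h1, h2⟩ := hd i j
    exact ⟨l, fun m hm => by rw [Pi.add_apply, hi m (h1.trans hm), hj m (h2.trans hm), add_zero]⟩
  smul_mem' := by
    rintro c x ⟨i, hi⟩
    exact ⟨i, fun m hm => by rw [Pi.smul_apply, hi m hm, smul_zero]⟩

theorem zero [Nonempty ι] (hd : ∀ i j : ι, ∃ l, i ≤ l ∧ j ≤ l) {R : ι → Type}
    [∀ i, AddCommGroup (R i)] [∀ i, Module Λ (R i)] (f : ∀ i j, i ≤ j → R i →ₗ[Λ] R j) {A : Type}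
    [AddCommGroup A] [Module Λ A] (φ : ∀ i, R i →ₗ[Λ] A)
    (comp : ∀ i j l hij hjl r, f j l hjl (f i j hij r) = f i l (hij.trans hjl) r)
    (compat : ∀ i j hij r, φ j (f i j hij r) = φ i r) (surj : ∀ a, ∃ i r, φ i r = a)
    (hz : ∀ i r, φ i r = 0 → ∃ j hij, f i j hij r = 0) {B : Type} [AddCommGroup B] [Module Λ B]
    (i : ι) (t : B ⊗[Λ] R i) (ht : (φ i).lTensor B t = 0) :
    ∃ j hij, (f i j hij).lTensor B t = 0 := by
  classical
  let g : ∀ i j, R i →ₗ[Λ] R j := fun i j => if h : i ≤ j then f i j h else 0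
  have hg : ∀ i j h, g i j = f i j h := fun i j h => dif_pos h
  let G : ∀ i, R i →ₗ[Λ] (∀ j, R j) ⧸ ev0 Λ hd R := fun i =>
    (ev0 Λ hd R).mkQ ∘ₗ LinearMap.pi (g i)
  have G1 : ∀ i j h r, G j (f i j h r) = G i r := fun i j h r =>
    (Submodule.Quotient.eq _).2 ⟨j, fun m hm => by
      change g j m (f i j h r) - g i m r = 0
      rw [hg j m hm, hg i m (h.trans hm), comp, sub_self]⟩
  have G2 : ∀ i r i' r', φ i r = φ i' r' → G i r = G i' r' := fun i r i' r' h => by
    obtain ⟨l, h1, h2⟩ := hd i i'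
    obtain ⟨m, hm, h3⟩ := hz l (f i l h1 r - f i' l h2 r')
      (by rw [map_sub, compat, compat, h, sub_self])
    rw [← G1 i l h1, ← G1 i' l h2, ← sub_eq_zero, ← map_sub, ← G1 l m hm, h3, map_zero]
  choose ia ra ha using surj
  have G3 : ∀ i r, G (ia (φ i r)) (ra (φ i r)) = G i r := fun i r => G2 _ _ _ _ (ha _)
  let L : A →ₗ[Λ] (∀ j, R j) ⧸ ev0 Λ hd R :=
    { toFun := fun a => G (ia a) (ra a)
      map_add' := fun a a' => by
        obtain ⟨l, h1, h2⟩ := hd (ia a) (ia a')
        rw [← G1 _ l h1, ← G1 _ l h2, ← map_add]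
        exact G2 _ _ _ _ (by rw [map_add, compat, compat, ha, ha, ha])
      map_smul' := fun c a => by
        rw [RingHom.id_apply, ← map_smul]
        exact G2 _ _ _ _ (by rw [map_smul, ha, ha]) }
  let β : (∀ j, R j) →ₗ[Λ] B →ₗ[Λ] (∀ j, B ⊗[Λ] R j) ⧸ ev0 Λ hd fun j => B ⊗[Λ] R j :=
    LinearMap.mk₂ Λ (fun x b => (ev0 Λ hd fun j => B ⊗[Λ] R j).mkQ fun j => b ⊗ₜ x j)
      (fun x y b => by rw [← map_add]; congr 1; funext j; exact tmul_add _ _ _)
      (fun c x b => by rw [← map_smul]; congr 1; funext j; exact tmul_smul _ _ _)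
      (fun x b b' => by rw [← map_add]; congr 1; funext j; exact add_tmul _ _ _)
      (fun c x b => by rw [← map_smul]; congr 1)
  have hβ : ev0 Λ hd R ≤ LinearMap.ker β := by
    rintro x ⟨i, hi⟩
    refine LinearMap.ext fun b => (Submodule.Quotient.mk_eq_zero _).2 ⟨i, fun j hj => ?_⟩
    change b ⊗ₜ[Λ] x j = 0
    rw [hi j hj, tmul_zero]
  let Ψ := TensorProduct.lift (((ev0 Λ hd R).liftQ β hβ) ∘ₗ L).flip
  have key : ∀ t : B ⊗[Λ] R i, Ψ ((φ i).lTensor B t) =
      (ev0 Λ hd fun j => B ⊗[Λ] R j).mkQ fun j => (g i j).lTensor B t := fun t => by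
    induction t using TensorProduct.induction_on with
    | zero => simp only [map_zero]; exact (map_zero _).symm
    | tmul b r =>
      change (ev0 Λ hd R).liftQ β hβ (G (ia (φ i r)) (ra (φ i r))) b = _
      rw [G3]
      rfl
    | add x y hx hy =>
      rw [map_add, map_add, hx, hy, ← map_add]
      congr 1
      funext j
      exact (map_add _ _ _).symm
  have h1 := key t
  rw [ht, map_zero] at h1
  obtain ⟨j, hj⟩ := (Submodule.Quotient.mk_eq_zero _).1 h1.symm
  obtain ⟨l, h2, h3⟩ := hd i j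
  exact ⟨l, h2, hg i l h2 ▸ hj l h3⟩

end RTens

theorem rTens : STens := by
  intro Λ ι _ _ R _ _ f A _ _ φ h B _ _
  have := h.nonempty
  have comp : ∀ i j l hij hjl r, f j l hjl (f i j hij r) = f i l (hij.trans hjl) r :=
    fun i j l hij hjl r => RingHom.congr_fun (h.comp i j l hij hjl) r
  have compat : ∀ i j hij r, φ j (f i j hij r) = φ i r :=
    fun i j hij r => RingHom.congr_fun (h.compat i j hij) r
  have compat' : ∀ i j hij t, Algebra.TensorProduct.map (AlgHom.id Λ B) (φ j)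
      (Algebra.TensorProduct.map (AlgHom.id Λ B) (f i j hij) t) =
      Algebra.TensorProduct.map (AlgHom.id Λ B) (φ i) t := fun i j hij t => by
    induction t using TensorProduct.induction_on with
    | zero => simp only [map_zero]
    | tmul b r => simp only [Algebra.TensorProduct.map_tmul, AlgHom.id_apply, compat]
    | add x y hx hy => simp only [map_add, hx, hy]
  refine ⟨h.nonempty, h.directed, fun i j l hij hjl => RingHom.ext fun t => ?_,
    fun i j hij => RingHom.ext (compat' i j hij), fun a => ?_, fun i t ht => ?_⟩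
  · change Algebra.TensorProduct.map (AlgHom.id Λ B) (f j l hjl)
      (Algebra.TensorProduct.map (AlgHom.id Λ B) (f i j hij) t) =
      Algebra.TensorProduct.map (AlgHom.id Λ B) (f i l (hij.trans hjl)) t
    induction t using TensorProduct.induction_on with
    | zero => simp only [map_zero]
    | tmul b r => simp only [Algebra.TensorProduct.map_tmul, AlgHom.id_apply, comp]
    | add x y hx hy => simp only [map_add, hx, hy]
  · change ∃ i t, Algebra.TensorProduct.map (AlgHom.id Λ B) (φ i) t = a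
    induction a using TensorProduct.induction_on with
    | zero => exact ⟨Classical.arbitrary ι, 0, map_zero _⟩
    | tmul b a =>
      obtain ⟨i, r, rfl⟩ := h.surj a
      exact ⟨i, b ⊗ₜ r, rfl⟩
    | add x y hx hy =>
      obtain ⟨i, s, rfl⟩ := hx
      obtain ⟨j, t, rfl⟩ := hy
      obtain ⟨l, h1, h2⟩ := h.directed i j
      exact ⟨l, _ + _, (map_add _ _ _).trans
        (congrArg₂ (· + ·) (compat' i l h1 s) (compat' j l h2 t))⟩
  · exact RTens.zero h.directed (fun i j hij => (f i j hij).toLinearMap)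
      (fun i => (φ i).toLinearMap) comp compat h.surj h.zero i t ht

theorem rNoeth : SNoeth := by
  intro O R _ _ _ χ s
  let := χ.toAlgebra
  have h := isNoetherianRing_of_fg (Subalgebra.fg_adjoin_finset (R := O) s)
  have e : (Algebra.adjoin O (s : Set R)).toSubring = gen χ s := Algebra.adjoin_eq_ring_closure _
  rw [← e]
  exact h

end Pool.Agent.MP_dc2c90_ag.H20
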