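import Pool.Agent.MP_dc2c90_ag.H20.SpecB
import Pool.Agent.MP_dc2c90_ag.H20.RHens
import Pool.Agent.MP_dc2c90_ag.H20.RW1
import Pool.Agent.MP_dc2c90_ag.H20.RTF
import Pool.Agent.MP_dc2c90_ag.H20.RHD
import Pool.Agent.MP_dc2c90_ag.H20.RTens

/-!
Approximation of points over `W(R)[1/p]` by points defined over finitely generated subalgebras.
-/

namespace Pool.Agent.MP_dc2c90_ag.H20

open WittVector MvPolynomial

noncomputable section

namespace RAppT

theorem scale {Λ σ : Type} [CommRing Λ] (t : Λ) (P : MvPolynomial σ Λ) :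
    ∃ (d : ℕ) (P₀ : MvPolynomial σ Λ), ∀ (S : Type) [CommRing S] (ζ : Λ →+* S) (y : σ → S),
      ζ t ^ d * eval₂ ζ y P = eval₂ ζ (fun s => ζ t * y s) P₀ := by
  induction P using MvPolynomial.induction_on with
  | C a => exact ⟨0, C a, fun S _ ζ y => by simp⟩
  | add P P' h h' =>
    obtain ⟨d, P₀, h⟩ := h
    obtain ⟨d', P₀', h'⟩ := h'
    refine ⟨d + d', C t ^ d' * P₀ + C t ^ d * P₀', fun S _ ζ y => ?_⟩
    rw [eval₂_add, eval₂_add, eval₂_mul, eval₂_mul, eval₂_pow, eval₂_pow, eval₂_C, ← h, ← h']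
    ring
  | mul_X P s h =>
    obtain ⟨d, P₀, h⟩ := h
    refine ⟨d + 1, P₀ * X s, fun S _ ζ y => ?_⟩
    rw [eval₂_mul, eval₂_mul, eval₂_X, eval₂_X, ← h]
    ring

theorem eval_mem {Λ σ S : Type} [CommRing Λ] [CommRing S] (ζ : Λ →+* S) (B : Subring S)
    (hζ : ∀ x, ζ x ∈ B) (y : σ → S) (hy : ∀ s, y s ∈ B) (P : MvPolynomial σ Λ) :
    eval₂ ζ y P ∈ B := by
  induction P using MvPolynomial.induction_on with
  | C a => rw [eval₂_C]; exact hζ a
  | add P P' h h' => rw [eval₂_add]; exact add_mem h h'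
  | mul_X P s h => rw [eval₂_mul, eval₂_X]; exact mul_mem h (hy s)

variable {p : ℕ} [Fact p.Prime] {R : Type} [CommRing R]

theorem series (hR : IsNilpotent (p : R)) (B : Subring R) (z : ℕ → T p R)
    (hz : ∀ l, z l ∈ (WS p B).map (toT p R)) :
    ∃ y, ∀ K, ∃ r ∈ (WS p B).map (toT p R),
      y = ∑ l ∈ Finset.range K, (p : T p R) ^ l * z l + (p : T p R) ^ K * r := by
  choose z' hz' e using fun l => Subring.mem_map.1 (hz l)
  obtain ⟨y, hy⟩ := p_adic_series hR z' hz'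
  refine ⟨toT p R y, fun K => ?_⟩
  obtain ⟨r, hr, e'⟩ := hy K
  refine ⟨toT p R r, Subring.mem_map.2 ⟨r, hr, rfl⟩, ?_⟩
  rw [e']
  simp only [map_add, map_sum, map_mul, map_pow, map_natCast, e]

theorem separated (hR : IsNilpotent (p : R)) (B : Subring R) [IsNoetherianRing B] (y : T p R)
    (hy : ∀ K, ∃ r ∈ (WS p B).map (toT p R), y = (p : T p R) ^ K * r) : y = 0 := by
  have hB : IsNilpotent (p : B) := by
    obtain ⟨s, hs⟩ := hR
    exact ⟨s, Subtype.val_injective (by simpa using hs)⟩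
  obtain ⟨s, hs⟩ := rBT rW1 p B hB
  have h : ∀ K, ∃ r : WittVector p B,
      y = (p : T p R) ^ K * toT p R (WittVector.map B.subtype r) := fun K => by
    obtain ⟨_, ⟨_, ⟨r, rfl⟩, rfl⟩, e⟩ := hy K
    exact ⟨r, e⟩
  choose r hr using h
  have h0 : (p : WittVector p B) ^ s * r 0 = 0 := by
    refine p_adic_sep hB _ fun K => ⟨(p : WittVector p B) ^ s * r K, ?_⟩
    have h1 : toT p R (WittVector.map B.subtype (r 0 - (p : WittVector p B) ^ K * r K)) = 0 := by
      simp only [map_sub, map_mul, map_pow, map_natCast]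
      rw [← hr K, sub_eq_zero]
      simpa using (hr 0).symm
    obtain ⟨u, hu⟩ := toT_eq_zero_iff.1 h1
    have h2 := hs (r 0 - (p : WittVector p B) ^ K * r K) u
      (WittVector.map_injective B.subtype Subtype.val_injective (by
        rw [map_mul, map_pow, map_natCast, hu, map_zero]))
    linear_combination h2
  rw [hr 0, pow_zero, one_mul]
  refine toT_eq_zero_iff.2 ⟨s, ?_⟩
  have := congrArg (WittVector.map B.subtype) h0
  rwa [map_mul, map_pow, map_natCast, map_zero] at this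

end RAppT

variable {p : ℕ} [Fact p.Prime] {n : Type} [Fintype n] [DecidableEq n] {k : Type} [Field k]
  [IsAlgClosed k] [CharP k p] {D : Data p k n}

theorem rAppT (hD : D.Good) : SAppT D := by
  classical
  intro R _ χ hR g hg
  obtain ⟨N, g₀, hg₀⟩ := exists_rep_matrix g
  obtain ⟨N', g₁, hg₁⟩ := exists_rep_matrix g⁻¹
  have e₀ : ∀ i j, (p : T p R) ^ N * g i j = toT p R (g₀ i j) := fun i j =>
    congrFun (congrFun hg₀ i) j
  have e₁ : ∀ i j, (p : T p R) ^ N' * g⁻¹ i j = toT p R (g₁ i j) := fun i j =>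
    congrFun (congrFun hg₁ i) j
  obtain ⟨gens, hgens⟩ := (IsNoetherian.noetherian D.I : D.I.FG)
  obtain ⟨Q, hQ⟩ := rNewt ℤ_[p] (n × n) D.I hD.smooth.formallySmooth
  obtain ⟨a₁, ha₁⟩ := rHD ℤ_[p] (n × n) D.I Q hQ gens hgens N
  obtain ⟨d, hd⟩ := exists_uniform (ι := gens)
    (P := fun P d => ∃ P₀ : MvPolynomial (n × n) ℤ_[p],
      (∀ y : n × n → T p R, (p : T p R) ^ d * eval₂ ((toT p R).comp (D.zeta χ)) y P.1 =
        eval₂ ((toT p R).comp (D.zeta χ)) (fun s => (p : T p R) ^ N * y s) P₀) ∧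
      eval₂ (D.zeta χ) (fun s => g₀ s.1 s.2) P₀ = 0)
    (fun P a b hab ⟨P₀, h1, h2⟩ => by
      obtain ⟨c, rfl⟩ := Nat.exists_eq_add_of_le hab
      refine ⟨C (p : ℤ_[p]) ^ c * P₀, fun y => ?_, ?_⟩
      · rw [eval₂_mul, eval₂_pow, eval₂_C, map_natCast, ← h1]; ring
      · rw [eval₂_mul, h2, mul_zero])
    fun P => by
      obtain ⟨d, P₀, h⟩ := RAppT.scale ((p : ℤ_[p]) ^ N) P.1
      have h' := h (T p R) ((toT p R).comp (D.zeta χ))
      simp only [map_pow, map_natCast] at h'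
      have h1 : toT p R (eval₂ (D.zeta χ) (fun s => g₀ s.1 s.2) P₀) = 0 := by
        have h2 := h' fun s => g s.1 s.2
        rw [hg P.1 (hgens ▸ Ideal.subset_span P.2), mul_zero] at h2
        rw [eval₂_comp_left, h2]
        congr 1
        funext s
        exact (e₀ s.1 s.2).symm
      obtain ⟨u, hu⟩ := toT_eq_zero_iff.1 h1
      refine ⟨u + N * d, C (p : ℤ_[p]) ^ u * P₀, fun y => ?_, ?_⟩
      · rw [eval₂_mul, eval₂_pow, eval₂_C, map_natCast, ← h', pow_add, pow_mul]; ring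
      · rw [eval₂_mul, eval₂_pow, eval₂_C, map_natCast, hu]
  refine ⟨N + N' + d + a₁, fun e => ?_⟩
  obtain ⟨m, hm⟩ : ∃ m, m = e + (N + N' + d + a₁) := ⟨_, rfl⟩
  rw [← hm]
  obtain ⟨s, hs⟩ := exists_finset_coeff g₀ m
  have := rNoeth (WittVector p k) R χ s
  have hχ : ∀ o, χ o ∈ gen χ s := mem_gen_of_range χ s
  have hγ : ∀ t : n × n, init m (g₀ t.1 t.2) ∈ WS p (gen χ s) := fun t =>
    init_mem_WS fun l hl => mem_gen_of_mem χ (hs _ _ l hl)
  obtain ⟨q, hq, hqf, hqT⟩ : ∃ q : T p R, (p : T p R) * q = 1 ∧ fTi p R m q = q ∧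
      q ∈ TS p (gen χ s) :=
    ⟨((pU p R ^ (-1 : ℤ) : (T p R)ˣ) : T p R), by
      rw [← pU_val, ← Units.val_mul, zpow_neg_one, mul_inv_cancel, Units.val_one],
      map_pU_zpow _ _, pU_zpow_mem_TS _ _⟩
  have hqp : ∀ l : ℕ, (p : T p R) ^ l * q ^ l = 1 := fun l => by rw [← mul_pow, hq, one_pow]
  obtain ⟨Y, hY, hP⟩ := ha₁ (T p R) ((toT p R).comp (D.zeta χ))
    ((WS p (gen χ s)).map (toT p R)) (p : T p R) (isUnit_p p R) (natCast_mem _ p)
    (fun x => Subring.mem_map.2 ⟨_, Data.zeta_mem_WS hχ x, rfl⟩) (RAppT.series hR _)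
    (RAppT.separated hR _)
    (fun t => fTi p R m (q ^ N * toT p R (init m (g₀ t.1 t.2)))) (e + N')
    (fun t => Subring.mem_map.2 ⟨_, Fi_mem_WS m (hγ t), by
      rw [map_mul, map_pow, hqf, ← mul_assoc, hqp, one_mul, fTi_toT]⟩)
    (fun P hP => by
      obtain ⟨P₀, h1, h2⟩ := hd ⟨P, hP⟩
      have h3 := RHens.congr_mod (D.zeta χ) (Vm p R m) (fun t : n × n => g₀ t.1 t.2)
        (fun t => init m (g₀ t.1 t.2)) (fun t => sub_init_mem_Vm m _) P₀
      rw [h2, zero_sub, neg_mem_iff] at h3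
      obtain ⟨r, hr⟩ := mem_Vm_iff_Vi.1 h3
      have hrB : r ∈ WS p (gen χ s) := by
        rw [← Vi_mem_WS (m := m), ← hr]
        exact RAppT.eval_mem _ _ (Data.zeta_mem_WS hχ) _ hγ _
      refine ⟨toT p R ((p : WittVector p R) ^ N * r),
        Subring.mem_map.2 ⟨_, mul_mem (pow_mem (natCast_mem _ p) N) hrB, rfl⟩, ?_⟩
      have h4 := h1 fun t => q ^ N * toT p R (init m (g₀ t.1 t.2))
      simp only [← mul_assoc, hqp, one_mul] at h4
      have h5 := eval₂_comp_left (toT p R) (D.zeta χ) (fun t : n × n => init m (g₀ t.1 t.2)) P₀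
      rw [hr] at h5
      have h6 := congrArg (fTi p R m) (h4.trans h5.symm)
      rw [map_mul, map_pow, map_natCast, fTi_toT, Fi_Vi, eval₂_comp_left, hD.fTi_comp_zeta,
        map_mul, map_pow, map_natCast] at h6
      refine p_pow_cancel (u := d) (h6.trans ?_)
      rw [map_mul, map_pow, map_natCast, hm]
      ring)
  choose Y₀ hY₀ eY using fun t => Subring.mem_map.1 (hY t)
  choose δ hδ using fun t : n × n => mem_Vm_iff_Vi.1 (sub_init_mem_Vm m (g₀ t.1 t.2))
  obtain ⟨g', hg'⟩ : ∃ g' : Matrix n n (T p R), ∀ i j, g' i j =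
      q ^ N * toT p R (init m (g₀ i j)) +
        (p : T p R) ^ (e + N') * q ^ m * toT p R (Vi p R m (Y₀ (i, j))) :=
    ⟨Matrix.of fun i j => _, fun _ _ => rfl⟩
  have hf : ∀ i j, fTi p R m (g' i j) = fTi p R m (q ^ N * toT p R (init m (g₀ i j))) +
      (p : T p R) ^ (e + N') * Y (i, j) := fun i j => by
    rw [hg', map_add, map_mul _ (_ * _), map_mul _ (_ ^ _) (q ^ m), map_pow _ q m, hqf,
      map_pow _ (p : T p R), map_natCast, fTi_toT m (Vi p R m _), Fi_Vi, map_mul (toT p R),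
      map_pow (toT p R), map_natCast, eY]
    linear_combination ((p : T p R) ^ (e + N') * Y (i, j)) * hqp m
  refine ⟨s, g', ?_, fun i j => ?_, ?_⟩
  · refine Pt.of_map (fTi_injective hR m) (hD.fTi_comp_zeta χ m) fun P hPI => ?_
    rw [← hP P hPI]
    congr 1
    funext t
    exact hf t.1 t.2
  · rw [hg']
    exact add_mem (mul_mem (pow_mem hqT _) (toT_mem_TS (hγ (i, j))))
      (mul_mem (mul_mem (pow_mem (natCast_mem _ p) _) (pow_mem hqT _))
        (toT_mem_TS (Vi_mem_WS.2 (hY₀ _))))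
  · have h1 : g⁻¹ * g' = 1 + g⁻¹ * (g' - g) := by
      rw [Matrix.mul_sub, hD.inv_mul hg]; abel
    have h2 : ∀ i j, fTi p R m (g⁻¹ i j) = q ^ N' * toT p R (Fi p R m (g₁ i j)) := fun i j => by
      rw [← fTi_toT, ← e₁, map_mul, map_pow, map_natCast, ← mul_assoc, mul_comm (q ^ N'), hqp,
        one_mul]
    have h3 : ∀ i j, fTi p R m ((g' - g) i j) = (p : T p R) ^ (e + N') *
        toT p R (Y₀ (i, j) - (p : WittVector p R) ^ (d + a₁) * δ (i, j)) := fun i j => by
      have h4 := congrArg (fun z => fTi p R m (toT p R z)) (hδ (i, j))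
      simp only [map_sub] at h4
      rw [← e₀, fTi_toT m (Vi p R m _), Fi_Vi, map_mul, map_mul, map_pow, map_pow, map_natCast,
        map_natCast] at h4
      have h5 : (p : T p R) ^ m = (p : T p R) ^ N * ((p : T p R) ^ (e + N') * p ^ (d + a₁)) := by
        rw [hm]; ring
      rw [h5] at h4
      rw [Matrix.sub_apply, map_sub, hf, map_mul, map_pow, hqf, map_sub, map_mul, map_pow,
        map_natCast, eY]
      refine p_pow_cancel (u := N) ?_
      linear_combination fTi p R m (toT p R (init m (g₀ i j))) * hqp N - h4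
    refine ⟨g₁.map (Fi p R m) *
      Matrix.of fun i j => Y₀ (i, j) - (p : WittVector p R) ^ (d + a₁) * δ (i, j), ?_⟩
    rw [h1, Matrix.map_add _ (map_add _), Matrix.map_one _ (map_zero _) (map_one _)]
    congr 1
    ext1 i j
    simp only [Matrix.map_apply, Matrix.mul_apply, Matrix.smul_apply, smul_eq_mul, map_sum,
      Finset.mul_sum, Matrix.of_apply]
    refine Finset.sum_congr rfl fun l _ => ?_
    rw [map_mul, h2, h3, map_mul (toT p R) (Fi p R m _), pow_add]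
    linear_combination ((p : T p R) ^ e * toT p R (Fi p R m (g₁ i l)) *
      toT p R (Y₀ (l, j) - (p : WittVector p R) ^ (d + a₁) * δ (l, j))) * hqp N'

end

end Pool.Agent.MP_dc2c90_ag.H20
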