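import Pool.Agent.MP_dc2c90_ag.H20.SpecB

/-!
Contraction.
-/

namespace Pool.Agent.MP_dc2c90_ag.H20

open WittVector MvPolynomial

variable {p : ℕ} [Fact p.Prime] {n : Type} [Fintype n] [DecidableEq n] {k : Type} [Field k]
  [IsAlgClosed k] [CharP k p] {D : Data p k n} {π : Matrix (n × n) (n × n) ℤ_[p]}

namespace RContr

variable {R : Type} [CommRing R]

omit [Fact p.Prime] in
theorem map_smul_pow {S S' m m' : Type} [CommRing S] [CommRing S'] (φ : S →+* S') (u : ℕ)
    (x : Matrix m m' S) : ((p : S) ^ u • x).map φ = (p : S') ^ u • x.map φ := by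
  ext1 i j
  simp only [Matrix.map_apply, Matrix.smul_apply, smul_eq_mul, map_mul, map_pow, map_natCast]

theorem map_comp {S S' S'' m m' : Type} [CommRing S] [CommRing S'] [CommRing S''] (φ : S →+* S')
    (ψ : S' →+* S'') (x : Matrix m m' S) : (x.map φ).map ψ = x.map (ψ.comp φ) := rfl

omit [DecidableEq n] in
theorem alg {A B Y Z' F F' : Matrix n n (T p R)} {P Z : Matrix (n × n) (n × n) (T p R)}
    {i a e m c w : ℕ} (h1 : (p : T p R) ^ i • (adM A B * P) = ((p : T p R) ^ a • Z) * P)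
    (h2 : Y - app P Y = (p : T p R) ^ e • Z') (h3 : (p : T p R) ^ w • A = F)
    (h4 : (p : T p R) ^ w • B = F') (he : e + a = i + m) (hc : e + e = m + c + w + w) :
    (p : T p R) ^ e • (A * Y * B) =
      (p : T p R) ^ m • (app (Z * P) Y + (p : T p R) ^ c • (F * Z' * F')) := by
  have t0 := congrArg (fun X => app X Y) h1
  simp only [Matrix.smul_mul, smul_app, app_mul, app_adM] at t0
  have t1 : (p : T p R) ^ e • (A * app P Y * B) = (p : T p R) ^ m • app (Z * P) Y := by
    refine p_pow_smul_cancel (u := i) ?_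
    rw [smul_comm, t0, smul_smul, smul_smul, ← pow_add, ← pow_add, he, app_mul]
  rw [sub_eq_iff_eq_add'] at h2
  rw [smul_add, ← t1, ← h3, ← h4]
  conv_lhs => rw [h2]
  simp only [Matrix.mul_add, Matrix.add_mul, smul_add, Matrix.smul_mul, Matrix.mul_smul, smul_smul,
    ← pow_add]
  rw [hc]
  simp only [add_assoc]

omit [IsAlgClosed k] [CharP k p] in
theorem quad (hπ : IsProj D.I π) (ζ : ℤ_[p] →+* WittVector p R) (e : ℕ)
    (Y : Matrix n n (WittVector p R))
    (h : Pt D.I ((toT p R).comp ζ) (1 + (p : T p R) ^ e • Y.map (toT p R))) :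
    ∃ Z' : Matrix n n (WittVector p R), Y.map (toT p R) -
      app (π.map ((toT p R).comp ζ)) (Y.map (toT p R)) = (p : T p R) ^ e • Z'.map (toT p R) := by
  obtain ⟨N, hN⟩ := hπ.quad
  refine ⟨Matrix.of fun i j => ∑ kl : n × n, ∑ kl' : n × n, Y kl.1 kl.2 * Y kl'.1 kl'.2 *
    eval₂ ζ (fun s => ((p : WittVector p R) ^ e • Y) s.1 s.2) (N (i, j) kl kl'), ?_⟩
  refine p_pow_smul_cancel (u := e) ?_
  ext1 i j
  rw [smul_sub, ← app_smul, hN _ _ _ h i j]
  simp only [Matrix.smul_apply, Matrix.map_apply, Matrix.of_apply, map_sum, map_mul, smul_eq_mul,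
    Finset.mul_sum, eval₂_comp_left]
  refine Finset.sum_congr rfl fun kl _ => Finset.sum_congr rfl fun kl' _ => ?_
  have : (fun s : n × n => (p : T p R) ^ e * toT p R (Y s.1 s.2)) =
      toT p R ∘ fun s : n × n => (p : WittVector p R) ^ e * Y s.1 s.2 := by
    funext s
    simp only [Function.comp_apply, map_mul, map_pow, map_natCast]
  rw [this]
  ring

end RContr

omit [IsAlgClosed k] in
theorem rContr (hD : D.Good) (hπ : IsProj D.I π) (h : SPhi D π) : SContr D π := by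
  intro i
  obtain ⟨W, hW⟩ := h.bdd
  refine ⟨2 * (i * W), fun R _ χ U a e m κ hU hκ he hm ⟨Y, hY⟩ ⟨Z, hZ⟩ => ?_⟩
  obtain ⟨F, F', hF, hF'⟩ := hW R χ U hU i
  obtain ⟨c, hc⟩ : ∃ c, e + e = m + c + i * W + i * W := ⟨e + e - m - 2 * (i * W), by omega⟩
  have hz := hD.fTi_comp_zeta χ
  obtain ⟨Z', hZ'⟩ := RContr.quad hπ (D.zeta χ) e Y (hY ▸ hκ.map _ (hz (i + m)))
  have h1 := congrArg (fun X => X.map (fTi p R m)) (h.ad R χ U hU i)
  have h3 := congrArg (fun X => X.map (fTi p R m)) hF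
  have h4 := congrArg (fun X => X.map (fTi p R m)) hF'
  simp only [RContr.map_smul_pow, Matrix.map_mul, adM_map, RContr.map_comp, hz,
    fTi_comp_toT] at h1 h3 h4
  rw [← RContr.map_comp (Fi p R m), hZ, RContr.map_smul_pow] at h1
  have h5 := RContr.alg h1 hZ' h3 h4 he hc
  have h6 : (D.Phi χ U i).map (fTi p R m) * (D.Phi χ U i)⁻¹.map (fTi p R m) = 1 := by
    rw [← Matrix.map_mul, hD.mul_inv (h.pt R χ U hU i), Matrix.map_one _ (map_zero _) (map_one _)]
  have h7 : (κ.map (fTi p R i)).map (fTi p R m) = κ.map (fTi p R (i + m)) := by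
    ext1 s t
    rw [add_comm]
    exact (fTi_add m i _).symm
  refine ⟨app (Z * π.map (D.zeta χ)) Y + (p : WittVector p R) ^ c •
    (F.map (Fi p R m) * Z' * F'.map (Fi p R m)), ?_⟩
  rw [Matrix.map_mul, Matrix.map_mul, h7, hY, Matrix.mul_add, Matrix.add_mul, Matrix.mul_one, h6,
    Matrix.mul_smul, Matrix.smul_mul, h5, Matrix.map_add _ (map_add _), RContr.map_smul_pow,
    app_map, Matrix.map_mul, Matrix.map_mul, Matrix.map_mul]
  rfl

end Pool.Agent.MP_dc2c90_ag.H20
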