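import Pool.Agent.MP_dc2c90_ag.H20.SpecB
import Pool.Agent.MP_dc2c90_ag.H20.RTens

/-!
Isomorphisms in the stack descend to a finite stage of a directed system.
-/

namespace Pool.Agent.MP_dc2c90_ag.H20

open WittVector TensorProduct

noncomputable section

variable {p : ℕ} [Fact p.Prime] {n : Type} [Fintype n] [DecidableEq n] {k : Type} [Field k]
  [CharP k p] {D : Data p k n}

namespace RCoreI

section Ten

variable {Λ B B' R R' O : Type} [CommRing Λ] [CommRing B] [CommRing B'] [CommRing R]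
  [CommRing R'] [CommRing O] [Algebra Λ B] [Algebra Λ B'] [Algebra Λ R] [Algebra Λ R']

theorem tL (g : R →ₐ[Λ] R') (c : O →+* B) :
    (tmap (AlgHom.id Λ B) g).comp ((inL Λ B R).comp c) = (inL Λ B R').comp c := by
  rw [← RingHom.comp_assoc, tmap_comp_inL]; rfl

theorem tswap (α : B →ₐ[Λ] B') (g : R →ₐ[Λ] R') :
    (tmap (AlgHom.id Λ B') g).comp (tmap α (AlgHom.id Λ R)) =
      (tmap α (AlgHom.id Λ R')).comp (tmap (AlgHom.id Λ B) g) := by
  rw [tmap_comp_tmap, tmap_comp_tmap]; rfl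

theorem tL' (α : B →ₐ[Λ] B') (g : R →ₐ[Λ] R') (c : O →+* B) :
    (tmap (AlgHom.id Λ B') g).comp ((tmap α (AlgHom.id Λ R)).comp ((inL Λ B R).comp c)) =
      (tmap α (AlgHom.id Λ R')).comp ((inL Λ B R').comp c) := by
  rw [← RingHom.comp_assoc, tswap, RingHom.comp_assoc, tL]

theorem tbase (α : B →ₐ[Λ] B') {c : O →+* B} {j : Λ →+* O} (h : c.comp j = algebraMap Λ B) :
    ((tmap α (AlgHom.id Λ R)).comp ((inL Λ B R).comp c)).comp j =
      (inL Λ B' R).comp (algebraMap Λ B') := by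
  rw [RingHom.comp_assoc, RingHom.comp_assoc, h, ← RingHom.comp_assoc, tmap_comp_inL,
    RingHom.comp_assoc]
  congr 1
  exact α.comp_algebraMap

theorem tR (α : B →ₐ[Λ] B') :
    (tmap α (AlgHom.id Λ R)).comp (inR Λ B R) = inR Λ B' R := by
  rw [tmap_comp_inR]; rfl

end Ten

theorem sys {O Λ ι : Type} [CommRing O] [CommRing Λ] [Preorder ι] {R : ι → Type}
    [∀ i, CommRing (R i)] [∀ i, Algebra Λ (R i)] {f : ∀ i j, i ≤ j → R i →ₐ[Λ] R j} {A : Type}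
    [CommRing A] [Algebra Λ A] {φ : ∀ i, R i →ₐ[Λ] A} {χ : ∀ i, O →+* R i} {χA : O →+* A}
    (hs : IsSys p R (fun i j h => (f i j h).toRingHom) A (fun i => (φ i).toRingHom) χ χA)
    (B : Type) [CommRing B] [Algebra Λ B] (c : O →+* B) :
    IsSys p (fun i => B ⊗[Λ] R i) (fun i j h => tmap (AlgHom.id Λ B) (f i j h)) (B ⊗[Λ] A)
      (fun i => tmap (AlgHom.id Λ B) (φ i)) (fun i => (inL Λ B (R i)).comp c)
      ((inL Λ B A).comp c) where
  colim := rTens Λ ι R f A φ hs.colim B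
  fχ := fun _ _ _ => tL _ _
  φχ := fun _ => tL _ _
  nil := fun i => by
    have := (hs.nil i).map (inR Λ B (R i))
    rwa [map_natCast] at this

section Main

variable {Λ B : Type} [CommRing Λ] [CommRing B] [Algebra Λ B] {χ : WittVector p k →+* Λ}

/-- First inclusion `B ⊗ R → (B ⊗ B) ⊗ R`. -/
abbrev i1 (Λ B R : Type) [CommRing Λ] [CommRing B] [CommRing R] [Algebra Λ B] [Algebra Λ R] :
    B ⊗[Λ] R →+* (B ⊗[Λ] B) ⊗[Λ] R :=
  tmap Algebra.TensorProduct.includeLeft (AlgHom.id Λ R)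

/-- Second inclusion `B ⊗ R → (B ⊗ B) ⊗ R`. -/
abbrev i2 (Λ B R : Type) [CommRing Λ] [CommRing B] [CommRing R] [Algebra Λ B] [Algebra Λ R] :
    B ⊗[Λ] R →+* (B ⊗[Λ] B) ⊗[Λ] R :=
  tmap Algebra.TensorProduct.includeRight (AlgHom.id Λ R)

/-- The descent datum of `ξ` over `(B ⊗ B) ⊗ R`. -/
def dd (ξ : D.Obj χ) (a : ξ.C →+* B) (R : Type) [CommRing R] [Algebra Λ R] :
    HP p n ((B ⊗[Λ] B) ⊗[Λ] R) :=
  ξ.h _ ((i1 Λ B R).comp ((inL Λ B R).comp a)) ((i2 Λ B R).comp ((inL Λ B R).comp a))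

theorem base_eq {C : Type} [CommRing C] {j : Λ →+* C} {a : C →+* B}
    (ha : a.comp j = algebraMap Λ B) (R : Type) [CommRing R] [Algebra Λ R] :
    ((i1 Λ B R).comp ((inL Λ B R).comp a)).comp j =
      ((i2 Λ B R).comp ((inL Λ B R).comp a)).comp j :=
  (tbase _ ha).trans (tbase _ ha).symm

theorem dd_map (ξ : D.Obj χ) {a : ξ.C →+* B} (ha : a.comp ξ.j = algebraMap Λ B) {R R' : Type}
    [CommRing R] [Algebra Λ R] [CommRing R'] [Algebra Λ R'] (g : R →ₐ[Λ] R') :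
    hmap (tmap (AlgHom.id Λ (B ⊗[Λ] B)) g) (dd ξ a R) = dd ξ a R' := by
  rw [dd, dd, ξ.nat _ _ _ _ _ (base_eq ha R), tL', tL']

theorem dd_isH (ξ : D.Obj χ) {a : ξ.C →+* B} (ha : a.comp ξ.j = algebraMap Λ B) (R : Type)
    [CommRing R] [Algebra Λ R] :
    D.IsH ((inL Λ (B ⊗[Λ] B) R).comp ((algebraMap Λ (B ⊗[Λ] B)).comp χ)) (dd ξ a R) := by
  have h := ξ.hh _ _ _ (base_eq ha R)
  rwa [← RingHom.comp_assoc, tbase _ ha, RingHom.comp_assoc] at h

theorem dd_lift (ξ : D.Obj χ) {a : ξ.C →+* B} (ha : a.comp ξ.j = algebraMap Λ B) (R : Type)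
    [CommRing R] [Algebra Λ R] {C : Type} [CommRing C] (θ : (B ⊗[Λ] B) ⊗[Λ] R →+* C) :
    hmap θ (dd ξ a R) = ξ.h C ((θ.comp (i1 Λ B R)).comp ((inL Λ B R).comp a))
      ((θ.comp (i2 Λ B R)).comp ((inL Λ B R).comp a)) := by
  rw [dd, ξ.nat _ _ _ _ _ (base_eq ha R)]; rfl

theorem hmap_swap {B' R R' : Type} [CommRing B'] [Algebra Λ B'] [CommRing R] [Algebra Λ R]
    [CommRing R'] [Algebra Λ R'] (α : B →ₐ[Λ] B') (g : R →ₐ[Λ] R') (v : HP p n (B ⊗[Λ] R)) :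
    hmap (tmap (AlgHom.id Λ B') g) (hmap (tmap α (AlgHom.id Λ R)) v) =
      hmap (tmap α (AlgHom.id Λ R')) (hmap (tmap (AlgHom.id Λ B) g) v) := by
  rw [hmap_hmap, hmap_hmap, tswap]

theorem isX_of (ξ : D.Obj χ) {a : ξ.C →+* B} (ha : a.comp ξ.j = algebraMap Λ B) (R : Type)
    [CommRing R] [Algebra Λ R] :
    D.IsX ((inL Λ B R).comp ((algebraMap Λ B).comp χ)) (xmap ((inL Λ B R).comp a) ξ.x) :=
  ξ.hx.map _ (by rw [← ha]; rfl)

theorem chi_i {B' R : Type} [CommRing B'] [Algebra Λ B'] [CommRing R] [Algebra Λ R]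
    (α : B →ₐ[Λ] B') :
    (tmap α (AlgHom.id Λ R)).comp ((inL Λ B R).comp ((algebraMap Λ B).comp χ)) =
      (inL Λ B' R).comp ((algebraMap Λ B').comp χ) := by
  have h := tbase (R := R) α (c := RingHom.id B) (j := algebraMap Λ B) rfl
  exact congrArg (fun t => RingHom.comp t χ) h

theorem cover_eq {C : Type} [CommRing C] {j : Λ →+* C} {a : C →+* B}
    (ha : a.comp j = algebraMap Λ B) (R : Type) [CommRing R] [Algebra Λ R] :
    ((inL Λ B R).comp a).comp j = (inR Λ B R).comp (algebraMap Λ R) := by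
  rw [RingHom.comp_assoc, ha, inL_comp_algebraMap]

theorem chi_eq (R : Type) [CommRing R] [Algebra Λ R] :
    (inR Λ B R).comp ((algebraMap Λ R).comp χ) = (inL Λ B R).comp ((algebraMap Λ B).comp χ) := by
  rw [← RingHom.comp_assoc, ← inL_comp_algebraMap, RingHom.comp_assoc]

end Main

end RCoreI

open RCoreI in
theorem rCoreI [IsAlgClosed k] (hD : D.Good) (h1 : SNorm D) (h2 : SFull D) (h3 : SFaith D) :
    SCoreI D := by
  intro Λ ι _ _ R _ _ f A _ _ φ χ hs ξ η hiso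
  obtain ⟨B, _, b, a, hbff, hab⟩ := cov ξ.ff η.j
  let _ : Algebra Λ B := (b.comp η.j).toAlgebra
  have hb : b.comp η.j = algebraMap Λ B := rfl
  have ha : a.comp ξ.j = algebraMap Λ B := hab
  have : Module.FaithfullyFlat Λ B := by
    rw [← RingHom.faithfullyFlat_algebraMap_iff]
    exact ff_comp η.ff hbff
  obtain ⟨u, hu, hact, hcomp⟩ := h1 Λ Λ A χ χ (algebraMap Λ A) (algebraMap Λ A) ξ η rfl hiso
    (B ⊗[Λ] A) (inR Λ B A) ((inL Λ B A).comp a) ((inL Λ B A).comp b) (cover_eq ha A)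
    (cover_eq hb A)
  rw [chi_eq] at hu
  obtain ⟨j0⟩ := hs.colim.nonempty
  obtain ⟨j, hj, v, hv, hactj, hvu⟩ := h2 ι _ _ _ _ _ _ (sys hs B ((algebraMap Λ B).comp χ)) j0
    _ _ u (isX_of ξ ha (R j0)) (isX_of η hb (R j0)) hu
    (by rw [xmap_xmap, xmap_xmap, tL, tL]; exact hact)
  rw [xmap_xmap, xmap_xmap, tL, tL] at hactj
  have hA1 : Act (xmap ((i1 Λ B (R j)).comp ((inL Λ B (R j)).comp a)) ξ.x)
      (dd ξ a (R j) * hmap (i2 Λ B (R j)) v)
      (xmap ((i2 Λ B (R j)).comp ((inL Λ B (R j)).comp b)) η.x) := by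
    refine (ξ.act _ _ _ (base_eq ha (R j))).mul ?_
    have := hactj.map (i2 Λ B (R j))
    rwa [xmap_xmap, xmap_xmap] at this
  have hA2 : Act (xmap ((i1 Λ B (R j)).comp ((inL Λ B (R j)).comp a)) ξ.x)
      (hmap (i1 Λ B (R j)) v * dd η b (R j))
      (xmap ((i2 Λ B (R j)).comp ((inL Λ B (R j)).comp b)) η.x) := by
    refine Act.mul ?_ (η.act _ _ _ (base_eq hb (R j)))
    have := hactj.map (i1 Λ B (R j))
    rwa [xmap_xmap, xmap_xmap] at this
  have hX : D.IsX ((inL Λ (B ⊗[Λ] B) (R j)).comp ((algebraMap Λ (B ⊗[Λ] B)).comp χ))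
      (xmap ((i1 Λ B (R j)).comp ((inL Λ B (R j)).comp a)) ξ.x) := by
    have := (isX_of ξ ha (R j)).map (i1 Λ B (R j)) (chi_i _)
    rwa [xmap_xmap] at this
  obtain ⟨l, hl, heq⟩ := h3 ι _ _ _ _ _ _
    (sys hs (B ⊗[Λ] B) ((algebraMap Λ (B ⊗[Λ] B)).comp χ)) j _ _ _ _ hX
    (hD.isH_mul (dd_isH ξ ha (R j)) (hv.map _ (chi_i _)))
    (hD.isH_mul (hv.map _ (chi_i _)) (dd_isH η hb (R j))) hA1 hA2 (by
      rw [hmap_mul, hmap_mul, dd_map ξ ha, dd_map η hb, hmap_swap, hmap_swap, hvu]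
      exact hcomp _ (i1 Λ B A) (i2 Λ B A) ((tR _).trans (tR _).symm))
  rw [hmap_mul, hmap_mul, dd_map ξ ha, dd_map η hb, hmap_swap, hmap_swap] at heq
  refine ⟨l, B ⊗[Λ] R l, inferInstance, inR Λ B (R l), (inL Λ B (R l)).comp a,
    (inL Λ B (R l)).comp b, hmap (tmap (AlgHom.id Λ B) (f j l hl)) v, inR_ff, cover_eq ha _,
    cover_eq hb _, ?_, ?_, fun C _ γ δ hγδ => ?_⟩
  · rw [chi_eq]; exact hv.map _ (tL _ _)
  · have := hactj.map (tmap (AlgHom.id Λ B) (f j l hl))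
    rwa [xmap_xmap, xmap_xmap, tL, tL] at this
  · obtain ⟨θ, rfl, rfl⟩ := exists_tensor_lift₂ γ δ hγδ
    have := congrArg (hmap θ) heq
    rwa [hmap_mul, hmap_mul, dd_lift ξ ha, dd_lift η hb, hmap_hmap (i1 Λ B (R l)) θ,
      hmap_hmap (i2 Λ B (R l)) θ] at this

end

end Pool.Agent.MP_dc2c90_ag.H20
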