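import Pool.Agent.MP_dc2c90_ag.H20.SpecB
import Pool.Agent.MP_dc2c90_ag.H20.RTens

/-!
Objects whose cover comes from the base of the system descend to a finite stage.
-/

namespace Pool.Agent.MP_dc2c90_ag.H20

open WittVector TensorProduct Algebra.TensorProduct

noncomputable section

variable {p : ℕ} [Fact p.Prime] {n : Type} [Fintype n] [DecidableEq n] {k : Type} [Field k]
  [IsAlgClosed k] [CharP k p] {D : Data p k n}

namespace RCoreS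

/-- Ring maps with the instances taken from the commutative ring structures. -/
abbrev RH (X Y : Type) [CommRing X] [CommRing Y] : Type := X →+* Y

section maps

variable (Λ B R : Type) [CommRing Λ] [CommRing B] [CommRing R] [Algebra Λ B] [Algebra Λ R]

def i1 : RH (B ⊗[Λ] R) ((B ⊗[Λ] B) ⊗[Λ] R) := tmap includeLeft (AlgHom.id Λ R)

def i2 : RH (B ⊗[Λ] R) ((B ⊗[Λ] B) ⊗[Λ] R) := tmap includeRight (AlgHom.id Λ R)

def p12 : RH ((B ⊗[Λ] B) ⊗[Λ] R) (((B ⊗[Λ] B) ⊗[Λ] B) ⊗[Λ] R) :=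
  tmap includeLeft (AlgHom.id Λ R)

def p23 : RH ((B ⊗[Λ] B) ⊗[Λ] R) (((B ⊗[Λ] B) ⊗[Λ] B) ⊗[Λ] R) :=
  tmap (Algebra.TensorProduct.map includeRight (AlgHom.id Λ B)) (AlgHom.id Λ R)

def p13 : RH ((B ⊗[Λ] B) ⊗[Λ] R) (((B ⊗[Λ] B) ⊗[Λ] B) ⊗[Λ] R) :=
  tmap (Algebra.TensorProduct.map includeLeft (AlgHom.id Λ B)) (AlgHom.id Λ R)

def q3 : RH (B ⊗[Λ] R) (((B ⊗[Λ] B) ⊗[Λ] B) ⊗[Λ] R) := tmap includeRight (AlgHom.id Λ R)

theorem p23_i1 : (p23 Λ B R).comp (i1 Λ B R) = (p12 Λ B R).comp (i2 Λ B R) := by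
  rw [p23, i1, p12, i2, tmap_comp_tmap, tmap_comp_tmap]
  congr 1

theorem p23_i2 : (p23 Λ B R).comp (i2 Λ B R) = q3 Λ B R := by
  rw [p23, i2, q3, tmap_comp_tmap]
  congr 1

theorem p13_i1 : (p13 Λ B R).comp (i1 Λ B R) = (p12 Λ B R).comp (i1 Λ B R) := by
  rw [p13, i1, p12, tmap_comp_tmap, tmap_comp_tmap]
  congr 1

theorem p13_i2 : (p13 Λ B R).comp (i2 Λ B R) = q3 Λ B R := by
  rw [p13, i2, q3, tmap_comp_tmap]
  congr 1

variable {Λ B R} {B' R' : Type} [CommRing B'] [CommRing R'] [Algebra Λ B'] [Algebra Λ R']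

theorem tm_inR (a : B →ₐ[Λ] B') :
    (tmap a (AlgHom.id Λ R)).comp (inR Λ B R) = inR Λ B' R := tmap_comp_inR _ _

theorem tcomm (a : B →ₐ[Λ] B') (g : R →ₐ[Λ] R') :
    (tmap (AlgHom.id Λ B') g).comp (tmap a (AlgHom.id Λ R)) =
      (tmap a (AlgHom.id Λ R')).comp (tmap (AlgHom.id Λ B) g) := by
  rw [tmap_comp_tmap, tmap_comp_tmap]; rfl

theorem c1 (g : R →ₐ[Λ] R') : (tmap (AlgHom.id Λ (B ⊗[Λ] B)) g).comp (i1 Λ B R) =
    (i1 Λ B R').comp (tmap (AlgHom.id Λ B) g) := tcomm _ _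

theorem c2 (g : R →ₐ[Λ] R') : (tmap (AlgHom.id Λ (B ⊗[Λ] B)) g).comp (i2 Λ B R) =
    (i2 Λ B R').comp (tmap (AlgHom.id Λ B) g) := tcomm _ _

theorem i1_inR : (i1 Λ B R).comp (inR Λ B R) = inR Λ (B ⊗[Λ] B) R := tm_inR _

theorem i2_inR : (i2 Λ B R).comp (inR Λ B R) = inR Λ (B ⊗[Λ] B) R := tm_inR _

theorem glue {E : Type} [CommRing E] (a b : B ⊗[Λ] R →+* E)
    (h : a.comp (inR Λ B R) = b.comp (inR Λ B R)) :
    ∃ θ : (B ⊗[Λ] B) ⊗[Λ] R →+* E, θ.comp (i1 Λ B R) = a ∧ θ.comp (i2 Λ B R) = b :=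
  exists_tensor_lift₂ a b h

theorem glue_ext {E : Type} [CommRing E] {θ θ' : (B ⊗[Λ] B) ⊗[Λ] R →+* E}
    (h1 : θ.comp (i1 Λ B R) = θ'.comp (i1 Λ B R)) (h2 : θ.comp (i2 Λ B R) = θ'.comp (i2 Λ B R)) :
    θ = θ' := tensor_hom_ext₂ h1 h2

theorem glue₃ {E : Type} [CommRing E] (θ : (B ⊗[Λ] B) ⊗[Λ] R →+* E) (c : B ⊗[Λ] R →+* E)
    (h : (θ.comp (i2 Λ B R)).comp (inR Λ B R) = c.comp (inR Λ B R)) :
    ∃ Θ : ((B ⊗[Λ] B) ⊗[Λ] B) ⊗[Λ] R →+* E, Θ.comp (p12 Λ B R) = θ ∧ Θ.comp (q3 Λ B R) = c :=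
  exists_tensor_lift₂ θ c (by rw [← h, RingHom.comp_assoc, i2_inR])

open Classical in
/-- The family defined by an element over the double tensor product. -/
def fam (w : HP p n ((B ⊗[Λ] B) ⊗[Λ] R)) (E : Type) [CommRing E] (a b : B ⊗[Λ] R →+* E) :
    HP p n E :=
  if h : a.comp (inR Λ B R) = b.comp (inR Λ B R) then hmap (glue a b h).choose w else 1

omit [Fintype n] in
theorem fam_eq (w : HP p n ((B ⊗[Λ] B) ⊗[Λ] R)) {E : Type} [CommRing E] {a b : B ⊗[Λ] R →+* E}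
    (θ : (B ⊗[Λ] B) ⊗[Λ] R →+* E) (ha : θ.comp (i1 Λ B R) = a) (hb : θ.comp (i2 Λ B R) = b) :
    fam w E a b = hmap θ w := by
  have h : a.comp (inR Λ B R) = b.comp (inR Λ B R) := by
    rw [← ha, ← hb, RingHom.comp_assoc, RingHom.comp_assoc, i1_inR, i2_inR]
  rw [fam, dif_pos h, glue_ext ((glue a b h).choose_spec.1.trans ha.symm)
    ((glue a b h).choose_spec.2.trans hb.symm)]

/-- The object defined by a descent datum on the cover `B ⊗ R`. -/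
def mk [Module.FaithfullyFlat Λ B] (D : Data p k n) (χ : WittVector p k →+* R)
    (x : XP p n (B ⊗[Λ] R)) (w : HP p n ((B ⊗[Λ] B) ⊗[Λ] R))
    (hx : D.IsX ((inR Λ B R).comp χ) x) (hw : D.IsH ((inR Λ (B ⊗[Λ] B) R).comp χ) w)
    (ha : Act (xmap (i1 Λ B R) x) w (xmap (i2 Λ B R) x))
    (hc : hmap (p12 Λ B R) w * hmap (p23 Λ B R) w = hmap (p13 Λ B R) w) : D.Obj χ where
  C := B ⊗[Λ] R
  j := inR Λ B R
  ff := inR_ff
  x := x
  hx := hx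
  h := fam w
  hh := fun E _ a b h => by
    obtain ⟨θ, h1, h2⟩ := glue a b h
    rw [fam_eq w θ h1 h2]
    refine hw.map θ ?_
    rw [← h1, ← i1_inR]
    rfl
  act := fun E _ a b h => by
    obtain ⟨θ, h1, h2⟩ := glue a b h
    have := ha.map θ
    rwa [xmap_xmap, xmap_xmap, h1, h2, ← fam_eq w θ h1 h2] at this
  nat := fun E E' _ _ ψ a b h => by
    obtain ⟨θ, h1, h2⟩ := glue a b h
    rw [fam_eq w θ h1 h2, hmap_hmap, fam_eq w (ψ.comp θ) (by rw [← h1]; rfl) (by rw [← h2]; rfl)]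
  coc := fun E _ a b c h h' => by
    obtain ⟨θ, h1, h2⟩ := glue a b h
    obtain ⟨Θ, h3, h4⟩ := glue₃ θ c (by rw [h2, h'])
    have := congrArg (hmap Θ) hc
    rw [hmap_mul, hmap_hmap, hmap_hmap, hmap_hmap, h3] at this
    rw [fam_eq w θ h1 h2, fam_eq w (Θ.comp (p23 Λ B R))
      (by rw [RingHom.comp_assoc, p23_i1, ← RingHom.comp_assoc, h3, h2])
      (by rw [RingHom.comp_assoc, p23_i2, h4]), fam_eq w (Θ.comp (p13 Λ B R))
      (by rw [RingHom.comp_assoc, p13_i1, ← RingHom.comp_assoc, h3, h1])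
      (by rw [RingHom.comp_assoc, p13_i2, h4]), this]

end maps

theorem alg {E : Type} [CommRing E] (a c h h' : HP p n E) {b b' : HP p n E} (hb : b' * b = 1) :
    a * h * b' * (b * h' * c) = a * (h * h') * c := by
  simp only [mul_assoc]
  rw [← mul_assoc b', hb, one_mul]

theorem sys {O Λ ι : Type} [CommRing O] [CommRing Λ] [Preorder ι] {R : ι → Type}
    [∀ i, CommRing (R i)] [∀ i, Algebra Λ (R i)] {f : ∀ i j, i ≤ j → R i →ₐ[Λ] R j} {A : Type}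
    [CommRing A] [Algebra Λ A] {φ : ∀ i, R i →ₐ[Λ] A} {χ : ∀ i, O →+* R i} {χA : O →+* A}
    (h : IsSys p R (fun i j h => (f i j h).toRingHom) A (fun i => (φ i).toRingHom) χ χA)
    (B : Type) [CommRing B] [Algebra Λ B] :
    IsSys p (fun i => B ⊗[Λ] R i) (fun i j h => tmap (AlgHom.id Λ B) (f i j h)) (B ⊗[Λ] A)
      (fun i => tmap (AlgHom.id Λ B) (φ i)) (fun i => (inR Λ B (R i)).comp (χ i))
      ((inR Λ B A).comp χA) where
  colim := rTens Λ ι R f A φ h.colim B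
  fχ := fun i j hij => by
    rw [← RingHom.comp_assoc, tmap_comp_inR, RingHom.comp_assoc, h.fχ i j hij]
  φχ := fun i => by rw [← RingHom.comp_assoc, tmap_comp_inR, RingHom.comp_assoc, h.φχ i]
  nil := fun i => isNilpotent_p_map (inR Λ B (R i)) (h.nil i)

end RCoreS

open RCoreS in
theorem rCoreS (hD : D.Good) (h1 : SEss D) (h2 : SFull D) (h3 : SFaith D) : SCoreS D := by
  intro Λ ι _ _ R _ _ f A _ _ φ χ χA hS B _ _ hB η ρ hρ
  let σ : η.C →+* B ⊗[Λ] A := ρ.symm.toRingHom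
  have hσ : σ.comp η.j = inR Λ B A :=
    RingHom.ext fun a => ρ.symm_apply_eq.2 (hρ a).symm
  have hσ' : ∀ {E : Type} [CommRing E] {a b : B ⊗[Λ] A →+* E},
      a.comp (inR Λ B A) = b.comp (inR Λ B A) → (a.comp σ).comp η.j = (b.comp σ).comp η.j :=
    fun h => by rwa [RingHom.comp_assoc, RingHom.comp_assoc, hσ]
  have S1 := sys hS B
  have S2 := sys hS (B ⊗[Λ] B)
  have S3 := sys hS ((B ⊗[Λ] B) ⊗[Λ] B)
  obtain ⟨j, x₀, u, hx₀, hu, hxu⟩ := h1 _ _ _ _ _ _ _ S1 (xmap σ η.x)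
    (η.hx.map σ (by rw [← RingHom.comp_assoc, hσ]))
  have e12 : (i1 Λ B A).comp (inR Λ B A) = (i2 Λ B A).comp (inR Λ B A) := by rw [i1_inR, i2_inR]
  have hu1 : D.IsH ((inR Λ (B ⊗[Λ] B) A).comp χA) (hmap (i1 Λ B A) u) :=
    hu.map _ (by rw [← RingHom.comp_assoc, i1_inR])
  have hu2 : D.IsH ((inR Λ (B ⊗[Λ] B) A).comp χA) (hmap (i2 Λ B A) u) :=
    hu.map _ (by rw [← RingHom.comp_assoc, i2_inR])
  have hη : D.IsH ((inR Λ (B ⊗[Λ] B) A).comp χA)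
      (η.h _ ((i1 Λ B A).comp σ) ((i2 Λ B A).comp σ)) := by
    have := η.hh _ _ _ (hσ' e12)
    rwa [← RingHom.comp_assoc, RingHom.comp_assoc _ σ, hσ, i1_inR] at this
  obtain ⟨g, hg⟩ : ∃ g, g = hmap (i1 Λ B A) u * η.h _ ((i1 Λ B A).comp σ) ((i2 Λ B A).comp σ) *
    hinv (hmap (i2 Λ B A) u) := ⟨_, rfl⟩
  have G : ∀ {E : Type} [CommRing E] {a b : B ⊗[Λ] A →+* E} (θ : (B ⊗[Λ] B) ⊗[Λ] A →+* E),
      θ.comp (i1 Λ B A) = a → θ.comp (i2 Λ B A) = b →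
      hmap θ g = hmap a u * η.h E (a.comp σ) (b.comp σ) * hinv (hmap b u) := by
    intro E _ a b θ ha hb
    rw [hg, hmap_mul, hmap_mul, hD.hmap_hinv hu2, hmap_hmap, hmap_hmap, η.nat _ _ θ _ _ (hσ' e12),
      ← RingHom.comp_assoc, ← RingHom.comp_assoc, ha, hb]
  have hga : Act (xmap (tmap (AlgHom.id Λ (B ⊗[Λ] B)) (φ j)) (xmap (i1 Λ B (R j)) x₀)) g
      (xmap (tmap (AlgHom.id Λ (B ⊗[Λ] B)) (φ j)) (xmap (i2 Λ B (R j)) x₀)) := by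
    have a1 := hxu.map (i1 Λ B A)
    have a2 := hD.act_inv hu2 (hxu.map (i2 Λ B A))
    have a3 := η.act _ _ _ (hσ' e12)
    rw [xmap_xmap, xmap_xmap] at a1 a2
    rw [hg, xmap_xmap, xmap_xmap, c1, c2]
    exact (a1.mul a3).mul a2
  obtain ⟨l, hjl, w, hw, hwa, hwg⟩ := h2 _ _ _ _ _ _ _ S2 j (xmap (i1 Λ B (R j)) x₀)
    (xmap (i2 Λ B (R j)) x₀) g (hx₀.map _ (by rw [← RingHom.comp_assoc, i1_inR]))
    (hx₀.map _ (by rw [← RingHom.comp_assoc, i2_inR]))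
    (hg ▸ hD.isH_mul (hD.isH_mul hu1 hη) (hD.isH_inv hu2)) hga
  obtain ⟨y, hy⟩ : ∃ y, y = xmap (tmap (AlgHom.id Λ B) (f j l hjl)) x₀ := ⟨_, rfl⟩
  have hyX : D.IsX ((inR Λ B (R l)).comp (χ l)) y := hy ▸ hx₀.map _ (S1.fχ j l hjl)
  have hwa' : Act (xmap (i1 Λ B (R l)) y) w (xmap (i2 Λ B (R l)) y) := by
    rw [xmap_xmap, xmap_xmap, c1, c2] at hwa
    rw [hy, xmap_xmap, xmap_xmap]
    exact hwa
  have hp : ∀ a : B ⊗[Λ] B →ₐ[Λ] (B ⊗[Λ] B) ⊗[Λ] B,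
      D.IsH ((inR Λ ((B ⊗[Λ] B) ⊗[Λ] B) (R l)).comp (χ l))
        (hmap (tmap a (AlgHom.id Λ (R l))) w) ∧
      hmap (tmap (AlgHom.id Λ _) (φ l)) (hmap (tmap a (AlgHom.id Λ (R l))) w) =
        hmap (tmap a (AlgHom.id Λ A)) g := fun a =>
    ⟨hw.map _ (by rw [← RingHom.comp_assoc, tm_inR]), by
      rw [hmap_hmap, tcomm, ← hmap_hmap, hwg]⟩
  have b12 := hwa'.map (p12 Λ B (R l))
  have b23 := hwa'.map (p23 Λ B (R l))
  have b13 := hwa'.map (p13 Λ B (R l))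
  rw [xmap_xmap, xmap_xmap] at b12 b23 b13
  rw [p23_i1, p23_i2] at b23
  rw [p13_i1, p13_i2] at b13
  have e1 : ((p12 Λ B A).comp (i1 Λ B A)).comp (inR Λ B A) =
      ((p12 Λ B A).comp (i2 Λ B A)).comp (inR Λ B A) := by
    rw [RingHom.comp_assoc, RingHom.comp_assoc, e12]
  have e2 : ((p12 Λ B A).comp (i2 Λ B A)).comp (inR Λ B A) = (q3 Λ B A).comp (inR Λ B A) := by
    rw [← p23_i1, ← p23_i2, RingHom.comp_assoc, RingHom.comp_assoc, e12]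
  obtain ⟨m, hlm, hm⟩ := h3 _ _ _ _ _ _ _ S3 l _ _ _ _
    (hyX.map ((p12 Λ B (R l)).comp (i1 Λ B (R l))) (by
      rw [← RingHom.comp_assoc, RingHom.comp_assoc _ (i1 Λ B (R l)), i1_inR, p12, tm_inR]))
    (hD.isH_mul (hp _).1 (hp _).1) (hp _).1 (b12.mul b23) b13 (by
      rw [hmap_mul, (hp _).2, (hp _).2, (hp _).2]
      change hmap (p12 Λ B A) g * hmap (p23 Λ B A) g = hmap (p13 Λ B A) g
      rw [G (p12 Λ B A) rfl rfl, G (p23 Λ B A) (p23_i1 Λ B A) (p23_i2 Λ B A),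
        G (p13 Λ B A) (p13_i1 Λ B A) (p13_i2 Λ B A), ← η.coc _ _ _ _ (hσ' e1) (hσ' e2)]
      exact alg _ _ _ _ (hD.hinv_mul (hu.map _ rfl)))
  have hq : ∀ a : B ⊗[Λ] B →ₐ[Λ] (B ⊗[Λ] B) ⊗[Λ] B,
      hmap (tmap a (AlgHom.id Λ (R m))) (hmap (tmap (AlgHom.id Λ _) (f l m hlm)) w) =
      hmap (tmap (AlgHom.id Λ _) (f l m hlm)) (hmap (tmap a (AlgHom.id Λ (R l))) w) := fun a => by
    rw [hmap_hmap, hmap_hmap, tcomm]
  refine ⟨m, mk D (χ m) (xmap (tmap (AlgHom.id Λ B) (f l m hlm)) y)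
    (hmap (tmap (AlgHom.id Λ _) (f l m hlm)) w) (hyX.map _ (S1.fχ l m hlm))
    (hw.map _ (S2.fχ l m hlm)) ?_ ?_, B ⊗[Λ] A, inferInstance, inR Λ B A, σ,
    tmap (AlgHom.id Λ B) (φ m), hinv u, inR_ff, hσ, tmap_comp_inR _ _, hD.isH_inv hu, ?_, ?_⟩
  · have := hwa'.map (tmap (AlgHom.id Λ _) (f l m hlm))
    rw [xmap_xmap, xmap_xmap, c1, c2] at this
    rw [xmap_xmap, xmap_xmap]
    exact this
  · rw [p12, p23, p13, hq, hq, hq, ← hmap_mul]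
    exact hm
  · have := hD.act_inv hu hxu
    rw [← S1.colim.compat j l hjl, ← S1.colim.compat l m hlm, ← xmap_xmap, ← xmap_xmap,
      ← hy] at this
    exact this
  · intro E _ γ δ h
    obtain ⟨θ, ha, hb⟩ := glue γ δ h
    have e : fam (hmap (tmap (AlgHom.id Λ _) (f l m hlm)) w) E
        (γ.comp (tmap (AlgHom.id Λ B) (φ m))) (δ.comp (tmap (AlgHom.id Λ B) (φ m))) =
        hmap θ g := by
      rw [fam_eq _ (θ.comp (tmap (AlgHom.id Λ _) (φ m)))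
        (by rw [RingHom.comp_assoc, c1, ← ha]; rfl)
        (by rw [RingHom.comp_assoc, c2, ← hb]; rfl), ← hmap_hmap, hmap_hmap _ _ w,
        S2.colim.compat l m hlm, hwg]
    refine Eq.trans ?_ (congrArg (hmap γ (hinv u) * ·) e.symm)
    rw [G θ ha hb, hD.hmap_hinv hu, hD.hmap_hinv hu]
    simp only [← mul_assoc]
    rw [hD.hinv_mul (hu.map γ rfl), one_mul]

end

end Pool.Agent.MP_dc2c90_ag.H20
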