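import Pool.Agent.MP_dc2c90_ag.H20.SpecB

/-! Properties of the operator `DD`. -/

namespace Pool.Agent.MP_dc2c90_ag.H20

open WittVector

noncomputable section

variable {p : ℕ} [Fact p.Prime] {n : Type} [Fintype n] [DecidableEq n] {k : Type} [Field k]
  [CharP k p] {D : Data p k n} {π : Matrix (n × n) (n × n) ℤ_[p]}

namespace RDD

variable {S : Type} [CommRing S]

theorem app_diag (d : n × n → S) (z : Matrix n n S) (i j : n) :
    app (Matrix.diagonal d) z i j = d (i, j) * z i j := by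
  rw [app_apply, Finset.sum_eq_single (i, j), Matrix.diagonal_apply_eq]
  · intro b _ hb
    rw [Matrix.diagonal_apply_ne _ hb.symm, zero_mul]
  · simp

theorem ad (hD : D.Good) (hπ : IsProj D.I π) (ζ : ℤ_[p] →+* S) {g : Matrix n n S}
    (hg : Pt D.I ζ g) : π.map ζ * (adM g g⁻¹ * π.map ζ) = adM g g⁻¹ * π.map ζ :=
  app_ext fun x => by
    rw [app_mul, app_mul, app_adM]
    exact hπ.fix S ζ _ (hD.isLie_conj hg (hπ.lie S ζ x))

theorem minus (hD : D.Good) (hπ : IsProj D.I π) (κ : WittVector p k →+* S) {x : Matrix n n S}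
    (hx : IsLie D.I (κ.comp (zO p k)) x) {i j : n} (h : 2 ≤ D.w j - D.w i) :
    (D.c'.map κ * x * D.c.map κ) i j = 0 := by
  have h0 : ∀ kl, (adM D.c' D.c * π.map (zO p k)) (i, j) kl = 0 := fun kl => by
    rw [← app_single (adM D.c' D.c * π.map (zO p k)) kl i j, app_mul, app_adM]
    exact hD.minuscule _ (hπ.lie _ _ _) i j h
  have h1 : (adM D.c' D.c * π.map (zO p k)).map κ =
      adM (D.c'.map κ) (D.c.map κ) * π.map (κ.comp (zO p k)) := by
    rw [Matrix.map_mul, adM_map, Matrix.map_map]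
    rfl
  rw [← hπ.fix S _ x hx, ← app_adM, ← app_mul, ← h1, app_apply]
  exact Finset.sum_eq_zero fun kl _ => by rw [Matrix.map_apply, h0, map_zero, zero_mul]

theorem coord (hD : D.Good) (κ : WittVector p k →+* S) (x : Matrix n n S) (i j : n) :
    (D.c'.map κ * app ((D.DD π).map κ) x * D.c.map κ) i j =
      κ (D.sc i j) * (D.c'.map κ * app (π.map (κ.comp (zO p k))) x * D.c.map κ) i j := by
  have h1 : (D.DD π).map κ = adM (D.c.map κ) (D.c'.map κ) *
      Matrix.diagonal (fun ij : n × n => κ (D.sc ij.1 ij.2)) * adM (D.c'.map κ) (D.c.map κ) *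
      π.map (κ.comp (zO p k)) := by
    rw [Data.DD, Matrix.map_mul, Matrix.map_mul, Matrix.map_mul, adM_map, adM_map,
      Matrix.diagonal_map (map_zero _), Matrix.map_map]
    rfl
  rw [h1, app_mul, app_mul, app_mul, app_adM, app_adM, ← Matrix.mul_assoc, ← Matrix.mul_assoc,
    hD.c'_mul_map, Matrix.one_mul, Matrix.mul_assoc (app _ _), hD.c'_mul_map, Matrix.mul_one,
    app_diag]

theorem inv_eq (hD : D.Good) (κ : WittVector p k →+* S) (t : Sˣ) :
    (D.c.map κ * Matrix.diagonal (fun i => ((t ^ D.w i : Sˣ) : S)) * D.c'.map κ)⁻¹ =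
      D.c.map κ * Matrix.diagonal (fun i => ((t ^ (-D.w i) : Sˣ) : S)) * D.c'.map κ := by
  apply Matrix.inv_eq_right_inv
  simp only [Matrix.mul_assoc]
  rw [← Matrix.mul_assoc (D.c'.map _), hD.c'_mul_map, Matrix.one_mul,
    ← Matrix.mul_assoc (Matrix.diagonal _), Matrix.diagonal_mul_diagonal]
  simp only [← Units.val_mul, zpow_neg, mul_inv_cancel, Units.val_one, Matrix.diagonal_one,
    Matrix.one_mul]
  exact hD.c_mul_map _

theorem gen (hD : D.Good) (hπ : IsProj D.I π) (κ : WittVector p k →+* S) (t : Sˣ)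
    (ht : (t : S) = p) {m : Matrix n n S}
    (hm : m = D.c.map κ * Matrix.diagonal (fun i => ((t ^ D.w i : Sˣ) : S)) * D.c'.map κ) :
    (p : S) • (adM m m⁻¹ * π.map (κ.comp (zO p k))) = (D.DD π).map κ := by
  refine app_ext fun x => ?_
  have hc : ∀ y y' : Matrix n n S, D.c'.map κ * y * D.c.map κ = D.c'.map κ * y' * D.c.map κ →
      y = y' := fun y y' h => by
    have h2 : ∀ z : Matrix n n S, D.c.map κ * (D.c'.map κ * z * D.c.map κ) * D.c'.map κ = z :=
      fun z => by
        rw [← Matrix.mul_assoc, ← Matrix.mul_assoc, hD.c_mul_map, Matrix.one_mul, Matrix.mul_assoc,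
          hD.c_mul_map, Matrix.mul_one]
    rw [← h2 y, h, h2]
  refine hc _ _ (Matrix.ext fun i j => ?_)
  have h3 : ∀ (a b y : Matrix n n S), D.c'.map κ * (D.c.map κ * a * D.c'.map κ * y *
      (D.c.map κ * b * D.c'.map κ)) * D.c.map κ = a * (D.c'.map κ * y * D.c.map κ) * b :=
    fun a b y => by
      simp only [Matrix.mul_assoc]
      rw [hD.c'_mul_map, Matrix.mul_one, ← Matrix.mul_assoc, hD.c'_mul_map, Matrix.one_mul]
  rw [coord hD, smul_app, app_mul, app_adM, hm, inv_eq hD, Matrix.mul_smul, Matrix.smul_mul, h3,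
    Matrix.smul_apply, Matrix.mul_diagonal, Matrix.diagonal_mul, smul_eq_mul, Data.sc]
  split_ifs with h
  · have h4 : κ ((p : WittVector p k) ^ (1 - (D.w j - D.w i)).toNat) =
        p * ((t ^ D.w i : Sˣ) : S) * ((t ^ (-D.w j) : Sˣ) : S) := by
      rw [map_pow, map_natCast, ← ht, ← Units.val_pow_eq_pow_val, ← zpow_natCast,
        Int.toNat_of_nonneg (by omega), ← Units.val_mul, ← Units.val_mul, ← zpow_one_add,
        ← zpow_add]
      exact congrArg (fun z : ℤ => ((t ^ z : Sˣ) : S)) (by ring)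
    rw [h4]
    ring
  · rw [minus hD hπ κ (hπ.lie S _ x) (by omega)]
    simp

theorem left (hD : D.Good) (hπ : IsProj D.I π) : π.map (zO p k) * D.DD π = D.DD π := by
  refine Matrix.map_injective (toT_injective_field (p := p) (k := k)) ?_
  change (π.map (zO p k) * D.DD π).map (toT p k) = (D.DD π).map (toT p k)
  rw [Matrix.map_mul, ← gen hD hπ (toT p k) (pU p k) pU_val rfl, Matrix.mul_smul]
  exact congrArg _ (ad hD hπ ((toT p k).comp (zO p k)) (hD.cochar _ _ _))

end RDD

theorem rDD (hD : D.Good) (hπ : IsProj D.I π) : SDD D π := by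
  have hππ : π * π = π := app_ext fun x => by
    rw [app_mul]
    exact hπ.fix _ (RingHom.id _) _ (hπ.lie _ (RingHom.id _) x)
  refine ⟨hππ, fun S _ ζ g hg => RDD.ad hD hπ ζ hg, RDD.left hD hπ, ?_, fun S _ κ x => ?_,
    fun S _ κ x hx i j h => RDD.minus hD hπ κ hx h, fun S _ κ x i j => RDD.coord hD κ x i j,
    fun R _ κ => ?_⟩
  · rw [Data.DD, Matrix.mul_assoc, ← Matrix.map_mul, hππ]
  · rw [← RDD.left hD hπ, Matrix.map_mul, app_mul]
    exact hπ.lie S (κ.comp (zO p k)) _
  · have h := RDD.gen hD hπ ((toT p R).comp (κ.comp frobenius)) (pU p R) pU_val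
      (m := D.mu κ) rfl
    rwa [RingHom.comp_assoc, RingHom.comp_assoc, frob_comp_zO] at h

end

end Pool.Agent.MP_dc2c90_ag.H20
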