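import Pool.Agent.MP_dc2c90_ag.H20.SpecB

/-!
First round: the quasi-isogeny is defined over a finitely generated subalgebra.
-/

namespace Pool.Agent.MP_dc2c90_ag.H20

open WittVector

noncomputable section

variable {p : ℕ} [Fact p.Prime] {n : Type} [Fintype n] [DecidableEq n] {k : Type} [Field k]
  [CharP k p] {D : Data p k n} {π : Matrix (n × n) (n × n) ℤ_[p]}

namespace RE1

variable {R : Type} [CommRing R]

theorem g_Phi {χ : WittVector p k →+* R} {x : XP p n R} (hx : D.IsX χ x) (i : ℕ) :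
    x.2 * D.Phi χ x.1 i = twProd (fT p R) (D.b (D.iota χ)) i * x.2.map (fTi p R i) := by
  induction i with
  | zero =>
    rw [Data.Phi, twProd_zero, twProd_zero, Matrix.mul_one, Matrix.one_mul]
    ext1 a b; rfl
  | succ i ih =>
    have e : x.2.map (fTi p R (i + 1)) = (x.2.map (fT p R)).map (fTi p R i) := by
      ext1 a b; exact fTi_succ' i _
    rw [Data.Phi] at ih ⊢
    rw [twProd_succ', twProd_succ', ← Matrix.mul_assoc, ih, e, Matrix.mul_assoc, Matrix.mul_assoc,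
      ← Matrix.map_mul, ← Matrix.map_mul, hx.2.2, Matrix.mul_assoc]

omit [Fintype n] in
theorem cc_one (t : ℕ) : CC t t (1 : Matrix n n (T p R)) :=
  ⟨0, by
    rw [Matrix.map_one _ (map_zero _) (map_one _), Matrix.map_zero _ (map_zero _), smul_zero,
      add_zero]⟩

theorem cc_quot (hD : D.Good) {χ : WittVector p k →+* R} {U U₀ : Matrix n n (WittVector p R)}
    (hU₀ : Pt D.I (D.zeta χ) U₀) {t : ℕ} (h : ∀ a b, (U - U₀) a b ∈ Vm p R t) :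
    CC t t ((U * U₀⁻¹).map (toT p R)) := by
  obtain ⟨Y, hY⟩ := exists_map_Vi (mul_mem_ideal_right U₀⁻¹ h)
  have e : U * U₀⁻¹ = 1 + Y.map (Vi p R t) := by
    rw [← hY, Matrix.sub_mul, hD.mul_inv hU₀, add_sub_cancel]
  rw [e]
  exact cc_one_add_Vi t Y

theorem rho_succ (hD : D.Good) (h7 : SPhi D π) {χ : WittVector p k →+* R}
    {U U₀ : Matrix n n (WittVector p R)} (hU : Pt D.I (D.zeta χ) U) (hU₀ : Pt D.I (D.zeta χ) U₀)
    (l : ℕ) :
    D.Phi χ U (l + 1) * (D.Phi χ U₀ (l + 1))⁻¹ =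
      D.Phi χ U 1 * (D.Phi χ U l * (D.Phi χ U₀ l)⁻¹).map (fTi p R 1) * (D.Phi χ U 1)⁻¹ *
        (U * U₀⁻¹).map (toT p R) := by
  have e1 : ∀ y : Matrix n n (T p R), y.map (fTi p R 1) = y.map (fT p R) := fun y => by
    ext1 a b; exact fTi_one _
  have e2 : D.Phi χ U 1 = U.map (toT p R) * D.mu (D.iota χ) := twProd_one _ _
  have e3 : ∀ V : Matrix n n (WittVector p R), D.Phi χ V (l + 1) =
      V.map (toT p R) * D.mu (D.iota χ) * (D.Phi χ V l).map (fT p R) := fun V => rfl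
  have hUT : Pt D.I ((toT p R).comp (D.zeta χ)) (U.map (toT p R)) := hU.map _ rfl
  rw [e1, e2, e3, e3, Matrix.map_mul, Matrix.map_mul,
    map_inv_of_isUnit _ (hD.isUnit (h7.pt R χ U₀ hU₀ l)), map_inv_of_isUnit _ (hD.isUnit hU₀),
    Matrix.mul_inv_rev, Matrix.mul_inv_rev, Matrix.mul_inv_rev]
  simp only [Matrix.mul_assoc]
  rw [← Matrix.mul_assoc (U.map (toT p R))⁻¹, hD.inv_mul hUT, Matrix.one_mul]

theorem rho_cc (hD : D.Good) (h4 : SContr D π) (h7 : SPhi D π) :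
    ∃ m₁ : ℕ, ∀ (R : Type) [CommRing R] (χ : WittVector p k →+* R)
      (U U₀ : Matrix n n (WittVector p R)) (M : ℕ), Pt D.I (D.zeta χ) U → Pt D.I (D.zeta χ) U₀ →
      (∀ a b, (U - U₀) a b ∈ Vm p R M) → ∀ l t, l + t = M → m₁ ≤ t →
      CC t t (D.Phi χ U l * (D.Phi χ U₀ l)⁻¹) := by
  obtain ⟨m₁, hm₁⟩ := h4 1
  refine ⟨m₁, fun R _ χ U U₀ M hU hU₀ h l => ?_⟩
  induction l with
  | zero =>
    intro t _ _
    have e : ∀ V : Matrix n n (WittVector p R), D.Phi χ V 0 = 1 := fun V => rfl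
    rw [e, e, inv_one, Matrix.mul_one]
    exact cc_one t
  | succ l ih =>
    intro t ht hm
    rw [rho_succ hD h7 hU hU₀]
    refine CC.mul ?_ (cc_quot hD hU₀ fun a b => Vm_anti (by omega) (h a b))
    refine hm₁ R χ U 0 (t + 1) t _ hU
      (hD.pt_mul (h7.pt R χ U hU l) (hD.pt_inv (h7.pt R χ U₀ hU₀ l))) (by omega) (by omega) ?_
      ⟨_, by rw [pow_zero, one_smul]⟩
    rw [add_comm 1 t]
    exact ih (t + 1) (by omega) (by omega)

end RE1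

open RE1 in
theorem rE1 [IsAlgClosed k] (hD : D.Good) (h1 : SAppT D) (h2 : SAppG D) (h3 : SAdNil D π)
    (h4 : SContr D π) (h5 : SInt D) (h6 : SLift D) (h7 : SPhi D π) : SE1 D := by
  classical
  intro R _ χ hR x hx
  obtain ⟨a, ha⟩ := h1 R χ hR x.2 hx.2.1
  obtain ⟨i, l₀, Z, hZ⟩ := h3 R χ x hx a
  obtain ⟨m₀, hm₀⟩ := h4 i
  obtain ⟨m₁, hm₁⟩ := rho_cc hD h4 h7
  obtain ⟨M₀, hM₀⟩ := h6
  obtain ⟨M, hM⟩ : ∃ M : ℕ, M = l₀ + m₁ + M₀ + 2 * a + m₀ := ⟨_, rfl⟩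
  obtain ⟨e, he⟩ : ∃ e : ℕ, e + a = i + (M + 1) := ⟨i + (M + 1) - a, by omega⟩
  obtain ⟨s, g', hg', hgs, hcc⟩ := ha e
  obtain ⟨s', hs'⟩ := exists_finset_coeff x.1 (i + (M + 1))
  have hB : ∀ o, χ o ∈ gen χ (s ∪ s') := mem_gen_of_range χ _
  obtain ⟨U₀, hU₀, hU₀B, hUU₀⟩ := h2 R χ hR x.1 (i + (M + 1)) (gen χ (s ∪ s')) hx.1 (by omega) hB
    fun a b l hl => mem_gen_of_mem χ (Finset.mem_union_right _ (hs' a b l hl))
  have hg'B : InTS (gen χ (s ∪ s')) g' := hgs.mono (gen_mono χ Finset.subset_union_left)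
  have hPU := h7.pt R χ x.1 hx.1 i
  have hPU₀ := h7.pt R χ U₀ hU₀ i
  have hq : Pt D.I ((toT p R).comp (D.zeta χ)) (x.2⁻¹ * g') := hD.pt_mul (hD.pt_inv hx.2.1) hg'
  have hqi := hq.map (fTi p R i) (hD.fTi_comp_zeta χ i)
  have hAA : ∃ Z', (D.AA π χ x.1 i).map (Fi p R (M + 1)) = (p : WittVector p R) ^ a • Z' := by
    obtain ⟨d, hd⟩ : ∃ d, M + 1 = d + l₀ := ⟨M + 1 - l₀, by omega⟩
    refine ⟨Z.map (Fi p R d), ?_⟩
    ext1 s t
    have := congrFun (congrFun hZ s) t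
    simp only [Matrix.map_apply, Matrix.smul_apply, smul_eq_mul] at this ⊢
    rw [hd, Fi_add, this, map_mul, map_pow, map_natCast]
  have c1 := hm₀ R χ x.1 a e (M + 1) _ hx.1 hq he (by omega) (he ▸ hcc) hAA
  have c2 := hm₁ R χ x.1 U₀ _ hx.1 hU₀ hUU₀ i (M + 1) rfl (by omega)
  have c3 := c1.mul c2
  have hκ := hD.pt_mul (hD.pt_mul (hD.pt_mul hPU hqi) (hD.pt_inv hPU))
    (hD.pt_mul hPU (hD.pt_inv hPU₀))
  obtain ⟨Y, hY, hYκ⟩ := h5 R χ hR (M + 1) _ (by omega) hκ c3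
  obtain ⟨Y', hH⟩ := hM₀ R χ hR M Y (by omega) hY
  refine ⟨s ∪ s', _, _, hH, hD.exists_act hH x, ?_⟩
  have e1 : x.2 * (D.Phi χ x.1 i * (x.2⁻¹ * g').map (fTi p R i) * (D.Phi χ x.1 i)⁻¹ *
      (D.Phi χ x.1 i * (D.Phi χ U₀ i)⁻¹)) =
      twProd (fT p R) (D.b (D.iota χ)) i * g'.map (fTi p R i) * (D.Phi χ U₀ i)⁻¹ := by
    rw [Matrix.mul_assoc _ (D.Phi χ x.1 i)⁻¹, ← Matrix.mul_assoc (D.Phi χ x.1 i)⁻¹,
      hD.inv_mul hPU, Matrix.one_mul, ← Matrix.mul_assoc, ← Matrix.mul_assoc, g_Phi hx,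
      Matrix.mul_assoc (twProd _ _ _), ← Matrix.map_mul, ← Matrix.mul_assoc x.2,
      hD.mul_inv hx.2.1, Matrix.one_mul]
  change InTS _ (x.2 * (1 + Y.map (Vi p R (M + 1))).map (toT p R))
  rw [hYκ, e1]
  refine mul_mem_matrix (mul_mem_matrix
    (twProd_mem (fun _ => fT_mem_TS) (Data.b_mem_TS hB) i) fun a b => fTi_mem_TS i (hg'B a b)) ?_
  refine hD.inv_mem_subring hPU₀ _ (fun z => toT_mem_TS (Data.zeta_mem_WS hB z)) ?_
  exact twProd_mem (fun _ => fT_mem_TS)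
    (mul_mem_matrix (fun a b => toT_mem_TS (hU₀B a b)) (Data.mu_mem_TS hB)) i

end

end Pool.Agent.MP_dc2c90_ag.H20
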