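import Pool.Agent.MP_dc2c90_ag.H20.SpecB

/-!
Second round of the descent to a finitely generated subalgebra.
-/

namespace Pool.Agent.MP_dc2c90_ag.H20

open WittVector

noncomputable section

variable {p : ℕ} [Fact p.Prime] {n : Type} [Fintype n] [DecidableEq n] {k : Type} [Field k]
  [IsAlgClosed k] [CharP k p] {D : Data p k n} {π : Matrix (n × n) (n × n) ℤ_[p]}

namespace RE2

variable {R : Type} [CommRing R]

omit [Fintype n] in
theorem toT_one_add {B : Subring R} {u m : ℕ} {Y : Matrix n n (WittVector p R)}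
    (h : InWS B ((p : WittVector p R) ^ u • Y)) :
    InTS B ((1 + Y.map (Vi p R m)).map (toT p R)) := fun i j => by
  refine mem_TS.2 ⟨u, (p : WittVector p R) ^ u * (1 + Y.map (Vi p R m)) i j, ?_, ?_⟩
  · rw [Matrix.add_apply, mul_add, Matrix.map_apply, ← Vi_p_mul]
    exact add_mem (mul_mem (pow_mem (natCast_mem _ p) u) (one_mem_matrix _ i j))
      (Vi_mem_WS.2 (h i j))
  · rw [map_mul, map_pow, map_natCast, Matrix.map_apply]

omit [IsAlgClosed k] in
theorem pow_mul_mem (hD : D.Good) {χ : WittVector p k →+* R} {B : Subring R}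
    (hB : ∀ o, χ o ∈ B) {x : XP p n R} (hx : D.IsX χ x) (hg : InTS B x.2) :
    ∃ u : ℕ, ∀ i j, (p : WittVector p R) ^ u * x.1 i j ∈ WS p B := by
  have hζ : ∀ z, ((toT p R).comp (D.zeta χ)) z ∈ TS p B :=
    fun z => toT_mem_TS (Data.zeta_mem_WS hB z)
  have hμ : Pt D.I ((toT p R).comp (D.zeta χ)) (D.mu (D.iota χ)) := hD.mu_pt _
  have e : x.1.map (toT p R) =
      x.2⁻¹ * (D.b (D.iota χ) * x.2.map (fT p R)) * (D.mu (D.iota χ))⁻¹ := by
    rw [hx.2.2, Matrix.mul_assoc x.2, ← Matrix.mul_assoc x.2⁻¹, hD.inv_mul hx.2.1, Matrix.one_mul,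
      Matrix.mul_assoc, hD.mul_inv hμ, Matrix.mul_one]
  refine exists_pow_mul_mem_WS_matrix fun i j => ?_
  rw [← Matrix.map_apply (f := toT p R), e]
  exact mul_mem_matrix (mul_mem_matrix (hD.inv_mem_subring hx.2.1 _ hζ hg)
    (mul_mem_matrix (Data.b_mem_TS hB) fun i j => fT_mem_TS (hg i j)))
    (hD.inv_mem_subring hμ _ hζ (Data.mu_mem_TS hB)) i j

end RE2

open RE2 in
theorem rE2 (hD : D.Good) (h1 : SAppG D) (h2 : SAdNil D π) (h3 : SACong D π) (h4 : SLift D)
    (h5 : SLin D π) : SE2 D := by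
  classical
  intro R _ χ hR s₀ x hx hg
  obtain ⟨u, hu⟩ := pow_mul_mem hD (mem_gen_of_range χ s₀) hx hg
  obtain ⟨i, l₀, Z, hZ⟩ := h2 R χ x hx u
  obtain ⟨M₀, h4⟩ := h4
  obtain ⟨r₀, h5⟩ := h5
  obtain ⟨c, hc⟩ : ∃ c, c = M₀ + 2 * (u + r₀) + 1 := ⟨_, rfl⟩
  obtain ⟨s₁, hs₁⟩ := exists_finset_coeff x.1 (c + (u + l₀) + i)
  obtain ⟨s₂, hs₂⟩ := exists_finset_coeff Z u
  set B := gen χ (s₀ ∪ s₁ ∪ s₂) with hBdef
  have hB : ∀ o, χ o ∈ B := mem_gen_of_range χ _
  have hle : gen χ s₀ ≤ B := gen_mono χ (by intro r hr; simp [hr])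
  have hζ : ∀ z, D.zeta χ z ∈ WS p B := Data.zeta_mem_WS hB
  have hp : (p : WittVector p R) ^ u ∈ WS p B := pow_mem (natCast_mem _ p) u
  obtain ⟨U, hU, hUB, hUc⟩ := h1 R χ hR x.1 (c + (u + l₀) + i) B hx.1 (by omega) hB
    fun a b l hl => mem_gen_of_mem χ (by simp [hs₁ a b l hl])
  have hUi : InWS B U⁻¹ := hD.inv_mem_subring hU _ hζ hUB
  obtain ⟨Y, hY⟩ := exists_map_Vi (mul_mem_ideal_right U⁻¹ hUc)
  have hY' : x.1 * U⁻¹ = 1 + Y.map (Vi p R (c + (u + l₀) + i)) := by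
    rw [← hY, Matrix.sub_mul, hD.mul_inv hU]; abel
  have hYB : InWS B ((p : WittVector p R) ^ u • Y) := fun a b => by
    rw [Matrix.smul_apply, smul_eq_mul, ← Vi_mem_WS (m := c + (u + l₀) + i), Vi_p_mul,
      ← Matrix.map_apply (f := Vi p R _), ← hY, ← smul_eq_mul, ← Matrix.smul_apply,
      ← Matrix.smul_mul, smul_sub]
    exact mul_mem_matrix (fun a b => sub_mem (WS_mono hle (hu a b)) (mul_mem hp (hUB a b)))
      hUi a b
  have key : ∀ l m, l + m = c + (u + l₀) + i → l ≤ i →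
      ∃ (h : HP p n R) (g : Matrix n n (T p R)) (Y' : Matrix n n (WittVector p R)),
        D.IsH χ h ∧ Act x h ((1 + Y'.map (Vi p R m)) * U, g) ∧
        Pt D.I (D.zeta χ) (1 + Y'.map (Vi p R m)) ∧ InTS B g ∧
        InWS B (Y' - app ((D.AA π χ U l).map (Fi p R m)) Y) := by
    intro l
    induction l with
    | zero =>
      intro m hm _
      obtain rfl : m = c + (u + l₀) + i := by omega
      refine ⟨1, x.2, Y, hD.isH_one χ, ?_, ?_, hg.mono hle, fun a b => ?_⟩
      · rw [← hY', Matrix.mul_assoc, hD.inv_mul hU, Matrix.mul_one]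
        exact Act.one x
      · rw [← hY']; exact hD.pt_mul hx.1 (hD.pt_inv hU)
      · rw [Data.AA, twProd_zero, Matrix.map_one _ (map_zero _) (map_one _), app_one, sub_self]
        exact zero_mem _
    | succ l ih =>
      intro m hm hl
      obtain ⟨h, g, Y₁, hh, ha, hpt, hgB, hY₁⟩ := ih (m + 1) (by omega) (by omega)
      obtain ⟨Y₂, hH⟩ := h4 R χ hR m Y₁ (by omega) hpt
      have hA : InWS B ((D.AA π χ U l).map (Fi p R (m + 1))) :=
        fun a b => Fi_mem_WS _ (h3.aa R χ U B hU hB hUB l a b)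
      have hY₁B : InWS B ((p : WittVector p R) ^ u • Y₁) := fun a b => by
        have e : (p : WittVector p R) ^ u • Y₁ = (p : WittVector p R) ^ u •
            (Y₁ - app ((D.AA π χ U l).map (Fi p R (m + 1))) Y) +
            app ((D.AA π χ U l).map (Fi p R (m + 1))) ((p : WittVector p R) ^ u • Y) := by
          rw [app_smul, smul_sub, sub_add_cancel]
        rw [e]
        exact add_mem (mul_mem hp (hY₁ a b)) (app_mem hA hYB a b)
      have hlin := h5 R χ B u m Y₁ Y₂ hB (by omega) hH hY₁B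
      have e : 1 + (U.map (Fi p R m) * Y₂ * U⁻¹.map (Fi p R m)).map (Vi p R m) =
          U * (1 + Y₂.map (Vi p R m)) * U⁻¹ := by
        rw [← map_Vi_mul, ← mul_map_Vi, Matrix.mul_add, Matrix.add_mul, Matrix.mul_one,
          hD.mul_inv hU]
      refine ⟨h * (1 + Y₁.map (Vi p R (m + 1)), 1 + Y₂.map (Vi p R m)),
        g * (1 + Y₁.map (Vi p R (m + 1))).map (toT p R),
        U.map (Fi p R m) * Y₂ * U⁻¹.map (Fi p R m), hD.isH_mul hh hH, ha.mul ⟨?_, rfl⟩, ?_,
        mul_mem_matrix hgB (toT_one_add hY₁B), fun a b => ?_⟩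
      · rw [e]
        simp only [Matrix.mul_assoc, hD.inv_mul hU, Matrix.mul_one]
      · rw [e]
        exact hD.pt_mul (hD.pt_mul hU hH.2.1) (hD.pt_inv hU)
      · have e1 : (D.AA π χ U (l + 1)).map (Fi p R m) =
            (D.psi π χ U).map (Fi p R m) * (D.AA π χ U l).map (Fi p R (m + 1)) := by
          have e0 : ((D.AA π χ U l).map frobenius).map (Fi p R m) =
              (D.AA π χ U l).map (Fi p R (m + 1)) := by
            ext1 s t
            exact (Fi_succ' m _).symm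
          rw [← e0, ← Matrix.map_mul]
          rfl
        have e2 : U.map (Fi p R m) * Y₂ * U⁻¹.map (Fi p R m) -
            app ((D.AA π χ U (l + 1)).map (Fi p R m)) Y =
            U.map (Fi p R m) *
              (Y₂ - app ((D.DD π).map ((D.iota χ).comp (Fi p k (m + 1)))) Y₁) *
              U⁻¹.map (Fi p R m) + app ((D.psi π χ U).map (Fi p R m))
              (Y₁ - app ((D.AA π χ U l).map (Fi p R (m + 1))) Y) := by
          rw [e1, app_mul, app_sub, h3.twist R χ U m Y₁ hU, Matrix.mul_sub, Matrix.sub_mul]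
          abel
        rw [e2]
        exact add_mem (mul_mem_matrix (mul_mem_matrix (fun a b => Fi_mem_WS _ (hUB a b)) hlin)
          (fun a b => Fi_mem_WS _ (hUi a b)) a b)
          (app_mem (fun a b => Fi_mem_WS _ (h3.psi R χ U B hU hB hUB a b)) hY₁ a b)
  obtain ⟨h, g, Y₁, hh, ha, -, hgB, hY₁⟩ := key i (c + (u + l₀)) (by omega) le_rfl
  have hdiv : ∀ s t, ∃ z ∈ WS p B,
      Fi p R (c + (u + l₀)) (D.AA π χ U i s t) = (p : WittVector p R) ^ u * z := by
    intro s t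
    have e0 := h3.cong R χ x.1 U (c + (u + l₀)) i hx.1 hU hUc s t
    have e1 : Fi p R l₀ (D.AA π χ U i s t) - (p : WittVector p R) ^ u * Z s t ∈ Vm p R u := by
      have e2 := Fi_mem_Vm (m := u) (l := l₀) (Vm_anti (by omega) e0)
      have e3 : Fi p R l₀ (D.AA π χ x.1 i s t) = (p : WittVector p R) ^ u * Z s t :=
        congrFun (congrFun hZ s) t
      rw [Matrix.sub_apply, map_sub, e3] at e2
      simpa using (Vm p R u).neg_mem e2
    obtain ⟨z, hz, e4⟩ := div_mem_WS (Fi_mem_WS l₀ (h3.aa R χ U B hU hB hUB i s t)) e1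
      fun l hl => mem_gen_of_mem χ (by simp [hs₂ s t l hl])
    refine ⟨Fi p R c z, Fi_mem_WS c hz, ?_⟩
    rw [Fi_add, Fi_add, e4, map_mul, map_pow, map_natCast]
  choose Z₁ hZ₁ hZ₁' using hdiv
  have e5 : (D.AA π χ U i).map (Fi p R (c + (u + l₀))) =
      (p : WittVector p R) ^ u • Matrix.of Z₁ := by
    ext1 s t
    exact hZ₁' s t
  rw [e5, smul_app, ← app_smul] at hY₁
  refine ⟨_, h, _, hh, ha, mul_mem_matrix (fun a b => ?_) hUB, hgB⟩
  refine add_mem (one_mem_matrix _ a b) (Vi_mem_WS.2 ?_)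
  have h6 := add_mem (hY₁ a b) (app_mem (A := Matrix.of Z₁) hZ₁ hYB a b)
  rwa [Matrix.sub_apply, sub_add_cancel] at h6

end

end Pool.Agent.MP_dc2c90_ag.H20
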