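import Pool.Agent.MP_dc2c90_ag.H20.SpecA

/-!
Finitely generated subalgebras of a directed colimit factor through a finite stage.
-/

namespace Pool.Agent.MP_dc2c90_ag.H20

namespace RFP

variable {ι : Type} [Preorder ι] {R : ι → Type} [∀ i, CommRing (R i)]
  {f : ∀ i j, i ≤ j → R i →+* R j} {A : Type} [CommRing A] {φ : ∀ i, R i →+* A}

theorem comp_apply (h : IsColim R f A φ) {i j l : ι} (hij : i ≤ j) (hjl : j ≤ l) (r : R i) :
    f j l hjl (f i j hij r) = f i l (hij.trans hjl) r :=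
  RingHom.congr_fun (h.comp i j l hij hjl) r

theorem compat_apply (h : IsColim R f A φ) {i j : ι} (hij : i ≤ j) (r : R i) :
    φ j (f i j hij r) = φ i r :=
  RingHom.congr_fun (h.compat i j hij) r

theorem fin_zero (h : IsColim R f A φ) {α : Type} (i : ι) (t : Finset α) (g : α → R i)
    (ht : ∀ a ∈ t, φ i (g a) = 0) : ∃ (j : ι) (hij : i ≤ j), ∀ a ∈ t, f i j hij (g a) = 0 := by
  classical
  induction t using Finset.induction_on with
  | empty => exact ⟨i, le_rfl, by simp⟩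
  | insert a t _ ih =>
    obtain ⟨j, hij, hj⟩ := ih fun b hb => ht b (Finset.mem_insert_of_mem hb)
    obtain ⟨j', hij', hj'⟩ := h.zero i (g a) (ht a (Finset.mem_insert_self _ _))
    obtain ⟨l, h1, h2⟩ := h.directed j j'
    refine ⟨l, hij.trans h1, fun b hb => ?_⟩
    rcases Finset.mem_insert.1 hb with rfl | hb
    · rw [← comp_apply h hij' h2, hj', map_zero]
    · rw [← comp_apply h hij h1, hj b hb, map_zero]

theorem fin_lift (h : IsColim R f A φ) (s : Finset A) :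
    ∃ (i : ι) (s₀ : Finset (R i)), φ i '' (s₀ : Set (R i)) = (s : Set A) := by
  classical
  induction s using Finset.induction_on with
  | empty => exact ⟨h.nonempty.some, ∅, by simp⟩
  | insert a s _ ih =>
    obtain ⟨i, s₀, hs⟩ := ih
    obtain ⟨j, r, hr⟩ := h.surj a
    obtain ⟨l, h1, h2⟩ := h.directed i j
    refine ⟨l, insert (f j l h2 r) (s₀.image (f i l h1)), ?_⟩
    rw [Finset.coe_insert, Finset.coe_insert, Set.image_insert_eq, compat_apply h, hr,
      Finset.coe_image, Set.image_image, ← hs]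
    simp only [compat_apply h]

theorem part3 (hN : SNoeth) (h : IsColim R f A φ) {O : Type} [CommRing O] [IsNoetherianRing O]
    (i : ι) (χ : O →+* R i) (s₀ : Finset (R i)) :
    ∃ (j : ι) (hij : i ≤ j), ∀ r ∈ gen χ s₀, φ i r = 0 → f i j hij r = 0 := by
  haveI := hN O (R i) χ s₀
  obtain ⟨t, ht⟩ := (IsNoetherian.noetherian
    (RingHom.ker ((φ i).comp (gen χ s₀).subtype)) : Submodule.FG _)
  obtain ⟨j, hij, hj⟩ := fin_zero h i t (fun a : gen χ s₀ => (a : R i)) fun a ha => by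
    have : a ∈ RingHom.ker ((φ i).comp (gen χ s₀).subtype) := ht ▸ Submodule.subset_span ha
    exact this
  refine ⟨j, hij, fun r hr h0 => ?_⟩
  have h1 : RingHom.ker ((φ i).comp (gen χ s₀).subtype)
      ≤ RingHom.ker ((f i j hij).comp (gen χ s₀).subtype) := by
    rw [← ht]
    exact Submodule.span_le.2 fun a ha => hj a ha
  exact h1 (x := ⟨r, hr⟩) h0

theorem part1 (hN : SNoeth) (h : IsColim R f A φ) {O : Type} [CommRing O] [IsNoetherianRing O]
    (χ : ∀ i, O →+* R i) (χA : O →+* A) (h1 : ∀ i j h, (f i j h).comp (χ i) = χ j)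
    (h2 : ∀ i, (φ i).comp (χ i) = χA) (s : Finset A) :
    ∃ (i : ι) (ψ : gen χA s →+* R i),
      (φ i).comp ψ = (gen χA s).subtype ∧ ψ.comp (genχ χA s) = χ i := by
  obtain ⟨i, s₀, hs⟩ := fin_lift h s
  obtain ⟨j, hij, hj⟩ := part3 hN h i (χ i) s₀
  have hmap : (gen (χ i) s₀).map (φ i) = gen χA s := by
    unfold gen
    rw [RingHom.map_closure, Set.image_union, hs, ← Set.range_comp, ← h2 i, RingHom.coe_comp]
  have hmem : ∀ r : gen (χ i) s₀, ((φ i).comp (gen (χ i) s₀).subtype) r ∈ gen χA s := fun r =>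
    hmap ▸ Subring.mem_map.2 ⟨r, r.2, rfl⟩
  let π : gen (χ i) s₀ →+* gen χA s := ((φ i).comp (gen (χ i) s₀).subtype).codRestrict _ hmem
  have hπ : Function.Surjective π := by
    rintro ⟨a, ha⟩
    rw [← hmap] at ha
    obtain ⟨r, hr, rfl⟩ := Subring.mem_map.1 ha
    exact ⟨⟨r, hr⟩, rfl⟩
  have hker : RingHom.ker π ≤ RingHom.ker ((f i j hij).comp (gen (χ i) s₀).subtype) := by
    intro r hr
    exact hj r r.2 (congrArg Subtype.val (RingHom.mem_ker.1 hr))
  let ψ : gen χA s →+* R j := π.liftOfSurjective hπ ⟨_, hker⟩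
  have hψ : ∀ r, ψ (π r) = f i j hij r := fun r =>
    RingHom.liftOfRightInverse_comp_apply π _ _ ⟨_, hker⟩ r
  refine ⟨j, ψ, ?_, ?_⟩
  · ext a
    obtain ⟨r, rfl⟩ := hπ a
    rw [RingHom.comp_apply, hψ, compat_apply h]
    rfl
  · ext o
    have e : genχ χA s o = π (genχ (χ i) s₀ o) :=
      Subtype.ext (RingHom.congr_fun (h2 i) o).symm
    rw [RingHom.comp_apply, e, hψ]
    exact RingHom.congr_fun (h1 i j hij) o

theorem part2 (hN : SNoeth) (h : IsColim R f A φ) {O : Type} [CommRing O] [IsNoetherianRing O]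
    (χ : ∀ i, O →+* R i) (χA : O →+* A) (h1 : ∀ i j h, (f i j h).comp (χ i) = χ j)
    (h2 : ∀ i, (φ i).comp (χ i) = χA) (i : ι) (s₀ : Finset (R i)) (s : Finset A)
    (ρ : gen (χ i) s₀ →+* gen χA s)
    (hρ : (gen χA s).subtype.comp ρ = (φ i).comp (gen (χ i) s₀).subtype) :
    ∃ (j : ι) (hij : i ≤ j) (ψ : gen χA s →+* R j),
      (φ j).comp ψ = (gen χA s).subtype ∧ ψ.comp (genχ χA s) = χ j ∧
      ψ.comp ρ = (f i j hij).comp (gen (χ i) s₀).subtype := by
  obtain ⟨i₁, ψ₁, a1, a2⟩ := part1 hN h χ χA h1 h2 s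
  obtain ⟨l, hil, hi₁l⟩ := h.directed i i₁
  obtain ⟨j, hlj, hj⟩ := fin_zero h l s₀.attach
    (fun r => f i₁ l hi₁l (ψ₁ (ρ ⟨r.1, mem_gen_of_mem _ r.2⟩)) - f i l hil r.1) fun r _ => by
      rw [map_sub, compat_apply h, compat_apply h, sub_eq_zero]
      exact (RingHom.congr_fun a1 _).trans (RingHom.congr_fun hρ _)
  have b2 : ((f i₁ j (hi₁l.trans hlj)).comp ψ₁).comp (genχ χA s) = χ j := by
    rw [RingHom.comp_assoc, a2, h1]
  refine ⟨j, hil.trans hlj, (f i₁ j (hi₁l.trans hlj)).comp ψ₁, ?_, b2, ?_⟩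
  · rw [← RingHom.comp_assoc, h.compat, a1]
  · ext ⟨r, hr⟩
    unfold gen at hr
    induction hr using Subring.closure_induction with
    | mem x hx =>
      rcases hx with ⟨o, rfl⟩ | hx
      · have e : ρ ⟨χ i o, mem_gen_of_range _ _ o⟩ = genχ χA s o :=
          Subtype.ext ((RingHom.congr_fun hρ _).trans (RingHom.congr_fun (h2 i) o))
        exact (congrArg ((f i₁ j (hi₁l.trans hlj)).comp ψ₁) e).trans
          ((RingHom.congr_fun b2 o).trans (RingHom.congr_fun (h1 i j (hil.trans hlj)) o).symm)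
      · have := hj ⟨x, hx⟩ (Finset.mem_attach _ _)
        rw [map_sub, comp_apply h, comp_apply h, sub_eq_zero] at this
        exact this
    | zero => exact (map_zero _).trans (map_zero _).symm
    | one => exact (map_one _).trans (map_one _).symm
    | add x y hx hy ex ey =>
      exact (map_add _ (⟨x, hx⟩ : gen (χ i) s₀) ⟨y, hy⟩).trans
        ((congrArg₂ (· + ·) ex ey).trans (map_add _ (⟨x, hx⟩ : gen (χ i) s₀) ⟨y, hy⟩).symm)
    | neg x hx ex =>
      exact (map_neg _ (⟨x, hx⟩ : gen (χ i) s₀)).trans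
        ((congrArg Neg.neg ex).trans (map_neg _ (⟨x, hx⟩ : gen (χ i) s₀)).symm)
    | mul x y hx hy ex ey =>
      exact (map_mul _ (⟨x, hx⟩ : gen (χ i) s₀) ⟨y, hy⟩).trans
        ((congrArg₂ (· * ·) ex ey).trans (map_mul _ (⟨x, hx⟩ : gen (χ i) s₀) ⟨y, hy⟩).symm)

end RFP

theorem rFP (h : SNoeth) : SFP := by
  intro O _ _ ι _ R _ f A _ φ hc χ χA h1 h2
  exact ⟨RFP.part1 h hc χ χA h1 h2, RFP.part2 h hc χ χA h1 h2,
    fun i s₀ => RFP.part3 h hc i (χ i) s₀⟩

end Pool.Agent.MP_dc2c90_ag.H20
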