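import Pool.Agent.MP_dc2c90_ag.H20.SpecB
import Pool.Agent.MP_dc2c90_ag.H20.RFP
import Pool.Agent.MP_dc2c90_ag.H20.RTens

/-!
The banal groupoid: essential surjectivity and faithfulness.
-/

namespace Pool.Agent.MP_dc2c90_ag.H20

open WittVector

noncomputable section

variable {p : ℕ} [Fact p.Prime] {n : Type} [Fintype n] [DecidableEq n] {k : Type} [Field k]
  [IsAlgClosed k] [CharP k p] {D : Data p k n}

namespace REss

omit [IsAlgClosed k] in
/-- Every point of `X` is isomorphic to one defined over a finitely generated subalgebra. -/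
theorem norm (hD : D.Good) (h1 : SE1 D) (h2 : SE2 D) {R : Type} [CommRing R]
    (χ : WittVector p k →+* R) (hR : IsNilpotent (p : R)) (x : XP p n R) (hx : D.IsX χ x) :
    ∃ (s : Finset R) (h : HP p n R) (y : XP p n R), D.IsH χ h ∧ Act x h y ∧ D.IsX χ y ∧
      InWS (gen χ s) y.1 ∧ InTS (gen χ s) y.2 := by
  obtain ⟨s₀, a, y₀, ha, hact, hy₀⟩ := h1 R χ hR x hx
  have hX₀ := hD.isX_of_act hx ha hact
  obtain ⟨s, b, y, hb, hact', hy1, hy2⟩ := h2 R χ hR s₀ y₀ hX₀ hy₀
  exact ⟨s, a * b, y, hD.isH_mul ha hb, hact.mul hact', hD.isX_of_act hX₀ hb hact', hy1, hy2⟩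

omit [Fintype n] in
theorem map_eq_one {R A A' : Type} [CommRing R] [CommRing A] [CommRing A'] {B : Subring R}
    {φ : R →+* A} {ψ : R →+* A'} (hk : ∀ r ∈ B, φ r = 0 → ψ r = 0)
    {a : Matrix n n (WittVector p R)} (ha : InWS B a) (h : a.map (WittVector.map φ) = 1) :
    a.map (WittVector.map ψ) = 1 := by
  have one : ∀ {C : Type} [CommRing C] (θ : R →+* C) (i j : n),
      WittVector.map (p := p) θ ((1 : Matrix n n (WittVector p R)) i j) =
        (1 : Matrix n n (WittVector p C)) i j := by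
    intro C _ θ i j
    simp only [Matrix.one_apply]
    split_ifs
    · exact map_one _
    · exact map_zero _
  ext1 i j
  have hz : a i j - (1 : Matrix n n (WittVector p R)) i j ∈ WS p B := by
    refine sub_mem (ha i j) ?_
    simp only [Matrix.one_apply]
    split_ifs
    · exact one_mem _
    · exact zero_mem _
  have h0 : WittVector.map φ (a i j - (1 : Matrix n n (WittVector p R)) i j) = 0 := by
    rw [map_sub, one, sub_eq_zero]
    exact congrFun (congrFun h i) j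
  have h1 : WittVector.map ψ (a i j - (1 : Matrix n n (WittVector p R)) i j) = 0 := by
    ext l
    rw [map_coeff, zero_coeff]
    refine hk _ (mem_WS.1 hz l) ?_
    rw [← map_coeff, h0, zero_coeff]
  rw [map_sub, one, sub_eq_zero] at h1
  exact h1

end REss

theorem rEss (hD : D.Good) (h1 : SE1 D) (h2 : SE2 D) : SEss D := by
  intro ι _ R _ f A _ φ χ χA hS x hx
  obtain ⟨i₀⟩ := hS.colim.nonempty
  have hA : IsNilpotent (p : A) := isNilpotent_p_map (φ i₀) (hS.nil i₀)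
  obtain ⟨s, h, y, hh, hact, hy, hy1, hy2⟩ := REss.norm hD h1 h2 χA hA x hx
  obtain ⟨x₁, hx₁, e₁⟩ := Data.IsX.exists_sub (χB := genχ χA s) rfl hy hy1 hy2
  obtain ⟨i, ψ, hψ, hψχ⟩ :=
    (rFP rNoeth (WittVector p k) ι R f A φ hS.colim χ χA hS.fχ hS.φχ).1 s
  refine ⟨i, xmap ψ x₁, hinv h, hx₁.map ψ hψχ, hD.isH_inv hh, ?_⟩
  rw [xmap_xmap, hψ, e₁]
  exact hD.act_inv hh hact

theorem rFaith (hD : D.Good) (h1 : SE1 D) (h2 : SE2 D) (h3 : SF D) : SFaith D := by
  intro ι _ R _ f A _ φ χ χA hS i x y h h' hx hh hh' ha ha' he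
  obtain ⟨s₀, a, x₀, hH, hact, hx₀, hw, ht⟩ := REss.norm hD h1 h2 (χ i) (hS.nil i) x hx
  have hk : D.IsH (χ i) (hinv a * (h' * hinv h) * a) :=
    hD.isH_mul (hD.isH_mul (hD.isH_inv hH) (hD.isH_mul hh' (hD.isH_inv hh))) hH
  have hka : Act x₀ (hinv a * (h' * hinv h) * a) x₀ :=
    ((hD.act_inv hH hact).mul (ha'.mul (hD.act_inv hh ha))).mul hact
  obtain ⟨s₁, -, hs1, hs2⟩ := h3 (R i) (χ i) (hS.nil i) s₀ x₀ x₀ _ hx₀ hx₀ hk hka hw ht hw ht
  have hone : hmap (φ i) (hinv a * (h' * hinv h) * a) = 1 := by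
    rw [hmap_mul, hmap_mul, hmap_mul, ← he, ← hmap_mul (φ i) h, hD.mul_hinv hh, hmap_one, mul_one,
      ← hmap_mul, hD.hinv_mul hH, hmap_one]
  obtain ⟨j, hij, hj⟩ :=
    (rFP rNoeth (WittVector p k) ι R f A φ hS.colim χ χA hS.fχ hS.φχ).2.2 i s₁
  have hone' : hmap (f i j hij) (hinv a * (h' * hinv h) * a) = 1 :=
    Prod.ext (REss.map_eq_one hj hs1 (congrArg Prod.fst hone))
      (REss.map_eq_one hj hs2 (congrArg Prod.snd hone))
  refine ⟨j, hij, ?_⟩
  have e : h' = a * (hinv a * (h' * hinv h) * a) * hinv a * h := by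
    calc h' = (a * hinv a) * (h' * (hinv h * ((a * hinv a) * h))) := by
          rw [hD.mul_hinv hH, one_mul, one_mul, hD.hinv_mul hh, mul_one]
      _ = _ := by simp only [mul_assoc]
  rw [e, hmap_mul, hmap_mul, hmap_mul, hone', mul_one, ← hmap_mul (f i j hij) a, hD.mul_hinv hH,
    hmap_one, one_mul]

end

end Pool.Agent.MP_dc2c90_ag.H20
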