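import Pool.Agent.MP_dc2c90_ag.H20.SpecB

/-! Isomorphisms of points of `X` are defined over finitely generated subalgebras. -/

namespace Pool.Agent.MP_dc2c90_ag.H20

open WittVector

namespace RF

variable {p : ℕ} [Fact p.Prime] {R : Type} [CommRing R] {n : Type} [Fintype n] {B : Subring R}

theorem mul {x y : Matrix n n (WittVector p R)} (hx : InWS B x) (hy : InWS B y) :
    InWS B (x * y) := mul_mem_matrix hx hy

omit [Fintype n] in
theorem add {x y : Matrix n n (WittVector p R)} (hx : InWS B x) (hy : InWS B y) :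
    InWS B (x + y) := fun i j => add_mem (hx i j) (hy i j)

omit [Fintype n] in
theorem sub {x y : Matrix n n (WittVector p R)} (hx : InWS B x) (hy : InWS B y) :
    InWS B (x - y) := fun i j => sub_mem (hx i j) (hy i j)

omit [Fintype n] in
theorem psmul (u : ℕ) {x : Matrix n n (WittVector p R)} (hx : InWS B x) :
    InWS B ((p : WittVector p R) ^ u • x) :=
  fun i j => mul_mem (pow_mem (natCast_mem _ p) u) (hx i j)

omit [Fintype n] in
theorem fi (l : ℕ) {x : Matrix n n (WittVector p R)} (hx : InWS B x) :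
    InWS B (x.map (Fi p R l)) := fun i j => Fi_mem_WS l (hx i j)

omit [Fintype n] in
theorem vi {l : ℕ} {x : Matrix n n (WittVector p R)} : InWS B (x.map (Vi p R l)) ↔ InWS B x :=
  ⟨fun h i j => Vi_mem_WS.1 (h i j), fun h i j => Vi_mem_WS.2 (h i j)⟩

omit [Fintype n] in
theorem vi_smul (l u : ℕ) (x : Matrix n n (WittVector p R)) :
    ((p : WittVector p R) ^ u • x).map (Vi p R l) = (p : WittVector p R) ^ u • x.map (Vi p R l) := by
  ext1 i j; exact Vi_p_mul l u _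

omit [Fintype n] in
theorem fi_vi (l : ℕ) (x : Matrix n n (WittVector p R)) :
    (x.map (Vi p R l)).map (Fi p R l) = (p : WittVector p R) ^ l • x := by
  ext1 i j; exact Fi_Vi l _

/-- the linear relation which comes from the action -/
theorem rel [DecidableEq n] {M u : ℕ} (hM : u ≤ M) {U U' Y Y' : Matrix n n (WittVector p R)}
    (hU : InWS B U) (hU' : InWS B U') (hY : InWS B ((p : WittVector p R) ^ u • Y'))
    (h : (1 + Y.map (Vi p R (M + 1))) * U = U' * (1 + Y'.map (Vi p R M))) :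
    InWS B (Y.map (Vi p R 1) * U.map (Fi p R M) - U.map (Fi p R M) * Y') := by
  have e0 : Y.map (Vi p R (M + 1)) = (Y.map (Vi p R 1)).map (Vi p R M) := by
    ext1 i j; exact Vi_add M 1 _
  have e1 : U' - U =
      (Y.map (Vi p R 1) * U.map (Fi p R M) - U'.map (Fi p R M) * Y').map (Vi p R M) := by
    rw [Matrix.map_sub _ (map_sub _), ← map_Vi_mul, ← mul_map_Vi, ← e0]
    rw [Matrix.add_mul, Matrix.mul_add, Matrix.one_mul, Matrix.mul_one] at h
    rw [sub_eq_sub_iff_add_eq_add, ← h, add_comm]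
  set E := Y.map (Vi p R 1) * U.map (Fi p R M) - U'.map (Fi p R M) * Y' with hE
  have e2 : InWS B E := vi.1 (e1 ▸ sub hU' hU)
  have e3 : U'.map (Fi p R M) = U.map (Fi p R M) + (p : WittVector p R) ^ M • E := by
    rw [← fi_vi, ← e1, Matrix.map_sub _ (map_sub _), add_sub_cancel]
  obtain ⟨d, rfl⟩ := Nat.exists_eq_add_of_le hM
  have e4 : Y.map (Vi p R 1) * U.map (Fi p R (u + d)) - U.map (Fi p R (u + d)) * Y' =
      E + (p : WittVector p R) ^ d • (E * ((p : WittVector p R) ^ u • Y')) := by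
    have e5 : U'.map (Fi p R (u + d)) * Y' = U.map (Fi p R (u + d)) * Y' +
        (p : WittVector p R) ^ d • (E * ((p : WittVector p R) ^ u • Y')) := by
      rw [e3, Matrix.add_mul, Matrix.mul_smul, Matrix.smul_mul, smul_smul, ← pow_add, add_comm d u]
    rw [← sub_eq_iff_eq_add, sub_sub, ← e5]
  rw [e4]
  exact add e2 (psmul d (mul e2 hY))

/-- a divisible operator kills the denominators -/
theorem div {u l₀ l : ℕ} (hl : l₀ + u ≤ l) {A Z : Matrix (n × n) (n × n) (WittVector p R)}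
    (hA : InWS B A) (hZ : ∀ s t, ∀ m < u, (Z s t).coeff m ∈ B)
    (h : A.map (Fi p R l₀) = (p : WittVector p R) ^ u • Z) {Y : Matrix n n (WittVector p R)}
    (hY : InWS B ((p : WittVector p R) ^ u • Y)) : InWS B (app (A.map (Fi p R l)) Y) := by
  obtain ⟨d, rfl⟩ := Nat.exists_eq_add_of_le hl
  refine fun i j => sum_mem fun t _ => ?_
  have e : Fi p R l₀ (A (i, j) t) = (p : WittVector p R) ^ u * Z (i, j) t :=
    congrFun (congrFun h (i, j)) t
  obtain ⟨Z', h1, h2⟩ := div_mem_WS (Fi_mem_WS l₀ (hA (i, j) t))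
    (by rw [e, sub_self]; exact zero_mem _) (hZ (i, j) t)
  rw [Matrix.map_apply, show l₀ + u + d = d + (u + l₀) by omega, Fi_add, Fi_add, h2, map_mul,
    map_pow, map_natCast, mul_comm _ (Fi p R d Z'), mul_assoc]
  exact mul_mem (Fi_mem_WS d h1) (hY t.1 t.2)

end RF

variable {p : ℕ} [Fact p.Prime] {n : Type} [Fintype n] [DecidableEq n] {k : Type} [Field k]
  [IsAlgClosed k] [CharP k p] {D : Data p k n} {π : Matrix (n × n) (n × n) ℤ_[p]}

omit [IsAlgClosed k] in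
theorem rF (hD : D.Good) (h1 : SAppH D) (h2 : SAdNil D π) (h3 : SACong D π) (h4 : SLin D π) :
    SF D := by
  classical
  intro R _ χ hR s₀ x y h hx hy hh ha x1 x2 y1 y2
  obtain ⟨r₀, h4⟩ := h4
  have t0 : h.1.map (toT p R) = x.2⁻¹ * y.2 := by
    rw [ha.2, ← Matrix.mul_assoc, hD.inv_mul hx.2.1, Matrix.one_mul]
  obtain ⟨u, hu⟩ := exists_pow_mul_mem_WS_matrix (B := gen χ s₀) (x := h.1) fun i j => by
    rw [← Matrix.map_apply (f := toT p R), t0]
    exact mul_mem_matrix (hD.inv_mem_subring hx.2.1 _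
      (fun z => toT_mem_TS (Data.zeta_mem_WS (mem_gen_of_range χ s₀) z)) x2) y2 i j
  obtain ⟨i, l₀, Z, hZ⟩ := h2 R χ y hy u
  obtain ⟨M, hM⟩ : ∃ M, M = i + l₀ + u + 2 * (u + r₀) + 1 := ⟨_, rfl⟩
  obtain ⟨sZ, a0⟩ := exists_finset_coeff Z u
  obtain ⟨s₁, a1⟩ := exists_finset_coeff h.1 (M + 1)
  obtain ⟨s₂, a2⟩ := exists_finset_coeff h.2 (M + 1)
  have hs : s₀ ⊆ s₀ ∪ (sZ ∪ (s₁ ∪ s₂)) := Finset.subset_union_left
  refine ⟨_, hs, ?_⟩
  have hZB : ∀ a b, ∀ l < u, (Z a b).coeff l ∈ gen χ (s₀ ∪ (sZ ∪ (s₁ ∪ s₂))) :=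
    fun a b l hl => mem_gen_of_mem χ (by simp [a0 a b l hl])
  have hB := mem_gen_of_range χ (s₀ ∪ (sZ ∪ (s₁ ∪ s₂)))
  obtain ⟨h₀, b0, b1, b2, b3⟩ := h1 R χ hR h M _ hh (by omega) hB
    (fun a b l hl => mem_gen_of_mem χ (by simp [a1 a b l hl]))
    (fun a b l hl => mem_gen_of_mem χ (by simp [a2 a b l hl]))
  have hle := gen_mono χ hs
  generalize gen χ (s₀ ∪ (sZ ∪ (s₁ ∪ s₂))) = B at *
  have hζ : ∀ z, D.zeta χ z ∈ WS p B := Data.zeta_mem_WS hB
  have i1 : InWS B h₀.1⁻¹ := hD.inv_mem_subring b0.1 _ hζ b1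
  have hU : InWS B y.1 := y1.mono hle
  have iU : InWS B y.1⁻¹ := hD.inv_mem_subring hy.1 _ hζ hU
  have c0 := b3.mul_left (hinv h₀)
  rw [hD.hinv_mul b0] at c0
  obtain ⟨Y, hY⟩ := exists_map_Vi c0.1
  obtain ⟨Y', hY'⟩ := exists_map_Vi c0.2
  have q1 : (hinv h₀).1 = h₀.1⁻¹ := rfl
  have q2 : (hinv h₀).2 = h₀.2⁻¹ := rfl
  rw [Prod.fst_mul, Prod.fst_one, q1] at hY
  rw [Prod.snd_mul, Prod.snd_one, q2] at hY'
  have e1 : h₀.1⁻¹ * h.1 = 1 + Y.map (Vi p R (M + 1)) := eq_add_of_sub_eq' hY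
  have e2 : h₀.2⁻¹ * h.2 = 1 + Y'.map (Vi p R M) := eq_add_of_sub_eq' hY'
  have c1 : D.IsH χ (1 + Y.map (Vi p R (M + 1)), 1 + Y'.map (Vi p R M)) := by
    have q : hinv h₀ * h = (1 + Y.map (Vi p R (M + 1)), 1 + Y'.map (Vi p R M)) :=
      Prod.ext (by rw [Prod.fst_mul, q1, e1]) (by rw [Prod.snd_mul, q2, e2])
    rw [← q]
    exact hD.isH_mul (hD.isH_inv b0) hh
  have c2 : InWS B ((p : WittVector p R) ^ u • Y) := by
    rw [← RF.vi (l := M + 1), RF.vi_smul, ← add_sub_cancel_left 1 (Y.map (Vi p R (M + 1))), ← e1,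
      smul_sub, ← Matrix.mul_smul]
    exact RF.sub (RF.mul i1 fun a b => WS_mono hle (hu a b)) (RF.psmul u (one_mem_matrix _))
  have c3 := h4 R χ B u M Y Y' hB (by omega) c1 c2
  set A := (D.DD π).map ((D.iota χ).comp (Fi p k (M + 1))) with hA
  have hAB : InWS B A := fun _ _ => Data.iota_mem_WS hB _
  have c4 : InWS B ((p : WittVector p R) ^ u • Y') := by
    rw [← sub_add_cancel Y' (app A Y), smul_add, ← app_smul]
    exact RF.add (RF.psmul u c3) (app_mem hAB c2)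
  have c5 := RF.rel (M := M) (by omega) hU (RF.mul i1 (RF.mul (x1.mono hle) b2)) c4 (Y := Y) (by
    rw [← e1, ← e2, Matrix.mul_assoc, ha.1]
    simp only [Matrix.mul_assoc]
    rw [← Matrix.mul_assoc h₀.2, hD.mul_inv b0.2.1, Matrix.one_mul])
  have c6 : InWS B (Y.map (Vi p R 1) - app ((D.psi π χ y.1).map (Fi p R M)) Y) := by
    have e3 : y.1.map (Fi p R M) * y.1⁻¹.map (Fi p R M) = 1 := by
      rw [← Matrix.map_mul, hD.mul_inv hy.1, Matrix.map_one _ (map_zero _) (map_one _)]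
    have e4 : Y.map (Vi p R 1) - app ((D.psi π χ y.1).map (Fi p R M)) Y =
        (Y.map (Vi p R 1) * y.1.map (Fi p R M) - y.1.map (Fi p R M) * Y') *
          y.1⁻¹.map (Fi p R M) + y.1.map (Fi p R M) * (Y' - app A Y) * y.1⁻¹.map (Fi p R M) := by
      rw [h3.twist R χ y.1 M Y hy.1, Matrix.sub_mul, Matrix.mul_sub, Matrix.sub_mul,
        Matrix.mul_assoc (Y.map _), e3, Matrix.mul_one, sub_add_sub_cancel]
    rw [e4]
    exact RF.add (RF.mul c5 (RF.fi M iU)) (RF.mul (RF.mul (RF.fi M hU) c3) (RF.fi M iU))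
  have c7 := h3.recur R B _ M Y (h3.psi R χ y.1 B hy.1 hB hU) c6 i (M + 1 - i) (by omega)
  have c8 := RF.div (l := M + 1 - i) (by omega) (h3.aa R χ y.1 B hy.1 hB hU i) hZB hZ c2
  have c9 : InWS B Y := by
    have := RF.add c7 c8
    rw [Data.AA, sub_add_cancel] at this
    exact RF.vi.1 this
  have c10 : InWS B Y' := by
    rw [← sub_add_cancel Y' (app A Y)]
    exact RF.add c3 (app_mem hAB c9)
  constructor
  · rw [← Matrix.one_mul h.1, ← hD.mul_inv b0.1, Matrix.mul_assoc, e1]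
    exact RF.mul b1 (RF.add (one_mem_matrix _) (RF.vi.2 c9))
  · rw [← Matrix.one_mul h.2, ← hD.mul_inv b0.2.1, Matrix.mul_assoc, e2]
    exact RF.mul b2 (RF.add (one_mem_matrix _) (RF.vi.2 c10))

end Pool.Agent.MP_dc2c90_ag.H20
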