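import Pool.Agent.MP_dc2c90_ag.H20.SpecB
import Pool.Agent.MP_dc2c90_ag.H20.RFP
import Pool.Agent.MP_dc2c90_ag.H20.RTens

/-!
Fullness for the banal groupoid.
-/

namespace Pool.Agent.MP_dc2c90_ag.H20

open WittVector

noncomputable section

variable {p : ℕ} [Fact p.Prime] {n : Type} [Fintype n] [DecidableEq n] {k : Type} [Field k]
  [CharP k p] {D : Data p k n}

namespace RFull

variable {R A : Type} [CommRing R] [CommRing A]

theorem fin_model (hD : D.Good) (h1 : SE1 D) (h2 : SE2 D) {χ : WittVector p k →+* R}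
    (hR : IsNilpotent (p : R)) {x : XP p n R} (hx : D.IsX χ x) :
    ∃ (s : Finset R) (h : HP p n R) (y : XP p n R), D.IsH χ h ∧ Act x h y ∧ D.IsX χ y ∧
      InWS (gen χ s) y.1 ∧ InTS (gen χ s) y.2 := by
  obtain ⟨s, h, y, hh, ha, hs⟩ := h1 R χ hR x hx
  have hy := hD.isX_of_act hx hh ha
  obtain ⟨s', h', y', hh', ha', hW, hT⟩ := h2 R χ hR s y hy hs
  exact ⟨s', h * h', y', hD.isH_mul hh hh', ha.mul ha', hD.isX_of_act hy hh' ha', hW, hT⟩

theorem map_mem_TS (φ : R →+* A) {B : Subring R} {B' : Subring A} (hφ : ∀ r ∈ B, φ r ∈ B')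
    {z : T p R} (h : z ∈ TS p B) : locMap (WittVector.map φ) z ∈ TS p B' := by
  obtain ⟨u, x, hx, hu⟩ := mem_TS.1 h
  refine mem_TS.2 ⟨u, WittVector.map φ x, map_mem_WS φ hφ hx, ?_⟩
  have := congrArg (locMap (WittVector.map (p := p) φ)) hu
  rwa [map_mul, map_pow, map_natCast, locMap_toT] at this

theorem map_mem_gen {O : Type} [CommRing O] [DecidableEq A] {χ : O →+* R} {χA : O →+* A}
    {φ : R →+* A} (hφ : φ.comp χ = χA) (s : Finset R) :
    ∀ r ∈ gen χ s, φ r ∈ gen χA (s.image φ) := by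
  intro r hr
  have : gen χ s ≤ (gen χA (s.image φ)).comap φ := by
    refine Subring.closure_le.2 ?_
    rintro a (⟨o, rfl⟩ | ha)
    · have e : φ (χ o) = χA o := RingHom.congr_fun hφ o
      change φ (χ o) ∈ gen χA (s.image φ)
      rw [e]
      exact mem_gen_of_range χA _ o
    · exact mem_gen_of_mem χA (Finset.mem_image_of_mem φ ha)
  exact this hr

end RFull

theorem rFull [IsAlgClosed k] (hD : D.Good) (h1 : SE1 D) (h2 : SE2 D) (h3 : SF D) : SFull D := by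
  classical
  intro ι _ R _ f A _ φ χ χA hS i x y h hx hy hh ha
  have hA : IsNilpotent (p : A) := by
    have := (hS.nil i).map (φ i)
    rwa [map_natCast] at this
  obtain ⟨sx, a, x₀, ha₀, aa, hx₀, xW, xT⟩ := RFull.fin_model hD h1 h2 (hS.nil i) hx
  obtain ⟨sy, b, y₀, hb₀, ab, hy₀, yW, yT⟩ := RFull.fin_model hD h1 h2 (hS.nil i) hy
  have mx := gen_mono (χ i) (Finset.subset_union_left (s₁ := sx) (s₂ := sy))
  have my := gen_mono (χ i) (Finset.subset_union_right (s₁ := sx) (s₂ := sy))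
  replace xW := xW.mono mx
  replace xT := xT.mono mx
  replace yW := yW.mono my
  replace yT := yT.mono my
  have hφa := ha₀.map (φ i) (hS.φχ i)
  have hφb := hb₀.map (φ i) (hS.φχ i)
  have hH : D.IsH χA (hinv (hmap (φ i) a) * h * hmap (φ i) b) :=
    hD.isH_mul (hD.isH_mul (hD.isH_inv hφa) hh) hφb
  have hAct : Act (xmap (φ i) x₀) (hinv (hmap (φ i) a) * h * hmap (φ i) b) (xmap (φ i) y₀) :=
    (((aa.map (φ i)).inv (hD.mul_hinv hφa)).mul ha).mul (ab.map (φ i))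
  have hg := RFull.map_mem_gen (hS.φχ i) (sx ∪ sy)
  obtain ⟨s, hs, hW1, hW2⟩ := h3 A χA hA ((sx ∪ sy).image (φ i)) _ _ _
    (hx₀.map (φ i) (hS.φχ i)) (hy₀.map (φ i) (hS.φχ i)) hH hAct
    (fun u v => map_mem_WS (φ i) hg (xW u v)) (fun u v => RFull.map_mem_TS (φ i) hg (xT u v))
    (fun u v => map_mem_WS (φ i) hg (yW u v)) (fun u v => RFull.map_mem_TS (φ i) hg (yT u v))
  let ρ : gen (χ i) (sx ∪ sy) →+* gen χA s :=
    ((φ i).comp (gen (χ i) (sx ∪ sy)).subtype).codRestrict (gen χA s)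
      fun r => gen_mono χA hs (hg r r.2)
  have hρ : (gen χA s).subtype.comp ρ = (φ i).comp (gen (χ i) (sx ∪ sy)).subtype := rfl
  obtain ⟨x₁, -, ex⟩ := hx₀.exists_sub (χB := genχ (χ i) (sx ∪ sy)) rfl xW xT
  obtain ⟨y₁, -, ey⟩ := hy₀.exists_sub (χB := genχ (χ i) (sx ∪ sy)) rfl yW yT
  obtain ⟨h₁, hh₁, eh⟩ := hH.exists_sub (χB := genχ χA s) rfl hW1 hW2
  have hAct₁ : Act (xmap ρ x₁) h₁ (xmap ρ y₁) := by
    refine Act.of_map (gen χA s).subtype_injective ?_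
    rw [xmap_xmap, xmap_xmap, hρ, ← xmap_xmap, ← xmap_xmap, ex, ey, eh]
    exact hAct
  obtain ⟨j, hij, ψ, e1, e2, e3⟩ :=
    (rFP rNoeth (WittVector p k) ι R f A φ hS.colim χ χA hS.fχ hS.φχ).2.1 i (sx ∪ sy) s ρ hρ
  have hfa := ha₀.map (f i j hij) (hS.fχ i j hij)
  have hfb := hb₀.map (f i j hij) (hS.fχ i j hij)
  have hAct₂ : Act (xmap (f i j hij) x₀) (hmap ψ h₁) (xmap (f i j hij) y₀) := by
    have := hAct₁.map ψ
    rwa [xmap_xmap, xmap_xmap, e3, ← xmap_xmap, ← xmap_xmap, ex, ey] at this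
  refine ⟨j, hij, hmap (f i j hij) a * hmap ψ h₁ * hinv (hmap (f i j hij) b),
    hD.isH_mul (hD.isH_mul hfa (hh₁.map ψ e2)) (hD.isH_inv hfb),
    ((aa.map (f i j hij)).mul hAct₂).mul ((ab.map (f i j hij)).inv (hD.mul_hinv hfb)), ?_⟩
  rw [hmap_mul, hmap_mul, hD.hmap_hinv hfb, hmap_hmap, hmap_hmap, hmap_hmap,
    hS.colim.compat i j hij, e1, eh, ← mul_assoc, ← mul_assoc, hD.mul_hinv hφa, one_mul,
    mul_assoc, hD.mul_hinv hφb, mul_one]

end

end Pool.Agent.MP_dc2c90_ag.H20
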