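import Pool.Agent.MP_dc2c90_ag.H20.SpecA

set_option autoImplicit false

namespace Pool.Agent.MP_dc2c90_ag.H20

open MvPolynomial

noncomputable section

namespace RGNewt

section Gen

variable {Λ σ : Type} [CommRing Λ]

theorem coeff_eval {R : Type} [CommRing R] (wt : σ → ℤ) (κ : Λ →+* R) (x : σ → R)
    (P : MvPolynomial σ Λ) (d : ℤ) :
    (eval₂ ((LaurentPolynomial.C : R →+* LaurentPolynomial R).comp κ)
      (fun s => LaurentPolynomial.C (x s) * LaurentPolynomial.T (wt s)) P).coeff d =
      eval₂ κ x (weightedHomogeneousComponent wt d P) := by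
  classical
  induction P using MvPolynomial.induction_on' with
  | monomial m a =>
    have h1 : ∀ S : Finset σ,
        ∏ s ∈ S, (LaurentPolynomial.C (x s) * LaurentPolynomial.T (wt s) : LaurentPolynomial R) ^ m s
          = LaurentPolynomial.C (∏ s ∈ S, x s ^ m s) * LaurentPolynomial.T (∑ s ∈ S, m s • wt s) := by
      intro S
      induction S using Finset.induction_on with
      | empty => simp
      | insert s S hs ih =>
        rw [Finset.prod_insert hs, Finset.prod_insert hs, Finset.sum_insert hs, ih, mul_pow,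
          LaurentPolynomial.T_pow, LaurentPolynomial.T_add, map_mul, map_pow, nsmul_eq_mul]
        ring
    have h2 := weightedHomogeneousComponent_of_mem (m := d)
      (isWeightedHomogeneous_monomial wt m a (rfl : Finsupp.weight wt m = _))
    rw [h2, eval₂_monomial, Finsupp.prod, h1, RingHom.comp_apply, ← mul_assoc, ← map_mul,
      ← LaurentPolynomial.single_eq_C_mul_T, AddMonoidAlgebra.coeff_single, Finsupp.single_apply]
    have h3 : ∑ s ∈ m.support, m s • wt s = Finsupp.weight wt m := by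
      rw [Finsupp.weight_apply, Finsupp.sum]
    rw [h3]
    by_cases h : d = Finsupp.weight wt m
    · rw [if_pos h, if_pos h.symm, eval₂_monomial, Finsupp.prod]
    · rw [if_neg h, if_neg (fun h' => h h'.symm), eval₂_zero]
  | add p q hp hq =>
    rw [eval₂_add, map_add, eval₂_add, ← hp, ← hq]
    simp

variable [Fintype σ]

theorem taylor (I : Ideal (MvPolynomial σ Λ)) (Q : σ → MvPolynomial σ Λ) (hQ : ∀ s, Q s ∈ I)
    (P : MvPolynomial σ Λ) :
    aeval (fun s => X s - Q s) P - (P - ∑ s, pderiv s P * Q s) ∈ I ^ 2 := by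
  classical
  induction P using MvPolynomial.induction_on with
  | C a => simp [algebraMap_eq]
  | add p q hp hq =>
    have e : aeval (fun s => X s - Q s) (p + q) - (p + q - ∑ s, pderiv s (p + q) * Q s) =
        (aeval (fun s => X s - Q s) p - (p - ∑ s, pderiv s p * Q s)) +
        (aeval (fun s => X s - Q s) q - (q - ∑ s, pderiv s q * Q s)) := by
      simp only [map_add, add_mul, Finset.sum_add_distrib]; ring
    rw [e]; exact add_mem hp hq
  | mul_X p i hp =>
    have e1 : ∑ s, pderiv s (p * X i) * Q s = p * Q i + (∑ s, pderiv s p * Q s) * X i := by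
      have : ∀ s, pderiv s (p * X i) * Q s =
          (if s = i then p * Q s else 0) + pderiv s p * Q s * X i := by
        intro s
        rw [Derivation.leibniz, pderiv_X]
        by_cases h : s = i
        · subst h; simp; ring
        · simp [h, Ne.symm h]; ring
      simp only [this, Finset.sum_add_distrib, Finset.sum_ite_eq', Finset.mem_univ, if_true,
        Finset.sum_mul]
    have e : aeval (fun s => X s - Q s) (p * X i) - (p * X i - ∑ s, pderiv s (p * X i) * Q s) =
        (aeval (fun s => X s - Q s) p - (p - ∑ s, pderiv s p * Q s)) * (X i - Q i) +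
        (∑ s, pderiv s p * Q s) * Q i := by
      rw [e1, map_mul, aeval_X]; ring
    rw [e]
    refine add_mem (Ideal.mul_mem_right _ _ hp) ?_
    rw [pow_two]
    exact Ideal.mul_mem_mul (Ideal.sum_mem _ fun s _ => I.mul_mem_left _ (hQ s)) (hQ i)

theorem homog (wt : σ → ℤ) (I : Ideal (MvPolynomial σ Λ)) (Q : σ → MvPolynomial σ Λ)
    (hN : IsNewton I Q) (hI : ∀ P ∈ I, ∀ d, weightedHomogeneousComponent wt d P ∈ I) :
    IsNewton I (fun s => weightedHomogeneousComponent wt (wt s) (Q s)) := by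
  classical
  let _ := weightedGradedAlgebra Λ wt
  have hd : ∀ (P : MvPolynomial σ Λ) (d : ℤ),
      ((DirectSum.decompose (weightedHomogeneousSubmodule Λ wt) P d : _) : MvPolynomial σ Λ) =
        weightedHomogeneousComponent wt d P := fun P d => decompose'_apply Λ wt P d
  have hH : I.IsHomogeneous (weightedHomogeneousSubmodule Λ wt) := by
    intro d P hP
    rw [hd]; exact hI P hP d
  have hH2 : (I ^ 2).IsHomogeneous (weightedHomogeneousSubmodule Λ wt) := by
    rw [pow_two]; exact hH.mul hH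
  have hm : ∀ s, weightedHomogeneousComponent wt (wt s) (Q s) ∈ I := fun s => hI _ (hN.mem s) _
  refine ⟨hm, fun P hP => ?_⟩
  have key : ∀ (d : ℤ) (P : MvPolynomial σ Λ), P ∈ I → IsWeightedHomogeneous wt P d →
      aeval (fun s => X s - weightedHomogeneousComponent wt (wt s) (Q s)) P ∈ I ^ 2 := by
    intro d P hP hPd
    have h1 : P - ∑ s, pderiv s P * Q s ∈ I ^ 2 := by
      have := sub_mem (hN.sq P hP) (taylor I Q hN.mem P)
      simpa using this
    have h2 := hH2 d h1
    rw [hd, map_sub, map_sum, weightedHomogeneousComponent_eq_self hPd] at h2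
    have h3 : ∀ s, weightedHomogeneousComponent wt d (pderiv s P * Q s) =
        pderiv s P * weightedHomogeneousComponent wt (wt s) (Q s) := by
      intro s
      have h4 : pderiv s P ∈ weightedHomogeneousSubmodule Λ wt (d - wt s) :=
        hPd.pderiv (by ring)
      have h5 := DirectSum.coe_decompose_mul_add_of_left_mem
        (weightedHomogeneousSubmodule Λ wt) (b := Q s) (j := wt s) h4
      rw [hd, hd, sub_add_cancel] at h5
      exact h5
    simp only [h3] at h2
    have := add_mem (taylor I _ hm P) h2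
    simpa using this
  rw [← DirectSum.sum_support_decompose (weightedHomogeneousSubmodule Λ wt) P, map_sum]
  refine Ideal.sum_mem _ fun d _ => ?_
  rw [hd]
  exact key d _ (hI P hP d) (weightedHomogeneousComponent_isWeightedHomogeneous d P)

end Gen

theorem unit_zpow {R : Type} [CommRing R] (t : (LaurentPolynomial R)ˣ)
    (ht : (t : LaurentPolynomial R) = LaurentPolynomial.T 1) (m : ℤ) :
    ((t ^ m : (LaurentPolynomial R)ˣ) : LaurentPolynomial R) = LaurentPolynomial.T m := by
  induction m using Int.induction_on with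
  | zero => simp
  | succ i ih => rw [zpow_add_one, Units.val_mul, ih, ht, ← LaurentPolynomial.T_add]
  | pred i ih =>
    have h1 : t ^ (-(i : ℤ)) = t ^ (-(i : ℤ) - 1) * t := by rw [← zpow_add_one]; simp
    rw [h1, Units.val_mul, ht] at ih
    have h2 := congrArg (· * LaurentPolynomial.T (-1)) ih
    simp only [mul_assoc, ← LaurentPolynomial.T_add, add_neg_cancel, LaurentPolynomial.T_zero,
      mul_one] at h2
    rw [h2, sub_eq_add_neg]

variable {Z O n : Type} [CommRing Z] [CommRing O] [Fintype n]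

/-- The substitution which defines `Ic`. -/
def psi (ζ : Z →+* O) (c c' : Matrix n n O) : MvPolynomial (n × n) Z →+* MvPolynomial (n × n) O :=
  eval₂Hom ((C : O →+* MvPolynomial (n × n) O).comp ζ)
    (fun ij : n × n => ((c.map C * Matrix.of (fun i j => X (i, j)) * c'.map C :
      Matrix n n (MvPolynomial (n × n) O)) ij.1 ij.2))

theorem eval_psi (ζ : Z →+* O) (c c' : Matrix n n O) {S : Type} [CommRing S] (κ : O →+* S)
    (y : Matrix n n S) (P : MvPolynomial (n × n) Z) :
    eval₂ κ (fun ij => y ij.1 ij.2) (psi ζ c c' P) =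
      eval₂ (κ.comp ζ) (fun ij => (c.map κ * y * c'.map κ) ij.1 ij.2) P := by
  have : (eval₂Hom κ (fun ij : n × n => y ij.1 ij.2)).comp (psi ζ c c') =
      eval₂Hom (κ.comp ζ) (fun ij => (c.map κ * y * c'.map κ) ij.1 ij.2) := by
    refine MvPolynomial.ringHom_ext (fun a => by simp [psi]) (fun ij => ?_)
    simp [psi, Matrix.mul_apply, eval₂_sum]
  exact RingHom.congr_fun this P

theorem part2 (ζ : Z →+* O) (c c' : Matrix n n O) (I : Ideal (MvPolynomial (n × n) Z))
    (S : Type) [CommRing S] (κ : O →+* S) (y : Matrix n n S) (𝔞 : Ideal S) :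
    (∀ P ∈ I.map (psi ζ c c'), eval₂ κ (fun ij => y ij.1 ij.2) P ∈ 𝔞) ↔
      ∀ P ∈ I, eval₂ (κ.comp ζ) (fun ij => (c.map κ * y * c'.map κ) ij.1 ij.2) P ∈ 𝔞 := by
  constructor
  · intro h P hP
    rw [← eval_psi]
    exact h _ (Ideal.mem_map_of_mem _ hP)
  · intro h P hP
    have : I.map (psi ζ c c') ≤ 𝔞.comap (eval₂Hom κ (fun ij : n × n => y ij.1 ij.2)) := by
      rw [Ideal.map_le_iff_le_comap]
      intro P hP
      have := h P hP
      rw [← eval_psi] at this
      exact this
    exact this hP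

variable [DecidableEq n]

theorem cc' {c c' : Matrix n n O} (hc : c * c' = 1) {S : Type} [CommRing S] (κ : O →+* S) :
    c.map κ * c'.map κ = 1 := by
  rw [← Matrix.map_mul, hc]; simp

theorem conj_sub {S : Type} [CommRing S] (A A' Y M : Matrix n n S) (h : A * A' = 1) :
    A * (Y - A' * M * A) * A' = A * Y * A' - M := by
  have e : A * (A' * M * A) * A' = (A * A') * M * (A * A') := by simp only [Matrix.mul_assoc]
  rw [Matrix.mul_sub, Matrix.sub_mul, e, h, Matrix.one_mul, Matrix.mul_one]

theorem newton (ζ : Z →+* O) (c c' : Matrix n n O) (hc : c * c' = 1)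
    (I : Ideal (MvPolynomial (n × n) Z)) (Q : n × n → MvPolynomial (n × n) Z)
    (hQ : IsNewton I Q) : ∃ Q₁, IsNewton (I.map (psi ζ c c')) Q₁ := by
  set M : Matrix n n (MvPolynomial (n × n) O) :=
    Matrix.of fun i j => psi ζ c c' (Q (i, j)) with hM
  set N : Matrix n n (MvPolynomial (n × n) O) := c'.map C * M * c.map C with hN
  set Xm : Matrix n n (MvPolynomial (n × n) O) := Matrix.of (fun i j => X (i, j)) with hX
  refine ⟨fun ij => N ij.1 ij.2, fun ij => ?_, fun P hP => ?_⟩
  · simp only [hN, Matrix.mul_apply]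
    refine Ideal.sum_mem _ fun a _ => Ideal.mul_mem_right _ _ (Ideal.sum_mem _ fun b _ =>
      Ideal.mul_mem_left _ _ ?_)
    exact Ideal.mem_map_of_mem _ (hQ.mem (b, a))
  · have h1 : c.map C * (Xm - N) * c'.map C = c.map C * Xm * c'.map C - M :=
      conj_sub _ _ _ _ (cc' hc C)
    have h2 := (part2 ζ c c' I _ C (Xm - N) (I.map (psi ζ c c') ^ 2)).2 (fun P₀ hP₀ => by
      have h3 : eval₂Hom ((C : O →+* MvPolynomial (n × n) O).comp ζ)
          (fun ij : n × n => (c.map C * (Xm - N) * c'.map C :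
            Matrix n n (MvPolynomial (n × n) O)) ij.1 ij.2) =
          (psi ζ c c').comp (aeval (fun s => X s - Q s)).toRingHom := by
        refine MvPolynomial.ringHom_ext (fun a => by simp [psi, algebraMap_eq]) (fun ij => ?_)
        rw [h1]
        simp [psi, hM, hX]
      have h4 := RingHom.congr_fun h3 P₀
      rw [coe_eval₂Hom] at h4
      rw [h4, ← Ideal.map_pow]
      exact Ideal.mem_map_of_mem _ (hQ.sq P₀ hP₀)) P hP
    rw [aeval_def, algebraMap_eq]
    exact h2

theorem ic_homog (ζ : Z →+* O) (c c' : Matrix n n O) (hc : c * c' = 1)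
    (I : Ideal (MvPolynomial (n × n) Z)) (w : n → ℤ)
    (hmul : ∀ (S : Type) [CommRing S] (ξ : Z →+* S) (g g' : Matrix n n S),
      (∀ P ∈ I, eval₂ ξ (fun ij => g ij.1 ij.2) P = 0) →
      (∀ P ∈ I, eval₂ ξ (fun ij => g' ij.1 ij.2) P = 0) →
      ∀ P ∈ I, eval₂ ξ (fun ij => (g * g') ij.1 ij.2) P = 0)
    (hco : ∀ (S : Type) [CommRing S] (κ : O →+* S) (t : Sˣ), ∀ P ∈ I,
      eval₂ (κ.comp ζ) (fun ij => (c.map κ * Matrix.diagonal (fun i => ((t ^ w i : Sˣ) : S)) *
        c'.map κ) ij.1 ij.2) P = 0) :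
    ∀ P ∈ I.map (psi ζ c c'), ∀ d,
      weightedHomogeneousComponent (fun kl : n × n => w kl.2 - w kl.1) d P ∈
        I.map (psi ζ c c') := by
  intro P hP d
  obtain ⟨R, _, π, hker⟩ : ∃ (R : Type) (_ : CommRing R) (π : MvPolynomial (n × n) O →+* R),
      ∀ P, π P = 0 ↔ P ∈ I.map (psi ζ c c') :=
    ⟨_, _, Ideal.Quotient.mk _, fun _ => Ideal.Quotient.eq_zero_iff_mem⟩
  let κ₀ : O →+* R := π.comp C
  let κ : O →+* LaurentPolynomial R := LaurentPolynomial.C.comp κ₀
  obtain ⟨t, ht⟩ := LaurentPolynomial.isUnit_T (R := R) 1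
  have hπ : ∀ P, eval₂ κ₀ (fun s => π (X s)) P = π P := by
    intro P
    have : eval₂Hom κ₀ (fun s => π (X s)) = π :=
      MvPolynomial.ringHom_ext (fun a => by simp [κ₀]) (fun s => by simp)
    exact RingHom.congr_fun this P
  let y : Matrix n n (LaurentPolynomial R) :=
    Matrix.of fun i j => LaurentPolynomial.C (π (X (i, j)))
  have hy : ∀ P₀ ∈ I, eval₂ (κ.comp ζ) (fun ij => (c.map κ * y * c'.map κ) ij.1 ij.2) P₀ = 0 := by
    intro P₀ hP₀
    refine (Ideal.mem_bot).1 ((part2 ζ c c' I _ κ y ⊥).1 (fun P₁ hP₁ => ?_) P₀ hP₀)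
    have h1 : eval₂ κ (fun ij => y ij.1 ij.2) P₁ =
        LaurentPolynomial.C (eval₂ κ₀ (fun s => π (X s)) P₁) := by
      rw [eval₂_comp_left]; rfl
    rw [h1, hπ, (hker _).2 hP₁, map_zero]
    exact zero_mem _
  have h1 := hmul _ _ _ _ (hmul _ _ _ _ (hco _ κ t⁻¹) hy) (hco _ κ t)
  let z : Matrix n n (LaurentPolynomial R) :=
    Matrix.diagonal (fun i => ((t⁻¹ ^ w i : (LaurentPolynomial R)ˣ) : LaurentPolynomial R)) * y *
      Matrix.diagonal (fun i => ((t ^ w i : (LaurentPolynomial R)ˣ) : LaurentPolynomial R))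
  have h2 : ∀ A B E : Matrix n n (LaurentPolynomial R),
      c.map κ * A * c'.map κ * (c.map κ * B * c'.map κ) * (c.map κ * E * c'.map κ) =
        c.map κ * (A * B * E) * c'.map κ := by
    intro A B E
    have h3 : ∀ F : Matrix n n (LaurentPolynomial R), c'.map κ * (c.map κ * F) = F := by
      intro F; rw [← Matrix.mul_assoc, mul_eq_one_comm.1 (cc' hc κ), Matrix.one_mul]
    simp only [Matrix.mul_assoc, h3]
  rw [h2] at h1
  have h4 := (part2 ζ c c' I _ κ z ⊥).2 (fun P₀ hP₀ => (Ideal.mem_bot).2 (h1 P₀ hP₀)) P hP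
  have h5 : (fun ij : n × n => z ij.1 ij.2) = fun s =>
      LaurentPolynomial.C (π (X s)) * LaurentPolynomial.T (w s.2 - w s.1) := by
    funext s
    simp only [z, Matrix.mul_diagonal, Matrix.diagonal_mul, y, Matrix.of_apply, inv_zpow',
      unit_zpow t ht, LaurentPolynomial.T_sub]
    ring
  rw [h5, Ideal.mem_bot] at h4
  have h6 := coeff_eval (fun kl : n × n => w kl.2 - w kl.1) κ₀ (fun s => π (X s)) P d
  rw [hπ] at h6
  rw [← hker, ← h6]
  have h7 : eval₂ (LaurentPolynomial.C.comp κ₀) (fun s : n × n =>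
      LaurentPolynomial.C (π (X s)) * LaurentPolynomial.T (w s.2 - w s.1)) P = 0 := h4
  rw [h7]
  simp

end RGNewt

open RGNewt in
theorem rGNewt (h : SNewt) : SGNewt := by
  intro p _ k _ _ n _ _ D hD
  have e : D.Ic = D.I.map (psi (zO p k) D.c D.c') := rfl
  rw [e]
  refine ⟨?_, part2 (zO p k) D.c D.c' D.I⟩
  have := hD.smooth
  obtain ⟨Q, hQ⟩ := h _ _ D.I inferInstance
  obtain ⟨Q₁, hQ₁⟩ := newton (zO p k) D.c D.c' hD.c_mul D.I Q hQ
  exact ⟨_, homog _ _ _ hQ₁ (ic_homog (zO p k) D.c D.c' hD.c_mul D.I D.w hD.mul_mem hD.cochar),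
    fun ij => weightedHomogeneousComponent_isWeightedHomogeneous _ _⟩

end

end Pool.Agent.MP_dc2c90_ag.H20
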