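import Pool.Agent.MP_dc2c90_ag.H20.SpecB
import Pool.Agent.MP_dc2c90_ag.H20.RHens
import Pool.Agent.MP_dc2c90_ag.H20.RGNewt

/-!
Hensel's lemma and approximation for the display group.
-/

namespace Pool.Agent.MP_dc2c90_ag.H20

open WittVector MvPolynomial

noncomputable section

namespace RHG

theorem eval_fst {Λ A A' σ : Type} [CommRing Λ] [CommRing A] [CommRing A'] (κ : Λ →+* A)
    (κ' : Λ →+* A') (y : σ → A × A') (P : MvPolynomial σ Λ) :
    (eval₂ (κ.prod κ') y P).1 = eval₂ κ (fun s => (y s).1) P :=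
  MvPolynomial.eval₂_comp_left (RingHom.fst A A') (κ.prod κ') y P

theorem eval_snd {Λ A A' σ : Type} [CommRing Λ] [CommRing A] [CommRing A'] (κ : Λ →+* A)
    (κ' : Λ →+* A') (y : σ → A × A') (P : MvPolynomial σ Λ) :
    (eval₂ (κ.prod κ') y P).2 = eval₂ κ' (fun s => (y s).2) P :=
  MvPolynomial.eval₂_comp_left (RingHom.snd A A') (κ.prod κ') y P

theorem prod_pow_le {A A' : Type} [CommRing A] [CommRing A'] (I : Ideal A) (J : Ideal A')
    (K : ℕ) : (I.prod J) ^ K ≤ (I ^ K).prod (J ^ K) := by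
  intro z hz
  have h1 := Ideal.mem_map_of_mem (RingHom.fst A A') hz
  have h2 := Ideal.mem_map_of_mem (RingHom.snd A A') hz
  rw [Ideal.map_pow, Ideal.map_fst_prod] at h1
  rw [Ideal.map_pow, Ideal.map_snd_prod] at h2
  exact (Ideal.mem_prod _ _).2 ⟨h1, h2⟩

theorem eval_cong {Λ A σ : Type} [CommRing Λ] [CommRing A] (ζ : Λ →+* A) (𝔞 : Ideal A)
    {u v : σ → A} (h : ∀ s, u s - v s ∈ 𝔞) (P : MvPolynomial σ Λ) :
    eval₂ ζ u P - eval₂ ζ v P ∈ 𝔞 := by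
  rw [← Ideal.Quotient.eq, MvPolynomial.eval₂_comp_left, MvPolynomial.eval₂_comp_left]
  congr 1
  funext s
  exact Ideal.Quotient.eq.2 (h s)

variable {p : ℕ} [Fact p.Prime] {n : Type} [Fintype n] [DecidableEq n] {k : Type} [Field k]
  [CharP k p] {D : Data p k n} {R : Type} [CommRing R]

theorem gr_eval (hD : D.Good) (χ : WittVector p k →+* R) {σ : Type} [Fintype σ] (wt : σ → ℤ)
    {Q : MvPolynomial σ (WittVector p k)} {r : ℤ} (hQ : IsWeightedHomogeneous wt Q r)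
    {a b : σ → WittVector p R} (h : ∀ s, Gr (wt s) (a s) (b s)) :
    Gr r (eval₂ (D.iota χ) a Q) (eval₂ ((D.iota χ).comp frobenius) b Q) := by
  rw [eval₂_eq', eval₂_eq']
  refine Gr.sum _ fun d hd => ?_
  have hw := hQ (mem_support_iff.1 hd)
  rw [Finsupp.weight_apply, Finsupp.sum_fintype d (fun i c => c • wt i) (fun _ => zero_smul _ _)]
    at hw
  have h0 : Gr 0 (D.iota χ (coeff d Q)) (((D.iota χ).comp frobenius) (coeff d Q)) :=
    gr_zero_iff.2 (hD.frob_iota χ _).symm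
  have h1 := Gr.prod Finset.univ (r := fun s => d s • wt s) (a := fun s => a s ^ d s)
    (b := fun s => b s ^ d s) fun s _ => (h s).pow (d s)
  have h2 := h0.mul h1
  rwa [zero_add, hw] at h2

theorem gr_trunc {r : ℤ} {a b : WittVector p R} (h : Gr r a b) (B : Subring R) (M : ℕ)
    (ha : ∀ l < M + 1, a.coeff l ∈ B) (hb : ∀ l < M + 1, b.coeff l ∈ B) :
    ∃ z : WittVector p R × WittVector p R, Gr r z.1 z.2 ∧ z.1 ∈ WS p B ∧ z.2 ∈ WS p B ∧
      a - z.1 ∈ Vm p R (M + 1) ∧ b - z.2 ∈ Vm p R M := by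
  by_cases hr : 1 ≤ r
  · have hb' : init M b ∈ WS p B := init_mem_WS fun l hl => hb l (by omega)
    refine ⟨((p : WittVector p R) ^ (r - 1).toNat * verschiebung (init M b), init M b),
      (gr_of_pos hr).2 rfl, mul_mem (pow_mem (natCast_mem _ p) _) (V_mem_WS.2 hb'), hb', ?_,
      sub_init_mem_Vm M b⟩
    rw [(gr_of_pos hr).1 h, ← mul_sub, ← map_sub]
    exact Ideal.mul_mem_left _ _ (V_mem_Vm (sub_init_mem_Vm M b))
  · have hr' : r ≤ 0 := by omega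
    have ha' : init (M + 1) a ∈ WS p B := init_mem_WS ha
    refine ⟨(init (M + 1) a, (p : WittVector p R) ^ (-r).toNat * frobenius (init (M + 1) a)),
      (gr_of_nonpos hr').2 rfl, ha', mul_mem (pow_mem (natCast_mem _ p) _) (frob_mem_WS ha'),
      sub_init_mem_Vm _ a, ?_⟩
    rw [(gr_of_nonpos hr').1 h, ← mul_sub, ← map_sub]
    exact Ideal.mul_mem_left _ _ (frob_mem_Vm (sub_init_mem_Vm _ a))

omit [DecidableEq n] in
theorem conj_WS {B : Subring R} {u v x : Matrix n n (WittVector p R)} (hu : InWS B u)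
    (hv : InWS B v) (hx : InWS B x) : InWS B (u * x * v) :=
  mul_mem_matrix (mul_mem_matrix hu hx) hv

omit [DecidableEq n] in
theorem conj_ideal {𝔞 : Ideal (WittVector p R)} (u v : Matrix n n (WittVector p R))
    {x x' : Matrix n n (WittVector p R)} (h : ∀ i j, (x - x') i j ∈ 𝔞) (i j : n) :
    (u * x * v - u * x' * v) i j ∈ 𝔞 := by
  rw [← Matrix.sub_mul, ← Matrix.mul_sub]
  exact mul_mem_ideal_right _ (mul_mem_ideal_left _ h) i j

omit [DecidableEq n] in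
theorem conj_coeff {B : Subring R} {u v x : Matrix n n (WittVector p R)} (hu : InWS B u)
    (hv : InWS B v) {M : ℕ} (hx : ∀ i j, ∀ l < M, (x i j).coeff l ∈ B) (i j : n) :
    ∀ l < M, ((u * x * v) i j).coeff l ∈ B := by
  intro l hl
  have h1 : InWS B (u * x.map (init M) * v) :=
    conj_WS hu hv fun i j => init_mem_WS (hx i j)
  have h2 := conj_ideal (𝔞 := Vm p R M) u v (x := x) (x' := x.map (init M))
    (fun i j => sub_init_mem_Vm M (x i j)) i j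
  rw [Matrix.sub_apply] at h2
  rw [sub_mem_Vm.1 h2 l hl]
  exact mem_WS.1 (h1 i j) l

end RHG

open RHG

variable {p : ℕ} [Fact p.Prime] {n : Type} [Fintype n] [DecidableEq n] {k : Type} [Field k]
  [IsAlgClosed k] [CharP k p] {D : Data p k n} {π : Matrix (n × n) (n × n) ℤ_[p]}

omit [IsAlgClosed k] in
theorem rHG (hD : D.Good) : SHG D := by
  intro R _ χ y 𝔞₁ 𝔞₂ B hn₁ hn₂ hc₁ hc₂ hB hy hy₁ hy₂ hP₁ hP₂
  obtain ⟨⟨Qc, hN, hhom⟩, hiff⟩ := rGNewt rNewt p k n D hD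
  set κ₁ : WittVector p k →+* WittVector p R := D.iota χ with hκ₁
  set κ₂ : WittVector p k →+* WittVector p R := (D.iota χ).comp frobenius with hκ₂
  have hz₁ : κ₁.comp (zO p k) = D.zeta χ := rfl
  have hz₂ : κ₂.comp (zO p k) = D.zeta χ := by
    rw [hκ₂, RingHom.comp_assoc, frob_comp_zO]; rfl
  have hk₁ : ∀ o, κ₁ o ∈ WS p B := fun o => Data.iota_mem_WS hB o
  have hk₂ : ∀ o, κ₂ o ∈ WS p B := fun o => Data.iota_mem_WS hB _
  have hm₁ : ∀ x : Matrix n n (WittVector p k), InWS B (x.map κ₁) := fun x i j => hk₁ _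
  have hm₂ : ∀ x : Matrix n n (WittVector p k), InWS B (x.map κ₂) := fun x i j => hk₂ _
  obtain ⟨y', h1, h2, h3⟩ := rHens (WittVector p k) (WittVector p R × WittVector p R) (n × n)
    (κ₁.prod κ₂) (fun m => (Vm p R m).prod (Vm p R m)) D.Ic Qc (𝔞₁.prod 𝔞₂)
    (fun ij => {z | Gr (D.w ij.2 - D.w ij.1) z.1 z.2 ∧ z.1 ∈ WS p B ∧ z.2 ∈ WS p B})
    (fun ij => ((D.c'.map κ₁ * y.1 * D.c.map κ₁) ij.1 ij.2,
      (D.c'.map κ₂ * y.2 * D.c.map κ₂) ij.1 ij.2))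
    (by
      intro x hx
      obtain ⟨z₁, hz₁⟩ := Vm_complete (fun l => (x l).1) fun m =>
        (hx m).imp fun K hK l hl l' hl' => ((Ideal.mem_prod _ _).1 (hK l hl l' hl')).1
      obtain ⟨z₂, hz₂⟩ := Vm_complete (fun l => (x l).2) fun m =>
        (hx m).imp fun K hK l hl l' hl' => ((Ideal.mem_prod _ _).1 (hK l hl l' hl')).2
      refine ⟨(z₁, z₂), fun m => ?_⟩
      obtain ⟨K₁, hK₁⟩ := hz₁ m
      obtain ⟨K₂, hK₂⟩ := hz₂ m
      exact ⟨max K₁ K₂, fun l hl => (Ideal.mem_prod _ _).2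
        ⟨hK₁ l (le_trans (le_max_left _ _) hl), hK₂ l (le_trans (le_max_right _ _) hl)⟩⟩)
    (fun z hz => Prod.ext (Vm_sep _ fun m => ((Ideal.mem_prod _ _).1 (hz m)).1)
      (Vm_sep _ fun m => ((Ideal.mem_prod _ _).1 (hz m)).2))
    hN
    (by
      intro m
      obtain ⟨K₁, hK₁⟩ := hn₁ m
      obtain ⟨K₂, hK₂⟩ := hn₂ m
      refine ⟨max K₁ K₂, (prod_pow_le _ _ _).trans fun z hz => ?_⟩
      obtain ⟨a1, a2⟩ := (Ideal.mem_prod _ _).1 hz
      exact (Ideal.mem_prod _ _).2 ⟨hK₁ (Ideal.pow_le_pow_right (le_max_left _ _) a1),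
        hK₂ (Ideal.pow_le_pow_right (le_max_right _ _) a2)⟩)
    (by
      intro z hz
      refine (Ideal.mem_prod _ _).2 ⟨hc₁ _ fun m => ?_, hc₂ _ fun m => ?_⟩
      · obtain ⟨a, ha, hza⟩ := hz m
        exact ⟨a.1, ((Ideal.mem_prod _ _).1 ha).1, ((Ideal.mem_prod _ _).1 hza).1⟩
      · obtain ⟨a, ha, hza⟩ := hz m
        exact ⟨a.2, ((Ideal.mem_prod _ _).1 ha).2, ((Ideal.mem_prod _ _).1 hza).2⟩)
    (by
      intro s z hz
      refine ⟨Gr.closed fun m => ?_, vclosed_WS B _ fun m => ?_, vclosed_WS B _ fun m => ?_⟩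
      · obtain ⟨a, ha, hza⟩ := hz m
        exact ⟨a.1, a.2, ha.1, ((Ideal.mem_prod _ _).1 hza).1, ((Ideal.mem_prod _ _).1 hza).2⟩
      · obtain ⟨a, ha, hza⟩ := hz m
        exact ⟨a.1, ha.2.1, ((Ideal.mem_prod _ _).1 hza).1⟩
      · obtain ⟨a, ha, hza⟩ := hz m
        exact ⟨a.2, ha.2.2, ((Ideal.mem_prod _ _).1 hza).2⟩)
    (by
      intro y' hy' s
      refine ⟨?_, ?_, ?_⟩
      · rw [Prod.fst_sub, Prod.snd_sub, eval_fst, eval_snd]
        exact (hy' s).1.sub (gr_eval hD χ _ (hhom s) fun t => (hy' t).1)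
      · rw [Prod.fst_sub, eval_fst]
        exact sub_mem (hy' s).2.1 (eval₂_mem (fun _ _ => hk₁ _) fun t => (hy' t).2.1)
      · rw [Prod.snd_sub, eval_snd]
        exact sub_mem (hy' s).2.2 (eval₂_mem (fun _ _ => hk₂ _) fun t => (hy' t).2.2))
    (fun s => ⟨hy s.1 s.2, conj_WS (hm₁ _) (hm₁ _) hy₁ _ _, conj_WS (hm₂ _) (hm₂ _) hy₂ _ _⟩)
    (by
      intro P hP
      refine (Ideal.mem_prod _ _).2 ⟨?_, ?_⟩
      · rw [eval_fst]
        refine (hiff _ κ₁ (D.c'.map κ₁ * y.1 * D.c.map κ₁) 𝔞₁).2 ?_ P hP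
        rw [hD.conj_conj, hz₁]; exact hP₁
      · rw [eval_snd]
        refine (hiff _ κ₂ (D.c'.map κ₂ * y.2 * D.c.map κ₂) 𝔞₂).2 ?_ P hP
        rw [hD.conj_conj, hz₂]; exact hP₂)
  let Y₁ : Matrix n n (WittVector p R) := Matrix.of fun i j => (y' (i, j)).1
  let Y₂ : Matrix n n (WittVector p R) := Matrix.of fun i j => (y' (i, j)).2
  refine ⟨(D.c.map κ₁ * Y₁ * D.c'.map κ₁, D.c.map κ₂ * Y₂ * D.c'.map κ₂), ⟨?_, ?_, ?_⟩, ?_, ?_,
    conj_WS (hm₁ _) (hm₁ _) fun i j => (h3 (i, j)).2.1,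
    conj_WS (hm₂ _) (hm₂ _) fun i j => (h3 (i, j)).2.2⟩
  · intro P hP
    have := (hiff _ κ₁ Y₁ ⊥).1 (fun P hP => by
      have e := congrArg Prod.fst (h1 P hP)
      rw [eval_fst] at e
      exact Ideal.mem_bot.2 e) P hP
    rw [hz₁] at this
    exact Ideal.mem_bot.1 this
  · intro P hP
    have := (hiff _ κ₂ Y₂ ⊥).1 (fun P hP => by
      have e := congrArg Prod.snd (h1 P hP)
      rw [eval_snd] at e
      exact Ideal.mem_bot.2 e) P hP
    rw [hz₂] at this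
    exact Ideal.mem_bot.1 this
  · intro i j
    change Gr _ ((D.c'.map κ₁ * (D.c.map κ₁ * Y₁ * D.c'.map κ₁) * D.c.map κ₁) i j)
      ((D.c'.map κ₂ * (D.c.map κ₂ * Y₂ * D.c'.map κ₂) * D.c.map κ₂) i j)
    rw [hD.conj_conj', hD.conj_conj']
    exact (h3 (i, j)).1
  · intro i j
    have := conj_ideal (𝔞 := 𝔞₁) (D.c.map κ₁) (D.c'.map κ₁) (x := Y₁)
      (x' := D.c'.map κ₁ * y.1 * D.c.map κ₁)
      (fun i j => ((Ideal.mem_prod _ _).1 (h2 (i, j))).1) i j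
    rwa [hD.conj_conj] at this
  · intro i j
    have := conj_ideal (𝔞 := 𝔞₂) (D.c.map κ₂) (D.c'.map κ₂) (x := Y₂)
      (x' := D.c'.map κ₂ * y.2 * D.c.map κ₂)
      (fun i j => ((Ideal.mem_prod _ _).1 (h2 (i, j))).2) i j
    rwa [hD.conj_conj] at this

omit [IsAlgClosed k] in
theorem rAppH (hD : D.Good) (h : SHG D) : SAppH D := by
  intro R _ χ hR g M B hg hM hB hg₁ hg₂
  set κ₁ : WittVector p k →+* WittVector p R := D.iota χ with hκ₁
  set κ₂ : WittVector p k →+* WittVector p R := (D.iota χ).comp frobenius with hκ₂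
  have hm₁ : ∀ x : Matrix n n (WittVector p k), InWS B (x.map κ₁) :=
    fun x i j => Data.iota_mem_WS hB _
  have hm₂ : ∀ x : Matrix n n (WittVector p k), InWS B (x.map κ₂) :=
    fun x i j => Data.iota_mem_WS hB _
  choose z hz using fun i j => gr_trunc (hg.2.2 i j) B M
    (conj_coeff (hm₁ _) (hm₁ _) hg₁ i j) (conj_coeff (hm₂ _) (hm₂ _) hg₂ i j)
  let Y₁ : Matrix n n (WittVector p R) := Matrix.of fun i j => (z i j).1
  let Y₂ : Matrix n n (WittVector p R) := Matrix.of fun i j => (z i j).2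
  have d₁ : ∀ i j, (g.1 - D.c.map κ₁ * Y₁ * D.c'.map κ₁) i j ∈ Vm p R (M + 1) := fun i j => by
    have := conj_ideal (𝔞 := Vm p R (M + 1)) (D.c.map κ₁) (D.c'.map κ₁) (x' := Y₁)
      (x := D.c'.map κ₁ * g.1 * D.c.map κ₁) (fun i j => (hz i j).2.2.2.1) i j
    rwa [hD.conj_conj] at this
  have d₂ : ∀ i j, (g.2 - D.c.map κ₂ * Y₂ * D.c'.map κ₂) i j ∈ Vm p R M := fun i j => by
    have := conj_ideal (𝔞 := Vm p R M) (D.c.map κ₂) (D.c'.map κ₂) (x' := Y₂)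
      (x := D.c'.map κ₂ * g.2 * D.c.map κ₂) (fun i j => (hz i j).2.2.2.2) i j
    rwa [hD.conj_conj] at this
  obtain ⟨h₀, a1, a2, a3, a4, a5⟩ := h R χ
    (D.c.map κ₁ * Y₁ * D.c'.map κ₁, D.c.map κ₂ * Y₂ * D.c'.map κ₂) (Vm p R (M + 1)) (Vm p R M) B
    (vnil_Vm hR (by omega)) (vnil_Vm hR hM) (vclosed_Vm _) (vclosed_Vm _) hB
    (by
      intro i j
      change Gr _ ((D.c'.map κ₁ * (D.c.map κ₁ * Y₁ * D.c'.map κ₁) * D.c.map κ₁) i j)
        ((D.c'.map κ₂ * (D.c.map κ₂ * Y₂ * D.c'.map κ₂) * D.c.map κ₂) i j)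
      rw [hD.conj_conj', hD.conj_conj']
      exact (hz i j).1)
    (conj_WS (hm₁ _) (hm₁ _) fun i j => (hz i j).2.1)
    (conj_WS (hm₂ _) (hm₂ _) fun i j => (hz i j).2.2.1)
    (by
      intro P hP
      have e := eval_cong (D.zeta χ) (Vm p R (M + 1)) (u := fun ij : n × n => g.1 ij.1 ij.2)
        (v := fun ij : n × n => (D.c.map κ₁ * Y₁ * D.c'.map κ₁) ij.1 ij.2)
        (fun s => d₁ s.1 s.2) P
      rw [hg.1 P hP, zero_sub] at e
      exact (Ideal.neg_mem_iff _).1 e)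
    (by
      intro P hP
      have e := eval_cong (D.zeta χ) (Vm p R M) (u := fun ij : n × n => g.2 ij.1 ij.2)
        (v := fun ij : n × n => (D.c.map κ₂ * Y₂ * D.c'.map κ₂) ij.1 ij.2)
        (fun s => d₂ s.1 s.2) P
      rw [hg.2.1 P hP, zero_sub] at e
      exact (Ideal.neg_mem_iff _).1 e)
  refine ⟨h₀, a1, a4, a5, fun i j => ?_, fun i j => ?_⟩
  · have := (Vm p R (M + 1)).sub_mem (d₁ i j) (a2 i j)
    simp only [Matrix.sub_apply] at this ⊢
    convert this using 1; ring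
  · have := (Vm p R M).sub_mem (d₂ i j) (a3 i j)
    simp only [Matrix.sub_apply] at this ⊢
    convert this using 1; ring

end

end Pool.Agent.MP_dc2c90_ag.H20
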