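import Pool.Agent.MP_dc2c90_ag.H20.SpecB
import Pool.Agent.MP_dc2c90_ag.H20.RHens

/-!
Hensel lemma, approximation and integral lifts in `G(W(R))`.
-/

namespace Pool.Agent.MP_dc2c90_ag.H20

open WittVector MvPolynomial

noncomputable section

variable {p : ℕ} [Fact p.Prime] {n : Type} [Fintype n] [DecidableEq n] {k : Type} [Field k]
  [IsAlgClosed k] [CharP k p] {D : Data p k n}

namespace RHN

theorem eval₂_mem {Λ S σ : Type} [CommRing Λ] [CommRing S] (B : Subring S) (κ : Λ →+* S)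
    (y : σ → S) (hκ : ∀ x, κ x ∈ B) (hy : ∀ s, y s ∈ B) (P : MvPolynomial σ Λ) :
    eval₂ κ y P ∈ B := by
  induction P using MvPolynomial.induction_on with
  | C a => rw [eval₂_C]; exact hκ a
  | add P Q hP hQ => rw [eval₂_add]; exact add_mem hP hQ
  | mul_X P s hP => rw [eval₂_mul, eval₂_X]; exact mul_mem hP (hy s)

omit [Fintype n] [DecidableEq n] in
theorem eval₂_mem_of_congr {S : Type} [CommRing S] {I : Ideal (MvPolynomial (n × n) ℤ_[p])}
    {ζ : ℤ_[p] →+* S} (𝔞 : Ideal S) {y z : Matrix n n S} (h : ∀ i j, y i j - z i j ∈ 𝔞)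
    (hz : Pt I ζ z) (P : MvPolynomial (n × n) ℤ_[p]) (hP : P ∈ I) :
    eval₂ ζ (fun ij => y ij.1 ij.2) P ∈ 𝔞 := by
  have e : y.map (Ideal.Quotient.mk 𝔞) = z.map (Ideal.Quotient.mk 𝔞) := by
    ext1 i j
    exact Ideal.Quotient.eq.2 (h i j)
  rw [← Ideal.Quotient.eq_zero_iff_mem, map_eval₂_matrix, e, ← map_eval₂_matrix, hz P hP,
    map_zero]

end RHN

omit [IsAlgClosed k] in
theorem rHN (hD : D.Good) : SHN D := by
  intro R _ χ y 𝔞 B hnil hcl hB hy hI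
  obtain ⟨Q, hQ⟩ := rNewt ℤ_[p] (n × n) D.I hD.smooth.formallySmooth
  obtain ⟨y', h1, h2, h3⟩ := rHens ℤ_[p] (WittVector p R) (n × n) (D.zeta χ) (Vm p R) D.I Q 𝔞
    (fun _ => (WS p B : Set (WittVector p R))) (fun ij => y ij.1 ij.2) Vm_complete Vm_sep hQ hnil
    hcl (fun _ => vclosed_WS B)
    (fun y' hy' s => sub_mem (hy' s)
      (RHN.eval₂_mem (WS p B) _ y' (Data.zeta_mem_WS hB) hy' (Q s)))
    (fun s => hy s.1 s.2) hI
  exact ⟨Matrix.of fun i j => y' (i, j), h1, fun i j => h2 (i, j), fun i j => h3 (i, j)⟩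

omit [IsAlgClosed k] in
theorem rAppG (hD : D.Good) : SAppG D := by
  intro R _ χ hR U M B hU hM hB hc
  have h0 : ∀ i j, (U.map (init M)) i j - U i j ∈ Vm p R M := fun i j => by
    rw [← neg_sub]
    exact neg_mem (sub_init_mem_Vm M (U i j))
  obtain ⟨U₀, h1, h2, h3⟩ := rHN hD R χ (U.map (init M)) (Vm p R M) B (vnil_Vm hR hM)
    (vclosed_Vm M) hB (fun i j => init_mem_WS (hc i j)) (RHN.eval₂_mem_of_congr _ h0 hU)
  refine ⟨U₀, h1, h3, fun i j => ?_⟩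
  have h4 := neg_mem (add_mem (h2 i j) (h0 i j))
  rw [Matrix.sub_apply] at h4 ⊢
  convert h4 using 1
  ring

omit [IsAlgClosed k] in
theorem rInt (hD : D.Good) : SInt D := by
  intro R _ χ hR m κ hm hκ hCC
  obtain ⟨Y₀, hY₀⟩ := CC.eq_one_add_Vi hR hCC
  set y : Matrix n n (WittVector p R) := 1 + Y₀.map (Vi p R m) with hy
  have hy1 : ∀ i j, y i j - (1 : Matrix n n (WittVector p R)) i j ∈ Vm p R m := fun i j => by
    rw [hy, Matrix.add_apply, add_sub_cancel_left]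
    exact Vi_mem_Vm m _
  obtain ⟨s, hs⟩ : D.I.FG := IsNoetherian.noetherian _
  obtain ⟨u, hu⟩ := exists_uniform (ι := s)
    (P := fun P u => (p : WittVector p R) ^ u * eval₂ (D.zeta χ) (fun ij => y ij.1 ij.2) P.1 = 0)
    (fun P a b hab h => by
      obtain ⟨d, rfl⟩ := Nat.exists_eq_add_of_le hab
      rw [add_comm, pow_add, mul_assoc, h, mul_zero])
    fun P => toT_eq_zero_iff.1 (by
      rw [map_eval₂_matrix, ← hY₀]
      exact hκ P.1 (hs ▸ Ideal.subset_span P.2))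
  let 𝔟 : Ideal (WittVector p R) :=
    LinearMap.ker (LinearMap.mulLeft (WittVector p R) ((p : WittVector p R) ^ u))
  have h𝔟 : ∀ z, z ∈ 𝔟 ↔ (p : WittVector p R) ^ u * z = 0 := fun z => Iff.rfl
  have hI : ∀ P ∈ D.I, eval₂ (D.zeta χ) (fun ij => y ij.1 ij.2) P ∈ 𝔟 := by
    have hle : D.I ≤ 𝔟.comap (eval₂Hom (D.zeta χ) (fun ij : n × n => y ij.1 ij.2)) := by
      rw [← hs, Ideal.span_le]
      intro P hP
      exact hu ⟨P, hP⟩
    exact fun P hP => hle hP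
  obtain ⟨y', h1, h2, -⟩ := rHN hD R χ y (𝔟 ⊓ Vm p R m) ⊤ ((vnil_Vm hR hm).mono inf_le_right)
    ((vclosed_ann ((p : WittVector p R) ^ u)).inter (vclosed_Vm m)) (fun _ => trivial)
    (fun _ _ => mem_WS_top _)
    (fun P hP => ⟨hI P hP, RHN.eval₂_mem_of_congr _ hy1 (hD.pt_one _) P hP⟩)
  obtain ⟨Y, hY⟩ := exists_map_Vi (m := m) (a := y' - 1) fun i j => by
    have h4 := add_mem (h2 i j).2 (hy1 i j)
    rw [Matrix.sub_apply] at h4 ⊢
    rwa [sub_add_sub_cancel] at h4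
  have e : 1 + Y.map (Vi p R m) = y' := by rw [← hY, add_sub_cancel]
  refine ⟨Y, e ▸ h1, ?_⟩
  rw [e, hY₀]
  ext1 i j
  refine toT_eq_iff.2 ⟨u, ?_⟩
  have h5 := (h𝔟 _).1 (h2 i j).1
  rwa [Matrix.sub_apply, mul_sub, sub_eq_zero] at h5

end

end Pool.Agent.MP_dc2c90_ag.H20
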