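import Pool.Agent.MP_dc2c90_ag.H20.SpecB

/-! A cocycle close to `1` is a coboundary. -/

namespace Pool.Agent.MP_dc2c90_ag.H20

open WittVector

variable {p : ℕ} [Fact p.Prime] {n : Type} [Fintype n] [DecidableEq n] {k : Type} [Field k]
  [CharP k p] {D : Data p k n}

namespace RLim

theorem eval_sub {σ O S : Type} [CommRing O] [CommRing S] (ζ : O →+* S) (𝔞 : Ideal S)
    {x y : σ → S} (h : ∀ i, x i - y i ∈ 𝔞) (P : MvPolynomial σ O) :
    MvPolynomial.eval₂ ζ x P - MvPolynomial.eval₂ ζ y P ∈ 𝔞 := by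
  rw [← Ideal.Quotient.eq, MvPolynomial.eval₂_comp_left, MvPolynomial.eval₂_comp_left]
  congr 1
  funext i
  exact Ideal.Quotient.eq.2 (h i)

omit [Fintype n] [DecidableEq n] in
theorem pt_closed {R : Type} [CommRing R] {I : Ideal (MvPolynomial (n × n) ℤ_[p])}
    {ζ : ℤ_[p] →+* WittVector p R} {g : Matrix n n (WittVector p R)}
    (h : ∀ m, ∃ g', Pt I ζ g' ∧ ∀ i j, (g - g') i j ∈ Vm p R m) : Pt I ζ g := fun P hP =>
  Vm_sep _ fun m => by
    obtain ⟨g', h1, h2⟩ := h m
    have := eval_sub ζ (Vm p R m) (x := fun ij : n × n => g ij.1 ij.2)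
      (y := fun ij : n × n => g' ij.1 ij.2) (fun ij => h2 ij.1 ij.2) P
    rwa [h1 P hP, sub_zero] at this

theorem isH_closed {R : Type} [CommRing R] {χ : WittVector p k →+* R} {h : HP p n R}
    (H : ∀ m, ∃ h', D.IsH χ h' ∧ Cong m h h') : D.IsH χ h := by
  refine ⟨pt_closed fun m => ?_, pt_closed fun m => ?_, fun i j => Gr.closed fun m => ?_⟩
  · obtain ⟨h', h1, h2⟩ := H m
    exact ⟨h'.1, h1.1, fun i j => Vm_anti (Nat.le_succ m) (h2.1 i j)⟩
  · obtain ⟨h', h1, h2⟩ := H m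
    exact ⟨h'.2, h1.2.1, h2.2⟩
  · obtain ⟨h', h1, h2⟩ := H m
    refine ⟨_, _, h1.2.2 i j, ?_, ?_⟩
    · rw [← Matrix.sub_apply, ← Matrix.sub_mul, ← Matrix.mul_sub]
      exact mul_mem_ideal_right _ (mul_mem_ideal_left _
        fun i j => Vm_anti (Nat.le_succ m) (h2.1 i j)) i j
    · rw [← Matrix.sub_apply, ← Matrix.sub_mul, ← Matrix.mul_sub]
      exact mul_mem_ideal_right _ (mul_mem_ideal_left _ h2.2) i j

omit [Fintype n] [DecidableEq n] in
theorem exists_lim {R : Type} [CommRing R] (V : ℕ → HP p n R)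
    (h : ∀ l, Cong l (V (l + 1)) (V l)) : ∃ v, ∀ l, Cong l v (V l) := by
  have h1 : ∀ l l', l ≤ l' → Cong l (V l') (V l) := fun l l' hl => by
    induction l', hl using Nat.le_induction with
    | base => exact Cong.refl _ _
    | succ l' hl ih => exact ((h l').anti hl).trans ih
  have h2 : ∀ m, ∀ l ≥ m, ∀ l' ≥ m, Cong m (V l) (V l') :=
    fun m l hl l' hl' => (h1 m l hl).trans (h1 m l' hl').symm
  choose z₁ hz₁ using fun i j => Vm_complete (fun l => (V l).1 i j) fun m =>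
    ⟨m, fun l hl l' hl' => Vm_anti (Nat.le_succ m) ((h2 m l hl l' hl').1 i j)⟩
  choose z₂ hz₂ using fun i j => Vm_complete (fun l => (V l).2 i j) fun m =>
    ⟨m, fun l hl l' hl' => (h2 m l hl l' hl').2 i j⟩
  refine ⟨(Matrix.of z₁, Matrix.of z₂), fun l => ⟨fun i j => ?_, fun i j => ?_⟩⟩
  · obtain ⟨K, hK⟩ := hz₁ i j (l + 1)
    have := (Vm p R _).sub_mem ((h1 l (max K l) (le_max_right _ _)).1 i j)
      (hK (max K l) (le_max_left _ _))
    simpa using this
  · obtain ⟨K, hK⟩ := hz₂ i j l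
    have := (Vm p R _).sub_mem ((h1 l (max K l) (le_max_right _ _)).2 i j)
      (hK (max K l) (le_max_left _ _))
    simpa using this

theorem twist (hD : D.Good) {A E : Type} [CommRing A] [CommRing E] {χ : WittVector p k →+* A}
    {e : A →+* E} {κ : Fam p n E} (hκ : D.IsCoc χ e κ) {V : HP p n E} (hV : D.IsH (e.comp χ) V) :
    D.IsCoc χ e fun B _ a b => hinv (hmap a V) * κ B a b * hmap b V := by
  refine ⟨fun B _ a b hab => ?_, fun B B' _ _ ψ a b hab => ?_, fun B _ a b c hab hbc => ?_⟩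
  · exact hD.isH_mul (hD.isH_mul (hD.isH_inv (hV.map a rfl)) (hκ.hh B a b hab))
      (hV.map b (by rw [← RingHom.comp_assoc, ← hab, RingHom.comp_assoc]))
  · rw [hmap_mul, hmap_mul, hD.hmap_hinv (hV.map a rfl), hmap_hmap, hmap_hmap,
      hκ.nat B B' ψ a b hab]
  · rw [← hκ.coc B a b c hab hbc]
    simp only [mul_assoc]
    rw [← mul_assoc (hmap b V), hD.mul_hinv (hV.map b rfl), one_mul]

end RLim

open RLim in
theorem rLim (hD : D.Good) (h : SStep D) : SLim D := by
  intro A E _ _ χ e s m κ he hs hsm hm hκ h1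
  let Q : ℕ → HP p n E → Prop := fun l V => D.IsH (e.comp χ) V ∧
    ∀ (B : Type) [CommRing B] (a b : E →+* B), a.comp e = b.comp e →
      Cong (m + l) (κ B a b * hmap b V) (hmap a V)
  have q0 : Q 0 1 := ⟨hD.isH_one _, fun B _ a b hab => by
    rw [hmap_one, hmap_one, mul_one]
    exact h1 B a b hab⟩
  have step : ∀ l V, Q l V → ∃ V', Q (l + 1) V' ∧ Cong l V' V := by
    intro l V hV
    obtain ⟨v, v1, v2, v3⟩ := h A E χ e s (m + l) _ he hs (by omega) (by omega) (twist hD hκ hV.1)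
      fun B _ a b hab => by
        have := (hV.2 B a b hab).mul_left (hinv (hmap a V))
        rwa [hD.hinv_mul (hV.1.map a rfl), ← mul_assoc] at this
    refine ⟨V * v, ⟨hD.isH_mul hV.1 v1, fun B _ a b hab => ?_⟩, ?_⟩
    · have := (v3 B a b hab).mul_left (hmap a V)
      simp only [← mul_assoc] at this
      rw [hD.mul_hinv (hV.1.map a rfl), one_mul] at this
      rwa [hmap_mul, hmap_mul, ← mul_assoc, ← add_assoc]
    · have := (v2.mul_left V).anti (Nat.le_add_left l m)
      rwa [mul_one] at this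
  choose! f hf using step
  let V : ℕ → HP p n E := fun l => Nat.rec 1 f l
  have hV : ∀ l, Q l (V l) := fun l => by
    induction l with
    | zero => exact q0
    | succ l ih => exact (hf l _ ih).1
  obtain ⟨v, hv⟩ := exists_lim V fun l => (hf l _ (hV l)).2
  refine ⟨v, isH_closed fun l => ⟨V l, (hV l).1, hv l⟩, fun B _ a b hab => eq_of_cong fun l => ?_⟩
  exact ((((hv l).map b).mul_left _).trans
    (((hV l).2 B a b hab).anti (Nat.le_add_left l m))).trans ((hv l).map a).symm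

end Pool.Agent.MP_dc2c90_ag.H20
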