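import Pool.Agent.MP_dc2c90_ag.H20.SpecB

/-!
Linearisation modulo `W(B)`.
-/

namespace Pool.Agent.MP_dc2c90_ag.H20

open WittVector MvPolynomial

noncomputable section

variable {p : ℕ} [Fact p.Prime] {n : Type} [Fintype n] [DecidableEq n] {k : Type} [Field k]
  [CharP k p] {D : Data p k n} {π : Matrix (n × n) (n × n) ℤ_[p]}

namespace RLin

variable {R : Type} [CommRing R]

theorem gr_pos {r : ℤ} (hr : 1 ≤ r) {M : ℕ} {a b : WittVector p R}
    (h : Gr r (Vi p R (M + 1) a) (Vi p R M b)) :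
    a = (p : WittVector p R) ^ (r - 1).toNat * b := by
  rw [gr_of_pos hr, ← Vi_succ, ← Vi_p_mul] at h
  exact Vi_injective _ h

theorem gr_nonpos {r : ℤ} (hr : r ≤ 0) {M : ℕ} {a b : WittVector p R}
    (h : Gr r (Vi p R (M + 1) a) (Vi p R M b)) :
    b = (p : WittVector p R) ^ (1 - r).toNat * a := by
  rw [gr_of_nonpos hr, frob_Vi_succ, ← Vi_p_mul] at h
  have e : (1 - r).toNat = (-r).toNat + 1 := by omega
  rw [Vi_injective _ h, e, pow_succ, mul_assoc]

theorem pow_mem_WS (B : Subring R) (u : ℕ) : (p : WittVector p R) ^ u ∈ WS p B :=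
  pow_mem (natCast_mem _ p) u

theorem pow_mul_mem {B : Subring R} {u v : ℕ} (h : u ≤ v) {z : WittVector p R}
    (hz : (p : WittVector p R) ^ u * z ∈ WS p B) : (p : WittVector p R) ^ v * z ∈ WS p B := by
  obtain ⟨d, rfl⟩ := Nat.exists_eq_add_of_le h
  rw [add_comm, pow_add, mul_assoc]
  exact mul_mem (pow_mem_WS B d) hz

theorem eval_mem {S σ : Type} [CommRing S] (B : Subring S) (ζ : ℤ_[p] →+* S) (hζ : ∀ x, ζ x ∈ B)
    (y : σ → S) (hy : ∀ s, y s ∈ B) (P : MvPolynomial σ ℤ_[p]) : eval₂ ζ y P ∈ B := by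
  induction P using MvPolynomial.induction_on with
  | C a => rw [eval₂_C]; exact hζ a
  | add P Q hP hQ => rw [eval₂_add]; exact add_mem hP hQ
  | mul_X P s hP => rw [eval₂_mul, eval₂_X]; exact mul_mem hP (hy s)

theorem quad (hD : D.Good) (hπ : IsProj D.I π) (χ : WittVector p k →+* R) (B : Subring R)
    (hB : ∀ o, χ o ∈ B) (v m : ℕ) (hm : 2 * v ≤ m) (Z : Matrix n n (WittVector p R))
    (hZ : Pt D.I (D.zeta χ) (1 + Z.map (Vi p R m)))
    (hv : ∀ i j, (p : WittVector p R) ^ v * Z i j ∈ WS p B) :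
    InWS B (Z - app (π.map (D.zeta χ)) Z) := by
  obtain ⟨N, hN⟩ := hπ.quad
  intro i j
  have h1 := hN _ (D.zeta χ) (Z.map (Vi p R m)) hZ i j
  have e1 : (π.map (D.zeta χ)).map (Fi p R m) = π.map (D.zeta χ) := by
    ext1 s t
    exact RingHom.congr_fun (hD.Fi_comp_zeta χ m) (π s t)
  rw [app_map_Vi, e1, Matrix.sub_apply, Matrix.map_apply, Matrix.map_apply, ← map_sub] at h1
  rw [Matrix.sub_apply, ← Vi_mem_WS (m := m), h1]
  refine sum_mem fun kl _ => sum_mem fun kl' _ => ?_
  rw [Matrix.map_apply, Matrix.map_apply, Vi_mul_Vi, Vi_mul, Vi_mem_WS]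
  refine mul_mem ?_ ?_
  · obtain ⟨d, rfl⟩ := Nat.exists_eq_add_of_le hm
    have e2 : (p : WittVector p R) ^ (2 * v + d) * (Z kl.1 kl.2 * Z kl'.1 kl'.2) =
        (p : WittVector p R) ^ d * (((p : WittVector p R) ^ v * Z kl.1 kl.2) *
          ((p : WittVector p R) ^ v * Z kl'.1 kl'.2)) := by ring
    rw [e2]
    exact mul_mem (pow_mem_WS B d) (mul_mem (hv _ _) (hv _ _))
  · rw [map_eval₂_matrix, hD.Fi_comp_zeta]
    refine eval_mem _ _ (Data.zeta_mem_WS hB) _ (fun s => ?_) _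
    rw [Matrix.map_apply, Matrix.map_apply, Fi_Vi]
    exact pow_mul_mem (by omega) (hv _ _)

end RLin

open RLin in
theorem rLin [IsAlgClosed k] (hD : D.Good) (hπ : IsProj D.I π) (h1 : SDD D π) : SLin D π := by
  refine ⟨Finset.univ.sup fun ij : n × n => (D.w ij.2 - D.w ij.1).toNat, ?_⟩
  set r₀ : ℕ := Finset.univ.sup fun ij : n × n => (D.w ij.2 - D.w ij.1).toNat with hr₀
  have hr : ∀ i j, (D.w j - D.w i).toNat ≤ r₀ := fun i j =>
    Finset.le_sup (f := fun ij : n × n => (D.w ij.2 - D.w ij.1).toNat) (Finset.mem_univ (i, j))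
  intro R _ χ B u M Y Y' hB hM hH hY
  set κ : WittVector p k →+* WittVector p R := (D.iota χ).comp (Fi p k (M + 1)) with hκ
  have hκB : ∀ o, κ o ∈ WS p B := fun o => Data.iota_mem_WS hB _
  have hz : κ.comp (zO p k) = D.zeta χ := RingHom.ext fun x => by
    simp only [hκ, Data.zeta, RingHom.comp_apply, Fi_zO]
  have conj : ∀ x : Matrix n n (WittVector p R), InWS B x →
      InWS B (D.c'.map κ * x * D.c.map κ) := fun x hx =>
    mul_mem_matrix (mul_mem_matrix (fun _ _ => hκB _) hx) fun _ _ => hκB _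
  have unconj : ∀ x : Matrix n n (WittVector p R), InWS B (D.c'.map κ * x * D.c.map κ) →
      InWS B x := fun x hx => by
    rw [← hD.conj_conj κ x]
    exact mul_mem_matrix (mul_mem_matrix (fun _ _ => hκB _) hx) fun _ _ => hκB _
  have hG : ∀ i j, Gr (D.w j - D.w i) (Vi p R (M + 1) ((D.c'.map κ * Y * D.c.map κ) i j))
      (Vi p R M ((D.c'.map κ * Y' * D.c.map κ) i j)) := by
    intro i j
    have h2 := (hH.2.2.sub (hD.graded_one χ)) i j
    have a1 : ∀ x : Matrix n n (WittVector p k),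
        (x.map (D.iota χ)).map (Fi p R (M + 1)) = x.map κ := fun x => by
      ext1 s t
      exact hD.Fi_iota χ (M + 1) (x s t)
    have a2 : ∀ x : Matrix n n (WittVector p k),
        (x.map ((D.iota χ).comp frobenius)).map (Fi p R M) = x.map κ := fun x => by
      ext1 s t
      simp only [Matrix.map_apply, RingHom.comp_apply, hκ, hD.Fi_iota, Fi_succ']
    simp only [Prod.fst_sub, Prod.snd_sub, Prod.fst_one, Prod.snd_one, add_sub_cancel_left] at h2
    rw [mul_map_Vi, map_Vi_mul, mul_map_Vi, map_Vi_mul, a1, a1, a2, a2] at h2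
    exact h2
  have smul_conj : ∀ (v : ℕ) (x : Matrix n n (WittVector p R)) (i j : n),
      (D.c'.map κ * ((p : WittVector p R) ^ v • x) * D.c.map κ) i j =
        (p : WittVector p R) ^ v * (D.c'.map κ * x * D.c.map κ) i j := fun v x i j => by
    rw [Matrix.mul_smul, Matrix.smul_mul, Matrix.smul_apply, smul_eq_mul]
  have hYc : ∀ i j, (p : WittVector p R) ^ u * (D.c'.map κ * Y * D.c.map κ) i j ∈ WS p B :=
    fun i j => by
      rw [← smul_conj]
      exact conj _ hY i j
  have hY' : InWS B ((p : WittVector p R) ^ (u + r₀) • Y') := by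
    refine unconj _ fun i j => ?_
    rw [smul_conj]
    by_cases hw : 1 ≤ D.w j - D.w i
    · have h3 := hYc i j
      rw [gr_pos hw (hG i j), ← mul_assoc, ← pow_add] at h3
      have := hr i j
      exact pow_mul_mem (by omega) h3
    · rw [gr_nonpos (by omega) (hG i j), ← mul_assoc, ← pow_add]
      exact pow_mul_mem (by omega) (hYc i j)
  have q1 : InWS B (Y - app (π.map (D.zeta χ)) Y) :=
    quad hD hπ χ B hB u (M + 1) (by omega) Y hH.1 hY
  have q2 : InWS B (Y' - app (π.map (D.zeta χ)) Y') :=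
    quad hD hπ χ B hB (u + r₀) M hM Y' hH.2.1 hY'
  refine unconj _ fun i j => ?_
  rw [Matrix.mul_sub, Matrix.sub_mul, Matrix.sub_apply, h1.coord, hz]
  by_cases hw : D.w j - D.w i ≤ 1
  · have e1 : κ (D.sc i j) = (p : WittVector p R) ^ (1 - (D.w j - D.w i)).toNat := by
      rw [Data.sc, if_pos hw, map_pow, map_natCast]
    have e2 : (D.c'.map κ * Y' * D.c.map κ) i j =
        (p : WittVector p R) ^ (1 - (D.w j - D.w i)).toNat * (D.c'.map κ * Y * D.c.map κ) i j := by
      by_cases hw' : 1 ≤ D.w j - D.w i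
      · have e3 : D.w j - D.w i = 1 := le_antisymm hw hw'
        rw [gr_pos hw' (hG i j), e3]
        simp
      · exact gr_nonpos (by omega) (hG i j)
    have h4 := conj _ q1 i j
    rw [Matrix.mul_sub, Matrix.sub_mul, Matrix.sub_apply] at h4
    rw [e1, e2, ← mul_sub]
    exact mul_mem (pow_mem_WS B _) h4
  · have e1 : κ (D.sc i j) = 0 := by rw [Data.sc, if_neg hw, map_zero]
    have h4 := conj _ q2 i j
    have h5 := h1.minus _ κ (app (π.map (D.zeta χ)) Y') (by rw [hz]; exact hπ.lie _ _ _) i j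
      (by omega)
    rw [Matrix.mul_sub, Matrix.sub_mul, Matrix.sub_apply, h5, sub_zero] at h4
    rw [e1, zero_mul, sub_zero]
    exact h4

end

end Pool.Agent.MP_dc2c90_ag.H20
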