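import Pool.Agent.MP_dc2c90_ag.H20.SpecB

/-!
The twisted products `Φ_i` and `A_i`.
-/

namespace Pool.Agent.MP_dc2c90_ag.H20

open WittVector

noncomputable section

variable {p : ℕ} [Fact p.Prime] {n : Type} [Fintype n] [DecidableEq n] {k : Type} [Field k]
  [CharP k p] {D : Data p k n} {π : Matrix (n × n) (n × n) ℤ_[p]}

namespace RPhi

theorem map_smul' {S S' d d' : Type} [CommRing S] [CommRing S'] (φ : S →+* S') (c : S)
    (x : Matrix d d' S) : (c • x).map φ = φ c • x.map φ := by
  ext1 i j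
  simp only [Matrix.map_apply, Matrix.smul_apply, smul_eq_mul, map_mul]

variable {R : Type} [CommRing R]

theorem map_frob_toT {d d' : Type} (x : Matrix d d' (WittVector p R)) :
    (x.map (toT p R)).map (fT p R) = (x.map frobenius).map (toT p R) := by
  ext1 i j
  exact fT_toT _

theorem tw_pt (hD : D.Good) (χ : WittVector p k →+* R) {β : Matrix n n (T p R)}
    (hβ : Pt D.I ((toT p R).comp (D.zeta χ)) β) (i : ℕ) :
    Pt D.I ((toT p R).comp (D.zeta χ)) (twProd (fT p R) β i) := by
  induction i with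
  | zero => exact hD.pt_one _
  | succ i ih => exact hD.pt_mul hβ (ih.map _ (hD.fT_comp_zeta χ))

theorem tw_ad (hD : D.Good) (h : SDD D π) (χ : WittVector p k →+* R) {β : Matrix n n (T p R)}
    {A : Matrix (n × n) (n × n) (WittVector p R)} (hβ : Pt D.I ((toT p R).comp (D.zeta χ)) β)
    (hA : (p : T p R) • (adM β β⁻¹ * π.map ((toT p R).comp (D.zeta χ))) = A.map (toT p R))
    (i : ℕ) :
    (p : T p R) ^ i • (adM (twProd (fT p R) β i) (twProd (fT p R) β i)⁻¹ *
        π.map ((toT p R).comp (D.zeta χ))) =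
      (twProd frobenius A i).map (toT p R) * π.map ((toT p R).comp (D.zeta χ)) := by
  induction i with
  | zero =>
    rw [twProd_zero, twProd_zero, inv_one, adM_one, pow_zero, one_smul,
      Matrix.map_one _ (map_zero _) (map_one _)]
  | succ i ih =>
    have h0 := tw_pt hD χ hβ i
    have h1 := h0.map _ (hD.fT_comp_zeta χ)
    have e0 : (π.map ((toT p R).comp (D.zeta χ))).map (fT p R) =
        π.map ((toT p R).comp (D.zeta χ)) := by
      ext1 s t
      exact RingHom.congr_fun (hD.fT_comp_zeta χ) _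
    have e := congrArg (fun y => y.map (fT p R)) ih
    simp only [map_smul', Matrix.map_mul, e0, adM_map, map_pow, map_natCast, map_frob_toT,
      map_inv_of_isUnit _ (hD.isUnit h0)] at e
    rw [twProd_succ, twProd_succ, Matrix.mul_inv_rev, ← adM_mul, Matrix.map_mul, ← hA,
      Matrix.mul_assoc _ (Matrix.map _ (toT p R)), ← e, Matrix.smul_mul, Matrix.mul_smul, smul_smul,
      Matrix.mul_assoc _ (π.map _), h.ad _ _ _ h1, pow_succ', Matrix.mul_assoc]

theorem base_pt (hD : D.Good) (χ : WittVector p k →+* R) {U : Matrix n n (WittVector p R)}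
    (hU : Pt D.I (D.zeta χ) U) :
    Pt D.I ((toT p R).comp (D.zeta χ)) (U.map (toT p R) * D.mu (D.iota χ)) :=
  hD.pt_mul (hU.map _ rfl) (hD.mu_pt (D.iota χ))

theorem base_ad (hD : D.Good) (h : SDD D π) (χ : WittVector p k →+* R)
    {U : Matrix n n (WittVector p R)} (hU : Pt D.I (D.zeta χ) U) :
    (p : T p R) • (adM (U.map (toT p R) * D.mu (D.iota χ)) (U.map (toT p R) * D.mu (D.iota χ))⁻¹ *
      π.map ((toT p R).comp (D.zeta χ))) = (D.psi π χ U).map (toT p R) := by
  have e := h.mu R (D.iota χ)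
  rw [Matrix.mul_inv_rev, ← adM_mul, Matrix.mul_assoc, ← Matrix.mul_smul, Data.psi, Matrix.map_mul,
    adM_map, map_inv_of_isUnit _ (hD.isUnit hU)]
  exact congrArg (fun y => adM (U.map (toT p R)) (U.map (toT p R))⁻¹ * y) e

omit [CharP k p] in
theorem diag_int (W : ℕ) (z : n → ℤ) (hz : ∀ i, 0 ≤ (W : ℤ) + z i)
    (κ : WittVector p k →+* WittVector p R) (c c' : Matrix n n (WittVector p k)) :
    ∃ B : Matrix n n (WittVector p R), (p : T p R) ^ W • (c.map ((toT p R).comp κ) *
      Matrix.diagonal (fun i => ((pU p R ^ z i : (T p R)ˣ) : T p R)) *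
      c'.map ((toT p R).comp κ)) = B.map (toT p R) := by
  refine ⟨c.map κ * Matrix.diagonal (fun i => (p : WittVector p R) ^ ((W : ℤ) + z i).toNat) *
    c'.map κ, ?_⟩
  have e : (p : T p R) ^ W • Matrix.diagonal (fun i => ((pU p R ^ z i : (T p R)ˣ) : T p R)) =
      (Matrix.diagonal (fun i => (p : WittVector p R) ^ ((W : ℤ) + z i).toNat)).map (toT p R) := by
    rw [Matrix.diagonal_map (map_zero _), ← Matrix.diagonal_smul]
    congr 1
    ext1 i
    rw [Pi.smul_apply, smul_eq_mul, map_pow, map_natCast, ← pU_val, ← Units.val_pow_eq_pow_val,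
      ← Units.val_pow_eq_pow_val, ← Units.val_mul, ← zpow_natCast, ← zpow_natCast, ← zpow_add,
      Int.toNat_of_nonneg (hz i)]
  rw [← Matrix.smul_mul, ← Matrix.mul_smul, e, Matrix.map_mul, Matrix.map_mul]
  rfl

theorem tw_bdd (hD : D.Good) (χ : WittVector p k →+* R) {β : Matrix n n (T p R)}
    (hβ : Pt D.I ((toT p R).comp (D.zeta χ)) β) {W : ℕ} {B B' : Matrix n n (WittVector p R)}
    (h1 : (p : T p R) ^ W • β = B.map (toT p R)) (h2 : (p : T p R) ^ W • β⁻¹ = B'.map (toT p R))
    (i : ℕ) : ∃ Φ Φ' : Matrix n n (WittVector p R),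
      (p : T p R) ^ (i * W) • twProd (fT p R) β i = Φ.map (toT p R) ∧
      (p : T p R) ^ (i * W) • (twProd (fT p R) β i)⁻¹ = Φ'.map (toT p R) := by
  induction i with
  | zero =>
    refine ⟨1, 1, ?_, ?_⟩ <;>
    simp only [twProd_zero, inv_one, zero_mul, pow_zero, one_smul,
      Matrix.map_one _ (map_zero (toT p R)) (map_one (toT p R))]
  | succ i ih =>
    obtain ⟨Φ, Φ', e1, e2⟩ := ih
    have f1 := congrArg (fun y => y.map (fT p R)) e1
    have f2 := congrArg (fun y => y.map (fT p R)) e2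
    simp only [map_smul', map_pow, map_natCast, map_frob_toT,
      map_inv_of_isUnit _ (hD.isUnit (tw_pt hD χ hβ i))] at f1 f2
    refine ⟨B * Φ.map frobenius, Φ'.map frobenius * B', ?_, ?_⟩
    · rw [twProd_succ, Matrix.map_mul, ← h1, ← f1, Matrix.smul_mul, Matrix.mul_smul, smul_smul,
        ← pow_add, add_mul, one_mul, add_comm]
    · rw [twProd_succ, Matrix.mul_inv_rev, Matrix.map_mul, ← h2, ← f2, Matrix.smul_mul,
        Matrix.mul_smul, smul_smul, ← pow_add, add_mul, one_mul]

theorem tw_cong {d : Type} [Fintype d] [DecidableEq d] {A A' : Matrix d d (WittVector p R)}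
    (i : ℕ) : ∀ M : ℕ, (∀ s t, (A - A') s t ∈ Vm p R (M + i)) →
      ∀ s t, (twProd frobenius A i - twProd frobenius A' i) s t ∈ Vm p R M := by
  induction i with
  | zero =>
    intro M _ s t
    rw [twProd_zero, twProd_zero, sub_self]
    exact zero_mem _
  | succ i ih =>
    intro M hM s t
    have h1 := ih (M + 1) fun s t => by rw [add_assoc, add_comm 1]; exact hM s t
    have e : twProd frobenius A (i + 1) - twProd frobenius A' (i + 1) =
        (A - A') * (twProd frobenius A i).map frobenius +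
          A' * (twProd frobenius A i - twProd frobenius A' i).map frobenius := by
      rw [twProd_succ, twProd_succ, Matrix.map_sub _ (map_sub _), Matrix.sub_mul, Matrix.mul_sub]
      abel
    rw [e, Matrix.add_apply]
    exact add_mem (mul_mem_ideal_right _ (fun s t => Vm_anti (Nat.le_add_right _ _) (hM s t)) s t)
      (mul_mem_ideal_left _ (fun s t => frob_mem_Vm (h1 s t)) s t)

theorem psi_cong (hD : D.Good) (χ : WittVector p k →+* R) {U U' : Matrix n n (WittVector p R)}
    (hU : Pt D.I (D.zeta χ) U) (hU' : Pt D.I (D.zeta χ) U') {𝔞 : Ideal (WittVector p R)}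
    (h : ∀ a b, (U - U') a b ∈ 𝔞) : ∀ s t, (D.psi π χ U - D.psi π χ U') s t ∈ 𝔞 := by
  have e : U'⁻¹ - U⁻¹ = U⁻¹ * (U - U') * U'⁻¹ := by
    rw [Matrix.mul_sub, Matrix.sub_mul, hD.inv_mul hU, Matrix.one_mul, Matrix.mul_assoc,
      hD.mul_inv hU', Matrix.mul_one]
  have h1 : ∀ a b, (U'⁻¹ - U⁻¹) a b ∈ 𝔞 := by
    rw [e]
    exact mul_mem_ideal_right _ (mul_mem_ideal_left _ h)
  rw [Data.psi, Data.psi, ← Matrix.sub_mul]
  refine mul_mem_ideal_right _ fun s t => ?_
  have e2 : (adM U U⁻¹ - adM U' U'⁻¹) s t =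
      (U - U') s.1 t.1 * U⁻¹ t.2 s.2 - U' s.1 t.1 * (U'⁻¹ - U⁻¹) t.2 s.2 := by
    simp only [adM, Matrix.sub_apply, Matrix.of_apply]
    ring
  rw [e2]
  exact sub_mem (Ideal.mul_mem_right _ _ (h _ _)) (Ideal.mul_mem_left _ _ (h1 _ _))

theorem psi_mem (hD : D.Good) (χ : WittVector p k →+* R) {U : Matrix n n (WittVector p R)}
    {B : Subring R} (hU : Pt D.I (D.zeta χ) U) (hB : ∀ o, χ o ∈ B) (h : InWS B U) :
    InWS B (D.psi π χ U) :=
  mul_mem_matrix (fun _ _ => mul_mem (h _ _)
    (hD.inv_mem_subring hU _ (Data.zeta_mem_WS hB) h _ _)) fun _ _ => Data.iota_mem_WS hB _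

theorem recur {B : Subring R} {ψ : Matrix (n × n) (n × n) (WittVector p R)} {M : ℕ}
    {Y : Matrix n n (WittVector p R)} (hψ : InWS B ψ)
    (hY : InWS B (Y.map (Vi p R 1) - app (ψ.map (Fi p R M)) Y)) (i : ℕ) :
    ∀ l, i + l = M + 1 →
      InWS B (Y.map (Vi p R i) - app ((twProd frobenius ψ i).map (Fi p R l)) Y) := by
  induction i with
  | zero =>
    intro l _ a b
    rw [twProd_zero, Matrix.map_one _ (map_zero _) (map_one _), app_one, Matrix.sub_apply,
      Matrix.map_apply, Vi_zero, sub_self]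
    exact zero_mem _
  | succ i ih =>
    intro l hl a b
    have h1 := ih (l + 1) (by omega)
    have hM : M = l + i := by omega
    have e1 : (twProd frobenius ψ (i + 1)).map (Fi p R l) =
        (twProd frobenius ψ i).map (Fi p R l) * ψ.map (Fi p R M) := by
      rw [twProd_succ', Matrix.map_mul, hM]
      congr 1
      ext1 s t
      exact (Fi_add l i _).symm
    have e2 : (twProd frobenius ψ i).map (Fi p R (l + 1)) =
        ((twProd frobenius ψ i).map (Fi p R l)).map (Fi p R 1) := by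
      ext1 s t
      rw [add_comm]
      exact Fi_add 1 l _
    have h2 : ∀ s t, (twProd frobenius ψ i).map (Fi p R l) s t ∈ WS p B := fun s t =>
      Fi_mem_WS l (twProd_mem (fun _ => frob_mem_WS) hψ i s t)
    have h3 := app_mem h2 hY a b
    have h4 := V_mem_WS.2 (h1 a b)
    rw [app_sub, app_map_Vi, ← e2, ← app_mul, ← e1] at h3
    have h5 := add_mem h4 h3
    simp only [Matrix.sub_apply, Matrix.map_apply, map_sub, Vi_one, sub_add_sub_cancel] at h5
    exact h5

end RPhi

open RPhi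

theorem rPhi [IsAlgClosed k] (hD : D.Good) (_hπ : IsProj D.I π) (h : SDD D π) : SPhi D π where
  gen := fun _ _ χ _ _ hβ hA i => ⟨tw_pt hD χ hβ i, tw_ad hD h χ hβ hA i⟩
  pt := fun _ _ χ _ hU i => tw_pt hD χ (base_pt hD χ hU) i
  ad := fun _ _ χ _ hU i => tw_ad hD h χ (base_pt hD χ hU) (base_ad hD h χ hU) i
  bdd := by
    refine ⟨Finset.univ.sup fun i => (D.w i).natAbs, fun R _ χ U hU i => ?_⟩
    have hW : ∀ i, (D.w i).natAbs ≤ Finset.univ.sup fun i => (D.w i).natAbs := fun i =>
      Finset.le_sup (f := fun i => (D.w i).natAbs) (Finset.mem_univ i)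
    generalize (Finset.univ.sup fun i => (D.w i).natAbs) = W at *
    obtain ⟨B, hB⟩ := diag_int W D.w (fun i => by have := hW i; omega)
      ((D.iota χ).comp frobenius) D.c D.c'
    obtain ⟨B', hB'⟩ := diag_int W (fun i => -D.w i) (fun i => by have := hW i; omega)
      ((D.iota χ).comp frobenius) D.c D.c'
    rw [← hD.mu_inv] at hB'
    refine tw_bdd hD χ (base_pt hD χ hU) (B := U * B) (B' := B' * U⁻¹) ?_ ?_ i
    · rw [← Matrix.mul_smul, Matrix.map_mul, ← hB]
      rfl
    · rw [Matrix.mul_inv_rev, ← Matrix.smul_mul, Matrix.map_mul, hB',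
        map_inv_of_isUnit _ (hD.isUnit hU)]

theorem rACong [IsAlgClosed k] (hD : D.Good) : SACong D π where
  cong := fun _ _ χ _ _ M i hU hU' h => tw_cong i M (psi_cong hD χ hU hU' h)
  psi := fun _ _ χ _ _ hU hB h => psi_mem hD χ hU hB h
  aa := fun _ _ χ _ _ hU hB h i => twProd_mem (fun _ => frob_mem_WS) (psi_mem hD χ hU hB h) i
  twist := fun R _ χ U M Y _ => by
    have e : ((D.DD π).map ((D.iota χ).comp frobenius)).map (Fi p R M) =
        (D.DD π).map ((D.iota χ).comp (Fi p k (M + 1))) := by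
      ext1 s t
      simp only [Matrix.map_apply, RingHom.comp_apply]
      rw [hD.Fi_iota, Fi_succ']
    rw [Data.psi, Matrix.map_mul, adM_map, app_mul, app_adM, e]
  recur := fun _ _ _ _ _ _ hψ hY i => recur hψ hY i

end

end Pool.Agent.MP_dc2c90_ag.H20
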