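import Pool.Agent.MP_dc2c90_ag.H20.SpecA

/-!
The projector onto the Lie algebra.
-/

namespace Pool.Agent.MP_dc2c90_ag.H20

open MvPolynomial

namespace RProj

variable {Λ σ : Type} [CommRing Λ] [Fintype σ] [DecidableEq σ]

/-- Taylor expansion to order two, as a polynomial identity. -/
theorem taylor0 (e : σ → Λ) (P : MvPolynomial σ Λ) : ∃ N : σ → σ → MvPolynomial σ Λ,
    eval₂ C (fun s => C (e s) + X s) P = C (eval e P) + ∑ s, C (eval e (pderiv s P)) * X s +
      ∑ s, ∑ t, X s * X t * N s t := by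
  induction P using MvPolynomial.induction_on with
  | C a => exact ⟨0, by simp⟩
  | add P Q hP hQ =>
    obtain ⟨N, hN⟩ := hP
    obtain ⟨N', hN'⟩ := hQ
    refine ⟨N + N', ?_⟩
    simp only [eval₂_add, hN, hN', map_add, Pi.add_apply, mul_add, add_mul, Finset.sum_add_distrib]
    ring
  | mul_X P u hP =>
    obtain ⟨N, hN⟩ := hP
    refine ⟨fun s t => N s t * (C (e u) + X u) +
      if t = u then C (eval e (pderiv s P)) else 0, ?_⟩
    have h1 : ∀ s, eval e (pderiv s (P * X u)) =
        eval e (pderiv s P) * e u + if s = u then eval e P else 0 := fun s => by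
      rw [Derivation.leibniz, pderiv_X, smul_eq_mul, smul_eq_mul, map_add, map_mul, map_mul, eval_X]
      by_cases h : s = u
      · subst h
        simp [mul_comm, add_comm]
      · simp [h, mul_comm]
    have h2 : ∑ s, (C (eval e (pderiv s (P * X u))) : MvPolynomial σ Λ) * X s =
        (∑ s, C (eval e (pderiv s P)) * X s) * C (e u) + C (eval e P) * X u := by
      simp only [h1, map_add, map_mul, add_mul, Finset.sum_add_distrib, Finset.sum_mul]
      refine congrArg₂ (· + ·) ?_ ?_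
      · exact Finset.sum_congr rfl fun s _ => by ring
      · rw [Finset.sum_eq_single u (fun s _ hs => by simp [hs]) (by simp)]
        simp
    have h3 : ∑ s, ∑ t, (X s : MvPolynomial σ Λ) * X t * (N s t * (C (e u) + X u) +
        if t = u then C (eval e (pderiv s P)) else 0) =
        (∑ s, ∑ t, X s * X t * N s t) * (C (e u) + X u) +
          (∑ s, C (eval e (pderiv s P)) * X s) * X u := by
      simp only [mul_add (X _ * X _), Finset.sum_add_distrib, Finset.sum_mul]
      refine congrArg₂ (· + ·) ?_ ?_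
      · exact Finset.sum_congr rfl fun s _ => Finset.sum_congr rfl fun t _ => by ring
      · refine Finset.sum_congr rfl fun s _ => ?_
        rw [Finset.sum_eq_single u (fun t _ ht => by simp [ht]) (by simp)]
        simp only [if_true]
        ring
    rw [eval₂_mul, eval₂_X, hN, h2, h3, map_mul (eval e), eval_X, map_mul]
    ring

/-- Taylor expansion to order two, at points. -/
theorem taylor (e : σ → Λ) (P : MvPolynomial σ Λ) : ∃ N : σ → σ → MvPolynomial σ Λ,
    ∀ (S : Type) [CommRing S] (ζ : Λ →+* S) (a : σ → S),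
      eval₂ ζ (fun s => ζ (e s) + a s) P = ζ (eval e P) + ∑ s, ζ (eval e (pderiv s P)) * a s +
        ∑ s, ∑ t, a s * a t * eval₂ ζ a (N s t) := by
  obtain ⟨N, hN⟩ := taylor0 e P
  refine ⟨N, fun S _ ζ a => ?_⟩
  have h := congrArg (eval₂Hom ζ a) hN
  rw [eval₂_comp_left] at h
  simp only [map_add, map_sum, map_mul, eval₂Hom_C, eval₂Hom_X', coe_eval₂Hom] at h
  rw [← h]
  refine congrArg₂ (fun f g => eval₂ f g P) ?_ ?_
  · ext x
    simp
  · funext s
    simp

/-- Evaluation at a point over the dual numbers. -/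
theorem dual (e : σ → Λ) (P : MvPolynomial σ Λ) {S : Type} [CommRing S] (ζ : Λ →+* S)
    (x : σ → S) :
    eval₂ ((TrivSqZeroExt.inlHom S S).comp ζ)
      (fun s => TrivSqZeroExt.inl (ζ (e s)) + TrivSqZeroExt.inr (x s)) P =
      TrivSqZeroExt.inl (ζ (eval e P)) +
        TrivSqZeroExt.inr (∑ s, ζ (eval e (pderiv s P)) * x s) := by
  obtain ⟨N, hN⟩ := taylor e P
  have h := hN (TrivSqZeroExt S S) ((TrivSqZeroExt.inlHom S S).comp ζ)
    fun s => TrivSqZeroExt.inr (x s)
  simp only [TrivSqZeroExt.inr_mul_inr, zero_mul, Finset.sum_const_zero, add_zero] at h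
  refine h.trans ?_
  rw [TrivSqZeroExt.inr_sum]
  refine congrArg₂ (· + ·) rfl (Finset.sum_congr rfl fun s _ => ?_)
  exact TrivSqZeroExt.inl_mul_inr _ _

end RProj

open RProj in
theorem rProj : SProj := by
  intro p _ n _ _ I Q hQ h1
  let e : n × n → ℤ_[p] := fun s => (1 : Matrix n n ℤ_[p]) s.1 s.2
  have he : ∀ (S : Type) [CommRing S] (ζ : ℤ_[p] →+* S) (s : n × n),
      ζ (e s) = (1 : Matrix n n S) s.1 s.2 := fun S _ ζ s => by
    simp only [e, Matrix.one_apply]
    split_ifs <;> simp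
  have h0 : ∀ P ∈ I, eval e P = 0 := fun P hP => h1 P hP
  have hd : ∀ (S : Type) [CommRing S] (ζ : ℤ_[p] →+* S) (x : Matrix n n S),
      ∀ P ∈ I, eval₂ ((TrivSqZeroExt.inlHom S S).comp ζ)
        (fun s : n × n => TrivSqZeroExt.inl ((1 : Matrix n n S) s.1 s.2) +
          TrivSqZeroExt.inr (x s.1 s.2)) P =
        TrivSqZeroExt.inr (∑ s : n × n, ζ (eval e (pderiv s P)) * x s.1 s.2) := by
    intro S _ ζ x P hP
    have h := dual e P ζ fun s => x s.1 s.2
    simp only [he, h0 P hP, map_zero, TrivSqZeroExt.inl_zero, zero_add] at h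
    exact h
  have hl : ∀ (S : Type) [CommRing S] (ζ : ℤ_[p] →+* S) (x : Matrix n n S), IsLie I ζ x →
      ∀ P ∈ I, ∑ s : n × n, ζ (eval e (pderiv s P)) * x s.1 s.2 = 0 := by
    intro S _ ζ x hx P hP
    have h := (hd S ζ x P hP).symm.trans (hx P hP)
    simpa using congrArg TrivSqZeroExt.snd h
  have ht : ∀ P ∈ I, ∃ N : n × n → n × n → MvPolynomial (n × n) ℤ_[p],
      ∀ (S : Type) [CommRing S] (ζ : ℤ_[p] →+* S) (a : Matrix n n S),
        eval₂ ζ (fun s => (1 + a) s.1 s.2) P =
          ∑ s : n × n, ζ (eval e (pderiv s P)) * a s.1 s.2 + ∑ kl : n × n, ∑ kl' : n × n,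
            a kl.1 kl.2 * a kl'.1 kl'.2 * eval₂ ζ (fun s => a s.1 s.2) (N kl kl') := by
    intro P hP
    obtain ⟨N, hN⟩ := taylor e P
    refine ⟨N, fun S _ ζ a => ?_⟩
    have h := hN S ζ fun s => a s.1 s.2
    simp only [he, h0 P hP, map_zero, zero_add] at h
    exact h
  let π : Matrix (n × n) (n × n) ℤ_[p] := 1 - Matrix.of fun s t => eval e (pderiv t (Q s))
  have hπ : ∀ (S : Type) [CommRing S] (ζ : ℤ_[p] →+* S) (x : Matrix n n S) (i j : n),
      app (π.map ζ) x i j =
        x i j - ∑ s : n × n, ζ (eval e (pderiv s (Q (i, j)))) * x s.1 s.2 := by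
    intro S _ ζ x i j
    simp only [app, π, Matrix.of_apply, Matrix.map_apply, Matrix.sub_apply, map_sub, sub_mul,
      Finset.sum_sub_distrib]
    refine congrArg₂ (· - ·) ?_ rfl
    rw [Finset.sum_eq_single (i, j) (fun s _ hs => by simp [Matrix.one_apply_ne' hs]) (by simp)]
    simp
  refine ⟨π, fun S _ ζ x P hP => ?_, fun S _ ζ x hx => ?_, ?_, fun P hP => ?_⟩
  · let φ := eval₂Hom ((TrivSqZeroExt.inlHom S S).comp ζ)
      (fun s : n × n => TrivSqZeroExt.inl ((1 : Matrix n n S) s.1 s.2) +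
          TrivSqZeroExt.inr (x s.1 s.2))
    have hz : ∀ R ∈ I ^ 2, φ R = 0 := fun R hR => by
      rw [pow_two] at hR
      refine Submodule.mul_induction_on hR (fun a ha b hb => ?_) fun a b ha hb => ?_
      · rw [map_mul]
        change eval₂ _ _ a * eval₂ _ _ b = 0
        rw [hd S ζ x a ha, hd S ζ x b hb, TrivSqZeroExt.inr_mul_inr]
      · rw [map_add, ha, hb, add_zero]
    have h := hz _ (hQ.sq P hP)
    rw [aeval_def, eval₂_comp_left] at h
    refine Eq.trans (congrArg₂ (fun f g => eval₂ f g P) ?_ ?_) h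
    · ext1 c
      simp [φ]
    · funext s
      change _ = φ (X s - Q s)
      rw [map_sub]
      change _ = eval₂ _ _ (X s) - eval₂ _ _ (Q s)
      rw [hd S ζ x _ (hQ.mem s), eval₂_X, Matrix.of_apply, hπ, TrivSqZeroExt.inr_sub, add_sub_assoc]
  · ext i j
    rw [hπ, hl S ζ x hx _ (hQ.mem _), sub_zero]
  · choose N hN using fun s => ht (Q s) (hQ.mem s)
    refine ⟨fun s t u => -N s t u, fun S _ ζ a ha i j => ?_⟩
    have h := (hN (i, j) S ζ a).symm.trans (ha _ (hQ.mem _))
    rw [Matrix.sub_apply, hπ, sub_sub_cancel, eq_neg_of_add_eq_zero_left h]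
    simp only [eval₂_neg, mul_neg, Finset.sum_neg_distrib]
  · obtain ⟨N, hN⟩ := ht P hP
    exact ⟨N, fun S _ ζ a ha => by rw [hN, hl S ζ a ha P hP, zero_add]⟩

end Pool.Agent.MP_dc2c90_ag.H20
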