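import Pool.Agent.MP_dc2c90_ag.H20.SpecA

/-! The Amitsur complex of a faithfully flat ring map is exact in degrees zero and one. -/

namespace Pool.Agent.MP_dc2c90_ag.H20

open TensorProduct

namespace RAmit

noncomputable section

variable (R S : Type) [CommRing R] [CommRing S] [Algebra R S]

/-- first inclusion -/
def i1 : S →ₐ[R] S ⊗[R] (S ⊗[R] S) := Algebra.TensorProduct.includeLeft
/-- second inclusion -/
def i2 : S →ₐ[R] S ⊗[R] (S ⊗[R] S) :=
  Algebra.TensorProduct.includeRight.comp Algebra.TensorProduct.includeLeft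
/-- third inclusion -/
def i3 : S →ₐ[R] S ⊗[R] (S ⊗[R] S) :=
  Algebra.TensorProduct.includeRight.comp Algebra.TensorProduct.includeRight

/-- the differential in degree one -/
def d1 : S ⊗[R] S →ₗ[R] S ⊗[R] (S ⊗[R] S) :=
  (Algebra.TensorProduct.productMap (i1 R S) (i2 R S)).toLinearMap +
    (Algebra.TensorProduct.productMap (i2 R S) (i3 R S)).toLinearMap -
    (Algebra.TensorProduct.productMap (i1 R S) (i3 R S)).toLinearMap

theorem d1_tmul (a b : S) : d1 R S (a ⊗ₜ b) =
    a ⊗ₜ (b ⊗ₜ 1) + 1 ⊗ₜ (a ⊗ₜ b) - a ⊗ₜ (1 ⊗ₜ b) := by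
  simp [d1, i1, i2, i3, Algebra.TensorProduct.one_def]

/-- the homotopy -/
def hm (M : Type) [AddCommGroup M] [Module R M] : S ⊗[R] (S ⊗[R] M) →ₗ[R] S ⊗[R] M :=
  (LinearMap.mul' R S).rTensor M ∘ₗ (TensorProduct.assoc R S S M).symm.toLinearMap

theorem hm_tmul (M : Type) [AddCommGroup M] [Module R M] (t a : S) (m : M) :
    hm R S M (t ⊗ₜ (a ⊗ₜ m)) = (t * a) ⊗ₜ m := by
  simp [hm]

theorem homotopy (x : S ⊗[R] (S ⊗[R] S)) :
    hm R S (S ⊗[R] S) ((d1 R S).lTensor S x) =
      x + (Algebra.TensorProduct.includeLeftSubRight R S).lTensor S (hm R S S x) := by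
  induction x using TensorProduct.induction_on with
  | zero => simp
  | add x y hx hy => simp only [map_add, hx, hy]; abel
  | tmul t w =>
    induction w using TensorProduct.induction_on with
    | zero => simp
    | add x y hx hy => simp only [tmul_add, map_add, hx, hy]; abel
    | tmul a b =>
      simp only [LinearMap.lTensor_tmul, d1_tmul, tmul_add, tmul_sub, map_add, map_sub, hm_tmul,
        Algebra.TensorProduct.includeLeftSubRight_apply, mul_one]
      abel

theorem comp_zero : d1 R S ∘ₗ Algebra.TensorProduct.includeLeftSubRight R S = 0 := by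
  ext s
  simp only [LinearMap.comp_apply, Algebra.TensorProduct.includeLeftSubRight_apply, map_sub,
    d1_tmul, LinearMap.zero_apply]
  abel

theorem exact [Module.FaithfullyFlat R S] :
    Function.Exact (Algebra.TensorProduct.includeLeftSubRight R S) (d1 R S) := by
  refine Module.FaithfullyFlat.lTensor_reflects_exact R S _ _ fun x => ⟨fun hx => ?_, ?_⟩
  · refine ⟨-hm R S S x, ?_⟩
    have h := homotopy R S x
    rw [hx, map_zero] at h
    rw [map_neg]
    exact neg_eq_of_add_eq_zero_left h.symm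
  · rintro ⟨y, rfl⟩
    rw [← LinearMap.comp_apply, ← LinearMap.lTensor_comp, comp_zero, LinearMap.lTensor_zero,
      LinearMap.zero_apply]

variable {R S}

theorem comp_alg {B : Type} [CommRing B] [Algebra R B] (α β : S →ₐ[R] B) :
    (α : S →+* B).comp (algebraMap R S) = (β : S →+* B).comp (algebraMap R S) := by
  rw [AlgHom.comp_algebraMap, AlgHom.comp_algebraMap]

theorem pm_left {B : Type} [CommRing B] [Algebra R B] (α β : S →ₐ[R] B) :
    (Algebra.TensorProduct.productMap α β : S ⊗[R] S →+* B).comp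
      ((Algebra.TensorProduct.includeLeft : S →ₐ[R] S ⊗[R] S) : S →+* S ⊗[R] S) = α := by
  ext s; simp

theorem pm_right {B : Type} [CommRing B] [Algebra R B] (α β : S →ₐ[R] B) :
    (Algebra.TensorProduct.productMap α β : S ⊗[R] S →+* B).comp
      ((Algebra.TensorProduct.includeRight : S →ₐ[R] S ⊗[R] S) : S →+* S ⊗[R] S) = β := by
  ext s; simp

end

end RAmit

theorem rAmit0 : SAmit0 := by
  intro A A' _ _ e he z hz
  algebraize [e]
  have h := hz (A' ⊗[A] A')
    ((Algebra.TensorProduct.includeLeft : A' →ₐ[A] A' ⊗[A] A') : A' →+* A' ⊗[A] A')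
    ((Algebra.TensorProduct.includeRight : A' →ₐ[A] A' ⊗[A] A') : A' →+* A' ⊗[A] A')
    (RAmit.comp_alg _ _)
  exact (Algebra.IsEffective.of_faithfullyFlat A A' z).1 (sub_eq_zero.2 h)

theorem rAmit1 : SAmit1 := by
  intro A A' _ _ e he z nat coc
  algebraize [e]
  have key : ∀ (B : Type) [CommRing B] [Algebra A B] (α β : A' →ₐ[A] B),
      Algebra.TensorProduct.productMap α β (z (A' ⊗[A] A')
        ((Algebra.TensorProduct.includeLeft : A' →ₐ[A] A' ⊗[A] A') : A' →+* A' ⊗[A] A')
        ((Algebra.TensorProduct.includeRight : A' →ₐ[A] A' ⊗[A] A') : A' →+* A' ⊗[A] A')) =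
        z B α β := by
    intro B _ _ α β
    have h := nat _ B (Algebra.TensorProduct.productMap α β : A' ⊗[A] A' →+* B)
      ((Algebra.TensorProduct.includeLeft : A' →ₐ[A] A' ⊗[A] A') : A' →+* A' ⊗[A] A')
      ((Algebra.TensorProduct.includeRight : A' →ₐ[A] A' ⊗[A] A') : A' →+* A' ⊗[A] A')
      (RAmit.comp_alg _ _)
    rw [RAmit.pm_left, RAmit.pm_right] at h
    exact h
  have h1 : RAmit.d1 A A' (z (A' ⊗[A] A')
      ((Algebra.TensorProduct.includeLeft : A' →ₐ[A] A' ⊗[A] A') : A' →+* A' ⊗[A] A')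
      ((Algebra.TensorProduct.includeRight : A' →ₐ[A] A' ⊗[A] A') : A' →+* A' ⊗[A] A')) = 0 := by
    simp only [RAmit.d1, LinearMap.sub_apply, LinearMap.add_apply, AlgHom.toLinearMap_apply, key]
    exact sub_eq_zero.2 (coc _ _ _ _ (RAmit.comp_alg _ _) (RAmit.comp_alg _ _))
  obtain ⟨ζ, hζ⟩ := (RAmit.exact A A' _).1 h1
  refine ⟨ζ, fun B _ α β hαβ => ?_⟩
  let _ : Algebra A B := (α.comp e).toAlgebra
  let α' : A' →ₐ[A] B := { α with commutes' := fun _ => rfl }
  let β' : A' →ₐ[A] B := { β with commutes' := fun a => (RingHom.congr_fun hαβ a).symm }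
  have h2 := key B α' β'
  rw [← hζ, Algebra.TensorProduct.includeLeftSubRight_apply, map_sub,
    Algebra.TensorProduct.productMap_apply_tmul, Algebra.TensorProduct.productMap_apply_tmul,
    map_one, map_one, mul_one, one_mul] at h2
  exact h2.symm

end Pool.Agent.MP_dc2c90_ag.H20
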