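import Pool.Agent.MP_dc2c90_ag.H20.SpecB
import Pool.Agent.MP_dc2c90_ag.H20.RAmit

/-!
The sheaf property of `H` and `X`, and the formal properties of isomorphisms in the stack.
-/

namespace Pool.Agent.MP_dc2c90_ag.H20

open WittVector TensorProduct

variable {p : ℕ} [Fact p.Prime] {n : Type} [Fintype n] [DecidableEq n] {k : Type} [Field k]
  [CharP k p] {D : Data p k n}

namespace RSheaf

variable {A A' : Type} [CommRing A] [CommRing A'] {e : A →+* A'}

theorem descW (he : e.FaithfullyFlat) (z : WittVector p A')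
    (hz : ∀ (B : Type) [CommRing B] (γ δ : A' →+* B), γ.comp e = δ.comp e →
      WittVector.map γ z = WittVector.map δ z) : ∃ z₀, WittVector.map e z₀ = z := by
  choose a ha using fun l => rAmit0 A A' e he (z.coeff l) fun B _ γ δ h => by
    rw [← map_coeff, ← map_coeff, hz B γ δ h]
  exact ⟨WittVector.mk p a, by ext l; rw [map_coeff, coeff_mk, ha]⟩

theorem descT (he : e.FaithfullyFlat) (z : T p A')
    (hz : ∀ (B : Type) [CommRing B] (γ δ : A' →+* B), γ.comp e = δ.comp e →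
      locMap (WittVector.map γ) z = locMap (WittVector.map δ) z) :
    ∃ z₀, locMap (WittVector.map e) z₀ = z := by
  let _ : Algebra A A' := e.toAlgebra
  obtain ⟨N, x, hx⟩ := exists_rep z
  have h1 : toT p _ (WittVector.map (inL A A' A') x) = toT p _ (WittVector.map (inR A A' A') x) := by
    rw [← locMap_toT, ← locMap_toT, ← hx, map_mul, map_mul, map_pow, map_pow, map_natCast,
      map_natCast, hz _ _ _ inL_comp_algebraMap]
  obtain ⟨u, hu⟩ := toT_eq_iff.1 h1
  obtain ⟨x₀, h0⟩ := descW he ((p : WittVector p A') ^ u * x) fun B _ γ δ h => by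
    obtain ⟨θ, rfl, h2⟩ := exists_tensor_lift (Λ := A) γ δ h
    rw [← h2, ← map_map, ← map_map, map_mul (WittVector.map (inL A A' A')),
      map_mul (WittVector.map (inR A A' A')), map_pow, map_pow, map_natCast, map_natCast, hu]
  refine ⟨((pU p A ^ (-((u + N : ℕ) : ℤ)) : (T p A)ˣ) : T p A) * toT p A x₀, ?_⟩
  rw [map_mul, map_pU_zpow, locMap_toT, h0, map_mul, map_pow, map_natCast, ← hx, ← mul_assoc _ _ z,
    ← pow_add, ← mul_assoc, ← pU_val, ← Units.val_pow_eq_pow_val, ← Units.val_mul, zpow_neg,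
    zpow_natCast, inv_mul_cancel, Units.val_one, one_mul]

end RSheaf

theorem rSheaf : SSheaf D := by
  refine ⟨fun A A' _ _ χ e he h hh hz => ?_, fun A A' _ _ χ e he x hx hz => ?_⟩
  · choose a ha using fun i j => RSheaf.descW he (h.1 i j) fun B _ γ δ H =>
      congrFun (congrFun (congrArg Prod.fst (hz B γ δ H)) i) j
    choose b hb using fun i j => RSheaf.descW he (h.2 i j) fun B _ γ δ H =>
      congrFun (congrFun (congrArg Prod.snd (hz B γ δ H)) i) j
    have E : hmap e (Matrix.of a, Matrix.of b) = h :=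
      Prod.ext (Matrix.ext ha) (Matrix.ext hb)
    exact ⟨_, Data.IsH.of_map he.injective rfl (E ▸ hh), E⟩
  · choose a ha using fun i j => RSheaf.descW he (x.1 i j) fun B _ γ δ H =>
      congrFun (congrFun (congrArg Prod.fst (hz B γ δ H)) i) j
    choose b hb using fun i j => RSheaf.descT he (x.2 i j) fun B _ γ δ H =>
      congrFun (congrFun (congrArg Prod.snd (hz B γ δ H)) i) j
    have E : xmap e (Matrix.of a, Matrix.of b) = x :=
      Prod.ext (Matrix.ext ha) (Matrix.ext hb)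
    exact ⟨_, Data.IsX.of_map he.injective rfl (E ▸ hx), E⟩

theorem rIso (hD : D.Good) : SIso D := by
  refine ⟨fun R A _ _ χ φ ξ => ?_, fun R₁ R₂ A _ _ _ χ₁ χ₂ φ₁ φ₂ ξ η hχ h => ?_,
    fun R₁ R₂ R₃ A _ _ _ _ χ₁ χ₂ χ₃ φ₁ φ₂ φ₃ ξ η ζ hχ h h' => ?_,
    fun R₁ R₂ A A₁ _ _ _ _ χ₁ χ₂ φ₁ φ₂ ψ ξ η h => ?_, fun R A _ _ χ χA φ ξ hχ => ?_⟩
  · obtain ⟨A', _, ψ, a, h1, h2⟩ := cov ξ.ff φ
    exact ⟨A', _, ψ, a, a, 1, h1, h2, h2, hD.isH_one _, Act.one _, fun B _ γ δ _ => by
      rw [hmap_one, hmap_one, mul_one, one_mul]⟩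
  · obtain ⟨A', _, e, α, β, u, h1, h2, h3, h4, h5, h6⟩ := h
    refine ⟨A', _, e, β, α, hinv u, h1, h3, h2, hχ ▸ hD.isH_inv h4, hD.act_inv h4 h5,
      fun B _ γ δ H => ?_⟩
    have e1 : hmap δ u * hmap δ (hinv u) = 1 := by rw [← hmap_mul, hD.mul_hinv h4, hmap_one]
    have e2 : hmap γ (hinv u) * hmap γ u = 1 := by rw [← hmap_mul, hD.hinv_mul h4, hmap_one]
    rw [← one_mul (η.h B _ _), ← e2, mul_assoc (hmap γ (hinv u)), ← h6 B γ δ H, mul_assoc,
      mul_assoc, e1, mul_one]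
  · obtain ⟨A₁, _, e₁, α₁, β₁, u₁, h1, h2, h3, h4, h5, h6⟩ := h
    obtain ⟨A₂, _, e₂, α₂, β₂, u₂, g1, g2, g3, g4, g5, g6⟩ := h'
    obtain ⟨A', _, ψ, a, c1, c2⟩ := cov g1 e₁
    have k1 : (ψ.comp β₁).comp η.j = (ψ.comp e₁).comp φ₂ := congrArg ψ.comp h3
    have k2 : (a.comp α₂).comp η.j = (ψ.comp e₁).comp φ₂ := c2 ▸ congrArg a.comp g2
    have k3 := k1.trans k2.symm
    refine ⟨A', _, ψ.comp e₁, ψ.comp α₁, a.comp β₂,
      hmap ψ u₁ * η.h A' (ψ.comp β₁) (a.comp α₂) * hmap a u₂, ff_comp h1 c1, congrArg ψ.comp h2,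
      c2 ▸ congrArg a.comp g3, ?_, ?_, fun B _ γ δ H => ?_⟩
    · refine hD.isH_mul (hD.isH_mul (h4.map ψ rfl) ?_) (g4.map a ?_)
      · have := η.hh A' _ _ k3
        rwa [← RingHom.comp_assoc, k1, RingHom.comp_assoc, ← hχ] at this
      · rw [← RingHom.comp_assoc, c2, hχ]
    · have a1 := h5.map ψ
      have a2 := g5.map a
      rw [xmap_xmap, xmap_xmap] at a1 a2
      exact (a1.mul (η.act A' _ _ k3)).mul a2
    · have m1 := h6 B (γ.comp ψ) (δ.comp ψ) H
      have H2 : (γ.comp a).comp e₂ = (δ.comp a).comp e₂ := by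
        rw [RingHom.comp_assoc, RingHom.comp_assoc, c2, H]
      have m2 := g6 B (γ.comp a) (δ.comp a) H2
      have q : ∀ {x y : A' →+* B} {s t : η.C →+* A'}, x.comp (ψ.comp e₁) = y.comp (ψ.comp e₁) →
          s.comp η.j = (ψ.comp e₁).comp φ₂ → t.comp η.j = (ψ.comp e₁).comp φ₂ →
          (x.comp s).comp η.j = (y.comp t).comp η.j := fun h0 hs ht => by
        rw [RingHom.comp_assoc, RingHom.comp_assoc, hs, ht, ← RingHom.comp_assoc, h0,
          RingHom.comp_assoc]
      have m3 := η.coc B _ _ _ (q H k1 k1) (q (x := δ) rfl k1 k2)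
      have m4 := η.coc B _ _ _ (q (x := γ) rfl k1 k2) (q H k2 k2)
      simp only [RingHom.comp_assoc] at m1 m2
      rw [hmap_mul, hmap_mul, hmap_mul, hmap_mul, hmap_hmap, hmap_hmap, hmap_hmap, hmap_hmap,
        η.nat _ _ _ _ _ k3, η.nat _ _ _ _ _ k3, ← mul_assoc, ← mul_assoc, m1,
        mul_assoc (hmap (γ.comp ψ) u₁), m3, mul_assoc _ (hmap (γ.comp a) u₂), ← m2,
        mul_assoc (hmap (γ.comp ψ) u₁) (η.h B _ (γ.comp _)), ← mul_assoc (η.h B _ (γ.comp _)), m4,
        mul_assoc]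
  · obtain ⟨A', _, e, α, β, u, h1, h2, h3, h4, h5, h6⟩ := h
    obtain ⟨A'', _, ψ', a, c1, c2⟩ := cov h1 ψ
    have a1 := h5.map a
    rw [xmap_xmap, xmap_xmap] at a1
    refine ⟨A'', _, ψ', a.comp α, a.comp β, hmap a u, c1, ?_, ?_, h4.map a ?_, a1,
      fun B _ γ δ H => ?_⟩
    · rw [RingHom.comp_assoc, h2, ← RingHom.comp_assoc, c2, RingHom.comp_assoc]
    · rw [RingHom.comp_assoc, h3, ← RingHom.comp_assoc, c2, RingHom.comp_assoc]
    · rw [← RingHom.comp_assoc, c2]; rfl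
    · rw [hmap_hmap, hmap_hmap]
      exact h6 B (γ.comp a) (δ.comp a) (by
        rw [RingHom.comp_assoc, RingHom.comp_assoc, c2, ← RingHom.comp_assoc, H,
          RingHom.comp_assoc])
  · obtain ⟨A', _, ψ, a, h1, h2⟩ := cov ξ.ff φ
    subst hχ
    have q : ∀ {B : Type} [CommRing B] {x y : A' →+* B}, x.comp ψ = y.comp ψ →
        (x.comp a).comp ξ.j = (y.comp a).comp ξ.j := fun h0 => by
      rw [RingHom.comp_assoc, RingHom.comp_assoc, h2, ← RingHom.comp_assoc, h0,
        RingHom.comp_assoc]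
    have r : a.comp (ξ.j.comp χ) = ψ.comp (φ.comp χ) := by
      rw [← RingHom.comp_assoc, h2, RingHom.comp_assoc]
    refine ⟨{ C := A', j := ψ, ff := h1, x := xmap a ξ.x, hx := ξ.hx.map a r
              h := fun B _ x y => ξ.h B (x.comp a) (y.comp a)
              hh := fun B _ x y H => by
                have := ξ.hh B _ _ (q H)
                rwa [RingHom.comp_assoc, r] at this
              act := fun B _ x y H => by
                rw [xmap_xmap, xmap_xmap]
                exact ξ.act B _ _ (q H)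
              nat := fun B B' _ _ θ x y H => ξ.nat B B' θ _ _ (q H)
              coc := fun B _ x y z H H' => ξ.coc B _ _ _ (q H) (q H') },
      A', _, ψ, a, RingHom.id A', 1, h1, h2, rfl, hD.isH_one _, ?_, fun B _ γ δ _ => ?_⟩
    · rw [xmap_id]
      exact Act.one _
    · rw [hmap_one, hmap_one, mul_one, one_mul]
      rfl

end Pool.Agent.MP_dc2c90_ag.H20
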