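import Pool.Agent.MP_dc2c90_ag.H20.SpecA

/-! No fixed vector implies nilpotent modulo `p`. -/

namespace Pool.Agent.MP_dc2c90_ag.H20

namespace RSlope

theorem mem_iff {R M : Type} [CommRing R] [AddCommGroup M] [Module R M] (r : R) (n : ℕ) (x : M) :
    x ∈ (Ideal.span {r} ^ n • ⊤ : Submodule R M) ↔ ∃ y, r ^ n • y = x := by
  rw [Ideal.span_singleton_pow, Submodule.ideal_span_singleton_smul,
    Submodule.mem_smul_pointwise_iff_exists]
  simp

theorem pi_iff {S d : Type} [CommRing S] (p n : ℕ) (x y : d → S) :
    x ≡ y [SMOD (Ideal.span {(p : ℤ)} ^ n • ⊤ : Submodule ℤ (d → S))] ↔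
      ∀ i, x i ≡ y i [SMOD (Ideal.span {(p : S)} ^ n • ⊤ : Submodule S S)] := by
  simp only [SModEq.sub_mem, mem_iff]
  constructor
  · rintro ⟨z, hz⟩ i
    exact ⟨z i, by simpa using congrFun hz i⟩
  · intro h
    choose z hz using h
    exact ⟨z, funext fun i => by simpa using hz i⟩

theorem haus {S d : Type} [CommRing S] (p : ℕ) [IsAdicComplete (Ideal.span {(p : S)}) S] :
    IsHausdorff (Ideal.span {(p : ℤ)}) (d → S) :=
  ⟨fun x h => funext fun i => IsHausdorff.haus (I := Ideal.span {(p : S)}) inferInstance (x i)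
    fun n => (pi_iff p n x 0).1 (h n) i⟩

theorem prec {S d : Type} [CommRing S] (p : ℕ) [IsAdicComplete (Ideal.span {(p : S)}) S] :
    IsPrecomplete (Ideal.span {(p : ℤ)}) (d → S) := ⟨fun f h => by
  have := fun i => IsPrecomplete.prec (I := Ideal.span {(p : S)}) inferInstance
    (f := fun n => f n i) fun {m n} hmn => (pi_iff p m _ _).1 (h hmn) i
  choose L hL using this
  exact ⟨L, fun n => (pi_iff p n _ _).2 fun i => hL i n⟩⟩

theorem twProd_map {S S' d : Type} [CommRing S] [CommRing S'] [Fintype d] [DecidableEq d]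
    (F : S →+* S) (F' : S' →+* S') (π : S →+* S') (h : ∀ x, π (F x) = F' (π x))
    (A : Matrix d d S) (c : ℕ) : (twProd F A c).map π = twProd F' (A.map π) c := by
  induction c with
  | zero => simp [twProd]
  | succ c ih =>
    rw [twProd, twProd, Matrix.map_mul, ← ih, Matrix.map_map, Matrix.map_map]
    congr 2
    exact funext h

end RSlope

open RSlope WittVector

theorem rSlope (h : SSlopeK) : SSlope := by
  intro p _ k _ _ _ d _ _ A hA
  let π : WittVector p k →+* k := constantCoeff
  have hF : ∀ x, π (WittVector.frobenius x) = _root_.frobenius k p (π x) := fun x => by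
    simp [π, frobenius_def]
  have hk : ∀ x, π x = 0 ↔ (p : WittVector p k) ∣ x := fun x => by
    rw [← Ideal.mem_span_singleton, mem_span_p_iff_coeff_zero_eq_zero]; rfl
  have hs : Function.Surjective π := fun a => ⟨teichmuller p a, by simp [π]⟩
  obtain ⟨h1, h2⟩ := h p k d (A.map π)
  let T : (d → WittVector p k) →+ (d → WittVector p k) :=
    { toFun := fun x => x - A.mulVec fun i => WittVector.frobenius (x i)
      map_zero' := by
        ext1 i
        simp [Matrix.mulVec, dotProduct]
      map_add' := fun x y => by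
        ext1 i
        simp [Matrix.mulVec, dotProduct, mul_add, Finset.sum_add_distrib]
        ring }
  have hT : ∀ x i, π (T x i) = π (x i) - (A.map π).mulVec (fun j => π (x j) ^ p) i := fun x i => by
    simp [T, Matrix.mulVec, dotProduct, hF, frobenius_def]
  have hsur : Function.Surjective T := by
    have := haus (S := WittVector p k) (d := d) p
    have := prec (S := WittVector p k) (d := d) p
    refine surjective_of_mkQ_comp_surjective (I := Ideal.span {(p : ℤ)}) (f := T.toIntLinearMap) ?_
    intro v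
    obtain ⟨v, rfl⟩ := Submodule.mkQ_surjective _ v
    obtain ⟨x, hx⟩ := h1 fun i => π (v i)
    choose y hy using fun i => hs (x i)
    refine ⟨y, ?_⟩
    have e : T y ≡ v [SMOD (Ideal.span {(p : ℤ)} ^ 1 • ⊤ : Submodule ℤ (d → WittVector p k))] := by
      refine (pi_iff p 1 _ _).2 fun i => ?_
      rw [SModEq.sub_mem, mem_iff]
      obtain ⟨z, hz⟩ := (hk (T y i - v i)).1 (by
        rw [map_sub, hT, sub_eq_zero, ← congrFun hx i]
        simp only [hy, Pi.sub_apply])
      exact ⟨z, by rw [hz, pow_one, smul_eq_mul]⟩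
    rw [pow_one] at e
    exact e
  obtain ⟨c, hc⟩ := h2 fun x hx => by
    choose y hy using fun i => hs (x i)
    have e : ∀ i, (p : WittVector p k) ∣ T y i := fun i => (hk _).1 (by
      rw [hT]
      simp only [hy, hx, sub_self])
    choose w hw using e
    obtain ⟨z, hz⟩ := hsur w
    have e0 : T (y - p • z) = 0 := by
      rw [map_sub, map_nsmul, hz]
      ext1 i
      simp [hw i]
    have e1 := hA (y - p • z) (sub_eq_zero.1 e0).symm
    ext1 i
    rw [← hy i, Pi.zero_apply, hk]
    exact ⟨z i, by simpa [sub_eq_zero] using congrFun e1 i⟩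
  refine ⟨c, fun i j => (hk _).1 ?_⟩
  have := congrFun (congrFun ((twProd_map _ _ π hF A c).trans hc) i) j
  exact this

end Pool.Agent.MP_dc2c90_ag.H20
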