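import Pool.Agent.MP_dc2c90_ag.H20.SpecA

namespace Pool.Agent.MP_dc2c90_ag.H20

open Polynomial

namespace RSlopeK

variable {p : ℕ} [Fact p.Prime] {k : Type} [Field k] [CharP k p] {d : Type} [Fintype d]

/-- The Frobenius-linear map of a matrix. -/
def ph (p : ℕ) (A : Matrix d d k) (x : d → k) : d → k := A.mulVec fun i => x i ^ p

theorem ph_add (A : Matrix d d k) (x y : d → k) : ph p A (x + y) = ph p A x + ph p A y := by
  rw [ph, ph, ph, ← Matrix.mulVec_add]
  congr 1
  funext i
  exact add_pow_char (x i) (y i) p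

theorem ph_smul (A : Matrix d d k) (a : k) (x : d → k) : ph p A (a • x) = a ^ p • ph p A x := by
  rw [ph, ph, ← Matrix.mulVec_smul]
  congr 1
  funext i
  exact mul_pow a (x i) p

theorem ph_zero (A : Matrix d d k) : ph p A 0 = 0 := by
  have := ph_smul (p := p) A 0 0
  rwa [zero_smul, zero_pow (Fact.out : p.Prime).ne_zero, zero_smul] at this

theorem ph_sum (A : Matrix d d k) (f : ℕ → d → k) (m : ℕ) :
    ph p A (∑ i ∈ Finset.range m, f i) = ∑ i ∈ Finset.range m, ph p A (f i) := by
  induction m with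
  | zero => simpa using ph_zero A
  | succ m ih => rw [Finset.sum_range_succ, Finset.sum_range_succ, ph_add, ih]

/-- The recursive polynomials. -/
noncomputable def rr (p : ℕ) (e : k) (a : ℕ → k) : ℕ → k[X]
  | 0 => C e
  | i + 1 => rr p e a i ^ p + C (a i) * X ^ p

theorem rr_der (e : k) (a : ℕ → k) (i : ℕ) : derivative (rr p e a i) = 0 := by
  cases i with
  | zero => exact derivative_C
  | succ i =>
    rw [rr, derivative_add, derivative_pow, derivative_C_mul, derivative_X_pow,
      CharP.cast_eq_zero k p]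
    simp

theorem rr_eval (e : k) (a : ℕ → k) (i : ℕ) (t : k) :
    (rr p e a (i + 1)).eval t = (rr p e a i).eval t ^ p + a i * t ^ p := by
  rw [rr]; simp

theorem rr_zero_eval (a : ℕ → k) (i : ℕ) : (rr p 0 a i).eval 0 = 0 := by
  induction i with
  | zero => simp [rr]
  | succ i ih => rw [rr_eval, ih, zero_pow (Fact.out : p.Prime).ne_zero]; simp

theorem rr_eq_zero [IsAlgClosed k] (a : ℕ → k) (m : ℕ) (h : rr p 0 a m = 0) :
    ∀ i < m, a i = 0 := by
  induction m with
  | zero => intro i hi; omega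
  | succ m ih =>
    obtain ⟨b, hb⟩ := IsAlgClosed.exists_pow_nat_eq (a m) (Fact.out : p.Prime).pos
    have h1 : (rr p 0 a m + C b * X) ^ p = 0 := by
      rw [add_pow_char, mul_pow, ← C_pow, hb]
      exact h
    have h2 : rr p 0 a m + C b * X = 0 := pow_eq_zero_iff (Fact.out : p.Prime).ne_zero |>.1 h1
    have h3 : b = 0 := by
      have := congrArg derivative h2
      rw [derivative_add, rr_der, derivative_C_mul_X, zero_add, derivative_zero] at this
      exact C_eq_zero.1 this
    rw [h3, C_0, zero_mul, add_zero] at h2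
    intro i hi
    rcases Nat.lt_succ_iff_lt_or_eq.1 hi with hi | rfl
    · exact ih h2 i hi
    · rw [← hb, h3, zero_pow (Fact.out : p.Prime).ne_zero]

theorem solve (A : Matrix d d k) (v : d → k) (m : ℕ) (a : ℕ → k) (e t : k)
    (ha : ∑ i ∈ Finset.range m, a i • (ph p A)^[i] v = (ph p A)^[m] v)
    (ht : (rr p e a m).eval t = t) :
    (∑ i ∈ Finset.range m, (rr p e a (i + 1)).eval t • (ph p A)^[i] v) -
      ph p A (∑ i ∈ Finset.range m, (rr p e a (i + 1)).eval t • (ph p A)^[i] v) = e ^ p • v := by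
  have h1 : ∑ i ∈ Finset.range m, (rr p e a (i + 1)).eval t • (ph p A)^[i] v =
      ∑ i ∈ Finset.range m, (rr p e a i).eval t ^ p • (ph p A)^[i] v + t ^ p • (ph p A)^[m] v := by
    rw [← ha, Finset.smul_sum, ← Finset.sum_add_distrib]
    refine Finset.sum_congr rfl fun i _ => ?_
    rw [rr_eval, add_smul, smul_smul, mul_comm]
  have h2 : ph p A (∑ i ∈ Finset.range m, (rr p e a (i + 1)).eval t • (ph p A)^[i] v) =
      ∑ i ∈ Finset.range m, (rr p e a (i + 1)).eval t ^ p • (ph p A)^[i + 1] v := by
    rw [ph_sum]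
    refine Finset.sum_congr rfl fun i _ => ?_
    rw [ph_smul, Function.iterate_succ_apply']
  have h3 := Finset.sum_range_succ' (fun i => (rr p e a i).eval t ^ p • (ph p A)^[i] v) m
  rw [Finset.sum_range_succ, ht] at h3
  have h4 : (rr p e a 0).eval t = e := by simp [rr]
  rw [h2, h1, h3, h4]
  simp

theorem exists_rel (A : Matrix d d k) (v : d → k) : ∃ (m : ℕ) (a : ℕ → k),
    ∑ i ∈ Finset.range m, a i • (ph p A)^[i] v = (ph p A)^[m] v := by
  obtain ⟨m, hm⟩ := monotone_stabilizes_iff_noetherian.2 (inferInstance : IsNoetherian k (d → k))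
    ⟨fun m => Submodule.span k ((fun i => (ph p A)^[i] v) '' (Finset.range m : Set ℕ)),
      fun m m' h => Submodule.span_mono (Set.image_mono (by
        exact_mod_cast Finset.range_mono h))⟩
  have h1 : Submodule.span k ((fun i => (ph p A)^[i] v) '' (Finset.range m : Set ℕ)) =
      Submodule.span k ((fun i => (ph p A)^[i] v) '' (Finset.range (m + 1) : Set ℕ)) :=
    hm (m + 1) (Nat.le_succ m)
  refine ⟨m, (Submodule.mem_span_image_finset_iff_exists_fun' k).1 ?_⟩
  rw [h1]
  exact Submodule.subset_span ⟨m, by simp, rfl⟩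

theorem exists_fix [IsAlgClosed k] (q : k[X]) (hq : derivative q = 0) : ∃ t, q.eval t = t := by
  obtain ⟨t, ht⟩ := IsAlgClosed.exists_root (X - q) fun h => by
    have := congrArg derivative (eq_C_of_degree_eq_zero h)
    rw [derivative_sub, derivative_X, hq, derivative_C, sub_zero] at this
    exact one_ne_zero this
  refine ⟨t, ?_⟩
  rw [IsRoot, eval_sub, eval_X] at ht
  exact (sub_eq_zero.1 ht).symm

theorem exists_fix_ne [IsAlgClosed k] (q : k[X]) (hq : derivative q = 0) (h0 : q.eval 0 = 0)
    (hne : q ≠ 0) : ∃ t, t ≠ 0 ∧ q.eval t = t := by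
  obtain ⟨h, hh⟩ : X ∣ X - q := by
    rw [X_dvd_iff, coeff_zero_eq_eval_zero, eval_sub, eval_X, h0, sub_zero]
  have hd := congrArg derivative hh
  rw [derivative_sub, derivative_X, hq, sub_zero, derivative_mul, derivative_X, one_mul] at hd
  have h1 : h.eval 0 = 1 := by
    have := congrArg (eval 0) hd
    simpa using this.symm
  obtain ⟨t, ht⟩ := IsAlgClosed.exists_root h fun hdeg => by
    have h2 := eq_C_of_degree_eq_zero hdeg
    rw [coeff_zero_eq_eval_zero, h1, C_1] at h2
    rw [h2, mul_one, sub_eq_self] at hh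
    exact hne hh
  refine ⟨t, fun h' => ?_, ?_⟩
  · rw [IsRoot, h', h1] at ht
    exact one_ne_zero ht
  · have := congrArg (eval t) hh
    rw [eval_sub, eval_mul, eval_X, ht.eq_zero, mul_zero] at this
    exact (sub_eq_zero.1 this).symm

theorem nil [IsAlgClosed k] (A : Matrix d d k) (hA : ∀ x, ph p A x = x → x = 0) (v : d → k) :
    ∃ m, (ph p A)^[m] v = 0 := by
  classical
  have hex := exists_rel (p := p) A v
  obtain ⟨a, ha⟩ := Nat.find_spec hex
  have hmin := fun m => Nat.find_min hex (m := m)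
  generalize Nat.find hex = m at ha hmin
  refine ⟨m, ?_⟩
  by_cases hq : rr p 0 a m = 0
  · rw [← ha]
    exact Finset.sum_eq_zero fun i hi => by
      rw [rr_eq_zero a m hq i (Finset.mem_range.1 hi), zero_smul]
  · exfalso
    obtain ⟨t, ht0, ht⟩ := exists_fix_ne _ (rr_der 0 a m) (rr_zero_eval a m) hq
    have h1 := solve A v m a 0 t ha ht
    rw [zero_pow (Fact.out : p.Prime).ne_zero, zero_smul, sub_eq_zero] at h1
    have h2 := hA _ h1.symm
    cases m with
    | zero => exact hq (by simp [rr])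
    | succ m =>
      rw [Finset.sum_range_succ, ht] at h2
      refine hmin m (Nat.lt_succ_self m) ⟨fun i => -t⁻¹ * (rr p 0 a (i + 1)).eval t, ?_⟩
      have h3 : (ph p A)^[m] v = (-t⁻¹) •
          ∑ i ∈ Finset.range m, (rr p 0 a (i + 1)).eval t • (ph p A)^[i] v := by
        rw [eq_neg_of_add_eq_zero_left h2, smul_neg, neg_smul, neg_neg, smul_smul,
          inv_mul_cancel₀ ht0, one_smul]
      rw [h3, Finset.smul_sum]
      exact Finset.sum_congr rfl fun i _ => by rw [smul_smul]

theorem tw_col [DecidableEq d] (A : Matrix d d k) (j : d) (c : ℕ) :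
    (fun l => twProd (frobenius k p) A c l j) = (ph p A)^[c] (Pi.single j 1) := by
  induction c with
  | zero =>
    funext l
    simp [twProd, Matrix.one_apply, Pi.single_apply]
  | succ c ih =>
    rw [Function.iterate_succ_apply', ← ih]
    funext l
    simp [twProd, ph, Matrix.mul_apply, Matrix.mulVec, dotProduct, frobenius_def]

end RSlopeK

open RSlopeK in
theorem rSlopeK : SSlopeK := by
  intro p _ k _ _ _ d _ _ A
  refine ⟨fun v => ?_, fun hA => ?_⟩
  · obtain ⟨m, a, ha⟩ := exists_rel (p := p) A v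
    obtain ⟨t, ht⟩ := exists_fix _ (rr_der (p := p) 1 a m)
    have := solve A v m a 1 t ha ht
    rw [one_pow, one_smul] at this
    exact ⟨_, this⟩
  · choose m hm using fun j : d => nil (p := p) A hA (Pi.single j 1)
    refine ⟨Finset.univ.sup m, ?_⟩
    ext l j
    obtain ⟨c, hc⟩ := Nat.exists_eq_add_of_le' (Finset.le_sup (f := m) (Finset.mem_univ j))
    have h1 := congrFun (tw_col (p := p) A j (Finset.univ.sup m)) l
    rw [h1, hc, Function.iterate_add_apply, hm j, Function.iterate_fixed (ph_zero A)]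
    rfl

end Pool.Agent.MP_dc2c90_ag.H20
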