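import Pool.Agent.MP_dc2c90_ag.H20.SpecB
import Pool.Agent.MP_dc2c90_ag.H20.RSlope
import Pool.Agent.MP_dc2c90_ag.H20.RSlopeK

/-!
The slope condition for `p Ad(b) σ` on the Lie algebra.
-/

namespace Pool.Agent.MP_dc2c90_ag.H20

open WittVector

noncomputable section

variable {p : ℕ} [Fact p.Prime] {n : Type} [Fintype n] [DecidableEq n] {k : Type} [Field k]
  [CharP k p] {D : Data p k n} {π : Matrix (n × n) (n × n) ℤ_[p]}

namespace RSlopeB

/-- The integral model of `p Ad(b)` on the Lie algebra. -/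
def A0 (D : Data p k n) (π : Matrix (n × n) (n × n) ℤ_[p]) :
    Matrix (n × n) (n × n) (WittVector p k) :=
  adM D.u₁ D.u₁⁻¹ * (D.DD π).map frobenius * (adM D.u₂ D.u₂⁻¹ * π.map (zO p k))

theorem key (hD : D.Good) (h1 : SDD D π) {R : Type} [CommRing R]
    (κ : WittVector p k →+* WittVector p R) :
    (p : T p R) • (adM (D.b κ) (D.b κ)⁻¹ * π.map ((toT p R).comp (κ.comp (zO p k)))) =
      (A0 D π).map ((toT p R).comp κ) := by
  have e := h1.ad _ _ _ (hD.u₂_mem.map ((toT p R).comp κ) (RingHom.comp_assoc _ _ _))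
  rw [A0, Matrix.map_mul, Matrix.map_mul, Matrix.map_mul, adM_map, adM_map,
    map_inv_of_isUnit _ (hD.isUnit hD.u₁_mem), map_inv_of_isUnit _ (hD.isUnit hD.u₂_mem),
    Data.b, Matrix.mul_inv_rev, Matrix.mul_inv_rev, ← adM_mul, ← adM_mul, Matrix.mul_assoc, ← e,
    Matrix.mul_assoc, ← Matrix.mul_assoc (adM (D.mu κ) _), ← Matrix.mul_smul, ← Matrix.smul_mul,
    h1.mu, Matrix.mul_assoc, Matrix.map_map, Matrix.map_map]
  rfl

theorem fix (hD : D.Good) (hπ : IsProj D.I π) (h1 : SDD D π) (X : Matrix n n (WittVector p k))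
    (hX : app (A0 D π) (X.map frobenius) = X) : X = 0 := by
  have l : IsLie D.I (zO p k) X := by
    rw [← hX, A0, Matrix.mul_assoc, app_mul, app_adM, app_mul]
    exact hD.isLie_conj hD.u₁_mem (frob_comp_zO (p := p) (k := k) ▸ h1.lie _ frobenius _)
  have l1 := (l.map frobenius frob_comp_zO).map (toT p k) rfl
  have e := congrArg (app · ((X.map frobenius).map (toT p k))) (key hD h1 (RingHom.id _))
  simp only [RingHom.id_comp, RingHom.comp_id] at e
  rw [← app_map, hX, smul_app, app_mul, hπ.fix _ _ _ l1, app_adM] at e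
  have z := hD.slope _ (l.map (toT p k) rfl) (by
    conv_rhs => rw [← e]
    rw [Matrix.smul_mul, Matrix.mul_assoc, hD.inv_mul (hD.b_pt _), Matrix.mul_one,
      Matrix.map_map, Matrix.map_map]
    congr 3
    funext x
    exact fT_toT x)
  ext1 i j
  exact toT_injective_field (by simpa using congrFun (congrFun z i) j)

omit [Fact p.Prime] in
theorem dvd_pow {S d : Type} [CommRing S] [Fintype d] [DecidableEq d] (F : S →+* S)
    (A : Matrix d d S) (c : ℕ) (h : ∀ i j, (p : S) ∣ twProd F A c i j) (j : ℕ) :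
    ∃ Y : Matrix d d S, twProd F A (c * j) = (p : S) ^ j • Y := by
  choose Z hZ using h
  have e : twProd F A c = (p : S) • Matrix.of Z := by ext s t; simp [hZ]
  induction j with
  | zero => exact ⟨1, by simp [twProd_zero]⟩
  | succ j ih =>
    obtain ⟨Y, hY⟩ := ih
    refine ⟨Y * (Matrix.of Z).map (F ^ (c * j) : S →+* S), ?_⟩
    rw [mul_add, mul_one, twProd_add, hY, e, Matrix.map_smul' _ _ _ (map_mul _), map_natCast,
      Matrix.smul_mul, Matrix.mul_smul, smul_smul, pow_succ]

end RSlopeB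

open RSlopeB in
theorem rSlopeB [IsAlgClosed k] (hD : D.Good) (hπ : IsProj D.I π) (h1 : SDD D π) (h2 : SPhi D π) :
    SSlopeB D π := by
  intro j
  obtain ⟨c, hc⟩ := rSlope rSlopeK p k (n × n) (A0 D π) fun x hx => by
    have := fix hD hπ h1 (Matrix.of fun a b => x (a, b)) (by
      ext1 a b
      exact congrFun hx (a, b))
    funext ab
    exact congrFun (congrFun this ab.1) ab.2
  obtain ⟨Y, hY⟩ := dvd_pow _ _ c hc j
  refine ⟨c * j + 1, by omega, Y * (A0 D π).map (Fi p k (c * j)) * π.map (zO p k), fun R _ χ => ?_⟩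
  have e := (h2.gen R χ (D.b (D.iota χ)) ((A0 D π).map (D.iota χ)) (hD.b_pt _)
    (by rw [Matrix.map_map]; exact key hD h1 _) (c * j + 1)).2
  rw [e, ← twProd_map _ frobenius frobenius fun x => (hD.frob_iota χ x).symm, twProd_succ', hY,
    Matrix.map_map, ← RingHom.coe_comp, Matrix.smul_mul, Matrix.map_smul' _ _ _ (map_mul _),
    map_pow, map_natCast, Matrix.smul_mul, Matrix.map_mul (M := π.map _), Matrix.map_map]
  rfl

end

end Pool.Agent.MP_dc2c90_ag.H20
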