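import Pool.Agent.MP_dc2c90_ag.H20.SpecB
import Pool.Agent.MP_dc2c90_ag.H20.RAmit

/-!
One step of the trivialisation of a cocycle close to `1`.
-/

namespace Pool.Agent.MP_dc2c90_ag.H20

open WittVector MvPolynomial

noncomputable section

variable {p : ℕ} [Fact p.Prime] {n : Type} [Fintype n] [DecidableEq n] {k : Type} [Field k]
  [CharP k p] {D : Data p k n} {π : Matrix (n × n) (n × n) ℤ_[p]}

namespace RStep

variable {R : Type} [CommRing R]

theorem mul_mem {s M : ℕ} (hs : (p : R) ^ s = 0) (hM : s ≤ M) {x y : WittVector p R}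
    (hx : x ∈ Vm p R M) (hy : y ∈ Vm p R M) : x * y ∈ Vm p R (M + 1) := by
  obtain ⟨x, rfl⟩ := mem_Vm_iff_Vi.1 hx
  obtain ⟨y, rfl⟩ := mem_Vm_iff_Vi.1 hy
  rw [Vi_mul_Vi, Vi_mem_Vm_add]
  refine Ideal.mul_mem_right _ _ (p_pow_mem_Vm_one ?_)
  obtain ⟨d, rfl⟩ := Nat.exists_eq_add_of_le hM
  rw [pow_add, hs, zero_mul]

omit [DecidableEq n] in
theorem mat_mul_mem {s M : ℕ} (hs : (p : R) ^ s = 0) (hM : s ≤ M)
    {x y : Matrix n n (WittVector p R)} (hx : ∀ i j, x i j ∈ Vm p R M)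
    (hy : ∀ i j, y i j ∈ Vm p R M) (i j : n) : (x * y) i j ∈ Vm p R (M + 1) := by
  rw [Matrix.mul_apply]
  exact Ideal.sum_mem _ fun _ _ => mul_mem hs hM (hx _ _) (hy _ _)

omit [DecidableEq n] in
theorem quad_mem {s M : ℕ} (hs : (p : R) ^ s = 0) (hM : s ≤ M)
    {a : Matrix n n (WittVector p R)} (ha : ∀ i j, a i j ∈ Vm p R M)
    (N : n × n → n × n → WittVector p R) :
    ∑ kl : n × n, ∑ kl' : n × n, a kl.1 kl.2 * a kl'.1 kl'.2 * N kl kl' ∈ Vm p R (M + 1) :=
  Ideal.sum_mem _ fun _ _ => Ideal.sum_mem _ fun _ _ =>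
    Ideal.mul_mem_right _ _ (mul_mem hs hM (ha _ _) (ha _ _))

theorem coeff_Vi_self (M : ℕ) (y : WittVector p R) : (Vi p R M y).coeff M = constantCoeff y := by
  have := coeff_Vi M 0 y
  rwa [zero_add] at this

theorem coeff_add {M : ℕ} {x y : WittVector p R} (hx : x ∈ Vm p R M) (hy : y ∈ Vm p R M) :
    (x + y).coeff M = x.coeff M + y.coeff M := by
  obtain ⟨x, rfl⟩ := mem_Vm_iff_Vi.1 hx
  obtain ⟨y, rfl⟩ := mem_Vm_iff_Vi.1 hy
  rw [← map_add, coeff_Vi_self, coeff_Vi_self, coeff_Vi_self, map_add]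

theorem sub_teich {M : ℕ} {x : WittVector p R} (hx : x ∈ Vm p R M) {u v : R}
    (h : x.coeff M = u - v) :
    x - (Vi p R M (teichmuller p u) - Vi p R M (teichmuller p v)) ∈ Vm p R (M + 1) := by
  obtain ⟨x, rfl⟩ := mem_Vm_iff_Vi.1 hx
  rw [coeff_Vi_self] at h
  rw [← map_sub, ← map_sub, Vi_mem_Vm_add, mem_Vm_one, map_sub, map_sub, h]
  simp

theorem app_Vi (hD : D.Good) (χ : WittVector p k →+* R) (l : ℕ)
    (x : Matrix n n (WittVector p R)) :
    app (π.map (D.zeta χ)) (x.map (Vi p R l)) = (app (π.map (D.zeta χ)) x).map (Vi p R l) := by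
  rw [app_map_Vi]
  have : (π.map (D.zeta χ)).map (Fi p R l) = π.map (D.zeta χ) := by
    ext1 s t
    exact RingHom.congr_fun (hD.Fi_comp_zeta χ l) _
  rw [this]

theorem lie_Vi (hD : D.Good) (hπ : IsProj D.I π) (χ : WittVector p k →+* R) (l : ℕ)
    {x : Matrix n n (WittVector p R)} (hx : IsLie D.I (D.zeta χ) x) :
    IsLie D.I (D.zeta χ) (x.map (Vi p R l)) := by
  have h := hπ.lie _ (D.zeta χ) (x.map (Vi p R l))
  rwa [app_Vi hD, hπ.fix _ _ _ hx] at h

theorem eval_mem (hD : D.Good) (hπ : IsProj D.I π) (χ : WittVector p k →+* R) {s M : ℕ}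
    (hs : (p : R) ^ s = 0) (hM : s ≤ M) {x : Matrix n n (WittVector p R)}
    (hx : IsLie D.I (D.zeta χ) x) :
    ∀ P ∈ D.I, eval₂ (D.zeta χ) (fun ij => (1 + x.map (Vi p R M)) ij.1 ij.2) P ∈
      Vm p R (M + 1) := fun P hP => by
  obtain ⟨N, hN⟩ := hπ.tayl P hP
  rw [hN _ _ _ (lie_Vi hD hπ χ M hx)]
  exact quad_mem hs hM (fun i j => Vi_mem_Vm _ _) _

omit [Fintype n] [DecidableEq n] in
theorem iota_Fi_zO (χ : WittVector p k →+* R) (l : ℕ) :
    ((D.iota χ).comp (Fi p k l)).comp (zO p k) = D.zeta χ :=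
  RingHom.ext fun x => by
    simp only [Data.zeta, RingHom.comp_apply]
    rw [Fi_zO]

theorem graded (hD : D.Good) (hπ : IsProj D.I π) (h1 : SDD D π) (χ : WittVector p k →+* R) (m : ℕ)
    {x : Matrix n n (WittVector p R)} (hx : IsLie D.I (D.zeta χ) x) :
    D.Graded χ (x.map (Vi p R (m + 1)),
      (app ((D.DD π).map ((D.iota χ).comp (Fi p k (m + 1)))) x).map (Vi p R m)) := by
  intro i j
  set κ : WittVector p k →+* WittVector p R := (D.iota χ).comp (Fi p k (m + 1)) with hκ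
  have hz : κ.comp (zO p k) = D.zeta χ := iota_Fi_zO χ _
  have e1 : ∀ y : Matrix n n (WittVector p k),
      (y.map (D.iota χ)).map (Fi p R (m + 1)) = y.map κ := fun y => by
    ext1 s t
    exact hD.Fi_iota χ _ _
  have e2 : ∀ y : Matrix n n (WittVector p k),
      (y.map ((D.iota χ).comp frobenius)).map (Fi p R m) = y.map κ := fun y => by
    ext1 s t
    simp only [Matrix.map_apply, hκ, RingHom.comp_apply]
    rw [hD.Fi_iota, Fi_succ']
  simp only [mul_map_Vi, map_Vi_mul, e1, e2, Matrix.map_apply]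
  rw [h1.coord, hz, hπ.fix _ _ _ hx]
  by_cases hr : 2 ≤ D.w j - D.w i
  · rw [h1.minus _ κ x (hz ▸ hx) i j hr, mul_zero, map_zero, map_zero]
    exact Gr.zero _
  · rw [Data.sc, if_pos (by omega), map_pow, map_natCast]
    by_cases hr' : 1 ≤ D.w j - D.w i
    · have e3 : (D.w j - D.w i - 1).toNat = 0 := by omega
      have e4 : (1 - (D.w j - D.w i)).toNat = 0 := by omega
      rw [gr_of_pos hr', e3, e4, pow_zero, one_mul, one_mul, Vi_succ]
    · have e3 : (1 - (D.w j - D.w i)).toNat = (-(D.w j - D.w i)).toNat + 1 := by omega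
      rw [gr_of_nonpos (by omega), frob_Vi_succ, ← Vi_p_mul, e3, pow_succ, mul_assoc]

/-- A point of `H` close to `1` with prescribed leading term in the Lie algebra. -/
theorem exists_v (hD : D.Good) (hπ : IsProj D.I π) (h1 : SDD D π) (h2 : SHG D)
    (χ : WittVector p k →+* R) {s m : ℕ} (hs : (p : R) ^ s = 0) (hm : s ≤ m)
    {x : Matrix n n (WittVector p R)} (hx : IsLie D.I (D.zeta χ) x) :
    ∃ v, D.IsH χ v ∧ Cong m v 1 ∧
      ∀ i j, (v.1 - (1 + x.map (Vi p R (m + 1)))) i j ∈ Vm p R (m + 2) := by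
  have hnil : IsNilpotent (p : R) := ⟨s, hs⟩
  have hx' := h1.lie _ ((D.iota χ).comp (Fi p k (m + 1))) x
  rw [iota_Fi_zO] at hx'
  have hg := (hD.graded_one χ).add (graded hD hπ h1 χ m hx)
  generalize app ((D.DD π).map ((D.iota χ).comp (Fi p k (m + 1)))) x = x' at hx' hg
  obtain ⟨y, hy⟩ : ∃ y : HP p n R, y = 1 + (x.map (Vi p R (m + 1)), x'.map (Vi p R m)) :=
    ⟨_, rfl⟩
  have y1 : y.1 = 1 + x.map (Vi p R (m + 1)) := by rw [hy, Prod.fst_add, Prod.fst_one]
  have y2 : y.2 = 1 + x'.map (Vi p R m) := by rw [hy, Prod.snd_add, Prod.snd_one]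
  rw [← hy] at hg
  have g1 := eval_mem hD hπ χ hs (Nat.le_succ_of_le hm) hx
  have g2 := eval_mem hD hπ χ hs hm hx'
  rw [← y1] at g1
  rw [← y2] at g2
  obtain ⟨v, hv, hv1, hv2, -, -⟩ := h2 R χ y (Vm p R (m + 2)) (Vm p R (m + 1)) ⊤
    (vnil_Vm hnil (by omega)) (vnil_Vm hnil (by omega)) (vclosed_Vm _) (vclosed_Vm _)
    (fun _ => Subring.mem_top _) hg (fun _ _ => mem_WS_top _) (fun _ _ => mem_WS_top _) g1 g2
  rw [y1] at hv1
  rw [y2] at hv2
  refine ⟨v, hv, ⟨fun i j => ?_, fun i j => ?_⟩, hv1⟩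
  · have := (Vm p R (m + 1)).add_mem (Vm_anti (Nat.le_succ _) (hv1 i j)) (Vi_mem_Vm _ (x i j))
    convert this using 1
    simp only [Matrix.sub_apply, Matrix.add_apply, Matrix.map_apply, Prod.fst_one]
    ring
  · have := (Vm p R m).add_mem (Vm_anti (Nat.le_succ _) (hv2 i j)) (Vi_mem_Vm _ (x' i j))
    convert this using 1
    simp only [Matrix.sub_apply, Matrix.add_apply, Matrix.map_apply, Prod.snd_one]
    ring

/-- The leading term of a point of `G` close to `1` lies in the Lie algebra. -/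
theorem lead_proj (hD : D.Good) (hπ : IsProj D.I π) (χ : WittVector p k →+* R) {s M : ℕ}
    (hs : (p : R) ^ s = 0) (hM : s ≤ M) {g t t' : Matrix n n (WittVector p R)}
    (hg : Pt D.I (D.zeta χ) g) (hg1 : ∀ i j, (g - 1) i j ∈ Vm p R M)
    (ht : ∀ i j, (g - 1 - (t.map (Vi p R M) - t'.map (Vi p R M))) i j ∈ Vm p R (M + 1))
    (i j : n) :
    (g - 1 - ((app (π.map (D.zeta χ)) t).map (Vi p R M) -
      (app (π.map (D.zeta χ)) t').map (Vi p R M))) i j ∈ Vm p R (M + 1) := by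
  obtain ⟨N, hN⟩ := hπ.quad
  have a1 : (g - 1 - app (π.map (D.zeta χ)) (g - 1)) i j ∈ Vm p R (M + 1) := by
    rw [hN _ (D.zeta χ) (g - 1) (by rwa [add_sub_cancel]) i j]
    exact quad_mem hs hM hg1 _
  have a2 := app_mem_ideal (π.map (D.zeta χ)) ht i j
  rw [app_sub, app_sub _ (t.map _), app_Vi hD, app_Vi hD] at a2
  have := (Vm p R (M + 1)).add_mem a1 a2
  convert this using 1
  simp only [Matrix.sub_apply]
  ring

end RStep

open RStep in
theorem rStep [IsAlgClosed k] (hD : D.Good) (hπ : IsProj D.I π) (h1 : SDD D π) (h2 : SHG D)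
    (h3 : SLead D) : SStep D := by
  intro A E _ _ χ e s m κ he hs hsm hm hκ hc
  have hsB : ∀ (B : Type) [CommRing B], (E →+* B) → (p : B) ^ s = 0 := fun B _ a => by
    have := congrArg (a.comp e) hs
    rwa [map_pow, map_natCast, map_zero] at this
  have hz : ∀ i j : n, ∃ ζ : E, ∀ (B : Type) [CommRing B] (a b : E →+* B), a.comp e = b.comp e →
      (((κ B a b).1 - 1) i j).coeff (m + 1) = a ζ - b ζ := fun i j => by
    refine rAmit1 A E e he (fun B _ a b => (((κ B a b).1 - 1) i j).coeff (m + 1)) ?_ ?_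
    · intro B B' _ _ ψ a b hab
      rw [← hκ.nat B B' ψ a b hab, ← map_coeff]
      congr 1
      simp only [hmap, Matrix.sub_apply, Matrix.map_apply, map_sub, Matrix.one_apply]
      split_ifs <;> simp only [map_one, map_zero]
    · intro B _ a b c hab hbc
      have x1 := (hc B a b hab).1
      have x2 := (hc B b c hbc).1
      rw [Prod.fst_one] at x1 x2
      have x3 := mat_mul_mem (hsB B a) (Nat.le_succ_of_le hsm) x1 x2 i j
      have e1 : (κ B a c).1 - 1 = ((κ B a b).1 - 1) + ((κ B b c).1 - 1) +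
          ((κ B a b).1 - 1) * ((κ B b c).1 - 1) := by
        rw [← hκ.coc B a b c hab hbc, Prod.fst_mul]
        noncomm_ring
      rw [e1, Matrix.add_apply, Matrix.add_apply,
        coeff_add ((Vm p B _).add_mem (x1 i j) (x2 i j)) (Vm_anti (Nat.le_succ _) x3),
        coeff_add (x1 i j) (x2 i j), mem_Vm.1 x3 _ (Nat.lt_succ_self _), add_zero]
  choose ζ hζ using hz
  set t : Matrix n n (WittVector p E) := Matrix.of fun i j => teichmuller p (ζ i j) with ht
  obtain ⟨v, hv, hv0, hv1⟩ := exists_v hD hπ h1 h2 (e.comp χ) (hsB E (RingHom.id E)) hsm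
    (hπ.lie _ (D.zeta (e.comp χ)) t)
  refine ⟨v, hv, hv0, fun B _ a b hab => ?_⟩
  have hba : b.comp (e.comp χ) = a.comp (e.comp χ) := by
    rw [← RingHom.comp_assoc, ← hab, RingHom.comp_assoc]
  have hva : D.IsH (a.comp (e.comp χ)) (hmap a v) := hv.map a rfl
  have hvb : D.IsH (a.comp (e.comp χ)) (hmap b v) := hv.map b hba
  have hk := hκ.hh B a b hab
  have hk0 := hc B a b hab
  have c1 : ∀ c : E →+* B, Cong m (hmap c v) 1 := fun c => by
    have := hv0.map c
    rwa [hmap_one] at this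
  have c2 : ∀ c : E →+* B, c.comp (e.comp χ) = a.comp (e.comp χ) → ∀ i j,
      ((hmap c v).1 - 1 - (app (π.map (D.zeta (a.comp (e.comp χ))))
        (t.map (WittVector.map c))).map (Vi p B (m + 1))) i j ∈ Vm p B (m + 2) :=
    fun c hc' i j => by
      have e1 : app (π.map (D.zeta (a.comp (e.comp χ)))) (t.map (WittVector.map c)) =
          (app (π.map (D.zeta (e.comp χ))) t).map (WittVector.map c) := by
        rw [app_map, ← hc', ← Data.map_comp_zeta]
        rfl
      have := map_mem_Vm c (hv1 i j)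
      convert this using 1
      simp only [e1, hmap, Matrix.sub_apply, Matrix.add_apply, Matrix.map_apply, map_sub, map_add,
        map_Vi, Matrix.one_apply]
      split_ifs <;> simp only [map_one, map_zero] <;> ring
  have c3 := lead_proj hD hπ (a.comp (e.comp χ)) (hsB B a) (Nat.le_succ_of_le hsm)
    (t := t.map (WittVector.map a)) (t' := t.map (WittVector.map b)) hk.1 hk0.1 fun i j => by
      have := sub_teich (hk0.1 i j) (hζ i j B a b hab)
      simpa only [ht, Matrix.sub_apply, Matrix.map_apply, Matrix.of_apply, map_teichmuller,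
        Prod.fst_one] using this
  have c4 : ∀ i j, ((κ B a b).1 * (hmap b v).1 - (hmap a v).1) i j ∈ Vm p B (m + 2) :=
    fun i j => by
      have x3 := mat_mul_mem (hsB B a) (Nat.le_succ_of_le hsm) hk0.1 (c1 b).1 i j
      have e1 : (κ B a b).1 * (hmap b v).1 - (hmap a v).1 =
          ((κ B a b).1 - 1) * ((hmap b v).1 - 1) + ((κ B a b).1 - 1) + ((hmap b v).1 - 1) -
            ((hmap a v).1 - 1) := by noncomm_ring
      have := (Vm p B (m + 2)).sub_mem ((Vm p B (m + 2)).add_mem ((Vm p B (m + 2)).add_mem x3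
        (c3 i j)) (c2 b hba i j)) (c2 a rfl i j)
      rw [e1]
      convert this using 1
      simp only [Matrix.sub_apply, Matrix.add_apply, Prod.fst_one]
      ring
  have c5 : Cong m (κ B a b * hmap b v) (hmap a v) := by
    have x1 := hk0.mul_right (hmap b v)
    rw [one_mul] at x1
    exact (x1.trans (c1 b)).trans (c1 a).symm
  have c6 : Cong (m + 1) (hinv (hmap a v) * (κ B a b * hmap b v)) 1 := by
    refine h3 B (a.comp (e.comp χ)) s m _ (hsB B a) hsm hm
      (hD.isH_mul (hD.isH_inv hva) (hD.isH_mul hk hvb)) ?_ fun i j => ?_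
    · have := c5.mul_left (hinv (hmap a v))
      rwa [hD.hinv_mul hva] at this
    · have x1 : (hinv (hmap a v)).1 * (hmap a v).1 = 1 := congrArg Prod.fst (hD.hinv_mul hva)
      rw [Prod.fst_mul, Prod.fst_mul, ← x1, ← Matrix.mul_sub]
      exact mul_mem_ideal_left _ c4 i j
  have := c6.mul_left (hmap a v)
  rwa [← mul_assoc, hD.mul_hinv hva, one_mul, mul_one] at this

end

end Pool.Agent.MP_dc2c90_ag.H20
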