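import Pool.Agent.MP_dc2c90_ag.H20.SpecB

/-!
The truncated display group is a smooth affine scheme.
-/

namespace Pool.Agent.MP_dc2c90_ag.H20

open WittVector MvPolynomial

noncomputable section

variable {p : ℕ} [Fact p.Prime] {n : Type} [Fintype n] [DecidableEq n] {k : Type} [Field k]
  [IsAlgClosed k] [CharP k p] {D : Data p k n}

namespace RTrunc

section Pairs

variable {A A' : Type} [CommRing A] [CommRing A']

/-- first component of the graded pair with parameter `y` -/
def ga (r : ℤ) (y : WittVector p A) : WittVector p A :=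
  if 1 ≤ r then (p : WittVector p A) ^ (r - 1).toNat * verschiebung y else y

/-- second component of the graded pair with parameter `y` -/
def gb (r : ℤ) (y : WittVector p A) : WittVector p A :=
  if 1 ≤ r then y else (p : WittVector p A) ^ (-r).toNat * frobenius y

/-- the parameter of a pair -/
def gp (r : ℤ) (a b : WittVector p A) : WittVector p A := if 1 ≤ r then b else a

/-- the number of coordinates of the parameter -/
def gl (m : ℕ) (r : ℤ) : ℕ := if 1 ≤ r then m else m + 1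

theorem gr_g (r : ℤ) (y : WittVector p A) : Gr r (ga r y) (gb r y) := by
  unfold Gr ga gb; split_ifs <;> rfl

theorem gp_g (r : ℤ) (y : WittVector p A) : gp r (ga r y) (gb r y) = y := by
  unfold gp ga gb; split_ifs <;> rfl

theorem g_gp {r : ℤ} {a b : WittVector p A} (h : Gr r a b) :
    ga r (gp r a b) = a ∧ gb r (gp r a b) = b := by
  unfold Gr at h
  unfold gp ga gb
  split_ifs at h ⊢
  · exact ⟨h.symm, rfl⟩
  · exact ⟨rfl, h.symm⟩

theorem map_ga (φ : A →+* A') (r : ℤ) (y : WittVector p A) :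
    WittVector.map φ (ga r y) = ga r (WittVector.map φ y) := by
  unfold ga
  split_ifs
  · rw [map_mul, map_pow, map_natCast, map_verschiebung]
  · rfl

theorem map_gb (φ : A →+* A') (r : ℤ) (y : WittVector p A) :
    WittVector.map φ (gb r y) = gb r (WittVector.map φ y) := by
  unfold gb
  split_ifs
  · rfl
  · rw [map_mul, map_pow, map_natCast, map_frob]

theorem map_gp (φ : A →+* A') (r : ℤ) (a b : WittVector p A) :
    WittVector.map φ (gp r a b) = gp r (WittVector.map φ a) (WittVector.map φ b) := by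
  unfold gp; split_ifs <;> rfl

theorem g_cong {m : ℕ} {r : ℤ} {y y' : WittVector p A} (h : y - y' ∈ Vm p A (gl m r)) :
    ga r y - ga r y' ∈ Vm p A (m + 1) ∧ gb r y - gb r y' ∈ Vm p A m := by
  unfold gl at h
  unfold ga gb
  split_ifs at h ⊢
  · refine ⟨?_, h⟩
    rw [← mul_sub, ← map_sub]
    exact Ideal.mul_mem_left _ _ (V_mem_Vm h)
  · refine ⟨h, ?_⟩
    rw [← mul_sub, ← map_sub]
    exact Ideal.mul_mem_left _ _ (frob_mem_Vm h)

theorem gp_cong {m : ℕ} (r : ℤ) {a b a' b' : WittVector p A} (h : a - a' ∈ Vm p A (m + 1))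
    (h' : b - b' ∈ Vm p A m) : gp r a b - gp r a' b' ∈ Vm p A (gl m r) := by
  unfold gl gp
  split_ifs
  · exact h'
  · exact h

omit [DecidableEq n] in
theorem conj_mem {𝔞 : Ideal A} (c c' : Matrix n n A) {x x' : Matrix n n A}
    (h : ∀ i j, (x - x') i j ∈ 𝔞) (i j : n) : (c * x * c' - c * x' * c') i j ∈ 𝔞 := by
  rw [← Matrix.sub_mul, ← Matrix.mul_sub]
  exact mul_mem_ideal_right _ (mul_mem_ideal_left _ h) i j

omit [Fintype n] [DecidableEq n] in
theorem eval_mem {𝔞 : Ideal A} (ζ : ℤ_[p] →+* A) {x x' : Matrix n n A}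
    (h : ∀ i j, (x - x') i j ∈ 𝔞) {P : MvPolynomial (n × n) ℤ_[p]}
    (h' : eval₂ ζ (fun ij => x' ij.1 ij.2) P ∈ 𝔞) : eval₂ ζ (fun ij => x ij.1 ij.2) P ∈ 𝔞 := by
  rw [← Ideal.Quotient.eq_zero_iff_mem, map_eval₂_matrix] at h' ⊢
  rw [← h']
  congr 1
  funext ij
  exact Ideal.Quotient.eq.2 (h ij.1 ij.2)

end Pairs

variable (D)

/-- the index set of the coordinates -/
abbrev Ix (m : ℕ) : Type := Σ ij : n × n, Fin (gl m (D.w ij.2 - D.w ij.1))

variable {A A' : Type} [CommRing A] [CommRing A']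

/-- the graded pair with given parameters -/
def par (χ : WittVector p k →+* A) (y : Matrix n n (WittVector p A)) : HP p n A :=
  (D.c.map (D.iota χ) * Matrix.of (fun i j => ga (D.w j - D.w i) (y i j)) * D.c'.map (D.iota χ),
    D.c.map ((D.iota χ).comp frobenius) * Matrix.of (fun i j => gb (D.w j - D.w i) (y i j)) *
      D.c'.map ((D.iota χ).comp frobenius))

/-- the parameters of a pair -/
def prm (χ : WittVector p k →+* A) (h : HP p n A) : Matrix n n (WittVector p A) :=
  Matrix.of fun i j => gp (D.w j - D.w i) ((D.c'.map (D.iota χ) * h.1 * D.c.map (D.iota χ)) i j)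
    ((D.c'.map ((D.iota χ).comp frobenius) * h.2 * D.c.map ((D.iota χ).comp frobenius)) i j)

/-- the parameters with given coordinates -/
def wv {m : ℕ} (x : Ix D m → A) : Matrix n n (WittVector p A) :=
  Matrix.of fun i j => WittVector.mk p fun l =>
    if h : l < gl m (D.w j - D.w i) then x ⟨(i, j), ⟨l, h⟩⟩ else 0

/-- the coordinates of a pair -/
def co (m : ℕ) (χ : WittVector p k →+* A) (h : HP p n A) : Ix D m → A :=
  fun s => (prm D χ h s.1.1 s.1.2).coeff s.2

/-- the equations hold at the truncated level -/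
def Rel (m : ℕ) (χ : WittVector p k →+* A) (h : HP p n A) : Prop :=
  (∀ P ∈ D.I, eval₂ (D.zeta χ) (fun ij => h.1 ij.1 ij.2) P ∈ Vm p A (m + 1)) ∧
    ∀ P ∈ D.I, eval₂ (D.zeta χ) (fun ij => h.2 ij.1 ij.2) P ∈ Vm p A m

variable {D} {m : ℕ} {χ : WittVector p k →+* A}

omit [IsAlgClosed k] in
theorem par_graded (hD : D.Good) (y : Matrix n n (WittVector p A)) : D.Graded χ (par D χ y) :=
  fun i j => by
    simp only [par, hD.conj_conj', Matrix.of_apply]
    exact gr_g _ _

omit [IsAlgClosed k] in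
theorem prm_par (hD : D.Good) (y : Matrix n n (WittVector p A)) : prm D χ (par D χ y) = y := by
  ext1 i j
  simp only [prm, par, hD.conj_conj', Matrix.of_apply]
  exact gp_g _ _

omit [IsAlgClosed k] in
theorem par_prm (hD : D.Good) {h : HP p n A} (hh : D.Graded χ h) : par D χ (prm D χ h) = h := by
  refine Prod.ext ?_ ?_
  · refine Eq.trans ?_ (hD.conj_conj (D.iota χ) h.1)
    simp only [par]
    congr 2
    ext1 i j
    exact (g_gp (hh i j)).1
  · refine Eq.trans ?_ (hD.conj_conj ((D.iota χ).comp frobenius) h.2)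
    simp only [par]
    congr 2
    ext1 i j
    exact (g_gp (hh i j)).2

omit [DecidableEq n] [IsAlgClosed k] [CharP k p] in
theorem hmap_par (φ : A →+* A') {χ' : WittVector p k →+* A'} (hχ : φ.comp χ = χ')
    (y : Matrix n n (WittVector p A)) :
    hmap φ (par D χ y) = par D χ' (y.map (WittVector.map φ)) := by
  subst hχ
  refine Prod.ext ?_ ?_
  · simp only [hmap, par, Matrix.map_mul, ← Data.map_comp_iota]
    refine congrArg₂ (· * ·) (congrArg₂ (· * ·) rfl ?_) rfl
    ext1 i j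
    exact map_ga φ _ _
  · simp only [hmap, par, Matrix.map_mul, ← Data.map_comp_iota]
    refine congrArg₂ (· * ·) (congrArg₂ (· * ·) rfl ?_) rfl
    ext1 i j
    exact map_gb φ _ _

omit [DecidableEq n] [IsAlgClosed k] [CharP k p] in
theorem co_hmap (φ : A →+* A') {χ' : WittVector p k →+* A'} (hχ : φ.comp χ = χ') (h : HP p n A)
    (s : Ix D m) : co D m χ' (hmap φ h) s = φ (co D m χ h s) := by
  subst hχ
  rw [co, co, ← map_coeff]
  congr 1
  simp only [prm, Matrix.of_apply, map_gp, Data.conj_map, ← RingHom.comp_assoc,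
    Data.map_comp_iota, hmap]

omit [Fintype n] [DecidableEq n] [IsAlgClosed k] [CharP k p] in
theorem wv_map (φ : A →+* A') (x : Ix D m → A) :
    (wv D x).map (WittVector.map φ) = wv D fun s => φ (x s) := by
  ext i j l
  simp only [wv, Matrix.map_apply, Matrix.of_apply, map_coeff, coeff_mk]
  split_ifs
  · rfl
  · exact map_zero φ

omit [IsAlgClosed k] in
theorem co_par_wv (hD : D.Good) (x : Ix D m → A) (s : Ix D m) :
    co D m χ (par D χ (wv D x)) s = x s := by
  obtain ⟨⟨i, j⟩, l, hl⟩ := s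
  simp only [co, prm_par hD, wv, Matrix.of_apply, coeff_mk, dif_pos hl]

omit [DecidableEq n] [IsAlgClosed k] [CharP k p] in
theorem co_eq {h h' : HP p n A} (H : Cong m h h') : co D m χ h = co D m χ h' := by
  funext s
  exact sub_mem_Vm.1 (gp_cong _ (conj_mem _ _ H.1 s.1.1 s.1.2) (conj_mem _ _ H.2 s.1.1 s.1.2))
    _ s.2.2

omit [IsAlgClosed k] in
theorem cong_of_co (hD : D.Good) {h h' : HP p n A} (hh : D.Graded χ h) (hh' : D.Graded χ h')
    (H : co D m χ h = co D m χ h') : Cong m h h' := by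
  have e : ∀ i j, prm D χ h i j - prm D χ h' i j ∈ Vm p A (gl m (D.w j - D.w i)) :=
    fun i j => sub_mem_Vm.2 fun l hl => congrFun H ⟨(i, j), ⟨l, hl⟩⟩
  rw [← par_prm hD hh, ← par_prm hD hh']
  exact ⟨conj_mem _ _ fun i j => (g_cong (e i j)).1, conj_mem _ _ fun i j => (g_cong (e i j)).2⟩

omit [Fintype n] [DecidableEq n] [IsAlgClosed k] in
theorem Rel.cong {h h' : HP p n A} (H : Cong m h h') (hr : Rel D m χ h') : Rel D m χ h :=
  ⟨fun P hP => eval_mem _ H.1 (hr.1 P hP), fun P hP => eval_mem _ H.2 (hr.2 P hP)⟩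

omit [Fintype n] [DecidableEq n] [IsAlgClosed k] in
theorem eval_hmap (φ : A →+* A') {χ' : WittVector p k →+* A'} (hχ : φ.comp χ = χ')
    (x : Matrix n n (WittVector p A)) (P : MvPolynomial (n × n) ℤ_[p]) :
    WittVector.map φ (eval₂ (D.zeta χ) (fun ij => x ij.1 ij.2) P) =
      eval₂ (D.zeta χ') (fun ij => (x.map (WittVector.map φ)) ij.1 ij.2) P := by
  rw [map_eval₂_matrix, Data.map_comp_zeta, hχ]

omit [Fintype n] [DecidableEq n] [IsAlgClosed k] in
theorem Rel.map {h : HP p n A} (hr : Rel D m χ h) (φ : A →+* A') {χ' : WittVector p k →+* A'}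
    (hχ : φ.comp χ = χ') : Rel D m χ' (hmap φ h) :=
  ⟨fun P hP => by simpa only [eval_hmap φ hχ, hmap] using map_mem_Vm φ (hr.1 P hP),
    fun P hP => by simpa only [eval_hmap φ hχ, hmap] using map_mem_Vm φ (hr.2 P hP)⟩

omit [IsAlgClosed k] in
theorem rel_co (hD : D.Good) {h : HP p n A} (hh : D.IsH χ h) :
    Rel D m χ (par D χ (wv D (co D m χ h))) :=
  Rel.cong (cong_of_co hD (par_graded hD _) hh.2.2 (funext (co_par_wv hD _)))
    ⟨fun P hP => by rw [hh.1 P hP]; exact zero_mem _,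
      fun P hP => by rw [hh.2.1 P hP]; exact zero_mem _⟩

omit [IsAlgClosed k] in
/-- coordinates which satisfy the equations modulo a nilpotent ideal lift -/
theorem lift (hD : D.Good) (hG : SHG D) (hp : IsNilpotent (p : A)) (hm : 1 ≤ m) (φ : A →+* A')
    (hφ : IsNilpotent (RingHom.ker φ)) (x : Ix D m → A)
    (hx : Rel D m (φ.comp χ) (par D (φ.comp χ) (wv D fun s => φ (x s)))) :
    ∃ h, D.IsH χ h ∧ ∀ s, φ (co D m χ h s) = φ (x s) := by
  have nil : ∀ M, 1 ≤ M → VNil ((Vm p A' M).comap (WittVector.map φ)) := fun M hM =>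
    (vnil_comap hp hφ).mono fun z hz => mem_Vm.1 (Ideal.mem_comap.1 hz) 0 hM
  have cl : ∀ M, VClosed (((Vm p A' M).comap (WittVector.map φ) : Ideal (WittVector p A)) :
      Set (WittVector p A)) := fun M z hz => by
    obtain ⟨a, ha, h1⟩ := hz M
    have h2 := (Vm p A' M).add_mem (map_mem_Vm φ h1) (Ideal.mem_comap.1 ha)
    rwa [← map_add, sub_add_cancel] at h2
  rw [← wv_map, ← hmap_par φ rfl] at hx
  obtain ⟨h, h1, h2, h3, -⟩ := hG A χ (par D χ (wv D x)) _ _ ⊤ (nil (m + 1) (by omega))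
    (nil m hm) (cl _) (cl _) (fun _ => trivial) (par_graded hD _) (fun _ _ => mem_WS_top _)
    (fun _ _ => mem_WS_top _)
    (fun P hP => Ideal.mem_comap.2 (by rw [eval_hmap φ rfl]; exact hx.1 P hP))
    (fun P hP => Ideal.mem_comap.2 (by rw [eval_hmap φ rfl]; exact hx.2 P hP))
  have hc : Cong m (hmap φ h) (hmap φ (par D χ (wv D x))) :=
    ⟨fun i j => by simpa [hmap] using Ideal.mem_comap.1 (h2 i j),
      fun i j => by simpa [hmap] using Ideal.mem_comap.1 (h3 i j)⟩
  refine ⟨h, h1, fun s => ?_⟩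
  rw [← co_hmap φ rfl, co_eq hc, co_hmap φ rfl, co_par_wv hD]

omit [Fintype n] [DecidableEq n] [IsAlgClosed k] [CharP k p] in
theorem alg_comp {R : Type} [CommRing R] [Algebra R A] [Algebra R A'] (ψ : A →ₐ[R] A')
    (χ : WittVector p k →+* R) :
    ψ.toRingHom.comp ((algebraMap R A).comp χ) = (algebraMap R A').comp χ :=
  RingHom.ext fun o => ψ.commutes (χ o)

omit [DecidableEq n] [IsAlgClosed k] in
/-- the equations are represented by a finitely presented algebra -/
theorem repr {R : Type} [CommRing R] (χ : WittVector p k →+* R) (m : ℕ) :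
    ∃ (B : Type) (_ : CommRing B) (_ : Algebra R B) (x₀ : Ix D m → B),
      Algebra.FinitePresentation R B ∧
      Rel D m ((algebraMap R B).comp χ) (par D ((algebraMap R B).comp χ) (wv D x₀)) ∧
      (∀ (A : Type) [CommRing A] [Algebra R A] (b b' : B →ₐ[R] A),
        (∀ s, b (x₀ s) = b' (x₀ s)) → b = b') ∧
      ∀ (A : Type) [CommRing A] [Algebra R A] (x : Ix D m → A),
        Rel D m ((algebraMap R A).comp χ) (par D ((algebraMap R A).comp χ) (wv D x)) →
        ∃ b : B →ₐ[R] A, ∀ s, b (x₀ s) = x s := by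
  obtain ⟨t, ht⟩ : D.I.FG := IsNoetherian.noetherian _
  let A₀ := MvPolynomial (Ix D m) R
  let χ₀ := (algebraMap R A₀).comp χ
  let y : HP p n A₀ := par D χ₀ (wv D X)
  let f₁ : t × Fin (m + 1) → A₀ := fun u =>
    (eval₂ (D.zeta χ₀) (fun ij => y.1 ij.1 ij.2) u.1.1).coeff u.2
  let f₂ : t × Fin m → A₀ := fun u =>
    (eval₂ (D.zeta χ₀) (fun ij => y.2 ij.1 ij.2) u.1.1).coeff u.2
  let 𝔟 : Ideal A₀ := Ideal.span (Set.range f₁ ∪ Set.range f₂)
  have key : ∀ (A : Type) [CommRing A] [Algebra R A] (ψ : A₀ →ₐ[R] A),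
      Rel D m ((algebraMap R A).comp χ) (par D ((algebraMap R A).comp χ) (wv D fun s => ψ (X s)))
        ↔ ∀ a ∈ 𝔟, ψ a = 0 := by
    intro A _ _ ψ
    have e := alg_comp ψ χ
    have e1 : par D ((algebraMap R A).comp χ) (wv D fun s => ψ (X s)) = hmap ψ.toRingHom y := by
      rw [hmap_par _ e, wv_map]; rfl
    have e2 : ∀ (M : ℕ) (x : Matrix n n (WittVector p A₀)),
        (∀ P ∈ D.I, eval₂ (D.zeta ((algebraMap R A).comp χ))
          (fun ij => (x.map (WittVector.map ψ.toRingHom)) ij.1 ij.2) P ∈ Vm p A M) ↔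
        ∀ u : t × Fin M, ψ ((eval₂ (D.zeta χ₀) (fun ij => x ij.1 ij.2) u.1.1).coeff u.2) = 0 := by
      intro M x
      constructor
      · intro h u
        have h1 := h u.1.1 (ht ▸ Ideal.subset_span u.1.2)
        rw [← eval_hmap _ e] at h1
        exact mem_Vm.1 h1 _ u.2.2
      · intro h
        have h1 : D.I ≤ (Vm p A M).comap (eval₂Hom (D.zeta ((algebraMap R A).comp χ))
            fun ij => (x.map (WittVector.map ψ.toRingHom)) ij.1 ij.2) := by
          rw [← ht]
          refine Ideal.span_le.2 fun P hP => Ideal.mem_comap.2 ?_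
          rw [coe_eval₂Hom, ← eval_hmap _ e]
          exact mem_Vm.2 fun l hl => h (⟨P, hP⟩, ⟨l, hl⟩)
        exact fun P hP => h1 hP
    rw [e1]
    refine ((e2 _ y.1).and (e2 _ y.2)).trans ⟨fun h a ha => ?_, fun h =>
      ⟨fun u => h _ (Ideal.subset_span (Or.inl ⟨u, rfl⟩)),
        fun u => h _ (Ideal.subset_span (Or.inr ⟨u, rfl⟩))⟩⟩
    have h1 : 𝔟 ≤ RingHom.ker ψ := Ideal.span_le.2 (by
      rintro _ (⟨u, rfl⟩ | ⟨u, rfl⟩)
      · exact h.1 u
      · exact h.2 u)
    exact h1 ha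
  refine ⟨A₀ ⧸ 𝔟, inferInstance, inferInstance, fun s => Ideal.Quotient.mkₐ R 𝔟 (X s),
    Algebra.FinitePresentation.quotient
      (Submodule.fg_span ((Set.finite_range _).union (Set.finite_range _))),
    (key _ (Ideal.Quotient.mkₐ R 𝔟)).2 fun a ha => Ideal.Quotient.eq_zero_iff_mem.2 ha,
    fun A _ _ b b' h => Ideal.Quotient.algHom_ext R (MvPolynomial.algHom_ext h),
    fun A _ _ x hx => ?_⟩
  refine ⟨Ideal.Quotient.liftₐ 𝔟 (aeval x) ((key A (aeval x)).1 ?_), fun s => aeval_X x s⟩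
  simpa only [A₀, aeval_X] using hx

end RTrunc

open RTrunc in
omit [IsAlgClosed k] in
theorem rTrunc (hD : D.Good) (h : SHG D) : STrunc D := by
  intro R _ χ hp m hm
  obtain ⟨B, _, _, x₀, fp, r₀, ext, ex⟩ := RTrunc.repr (D := D) χ m
  have rb : ∀ (A : Type) [CommRing A] [Algebra R A] (b : B →ₐ[R] A),
      Rel D m ((algebraMap R A).comp χ)
        (par D ((algebraMap R A).comp χ) (wv D fun s => b (x₀ s))) := fun A _ _ b => by
    have := r₀.map b.toRingHom (alg_comp b χ)
    rwa [hmap_par _ (alg_comp b χ), wv_map] at this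
  have etr : ∀ (A : Type) [CommRing A] [Algebra R A] (g : HP p n A), ∃ b : B →ₐ[R] A,
      D.IsH ((algebraMap R A).comp χ) g → ∀ s, b (x₀ s) = co D m ((algebraMap R A).comp χ) g s := by
    intro A _ _ g
    by_cases hg : D.IsH ((algebraMap R A).comp χ) g
    · exact (ex A _ (rel_co hD hg)).imp fun _ hb _ => hb
    · exact (ex A _ (rel_co hD (hD.isH_one _))).imp fun _ _ hg' => absurd hg' hg
  choose tr htr using etr
  have fs : Algebra.FormallySmooth R B := by
    refine .of_comp_surjective fun C _ _ J hJ g => ?_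
    choose x hx using fun s => Ideal.Quotient.mk_surjective (I := J) (g (x₀ s))
    obtain ⟨u, u1, u2⟩ := lift (χ := (algebraMap R C).comp χ) hD h
      (isNilpotent_p_map (algebraMap R C) hp) hm (Ideal.Quotient.mk J)
      ⟨2, by rw [Ideal.mk_ker]; exact hJ⟩ x (by simp only [hx]; exact rb _ g)
    refine ⟨tr C u, ext _ _ _ fun s => ?_⟩
    rw [AlgHom.comp_apply, htr C u u1, ← hx]
    exact u2 s
  refine ⟨B, inferInstance, inferInstance, ⟨fs, fp⟩, tr, fun A A' _ _ _ _ ψ g hg => ?_,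
    fun A _ _ b => ?_, fun A _ _ g g' hg hg' => ⟨fun e => ?_, fun e => ?_⟩⟩
  · refine ext _ _ _ fun s => ?_
    rw [AlgHom.comp_apply, htr A g hg, htr A' _ (hg.map _ (alg_comp ψ χ)),
      co_hmap _ (alg_comp ψ χ)]
    rfl
  · obtain ⟨u, u1, u2⟩ := lift (χ := (algebraMap R A).comp χ) hD h
      (isNilpotent_p_map (algebraMap R A) hp) hm (RingHom.id A)
      ⟨1, by rw [pow_one]; exact (RingHom.injective_iff_ker_eq_bot _).1 fun _ _ e => e⟩
      (fun s => b (x₀ s)) (rb A b)
    exact ⟨u, u1, ext _ _ _ fun s => (htr A u u1 s).trans (u2 s)⟩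
  · refine cong_of_co hD hg.2.2 hg'.2.2 (funext fun s => ?_)
    rw [← htr A g hg, ← htr A g' hg', e]
  · refine ext _ _ _ fun s => ?_
    rw [htr A g hg, htr A g' hg', co_eq e]

end

end Pool.Agent.MP_dc2c90_ag.H20
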