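import Pool.Agent.MP_dc2c90_ag.H20.Fin
import Pool.Agent.MP_dc2c90_ag.H20.RHens
import Pool.Agent.MP_dc2c90_ag.H20.RProj
import Pool.Agent.MP_dc2c90_ag.H20.RHN
import Pool.Agent.MP_dc2c90_ag.H20.RHG
import Pool.Agent.MP_dc2c90_ag.H20.RDD
import Pool.Agent.MP_dc2c90_ag.H20.RPhi
import Pool.Agent.MP_dc2c90_ag.H20.RSlopeB
import Pool.Agent.MP_dc2c90_ag.H20.RAdNil
import Pool.Agent.MP_dc2c90_ag.H20.RContr
import Pool.Agent.MP_dc2c90_ag.H20.RLift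
import Pool.Agent.MP_dc2c90_ag.H20.RLin
import Pool.Agent.MP_dc2c90_ag.H20.RF
import Pool.Agent.MP_dc2c90_ag.H20.RAppT
import Pool.Agent.MP_dc2c90_ag.H20.RE1
import Pool.Agent.MP_dc2c90_ag.H20.RE2
import Pool.Agent.MP_dc2c90_ag.H20.REss
import Pool.Agent.MP_dc2c90_ag.H20.RFull
import Pool.Agent.MP_dc2c90_ag.H20.RSheaf
import Pool.Agent.MP_dc2c90_ag.H20.RTrunc
import Pool.Agent.MP_dc2c90_ag.H20.RStep
import Pool.Agent.MP_dc2c90_ag.H20.RLim
import Pool.Agent.MP_dc2c90_ag.H20.RA1a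
import Pool.Agent.MP_dc2c90_ag.H20.RA1b
import Pool.Agent.MP_dc2c90_ag.H20.RCoreS
import Pool.Agent.MP_dc2c90_ag.H20.RCoreI

/-!
All steps, unconditionally.
-/

namespace Pool.Agent.MP_dc2c90_ag.H20

noncomputable section

variable {p : ℕ} [Fact p.Prime] {n : Type} [Fintype n] [DecidableEq n] {k : Type} [Field k]
  [IsAlgClosed k] [CharP k p] {D : Data p k n}

theorem Data.Good.exists_proj (hD : D.Good) : ∃ π, IsProj D.I π := by
  obtain ⟨Q, hQ⟩ := rNewt ℤ_[p] (n × n) D.I hD.smooth.formallySmooth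
  exact rProj p n D.I Q hQ (hD.one_mem _ _)

theorem Data.Good.adNil (hD : D.Good) {π : Matrix (n × n) (n × n) ℤ_[p]} (hπ : IsProj D.I π) :
    SAdNil D π :=
  rAdNil hD hπ (rDD hD hπ) (rPhi hD hπ (rDD hD hπ))
    (rSlopeB hD hπ (rDD hD hπ) (rPhi hD hπ (rDD hD hπ)))

theorem Data.Good.sLift (hD : D.Good) : SLift D := by
  obtain ⟨π, hπ⟩ := hD.exists_proj
  exact rLift hD hπ (rDD hD hπ) (rHG hD)

theorem Data.Good.sF (hD : D.Good) : SF D := by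
  obtain ⟨π, hπ⟩ := hD.exists_proj
  exact rF hD (rAppH hD (rHG hD)) (hD.adNil hπ) (rACong hD) (rLin hD hπ (rDD hD hπ))

theorem Data.Good.sE1 (hD : D.Good) : SE1 D := by
  obtain ⟨π, hπ⟩ := hD.exists_proj
  exact rE1 hD (rAppT hD) (rAppG hD) (hD.adNil hπ) (rContr hD hπ (rPhi hD hπ (rDD hD hπ)))
    (rInt hD) hD.sLift (rPhi hD hπ (rDD hD hπ))

theorem Data.Good.sE2 (hD : D.Good) : SE2 D := by
  obtain ⟨π, hπ⟩ := hD.exists_proj
  exact rE2 hD (rAppG hD) (hD.adNil hπ) (rACong hD) hD.sLift (rLin hD hπ (rDD hD hπ))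

theorem Data.Good.sEss (hD : D.Good) : SEss D := rEss hD hD.sE1 hD.sE2

theorem Data.Good.sFull (hD : D.Good) : SFull D := rFull hD hD.sE1 hD.sE2 hD.sF

theorem Data.Good.sFaith (hD : D.Good) : SFaith D := rFaith hD hD.sE1 hD.sE2 hD.sF

theorem Data.Good.sLim (hD : D.Good) : SLim D := by
  obtain ⟨π, hπ⟩ := hD.exists_proj
  exact rLim hD (rStep hD hπ (rDD hD hπ) (rHG hD) (rLead hD hπ (rDD hD hπ)))

theorem Data.Good.sA1a (hD : D.Good) : SA1a D := rA1a hD (rTrunc hD (rHG hD)) hD.sLim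

theorem Data.Good.sA1b (hD : D.Good) : SA1b D := rA1b hD rSheaf

theorem Data.Good.sCoreS (hD : D.Good) : SCoreS D := rCoreS hD hD.sEss hD.sFull hD.sFaith

theorem Data.Good.sCoreI (hD : D.Good) : SCoreI D :=
  rCoreI hD (rNorm hD rSheaf) hD.sFull hD.sFaith

end

end Pool.Agent.MP_dc2c90_ag.H20
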