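import Pool.Agent.MP_dc2c90_ag.H20.SpecA

/-!
Basic facts on Witt vectors: iterates of `F` and `V`, the ideals `V^m W`, subrings `W(B)`.
-/

namespace Pool.Agent.MP_dc2c90_ag.H20

open WittVector

noncomputable section

variable {p : ℕ} [Fact p.Prime] {R R' : Type} [CommRing R] [CommRing R']

/-- `F^l`. -/
abbrev Fi (p : ℕ) [Fact p.Prime] (R : Type) [CommRing R] (l : ℕ) :
    WittVector p R →+* WittVector p R :=
  (WittVector.frobenius : WittVector p R →+* WittVector p R) ^ l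

/-- `V^m`. -/
def Vi (p : ℕ) [Fact p.Prime] (R : Type) [CommRing R] : ℕ → (WittVector p R →+ WittVector p R)
  | 0 => AddMonoidHom.id _
  | m + 1 => WittVector.verschiebung.comp (Vi p R m)

/-- The ideal `V^m W(R)`. -/
def Vm (p : ℕ) [Fact p.Prime] (R : Type) [CommRing R] (m : ℕ) : Ideal (WittVector p R) :=
  RingHom.ker (WittVector.truncate (p := p) (R := R) m)

/-- `W(B)` inside `W(R)`. -/
def WS (p : ℕ) [Fact p.Prime] {R : Type} [CommRing R] (B : Subring R) :
    Subring (WittVector p R) :=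
  (WittVector.map B.subtype).range

/-- Closed for the `V`-adic topology. -/
def VClosed (s : Set (WittVector p R)) : Prop :=
  ∀ z, (∀ m, ∃ a ∈ s, z - a ∈ Vm p R m) → z ∈ s

/-- Topologically nilpotent ideal. -/
def VNil (𝔞 : Ideal (WittVector p R)) : Prop := ∀ m, ∃ K, 𝔞 ^ K ≤ Vm p R m

theorem Fi_zero (x : WittVector p R) : Fi p R 0 x = x := rfl

theorem Fi_succ' (l : ℕ) (x : WittVector p R) : Fi p R (l + 1) x = Fi p R l (frobenius x) := by
  simp only [Fi, pow_succ]; rfl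

theorem Fi_succ (l : ℕ) (x : WittVector p R) : Fi p R (l + 1) x = frobenius (Fi p R l x) := by
  simp only [Fi, pow_succ']; rfl

theorem Fi_one (x : WittVector p R) : Fi p R 1 x = frobenius x := by
  simp only [Fi, pow_one]

theorem Fi_add (l l' : ℕ) (x : WittVector p R) : Fi p R (l + l') x = Fi p R l (Fi p R l' x) := by
  simp only [Fi, pow_add]; rfl

theorem Fi_eq_iterate (l : ℕ) (x : WittVector p R) : Fi p R l x = frobenius^[l] x := by
  simp only [Fi, RingHom.coe_pow]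

theorem Vi_zero (x : WittVector p R) : Vi p R 0 x = x := rfl

theorem Vi_succ (m : ℕ) (x : WittVector p R) : Vi p R (m + 1) x = verschiebung (Vi p R m x) := rfl

theorem Vi_one (x : WittVector p R) : Vi p R 1 x = verschiebung x := rfl

theorem Vi_eq_iterate (m : ℕ) (x : WittVector p R) : Vi p R m x = verschiebung^[m] x := by
  induction m with
  | zero => rfl
  | succ m ih => rw [Vi_succ, ih, Function.iterate_succ_apply']

theorem Vi_succ' (m : ℕ) (x : WittVector p R) : Vi p R (m + 1) x = Vi p R m (verschiebung x) := by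
  rw [Vi_eq_iterate, Vi_eq_iterate, Function.iterate_succ_apply]

theorem Vi_add (m l : ℕ) (x : WittVector p R) : Vi p R (m + l) x = Vi p R m (Vi p R l x) := by
  simp only [Vi_eq_iterate, Function.iterate_add_apply]

theorem Vi_injective (m : ℕ) : Function.Injective (Vi p R m) := by
  induction m with
  | zero => exact fun _ _ h => h
  | succ m ih => exact fun _ _ h => ih (WittVector.verschiebung_injective p R h)

theorem mul_Vi (m : ℕ) (a y : WittVector p R) : a * Vi p R m y = Vi p R m (Fi p R m a * y) := by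
  rw [Vi_eq_iterate, Vi_eq_iterate, Fi_eq_iterate, mul_comm, iterate_verschiebung_mul_left,
    mul_comm]

theorem Vi_mul (m : ℕ) (a y : WittVector p R) : Vi p R m y * a = Vi p R m (y * Fi p R m a) := by
  rw [mul_comm, mul_Vi, mul_comm]

theorem Vi_p_mul (m u : ℕ) (y : WittVector p R) :
    Vi p R m ((p : WittVector p R) ^ u * y) = (p : WittVector p R) ^ u * Vi p R m y := by
  rw [mul_Vi, map_pow, map_natCast]

theorem frob_Vi_succ (m : ℕ) (y : WittVector p R) :
    frobenius (Vi p R (m + 1) y) = Vi p R m ((p : WittVector p R) * y) := by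
  have := Vi_p_mul m 1 y
  rw [pow_one] at this
  rw [Vi_succ, frobenius_verschiebung, this, mul_comm]

theorem Fi_Vi_add (l m : ℕ) (y : WittVector p R) :
    Fi p R l (Vi p R (m + l) y) = Vi p R m ((p : WittVector p R) ^ l * y) := by
  induction l generalizing y with
  | zero => simp
  | succ l ih => rw [Fi_succ', ← add_assoc, frob_Vi_succ, ih, pow_succ, mul_assoc]

theorem Fi_Vi (m : ℕ) (y : WittVector p R) :
    Fi p R m (Vi p R m y) = (p : WittVector p R) ^ m * y := by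
  have := Fi_Vi_add m 0 y
  rwa [zero_add, Vi_zero] at this

theorem Vi_mul_Vi (m : ℕ) (x y : WittVector p R) :
    Vi p R m x * Vi p R m y = Vi p R m ((p : WittVector p R) ^ m * (x * y)) := by
  rw [mul_Vi, Fi_Vi, mul_assoc]

theorem map_frob (φ : R →+* R') (x : WittVector p R) :
    WittVector.map φ (frobenius x) = frobenius (WittVector.map φ x) := by
  ext l
  simp only [map_coeff, coeff_frobenius, MvPolynomial.aeval_def, MvPolynomial.eval₂_comp_left,
    algebraMap_int_eq]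
  congr 1
  exact RingHom.ext_int _ _

theorem map_Fi (φ : R →+* R') (l : ℕ) (x : WittVector p R) :
    WittVector.map φ (Fi p R l x) = Fi p R' l (WittVector.map φ x) := by
  induction l with
  | zero => rfl
  | succ l ih => rw [Fi_succ, Fi_succ, map_frob, ih]

theorem map_Vi (φ : R →+* R') (m : ℕ) (x : WittVector p R) :
    WittVector.map φ (Vi p R m x) = Vi p R' m (WittVector.map φ x) := by
  induction m with
  | zero => rfl
  | succ l ih => rw [Vi_succ, Vi_succ, map_verschiebung, ih]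

theorem map_map {R'' : Type} [CommRing R''] (φ : R →+* R') (ψ : R' →+* R'') (x : WittVector p R) :
    WittVector.map ψ (WittVector.map φ x) = WittVector.map (ψ.comp φ) x := by
  ext l; simp

theorem map_comp_map {R'' : Type} [CommRing R''] (φ : R →+* R') (ψ : R' →+* R'') :
    (WittVector.map (p := p) ψ).comp (WittVector.map φ) = WittVector.map (ψ.comp φ) :=
  RingHom.ext (map_map φ ψ)

theorem coeff_Vi (m l : ℕ) (y : WittVector p R) : (Vi p R m y).coeff (l + m) = y.coeff l := by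
  rw [Vi_eq_iterate, iterate_verschiebung_coeff]

theorem coeff_Vi_lt {m l : ℕ} (h : l < m) (y : WittVector p R) : (Vi p R m y).coeff l = 0 := by
  rw [Vi_eq_iterate, iterate_verschiebung_coeff_eq_zero _ h]

theorem mem_Vm {m : ℕ} {z : WittVector p R} : z ∈ Vm p R m ↔ ∀ l < m, z.coeff l = 0 :=
  mem_ker_truncate m z

theorem Vi_mem_Vm (m : ℕ) (y : WittVector p R) : Vi p R m y ∈ Vm p R m :=
  mem_Vm.2 fun _ h => coeff_Vi_lt h y

theorem mem_Vm_iff_Vi {m : ℕ} {z : WittVector p R} : z ∈ Vm p R m ↔ ∃ y, z = Vi p R m y := by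
  constructor
  · intro h
    exact ⟨z.shift m, by rw [Vi_eq_iterate]; exact eq_iterate_verschiebung (mem_Vm.1 h)⟩
  · rintro ⟨y, rfl⟩; exact Vi_mem_Vm m y

theorem Vm_anti {m m' : ℕ} (h : m ≤ m') : Vm p R m' ≤ Vm p R m :=
  fun _ hz => mem_Vm.2 fun l hl => mem_Vm.1 hz l (lt_of_lt_of_le hl h)

theorem mem_Vm_zero (z : WittVector p R) : z ∈ Vm p R 0 := mem_Vm.2 fun _ h => absurd h (by simp)

theorem sub_mem_Vm {m : ℕ} {z z' : WittVector p R} :
    z - z' ∈ Vm p R m ↔ ∀ l < m, z.coeff l = z'.coeff l := by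
  rw [mem_Vm, ← le_coeff_eq_iff_le_sub_coeff_eq_zero]

omit [Fact p.Prime] in
theorem coeff_init (m l : ℕ) (z : WittVector p R) :
    (init m z).coeff l = if l < m then z.coeff l else 0 := by
  simp [init, select]

theorem sub_init_mem_Vm (m : ℕ) (z : WittVector p R) : z - init m z ∈ Vm p R m :=
  sub_mem_Vm.2 fun l hl => by rw [coeff_init, if_pos hl]

theorem Vi_mem_Vm_add {m l : ℕ} {y : WittVector p R} :
    Vi p R m y ∈ Vm p R (m + l) ↔ y ∈ Vm p R l := by
  constructor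
  · intro h
    obtain ⟨z, hz⟩ := mem_Vm_iff_Vi.1 h
    rw [Vi_add] at hz
    exact mem_Vm_iff_Vi.2 ⟨z, Vi_injective m hz⟩
  · intro h
    obtain ⟨z, rfl⟩ := mem_Vm_iff_Vi.1 h
    rw [← Vi_add]; exact Vi_mem_Vm _ _

theorem V_mem_Vm {m : ℕ} {z : WittVector p R} (h : z ∈ Vm p R m) :
    verschiebung z ∈ Vm p R (m + 1) := by
  obtain ⟨y, rfl⟩ := mem_Vm_iff_Vi.1 h
  exact Vi_mem_Vm (m + 1) y

theorem Fi_mem_Vm {m l : ℕ} {z : WittVector p R} (h : z ∈ Vm p R (m + l)) :
    Fi p R l z ∈ Vm p R m := by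
  obtain ⟨y, rfl⟩ := mem_Vm_iff_Vi.1 h
  rw [Fi_Vi_add]; exact Vi_mem_Vm _ _

theorem frob_mem_Vm {m : ℕ} {z : WittVector p R} (h : z ∈ Vm p R (m + 1)) :
    frobenius z ∈ Vm p R m := by
  rw [← Fi_one]; exact Fi_mem_Vm h

theorem map_mem_Vm (φ : R →+* R') {m : ℕ} {z : WittVector p R} (h : z ∈ Vm p R m) :
    WittVector.map φ z ∈ Vm p R' m :=
  mem_Vm.2 fun l hl => by rw [map_coeff, mem_Vm.1 h l hl, map_zero]

theorem mem_Vm_one {z : WittVector p R} : z ∈ Vm p R 1 ↔ constantCoeff z = 0 := by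
  rw [mem_Vm]
  constructor
  · intro h; exact h 0 (by simp)
  · intro h l hl
    obtain rfl : l = 0 := by omega
    exact h

theorem Vm_sep (z : WittVector p R) (h : ∀ m, z ∈ Vm p R m) : z = 0 := by
  ext l
  rw [mem_Vm.1 (h (l + 1)) l (by simp), zero_coeff]

theorem Vm_complete (x : ℕ → WittVector p R)
    (h : ∀ m, ∃ K, ∀ l ≥ K, ∀ l' ≥ K, x l - x l' ∈ Vm p R m) :
    ∃ z, ∀ m, ∃ K, ∀ l ≥ K, x l - z ∈ Vm p R m := by
  choose K hK using h
  refine ⟨WittVector.mk p fun i => (x (K (i + 1))).coeff i, fun m => ?_⟩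
  refine ⟨(Finset.range (m + 1)).sup K, fun l hl => sub_mem_Vm.2 fun i hi => ?_⟩
  have h1 : K (i + 1) ≤ l :=
    le_trans (Finset.le_sup (f := K) (Finset.mem_range.2 (by omega))) hl
  rw [coeff_mk]
  exact sub_mem_Vm.1 (hK (i + 1) l h1 _ le_rfl) i (by simp)

theorem p_pow_mem_Vm_one {s : ℕ} (hs : (p : R) ^ s = 0) : (p : WittVector p R) ^ s ∈ Vm p R 1 := by
  rw [mem_Vm_one, map_pow, map_natCast, hs]

theorem p_pow_mul_mem_Vm {s : ℕ} (hs : (p : R) ^ s = 0) (m : ℕ) :
    (p : WittVector p R) ^ (s * m) ∈ Vm p R m := by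
  induction m with
  | zero => exact mem_Vm_zero _
  | succ m ih =>
    obtain ⟨y, hy⟩ := mem_Vm_iff_Vi.1 ih
    rw [mul_add, mul_one, pow_add, hy, mul_comm, ← Vi_p_mul]
    exact Vi_mem_Vm_add.2 (Ideal.mul_mem_right _ _ (p_pow_mem_Vm_one hs))

theorem p_pow_mem_Vm (h : IsNilpotent (p : R)) (m : ℕ) :
    ∃ K, (p : WittVector p R) ^ K ∈ Vm p R m := by
  obtain ⟨s, hs⟩ := h
  exact ⟨s * m, p_pow_mul_mem_Vm hs m⟩

theorem Vm_mul_Vm (m : ℕ) :
    Vm p R m * Vm p R m ≤ Ideal.span {(p : WittVector p R) ^ m} * Vm p R m := by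
  refine Ideal.mul_le.2 fun x hx y hy => ?_
  obtain ⟨x, rfl⟩ := mem_Vm_iff_Vi.1 hx
  obtain ⟨y, rfl⟩ := mem_Vm_iff_Vi.1 hy
  rw [Vi_mul_Vi, Vi_p_mul]
  exact Ideal.mul_mem_mul (Ideal.mem_span_singleton_self _) (Vi_mem_Vm _ _)

theorem Vm_one_pow_le (K : ℕ) :
    Vm p R 1 ^ (K + 1) ≤ Ideal.span {(p : WittVector p R) ^ K} * Vm p R 1 := by
  induction K with
  | zero => simp
  | succ K ih =>
    calc Vm p R 1 ^ (K + 1 + 1) = Vm p R 1 ^ (K + 1) * Vm p R 1 := pow_succ _ _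
      _ ≤ Ideal.span {(p : WittVector p R) ^ K} * Vm p R 1 * Vm p R 1 := Ideal.mul_mono_left ih
      _ = Ideal.span {(p : WittVector p R) ^ K} * (Vm p R 1 * Vm p R 1) := mul_assoc _ _ _
      _ ≤ Ideal.span {(p : WittVector p R) ^ K} *
          (Ideal.span {(p : WittVector p R) ^ 1} * Vm p R 1) :=
        Ideal.mul_mono_right (Vm_mul_Vm 1)
      _ = Ideal.span {(p : WittVector p R) ^ (K + 1)} * Vm p R 1 := by
        rw [← mul_assoc, Ideal.span_singleton_mul_span_singleton, ← pow_add]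

theorem VNil.mono {𝔞 𝔟 : Ideal (WittVector p R)} (h : VNil 𝔟) (hle : 𝔞 ≤ 𝔟) : VNil 𝔞 := fun m => by
  obtain ⟨K, hK⟩ := h m
  exact ⟨K, (Ideal.pow_right_mono hle K).trans hK⟩

theorem vnil_Vm_one (h : IsNilpotent (p : R)) : VNil (Vm p R 1) := fun m => by
  obtain ⟨K, hK⟩ := p_pow_mem_Vm h m
  refine ⟨K + 1, (Vm_one_pow_le K).trans (Ideal.mul_le_left.trans ?_)⟩
  rwa [Ideal.span_singleton_le_iff_mem]

theorem vnil_Vm (h : IsNilpotent (p : R)) {m : ℕ} (hm : 1 ≤ m) : VNil (Vm p R m) :=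
  (vnil_Vm_one h).mono (Vm_anti hm)

theorem vnil_comap (h : IsNilpotent (p : R)) {J : Ideal R} (hJ : IsNilpotent J) :
    VNil (J.comap (constantCoeff : WittVector p R →+* R)) := fun m => by
  obtain ⟨K, hK⟩ := vnil_Vm_one h m
  obtain ⟨N, hN⟩ := hJ
  refine ⟨N * K, ?_⟩
  rw [pow_mul]
  refine (Ideal.pow_right_mono ?_ K).trans hK
  refine (Ideal.le_comap_pow _ N).trans ?_
  intro z hz
  rw [hN, Ideal.mem_comap] at hz
  exact mem_Vm_one.2 (by simpa using hz)

theorem vclosed_Vm (m : ℕ) : VClosed (Vm p R m : Set (WittVector p R)) := fun z h => by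
  obtain ⟨a, ha, hz⟩ := h m
  have := (Vm p R m).add_mem hz ha
  rwa [sub_add_cancel] at this

theorem vclosed_ann (c : WittVector p R) : VClosed {z : WittVector p R | c * z = 0} := fun z h => by
  refine Vm_sep _ fun m => ?_
  obtain ⟨a, ha, hz⟩ := h m
  have h1 := Ideal.mul_mem_left _ c hz
  rwa [mul_sub, ha, sub_zero] at h1

theorem vclosed_zero : VClosed ((⊥ : Ideal (WittVector p R)) : Set (WittVector p R)) :=
  fun z h => by
    refine Vm_sep _ fun m => ?_
    obtain ⟨a, ha, hz⟩ := h m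
    rw [SetLike.mem_coe, Ideal.mem_bot] at ha
    rwa [ha, sub_zero] at hz

theorem VClosed.inter {s t : Set (WittVector p R)} (hs : VClosed s) (ht : VClosed t) :
    VClosed (s ∩ t) := fun z h =>
  ⟨hs z fun m => (h m).imp fun _ ha => ⟨ha.1.1, ha.2⟩,
    ht z fun m => (h m).imp fun _ ha => ⟨ha.1.2, ha.2⟩⟩

theorem vclosed_univ : VClosed (Set.univ : Set (WittVector p R)) := fun _ _ => trivial

/-- A set of Witt vectors given by conditions on each coordinate is closed. -/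
theorem vclosed_coeff (s : ℕ → Set R) : VClosed {z : WittVector p R | ∀ l, z.coeff l ∈ s l} :=
  fun z h l => by
    obtain ⟨a, ha, hz⟩ := h (l + 1)
    rw [sub_mem_Vm.1 hz l (by simp)]
    exact ha l

theorem mem_WS {B : Subring R} {z : WittVector p R} : z ∈ WS p B ↔ ∀ l, z.coeff l ∈ B := by
  constructor
  · rintro ⟨y, rfl⟩ l
    rw [map_coeff]; exact (y.coeff l).2
  · intro h
    exact ⟨WittVector.mk p fun l => ⟨z.coeff l, h l⟩, by ext l; simp⟩

theorem WS_mono {B B' : Subring R} (h : B ≤ B') : WS p B ≤ WS p B' :=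
  fun _ hz => mem_WS.2 fun l => h (mem_WS.1 hz l)

theorem mem_WS_top (z : WittVector p R) : z ∈ WS p (⊤ : Subring R) := mem_WS.2 fun _ => trivial

theorem vclosed_WS (B : Subring R) : VClosed (WS p B : Set (WittVector p R)) := fun z h =>
  mem_WS.2 (vclosed_coeff (fun _ => (B : Set R)) z fun m =>
    (h m).imp fun _ ha => ⟨mem_WS.1 ha.1, ha.2⟩)

theorem Vi_mem_WS {B : Subring R} {m : ℕ} {z : WittVector p R} :
    Vi p R m z ∈ WS p B ↔ z ∈ WS p B := by
  constructor
  · intro h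
    refine mem_WS.2 fun l => ?_
    rw [← coeff_Vi m l z]; exact mem_WS.1 h _
  · rintro ⟨y, rfl⟩
    exact ⟨Vi p B m y, map_Vi _ _ _⟩

theorem V_mem_WS {B : Subring R} {z : WittVector p R} :
    verschiebung z ∈ WS p B ↔ z ∈ WS p B := Vi_mem_WS (m := 1)

theorem Fi_mem_WS {B : Subring R} (l : ℕ) {z : WittVector p R} (h : z ∈ WS p B) :
    Fi p R l z ∈ WS p B := by
  obtain ⟨y, rfl⟩ := h
  exact ⟨Fi p B l y, map_Fi _ _ _⟩

theorem frob_mem_WS {B : Subring R} {z : WittVector p R} (h : z ∈ WS p B) :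
    frobenius z ∈ WS p B := by
  rw [← Fi_one]; exact Fi_mem_WS 1 h

theorem init_mem_WS {B : Subring R} {m : ℕ} {z : WittVector p R} (h : ∀ l < m, z.coeff l ∈ B) :
    init m z ∈ WS p B :=
  mem_WS.2 fun l => by
    rw [coeff_init]
    split_ifs with hl
    · exact h l hl
    · exact B.zero_mem

theorem map_mem_WS (φ : R →+* R') {B : Subring R} {B' : Subring R'} (hφ : ∀ r ∈ B, φ r ∈ B')
    {z : WittVector p R} (h : z ∈ WS p B) : WittVector.map φ z ∈ WS p B' :=
  mem_WS.2 fun l => by rw [map_coeff]; exact hφ _ (mem_WS.1 h l)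

/-- Divisibility by `p^u` descends to `W(B)` after a Frobenius twist. -/
theorem div_mem_WS {B : Subring R} {u : ℕ} {z Z : WittVector p R} (hz : z ∈ WS p B)
    (h : z - (p : WittVector p R) ^ u * Z ∈ Vm p R u) (hZ : ∀ l < u, Z.coeff l ∈ B) :
    ∃ Z' ∈ WS p B, Fi p R u z = (p : WittVector p R) ^ u * Z' := by
  have h1 : z - (p : WittVector p R) ^ u * init u Z ∈ Vm p R u := by
    have h2 := (Vm p R u).add_mem h (Ideal.mul_mem_left _ ((p : WittVector p R) ^ u)
      (sub_init_mem_Vm u Z))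
    convert h2 using 1; ring
  obtain ⟨y, hy⟩ := mem_Vm_iff_Vi.1 h1
  have hp : (p : WittVector p R) ^ u ∈ WS p B := pow_mem (natCast_mem _ p) u
  have hyB : y ∈ WS p B := by
    rw [← Vi_mem_WS (m := u), ← hy]
    exact sub_mem hz (mul_mem hp (init_mem_WS hZ))
  refine ⟨Fi p R u (init u Z) + y, add_mem (Fi_mem_WS u (init_mem_WS hZ)) hyB, ?_⟩
  have h3 := congrArg (Fi p R u) hy
  rw [map_sub, map_mul, map_pow, map_natCast, Fi_Vi] at h3
  rw [mul_add, ← h3]; ring

theorem p_adic_sep (h : IsNilpotent (p : R)) (y : WittVector p R)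
    (hy : ∀ K : ℕ, ∃ r, y = (p : WittVector p R) ^ K * r) : y = 0 := by
  refine Vm_sep _ fun m => ?_
  obtain ⟨K, hK⟩ := p_pow_mem_Vm h m
  obtain ⟨r, rfl⟩ := hy K
  exact Ideal.mul_mem_right _ _ hK

theorem p_adic_limit (h : IsNilpotent (p : R)) {B : Subring R} (z : ℕ → WittVector p R)
    (hz : ∀ l, z l ∈ WS p B) :
    ∃ y ∈ WS p B, ∀ m, ∃ K, ∀ l ≥ K,
      ∑ i ∈ Finset.range l, (p : WittVector p R) ^ i * z i - y ∈ Vm p R m := by
  have hc : ∀ m, ∃ K, ∀ l ≥ K, ∑ i ∈ Finset.range l, (p : WittVector p R) ^ i * z i -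
      ∑ i ∈ Finset.range K, (p : WittVector p R) ^ i * z i ∈ Vm p R m := fun m => by
    obtain ⟨K, hK⟩ := p_pow_mem_Vm h m
    refine ⟨K, fun l hl => ?_⟩
    rw [← Finset.sum_Ico_eq_sub _ hl]
    refine Ideal.sum_mem _ fun i hi => Ideal.mul_mem_right _ _ ?_
    obtain ⟨d, rfl⟩ := Nat.exists_eq_add_of_le (Finset.mem_Ico.1 hi).1
    rw [pow_add]; exact Ideal.mul_mem_right _ _ hK
  obtain ⟨y, hy⟩ := Vm_complete (fun l => ∑ i ∈ Finset.range l, (p : WittVector p R) ^ i * z i)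
    fun m => by
      obtain ⟨K, hK⟩ := hc m
      refine ⟨K, fun l hl l' hl' => ?_⟩
      have := (Vm p R m).sub_mem (hK l hl) (hK l' hl')
      rwa [sub_sub_sub_cancel_right] at this
  refine ⟨y, vclosed_WS B y fun m => ?_, hy⟩
  obtain ⟨K, hK⟩ := hy m
  refine ⟨∑ i ∈ Finset.range K, (p : WittVector p R) ^ i * z i,
    sum_mem fun i _ => mul_mem (pow_mem (natCast_mem _ p) i) (hz i), ?_⟩
  have := (Vm p R m).neg_mem (hK K le_rfl)
  rwa [neg_sub] at this

theorem p_adic_series (h : IsNilpotent (p : R)) {B : Subring R} (z : ℕ → WittVector p R)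
    (hz : ∀ l, z l ∈ WS p B) :
    ∃ y, ∀ K : ℕ, ∃ r ∈ WS p B,
      y = ∑ i ∈ Finset.range K, (p : WittVector p R) ^ i * z i + (p : WittVector p R) ^ K * r := by
  obtain ⟨y, -, hy⟩ := p_adic_limit h z hz
  refine ⟨y, fun K => ?_⟩
  obtain ⟨r, hr, hr'⟩ := p_adic_limit h (fun i => z (K + i)) fun i => hz _
  refine ⟨r, hr, ?_⟩
  rw [← sub_eq_zero]
  refine Vm_sep _ fun m => ?_
  obtain ⟨K₁, h₁⟩ := hy m
  obtain ⟨K₂, h₂⟩ := hr' m
  have e₁ := h₁ (K + (K₁ + K₂)) (by omega)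
  have e₂ := Ideal.mul_mem_left _ ((p : WittVector p R) ^ K) (h₂ (K₁ + K₂) (by omega))
  rw [Finset.sum_range_add] at e₁
  rw [mul_sub, Finset.mul_sum] at e₂
  have e₃ := (Vm p R m).sub_mem e₂ e₁
  simp only [pow_add, mul_assoc] at e₃
  convert e₃ using 1; ring

end

end Pool.Agent.MP_dc2c90_ag.H20
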