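import Pool.Agent.MP_dc2c90_ag.H20.B1

/-!
Basic facts on `W(R)[1/p]`, points of `G`, the Lie algebra.
-/

namespace Pool.Agent.MP_dc2c90_ag.H20

open WittVector

noncomputable section

variable {p : ℕ} [Fact p.Prime] {R R' R'' : Type} [CommRing R] [CommRing R'] [CommRing R'']

/-- `f^l` on `W(R)[1/p]`. -/
abbrev fTi (p : ℕ) [Fact p.Prime] (R : Type) [CommRing R] (l : ℕ) : T p R →+* T p R :=
  fT p R ^ l

/-- `W(B)[1/p]` inside `W(R)[1/p]`. -/
def TS (p : ℕ) [Fact p.Prime] {R : Type} [CommRing R] (B : Subring R) : Subring (T p R) :=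
  (locMap (WittVector.map (p := p) B.subtype)).range

theorem locMap_toT (φ : WittVector p R →+* WittVector p R') (x : WittVector p R) :
    locMap φ (toT p R x) = toT p R' (φ x) :=
  IsLocalization.Away.lift_eq _ _ x

theorem locMap_comp_toT (φ : WittVector p R →+* WittVector p R') :
    (locMap φ).comp (toT p R) = (toT p R').comp φ :=
  RingHom.ext (locMap_toT φ)

theorem T_hom_ext {A : Type} [CommRing A] {φ ψ : T p R →+* A}
    (h : ∀ x, φ (toT p R x) = ψ (toT p R x)) : φ = ψ :=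
  IsLocalization.ringHom_ext (Submonoid.powers (p : WittVector p R)) (RingHom.ext h)

theorem locMap_comp (φ : WittVector p R →+* WittVector p R')
    (ψ : WittVector p R' →+* WittVector p R'') :
    (locMap ψ).comp (locMap φ) = locMap (ψ.comp φ) :=
  T_hom_ext fun x => by simp only [RingHom.comp_apply, locMap_toT]

theorem locMap_id : locMap (RingHom.id (WittVector p R)) = RingHom.id (T p R) :=
  T_hom_ext fun x => by simp only [RingHom.id_apply, locMap_toT]

theorem pU_val : ((pU p R : (T p R)ˣ) : T p R) = p := rfl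

theorem map_pU_zpow (φ : T p R →+* T p R') (z : ℤ) :
    φ ((pU p R ^ z : (T p R)ˣ) : T p R) = ((pU p R' ^ z : (T p R')ˣ) : T p R') := by
  have h : Units.map (φ : T p R →* T p R') (pU p R) = pU p R' :=
    Units.ext (by simp [pU_val])
  rw [← h, ← map_zpow]; rfl

theorem p_pow_cancel {u : ℕ} {a b : T p R} (h : (p : T p R) ^ u * a = (p : T p R) ^ u * b) :
    a = b :=
  ((isUnit_p p R).pow u).mul_left_cancel h

theorem p_pow_smul_cancel {m m' : Type} {u : ℕ} {a b : Matrix m m' (T p R)}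
    (h : (p : T p R) ^ u • a = (p : T p R) ^ u • b) : a = b := by
  ext i j
  exact p_pow_cancel (by simpa using congrFun (congrFun h i) j)

theorem exists_rep (z : T p R) : ∃ (N : ℕ) (x : WittVector p R), (p : T p R) ^ N * z = toT p R x := by
  obtain ⟨⟨x, _, N, rfl⟩, h⟩ := IsLocalization.surj (Submonoid.powers (p : WittVector p R)) z
  refine ⟨N, x, ?_⟩
  simpa [mul_comm] using h

theorem toT_eq_zero_iff {x : WittVector p R} :
    toT p R x = 0 ↔ ∃ u : ℕ, (p : WittVector p R) ^ u * x = 0 := by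
  rw [IsLocalization.map_eq_zero_iff (Submonoid.powers (p : WittVector p R))]
  constructor
  · rintro ⟨⟨_, u, rfl⟩, h⟩; exact ⟨u, h⟩
  · rintro ⟨u, h⟩; exact ⟨⟨_, u, rfl⟩, h⟩

theorem toT_eq_iff {x y : WittVector p R} :
    toT p R x = toT p R y ↔
      ∃ u : ℕ, (p : WittVector p R) ^ u * x = (p : WittVector p R) ^ u * y := by
  rw [← sub_eq_zero, ← map_sub, toT_eq_zero_iff]
  simp only [mul_sub, sub_eq_zero]

/-- A uniform exponent for finitely many monotone conditions. -/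
theorem exists_uniform {ι : Type} [Finite ι] {P : ι → ℕ → Prop}
    (hmono : ∀ i a b, a ≤ b → P i a → P i b) (h : ∀ i, ∃ a, P i a) : ∃ a, ∀ i, P i a := by
  choose a ha using h
  obtain ⟨N, hN⟩ := (Set.finite_range a).bddAbove
  exact ⟨N, fun i => hmono i _ _ (hN ⟨i, rfl⟩) (ha i)⟩

theorem exists_rep_matrix {m m' : Type} [Finite m] [Finite m'] (g : Matrix m m' (T p R)) :
    ∃ (N : ℕ) (x : Matrix m m' (WittVector p R)), (p : T p R) ^ N • g = x.map (toT p R) := by
  obtain ⟨N, hN⟩ := exists_uniform (ι := m × m')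
    (P := fun ij N => ∃ x, (p : T p R) ^ N * g ij.1 ij.2 = toT p R x)
    (fun ij a b hab ⟨x, hx⟩ => by
      obtain ⟨d, rfl⟩ := Nat.exists_eq_add_of_le hab
      exact ⟨(p : WittVector p R) ^ d * x, by
        rw [map_mul, map_pow, map_natCast, ← hx]; ring⟩)
    fun ij => exists_rep _
  choose x hx using hN
  exact ⟨N, Matrix.of fun i j => x (i, j), by ext i j; exact hx (i, j)⟩

theorem map_toT_eq_iff {m m' : Type} [Finite m] [Finite m'] {x y : Matrix m m' (WittVector p R)} :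
    x.map (toT p R) = y.map (toT p R) ↔
      ∃ u : ℕ, (p : WittVector p R) ^ u • x = (p : WittVector p R) ^ u • y := by
  constructor
  · intro h
    obtain ⟨N, hN⟩ := exists_uniform (ι := m × m')
      (P := fun ij N => (p : WittVector p R) ^ N * x ij.1 ij.2 =
        (p : WittVector p R) ^ N * y ij.1 ij.2)
      (fun ij a b hab hx => by
        obtain ⟨d, rfl⟩ := Nat.exists_eq_add_of_le hab
        rw [add_comm, pow_add, mul_assoc, hx, mul_assoc])
      fun ij => toT_eq_iff.1 (congrFun (congrFun h ij.1) ij.2)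
    exact ⟨N, by ext1 i j; exact hN (i, j)⟩
  · rintro ⟨u, h⟩
    ext1 i j
    exact toT_eq_iff.2 ⟨u, congrFun (congrFun h i) j⟩

theorem fT_toT (x : WittVector p R) : fT p R (toT p R x) = toT p R (frobenius x) :=
  locMap_toT _ x

theorem fT_comp_toT : (fT p R).comp (toT p R) = (toT p R).comp frobenius := RingHom.ext fT_toT

theorem fTi_zero (x : T p R) : fTi p R 0 x = x := rfl

theorem fTi_one (x : T p R) : fTi p R 1 x = fT p R x := by simp only [fTi, pow_one]

theorem fTi_succ (l : ℕ) (x : T p R) : fTi p R (l + 1) x = fT p R (fTi p R l x) := by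
  simp only [fTi, pow_succ']; rfl

theorem fTi_succ' (l : ℕ) (x : T p R) : fTi p R (l + 1) x = fTi p R l (fT p R x) := by
  simp only [fTi, pow_succ]; rfl

theorem fTi_add (l l' : ℕ) (x : T p R) : fTi p R (l + l') x = fTi p R l (fTi p R l' x) := by
  simp only [fTi, pow_add]; rfl

theorem fTi_toT (l : ℕ) (x : WittVector p R) : fTi p R l (toT p R x) = toT p R (Fi p R l x) := by
  induction l with
  | zero => rfl
  | succ l ih => rw [fTi_succ, ih, fT_toT, Fi_succ]

theorem fTi_comp_toT (l : ℕ) : (fTi p R l).comp (toT p R) = (toT p R).comp (Fi p R l) :=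
  RingHom.ext (fTi_toT l)

theorem locMap_injective {φ : WittVector p R →+* WittVector p R'}
    (h : ∀ x, toT p R' (φ x) = 0 → toT p R x = 0) : Function.Injective (locMap φ) := by
  rw [injective_iff_map_eq_zero]
  intro z hz
  obtain ⟨N, x, hx⟩ := exists_rep z
  have h1 : toT p R x = 0 := h x (by rw [← locMap_toT, ← hx, map_mul, hz, mul_zero])
  exact p_pow_cancel (u := N) (by rw [hx, h1, mul_zero])

theorem mapT_injective {φ : R →+* R'} (h : Function.Injective φ) :
    Function.Injective (locMap (WittVector.map (p := p) φ)) :=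
  locMap_injective fun x hx => by
    obtain ⟨u, hu⟩ := toT_eq_zero_iff.1 hx
    refine toT_eq_zero_iff.2 ⟨u, WittVector.map_injective φ h ?_⟩
    rw [map_mul, map_pow, map_natCast, hu, map_zero]

theorem mapT_fT (φ : R →+* R') (z : T p R) :
    locMap (WittVector.map φ) (fT p R z) = fT p R' (locMap (WittVector.map φ) z) := by
  have : (locMap (WittVector.map (p := p) φ)).comp (fT p R) =
      (fT p R').comp (locMap (WittVector.map φ)) :=
    T_hom_ext fun x => by simp only [RingHom.comp_apply, fT_toT, locMap_toT, map_frob]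
  exact RingHom.congr_fun this z

theorem mapT_fTi (φ : R →+* R') (l : ℕ) (z : T p R) :
    locMap (WittVector.map φ) (fTi p R l z) = fTi p R' l (locMap (WittVector.map φ) z) := by
  induction l with
  | zero => rfl
  | succ l ih => rw [fTi_succ, fTi_succ, mapT_fT, ih]

theorem mem_TS {B : Subring R} {z : T p R} :
    z ∈ TS p B ↔ ∃ (u : ℕ) (x : WittVector p R), x ∈ WS p B ∧ (p : T p R) ^ u * z = toT p R x := by
  constructor
  · rintro ⟨y, rfl⟩
    obtain ⟨N, x, hx⟩ := exists_rep y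
    refine ⟨N, WittVector.map B.subtype x, ⟨x, rfl⟩, ?_⟩
    rw [← locMap_toT, ← hx, map_mul, map_pow, map_natCast]
  · rintro ⟨u, _, ⟨x, rfl⟩, h⟩
    refine ⟨((pU p B ^ (-(u : ℤ)) : (T p B)ˣ) : T p B) * toT p B x, ?_⟩
    rw [map_mul, map_pU_zpow, locMap_toT, ← h, ← mul_assoc, ← pU_val, ← Units.val_pow_eq_pow_val,
      ← Units.val_mul, zpow_neg, zpow_natCast, inv_mul_cancel, Units.val_one, one_mul]

theorem toT_mem_TS {B : Subring R} {x : WittVector p R} (h : x ∈ WS p B) : toT p R x ∈ TS p B :=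
  mem_TS.2 ⟨0, x, h, by simp⟩

theorem pU_zpow_mem_TS (B : Subring R) (z : ℤ) : ((pU p R ^ z : (T p R)ˣ) : T p R) ∈ TS p B :=
  ⟨_, map_pU_zpow _ z⟩

theorem fT_mem_TS {B : Subring R} {z : T p R} (h : z ∈ TS p B) : fT p R z ∈ TS p B := by
  obtain ⟨y, rfl⟩ := h
  exact ⟨fT p B y, mapT_fT _ _⟩

theorem fTi_mem_TS {B : Subring R} (l : ℕ) {z : T p R} (h : z ∈ TS p B) :
    fTi p R l z ∈ TS p B := by
  obtain ⟨y, rfl⟩ := h
  exact ⟨fTi p B l y, mapT_fTi _ _ _⟩

theorem TS_mono {B B' : Subring R} (h : B ≤ B') : TS p B ≤ TS p B' := fun _ hz => by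
  obtain ⟨u, x, hx, hu⟩ := mem_TS.1 hz
  exact mem_TS.2 ⟨u, x, WS_mono h hx, hu⟩

theorem exists_pow_mul_mem_WS {B : Subring R} {x : WittVector p R} (h : toT p R x ∈ TS p B) :
    ∃ u : ℕ, (p : WittVector p R) ^ u * x ∈ WS p B := by
  obtain ⟨u, y, hy, hu⟩ := mem_TS.1 h
  have h1 : toT p R ((p : WittVector p R) ^ u * x) = toT p R y := by
    rw [map_mul, map_pow, map_natCast, hu]
  obtain ⟨v, hv⟩ := toT_eq_iff.1 h1
  refine ⟨v + u, ?_⟩
  rw [pow_add, mul_assoc, hv]
  exact mul_mem (pow_mem (natCast_mem _ p) v) hy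

theorem exists_pow_mul_mem_WS_matrix {m m' : Type} [Finite m] [Finite m'] {B : Subring R}
    {x : Matrix m m' (WittVector p R)} (h : ∀ i j, toT p R (x i j) ∈ TS p B) :
    ∃ u : ℕ, ∀ i j, (p : WittVector p R) ^ u * x i j ∈ WS p B := by
  obtain ⟨N, hN⟩ := exists_uniform (ι := m × m')
    (P := fun ij N => (p : WittVector p R) ^ N * x ij.1 ij.2 ∈ WS p B)
    (fun ij a b hab hx => by
      obtain ⟨d, rfl⟩ := Nat.exists_eq_add_of_le hab
      rw [add_comm, pow_add, mul_assoc]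
      exact mul_mem (pow_mem (natCast_mem _ p) d) hx)
    fun ij => exists_pow_mul_mem_WS (h ij.1 ij.2)
  exact ⟨N, fun i j => hN (i, j)⟩

theorem p_pow_mul_eq_zero_of_frob {s : ℕ} (hs : (p : R) ^ s = 0) {x : WittVector p R}
    (hx : frobenius x = 0) : (p : WittVector p R) ^ s * x = 0 := by
  obtain ⟨y, hy⟩ := mem_Vm_iff_Vi.1 (p_pow_mem_Vm_one hs)
  rw [hy, Vi_mul, Fi_one, hx, mul_zero, map_zero]

theorem fT_injective (h : IsNilpotent (p : R)) : Function.Injective (fT p R) :=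
  locMap_injective fun x hx => by
    obtain ⟨s, hs⟩ := h
    obtain ⟨u, hu⟩ := toT_eq_zero_iff.1 hx
    refine toT_eq_zero_iff.2 ⟨s + u, ?_⟩
    rw [pow_add, mul_assoc]
    exact p_pow_mul_eq_zero_of_frob hs (by rw [map_mul, map_pow, map_natCast, hu])

theorem fTi_injective (h : IsNilpotent (p : R)) (l : ℕ) : Function.Injective (fTi p R l) := by
  induction l with
  | zero => exact fun _ _ h => h
  | succ l ih =>
    intro a b hab
    rw [fTi_succ, fTi_succ] at hab
    exact ih (fT_injective h hab)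

omit [Fact p.Prime] in
theorem isNilpotent_p_map (φ : R →+* R') (h : IsNilpotent (p : R)) : IsNilpotent (p : R') := by
  simpa using h.map φ

section Points

variable {n : Type} [Fintype n] [DecidableEq n] {I : Ideal (MvPolynomial (n × n) ℤ_[p])}
  {S S' : Type} [CommRing S] [CommRing S']

omit [Fintype n] [DecidableEq n] in
theorem map_eval₂_matrix (φ : S →+* S') (ζ : ℤ_[p] →+* S) (g : Matrix n n S)
    (P : MvPolynomial (n × n) ℤ_[p]) :
    φ (MvPolynomial.eval₂ ζ (fun ij => g ij.1 ij.2) P) =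
      MvPolynomial.eval₂ (φ.comp ζ) (fun ij => (g.map φ) ij.1 ij.2) P := by
  rw [MvPolynomial.eval₂_comp_left]; rfl

omit [Fintype n] [DecidableEq n] in
theorem Pt.map {ζ : ℤ_[p] →+* S} {g : Matrix n n S} (h : Pt I ζ g) (φ : S →+* S')
    {ζ' : ℤ_[p] →+* S'} (hζ : φ.comp ζ = ζ') : Pt I ζ' (g.map φ) := fun P hP => by
  rw [← hζ, ← map_eval₂_matrix, h P hP, map_zero]

omit [Fintype n] [DecidableEq n] in
theorem Pt.of_map {ζ : ℤ_[p] →+* S} {g : Matrix n n S} {φ : S →+* S'}
    (hφ : Function.Injective φ) {ζ' : ℤ_[p] →+* S'} (hζ : φ.comp ζ = ζ')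
    (h : Pt I ζ' (g.map φ)) : Pt I ζ g := fun P hP =>
  hφ (by rw [map_eval₂_matrix, hζ, h P hP, map_zero])

/-- The map of dual numbers induced by a ring map. -/
def dualMap (φ : S →+* S') : TrivSqZeroExt S S →+* TrivSqZeroExt S' S' where
  toFun x := TrivSqZeroExt.inl (φ x.fst) + TrivSqZeroExt.inr (φ x.snd)
  map_one' := by ext <;> simp
  map_zero' := by ext <;> simp
  map_add' x y := by ext <;> simp
  map_mul' x y := by ext <;> simp

theorem dualMap_injective {φ : S →+* S'} (h : Function.Injective φ) :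
    Function.Injective (dualMap φ) := fun x y hxy => by
  have h1 := congrArg TrivSqZeroExt.fst hxy
  have h2 := congrArg TrivSqZeroExt.snd hxy
  simp only [dualMap, RingHom.coe_mk, MonoidHom.coe_mk, OneHom.coe_mk, TrivSqZeroExt.fst_add,
    TrivSqZeroExt.fst_inl, TrivSqZeroExt.fst_inr, add_zero, TrivSqZeroExt.snd_add,
    TrivSqZeroExt.snd_inl, TrivSqZeroExt.snd_inr, zero_add] at h1 h2
  exact TrivSqZeroExt.ext (h h1) (h h2)

omit [Fintype n] in
theorem dualMap_matrix (φ : S →+* S') (x : Matrix n n S) :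
    (Matrix.of fun i j => (TrivSqZeroExt.inl ((1 : Matrix n n S) i j) + TrivSqZeroExt.inr (x i j) :
      TrivSqZeroExt S S)).map (dualMap φ) =
    Matrix.of fun i j => TrivSqZeroExt.inl ((1 : Matrix n n S') i j) +
      TrivSqZeroExt.inr ((x.map φ) i j) := by
  ext i j <;> by_cases hij : i = j <;> simp [dualMap, Matrix.one_apply, hij]

theorem dualMap_comp_inl (φ : S →+* S') (ζ : ℤ_[p] →+* S) :
    (dualMap φ).comp ((TrivSqZeroExt.inlHom S S).comp ζ) =
      (TrivSqZeroExt.inlHom S' S').comp (φ.comp ζ) := by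
  ext x <;> simp [dualMap]

omit [Fintype n] in
theorem IsLie.map {ζ : ℤ_[p] →+* S} {x : Matrix n n S} (h : IsLie I ζ x) (φ : S →+* S')
    {ζ' : ℤ_[p] →+* S'} (hζ : φ.comp ζ = ζ') : IsLie I ζ' (x.map φ) := by
  have := Pt.map h (dualMap φ) (dualMap_comp_inl φ ζ)
  rwa [dualMap_matrix, hζ] at this

omit [Fintype n] in
theorem IsLie.of_map {ζ : ℤ_[p] →+* S} {x : Matrix n n S} {φ : S →+* S'}
    (hφ : Function.Injective φ) {ζ' : ℤ_[p] →+* S'} (hζ : φ.comp ζ = ζ')
    (h : IsLie I ζ' (x.map φ)) : IsLie I ζ x := by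
  refine Pt.of_map (dualMap_injective hφ) (dualMap_comp_inl φ ζ) ?_
  rw [dualMap_matrix, hζ]; exact h

theorem map_inv_of_isUnit (φ : S →+* S') {g : Matrix n n S} (hg : IsUnit g) :
    g⁻¹.map φ = (g.map φ)⁻¹ := by
  symm
  apply Matrix.inv_eq_right_inv
  rw [← Matrix.map_mul, Matrix.mul_nonsing_inv _ ((Matrix.isUnit_iff_isUnit_det g).1 hg),
    Matrix.map_one _ (map_zero φ) (map_one φ)]

variable {k : Type} [Field k] [CharP k p] {D : Data p k n}

theorem Data.Good.isUnit (hD : D.Good) {ζ : ℤ_[p] →+* S} {g : Matrix n n S} (h : Pt D.I ζ g) :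
    IsUnit g := by
  obtain ⟨g', -, hg⟩ := hD.inv_mem S ζ g h
  exact IsUnit.of_mul_eq_one g' hg

theorem Data.Good.mul_inv (hD : D.Good) {ζ : ℤ_[p] →+* S} {g : Matrix n n S} (h : Pt D.I ζ g) :
    g * g⁻¹ = 1 :=
  Matrix.mul_nonsing_inv _ ((Matrix.isUnit_iff_isUnit_det g).1 (hD.isUnit h))

theorem Data.Good.inv_mul (hD : D.Good) {ζ : ℤ_[p] →+* S} {g : Matrix n n S} (h : Pt D.I ζ g) :
    g⁻¹ * g = 1 :=
  Matrix.nonsing_inv_mul _ ((Matrix.isUnit_iff_isUnit_det g).1 (hD.isUnit h))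

theorem Data.Good.pt_inv (hD : D.Good) {ζ : ℤ_[p] →+* S} {g : Matrix n n S} (h : Pt D.I ζ g) :
    Pt D.I ζ g⁻¹ := by
  obtain ⟨g', h', hg⟩ := hD.inv_mem S ζ g h
  rwa [Matrix.inv_eq_right_inv hg]

theorem Data.Good.pt_mul (hD : D.Good) {ζ : ℤ_[p] →+* S} {g g' : Matrix n n S} (h : Pt D.I ζ g)
    (h' : Pt D.I ζ g') : Pt D.I ζ (g * g') := hD.mul_mem S ζ g g' h h'

theorem Data.Good.pt_one (hD : D.Good) (ζ : ℤ_[p] →+* S) : Pt D.I ζ (1 : Matrix n n S) :=
  hD.one_mem S ζ

theorem Data.Good.c'_mul (hD : D.Good) : D.c' * D.c = 1 := mul_eq_one_comm.1 hD.c_mul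

theorem Data.Good.c_mul_map (hD : D.Good) (κ : WittVector p k →+* S) :
    D.c.map κ * D.c'.map κ = 1 := by
  rw [← Matrix.map_mul, hD.c_mul, Matrix.map_one _ (map_zero κ) (map_one κ)]

theorem Data.Good.c'_mul_map (hD : D.Good) (κ : WittVector p k →+* S) :
    D.c'.map κ * D.c.map κ = 1 := by
  rw [← Matrix.map_mul, hD.c'_mul, Matrix.map_one _ (map_zero κ) (map_one κ)]

/-- The inverse of a point with entries in a subring has entries in the subring. -/
theorem Data.Good.inv_mem_subring (hD : D.Good) {ζ : ℤ_[p] →+* S} {g : Matrix n n S}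
    (h : Pt D.I ζ g) (B : Subring S) (hζ : ∀ x, ζ x ∈ B) (hg : ∀ i j, g i j ∈ B) :
    ∀ i j, g⁻¹ i j ∈ B := by
  let g₀ : Matrix n n B := Matrix.of fun i j => ⟨g i j, hg i j⟩
  have h₀ : g₀.map B.subtype = g := by ext i j; rfl
  have h₁ : Pt D.I (ζ.codRestrict B hζ) g₀ :=
    Pt.of_map (φ := B.subtype) Subtype.val_injective (ζ' := ζ) (by ext; rfl) (h₀ ▸ h)
  intro i j
  rw [← h₀, ← map_inv_of_isUnit _ (hD.isUnit h₁)]
  exact (g₀⁻¹ i j).2

/-- The adjoint action preserves the Lie algebra. -/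
theorem Data.Good.isLie_conj (hD : D.Good) {ζ : ℤ_[p] →+* S} {g x : Matrix n n S}
    (hg : Pt D.I ζ g) (hx : IsLie D.I ζ x) : IsLie D.I ζ (g * x * g⁻¹) := by
  have h1 := Pt.map hg (TrivSqZeroExt.inlHom S S) rfl
  have h2 := Pt.map (hD.pt_inv hg) (TrivSqZeroExt.inlHom S S) rfl
  have h3 := hD.pt_mul (hD.pt_mul h1 hx) h2
  unfold IsLie
  convert h3 using 1
  have hgi := hD.mul_inv hg
  ext i j
  · have := congrFun (congrFun hgi i) j
    simp only [Matrix.mul_apply, Matrix.one_apply] at this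
    simp [Matrix.mul_apply, TrivSqZeroExt.fst_sum, Matrix.one_apply, this]
  · simp [Matrix.mul_apply, TrivSqZeroExt.snd_sum, TrivSqZeroExt.fst_sum]

end Points

end

end Pool.Agent.MP_dc2c90_ag.H20
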