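import Pool.Agent.MP_dc2c90_ag.H20.B2

/-!
Matrix calculus (`app`, `adM`, `twProd`), the graded Witt ring, functoriality of `X` and `H`.
-/

namespace Pool.Agent.MP_dc2c90_ag.H20

open WittVector

noncomputable section

section Matrices

variable {S S' n d : Type} [CommRing S] [CommRing S'] [Fintype n] [DecidableEq n] [Fintype d]
  [DecidableEq d]

omit [DecidableEq n] in
theorem app_apply (A : Matrix (n × n) (n × n) S) (x : Matrix n n S) (i j : n) :
    app A x i j = ∑ kl : n × n, A (i, j) kl * x kl.1 kl.2 := rfl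

omit [DecidableEq n] in
theorem app_mul (A A' : Matrix (n × n) (n × n) S) (x : Matrix n n S) :
    app (A * A') x = app A (app A' x) := by
  ext i j
  simp only [app_apply, Matrix.mul_apply, Finset.sum_mul, Finset.mul_sum, mul_assoc]
  exact Finset.sum_comm

theorem app_one (x : Matrix n n S) : app (1 : Matrix (n × n) (n × n) S) x = x := by
  ext i j
  simp [app_apply, Matrix.one_apply]

omit [DecidableEq n] in
theorem app_adM (U U' x : Matrix n n S) : app (adM U U') x = U * x * U' := by
  ext i j
  simp only [app_apply, adM, Matrix.of_apply, Matrix.mul_apply, Finset.sum_mul,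
    Fintype.sum_prod_type]
  rw [Finset.sum_comm]
  refine Finset.sum_congr rfl fun _ _ => Finset.sum_congr rfl fun _ _ => by ring

omit [DecidableEq n] in
theorem app_add (A : Matrix (n × n) (n × n) S) (x y : Matrix n n S) :
    app A (x + y) = app A x + app A y := by
  ext i j; simp [app_apply, mul_add, Finset.sum_add_distrib]

omit [DecidableEq n] in
theorem app_sub (A : Matrix (n × n) (n × n) S) (x y : Matrix n n S) :
    app A (x - y) = app A x - app A y := by
  ext i j; simp [app_apply, mul_sub, Finset.sum_sub_distrib]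

omit [DecidableEq n] in
theorem app_smul (A : Matrix (n × n) (n × n) S) (c : S) (x : Matrix n n S) :
    app A (c • x) = c • app A x := by
  ext i j; simp [app_apply, Finset.mul_sum, mul_left_comm]

omit [DecidableEq n] in
theorem smul_app (A : Matrix (n × n) (n × n) S) (c : S) (x : Matrix n n S) :
    app (c • A) x = c • app A x := by
  ext i j; simp [app_apply, Finset.mul_sum, mul_assoc]

omit [DecidableEq n] in
theorem add_app (A A' : Matrix (n × n) (n × n) S) (x : Matrix n n S) :
    app (A + A') x = app A x + app A' x := by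
  ext i j; simp [app_apply, add_mul, Finset.sum_add_distrib]

omit [DecidableEq n] in
theorem app_map (φ : S →+* S') (A : Matrix (n × n) (n × n) S) (x : Matrix n n S) :
    (app A x).map φ = app (A.map φ) (x.map φ) := by
  ext i j; simp [app_apply]

theorem app_single (A : Matrix (n × n) (n × n) S) (kl : n × n) (i j : n) :
    app A (Matrix.single kl.1 kl.2 1) i j = A (i, j) kl := by
  rw [app_apply, Finset.sum_eq_single kl]
  · simp
  · intro b _ hb
    rw [Matrix.single_apply_of_ne, mul_zero]
    rintro ⟨h1, h2⟩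
    exact hb (Prod.ext h1.symm h2.symm)
  · simp

theorem app_ext {A A' : Matrix (n × n) (n × n) S} (h : ∀ x, app A x = app A' x) : A = A' := by
  ext ⟨i, j⟩ kl
  rw [← app_single A kl i j, ← app_single A' kl i j, h]

omit [DecidableEq n] in
theorem app_mem {B : Subring S} {A : Matrix (n × n) (n × n) S} {x : Matrix n n S}
    (hA : ∀ s t, A s t ∈ B) (hx : ∀ i j, x i j ∈ B) (i j : n) : app A x i j ∈ B :=
  sum_mem fun _ _ => mul_mem (hA _ _) (hx _ _)

omit [DecidableEq n] in
theorem app_mem_ideal {𝔞 : Ideal S} (A : Matrix (n × n) (n × n) S) {x : Matrix n n S}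
    (hx : ∀ i j, x i j ∈ 𝔞) (i j : n) : app A x i j ∈ 𝔞 :=
  Ideal.sum_mem _ fun _ _ => Ideal.mul_mem_left _ _ (hx _ _)

omit [Fintype n] [DecidableEq n] in
theorem adM_map (φ : S →+* S') (U U' : Matrix n n S) :
    (adM U U').map φ = adM (U.map φ) (U'.map φ) := by
  ext ij kl; simp [adM]

theorem adM_mul (U U' V V' : Matrix n n S) : adM U U' * adM V V' = adM (U * V) (V' * U') :=
  app_ext fun x => by simp only [app_mul, app_adM, Matrix.mul_assoc]

theorem adM_one : adM (1 : Matrix n n S) 1 = 1 :=
  app_ext fun x => by simp only [app_adM, app_one, Matrix.mul_one, Matrix.one_mul]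

omit [DecidableEq d] in
theorem mul_mem_matrix {B : Subring S} {x y : Matrix d d S} (hx : ∀ i j, x i j ∈ B)
    (hy : ∀ i j, y i j ∈ B) (i j : d) : (x * y) i j ∈ B := by
  rw [Matrix.mul_apply]
  exact sum_mem fun _ _ => mul_mem (hx _ _) (hy _ _)

omit [Fintype d] in
theorem one_mem_matrix (B : Subring S) (i j : d) : (1 : Matrix d d S) i j ∈ B := by
  rw [Matrix.one_apply]
  split_ifs
  · exact B.one_mem
  · exact B.zero_mem

omit [DecidableEq d] in
theorem mul_mem_ideal_left {𝔞 : Ideal S} (x : Matrix d d S) {y : Matrix d d S}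
    (hy : ∀ i j, y i j ∈ 𝔞) (i j : d) : (x * y) i j ∈ 𝔞 := by
  rw [Matrix.mul_apply]
  exact Ideal.sum_mem _ fun _ _ => Ideal.mul_mem_left _ _ (hy _ _)

omit [DecidableEq d] in
theorem mul_mem_ideal_right {𝔞 : Ideal S} {x : Matrix d d S} (y : Matrix d d S)
    (hx : ∀ i j, x i j ∈ 𝔞) (i j : d) : (x * y) i j ∈ 𝔞 := by
  rw [Matrix.mul_apply]
  exact Ideal.sum_mem _ fun _ _ => Ideal.mul_mem_right _ _ (hx _ _)

theorem twProd_zero (F : S →+* S) (A : Matrix d d S) : twProd F A 0 = 1 := rfl

theorem twProd_succ (F : S →+* S) (A : Matrix d d S) (i : ℕ) :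
    twProd F A (i + 1) = A * (twProd F A i).map F := rfl

theorem twProd_one (F : S →+* S) (A : Matrix d d S) : twProd F A 1 = A := by
  rw [twProd_succ, twProd_zero, Matrix.map_one _ (map_zero F) (map_one F), Matrix.mul_one]

theorem twProd_add (F : S →+* S) (A : Matrix d d S) (i j : ℕ) :
    twProd F A (i + j) = twProd F A i * (twProd F A j).map (F ^ i : S →+* S) := by
  induction i with
  | zero =>
    rw [zero_add, twProd_zero, Matrix.one_mul, pow_zero]
    ext; rfl
  | succ i ih =>
    rw [add_right_comm, twProd_succ, ih, twProd_succ, Matrix.map_mul, Matrix.mul_assoc,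
      Matrix.map_map, pow_succ']
    rfl

theorem twProd_succ' (F : S →+* S) (A : Matrix d d S) (i : ℕ) :
    twProd F A (i + 1) = twProd F A i * A.map (F ^ i : S →+* S) := by
  rw [twProd_add, twProd_one]

theorem twProd_map (φ : S →+* S') (F : S →+* S) (F' : S' →+* S') (h : ∀ x, φ (F x) = F' (φ x))
    (A : Matrix d d S) (i : ℕ) : (twProd F A i).map φ = twProd F' (A.map φ) i := by
  induction i with
  | zero => rw [twProd_zero, twProd_zero, Matrix.map_one _ (map_zero φ) (map_one φ)]
  | succ i ih =>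
    rw [twProd_succ, twProd_succ, Matrix.map_mul, ← ih]
    congr 1
    ext; exact h _

theorem twProd_mem {B : Subring S} {F : S →+* S} (hF : ∀ x ∈ B, F x ∈ B) {A : Matrix d d S}
    (hA : ∀ s t, A s t ∈ B) (i : ℕ) : ∀ s t, twProd F A i s t ∈ B := by
  induction i with
  | zero => exact one_mem_matrix B
  | succ i ih => exact mul_mem_matrix hA fun s t => hF _ (ih s t)

end Matrices

variable {p : ℕ} [Fact p.Prime] {R R' R'' : Type} [CommRing R] [CommRing R'] [CommRing R'']

section WittMatrices

variable {n : Type} [Fintype n]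

theorem mul_map_Vi (m : ℕ) (U Y : Matrix n n (WittVector p R)) :
    U * Y.map (Vi p R m) = (U.map (Fi p R m) * Y).map (Vi p R m) := by
  ext1 i j
  simp only [Matrix.mul_apply, Matrix.map_apply, map_sum, mul_Vi]

theorem map_Vi_mul (m : ℕ) (U Y : Matrix n n (WittVector p R)) :
    Y.map (Vi p R m) * U = (Y * U.map (Fi p R m)).map (Vi p R m) := by
  ext1 i j
  simp only [Matrix.mul_apply, Matrix.map_apply, map_sum, Vi_mul]

theorem app_map_Vi (m : ℕ) (A : Matrix (n × n) (n × n) (WittVector p R))
    (Y : Matrix n n (WittVector p R)) :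
    app A (Y.map (Vi p R m)) = (app (A.map (Fi p R m)) Y).map (Vi p R m) := by
  ext1 i j
  simp only [app_apply, Matrix.map_apply, map_sum, mul_Vi]

omit [Fintype n] in
theorem exists_map_Vi {m : ℕ} {a : Matrix n n (WittVector p R)} (h : ∀ i j, a i j ∈ Vm p R m) :
    ∃ Y : Matrix n n (WittVector p R), a = Y.map (Vi p R m) := by
  choose Y hY using fun i j => mem_Vm_iff_Vi.1 (h i j)
  exact ⟨Matrix.of Y, by ext1 i j; exact hY i j⟩

end WittMatrices

section Graded

theorem gr_of_pos {r : ℤ} (hr : 1 ≤ r) {a b : WittVector p R} :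
    Gr r a b ↔ a = (p : WittVector p R) ^ (r - 1).toNat * verschiebung b := by
  rw [Gr, if_pos hr]

theorem gr_of_nonpos {r : ℤ} (hr : r ≤ 0) {a b : WittVector p R} :
    Gr r a b ↔ b = (p : WittVector p R) ^ (-r).toNat * frobenius a := by
  rw [Gr, if_neg (by omega)]

theorem gr_zero_iff {a b : WittVector p R} : Gr 0 a b ↔ b = frobenius a := by
  rw [gr_of_nonpos le_rfl]; simp

theorem Gr.zero (r : ℤ) : Gr r (0 : WittVector p R) 0 := by
  unfold Gr; split_ifs <;> simp

theorem Gr.add {r : ℤ} {a b a' b' : WittVector p R} (h : Gr r a b) (h' : Gr r a' b') :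
    Gr r (a + a') (b + b') := by
  unfold Gr at *; split_ifs at * <;> rw [map_add, mul_add, ← h, ← h']

theorem Gr.neg {r : ℤ} {a b : WittVector p R} (h : Gr r a b) : Gr r (-a) (-b) := by
  unfold Gr at *; split_ifs at * <;> rw [map_neg, mul_neg, ← h]

theorem Gr.sub {r : ℤ} {a b a' b' : WittVector p R} (h : Gr r a b) (h' : Gr r a' b') :
    Gr r (a - a') (b - b') := by
  rw [sub_eq_add_neg, sub_eq_add_neg]; exact h.add h'.neg

theorem Gr.sum {ι : Type} {r : ℤ} (s : Finset ι) {a b : ι → WittVector p R}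
    (h : ∀ i ∈ s, Gr r (a i) (b i)) : Gr r (∑ i ∈ s, a i) (∑ i ∈ s, b i) := by
  classical
  induction s using Finset.induction_on with
  | empty => simpa using Gr.zero r
  | insert i s hi ih =>
    rw [Finset.sum_insert hi, Finset.sum_insert hi]
    exact (h i (Finset.mem_insert_self _ _)).add (ih fun j hj => h j (Finset.mem_insert_of_mem hj))

theorem Gr.mul_aux {r r' : ℤ} {a b a' b' : WittVector p R} (hr : 1 ≤ r) (hr' : r' ≤ 0)
    (h : Gr r a b) (h' : Gr r' a' b') : Gr (r + r') (a * a') (b * b') := by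
  rw [gr_of_pos hr] at h
  rw [gr_of_nonpos hr'] at h'
  subst h h'
  have hV : ∀ (u : ℕ) (y : WittVector p R),
      verschiebung ((p : WittVector p R) ^ u * y) = (p : WittVector p R) ^ u * verschiebung y :=
    fun u y => Vi_p_mul 1 u y
  by_cases hs : 1 ≤ r + r'
  · rw [gr_of_pos hs, mul_left_comm b, hV, verschiebung_mul_frobenius, ← mul_assoc, ← mul_assoc,
      ← pow_add]
    congr 3; omega
  · rw [gr_of_nonpos (by omega), map_mul, map_mul, map_pow, map_natCast, frobenius_verschiebung]
    have : (-r').toNat = (-(r + r')).toNat + (r - 1).toNat + 1 := by omega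
    rw [this]; ring

theorem Gr.mul {r r' : ℤ} {a b a' b' : WittVector p R} (h : Gr r a b) (h' : Gr r' a' b') :
    Gr (r + r') (a * a') (b * b') := by
  by_cases hr : 1 ≤ r <;> by_cases hr' : 1 ≤ r'
  · rw [gr_of_pos hr] at h
    rw [gr_of_pos hr'] at h'
    subst h h'
    have h1 := Vi_mul_Vi 1 b b'
    rw [Vi_p_mul, Vi_one, Vi_one, Vi_one] at h1
    have : (r + r' - 1).toNat = (r - 1).toNat + (r' - 1).toNat + 1 := by omega
    rw [gr_of_pos (by omega), this, mul_mul_mul_comm, h1]; ring
  · exact Gr.mul_aux hr (by omega) h h'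
  · rw [add_comm, mul_comm a, mul_comm b]; exact Gr.mul_aux hr' (by omega) h' h
  · rw [gr_of_nonpos (by omega)] at h h' ⊢
    have : (-(r + r')).toNat = (-r).toNat + (-r').toNat := by omega
    rw [h, h', this, map_mul]; ring

theorem Gr.map (φ : R →+* R') {r : ℤ} {a b : WittVector p R} (h : Gr r a b) :
    Gr r (WittVector.map φ a) (WittVector.map φ b) := by
  unfold Gr at *
  split_ifs at *
  · rw [h, map_mul, map_pow, map_natCast, map_verschiebung]
  · rw [h, map_mul, map_pow, map_natCast, map_frob]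

theorem Gr.of_map {φ : R →+* R'} (hφ : Function.Injective φ) {r : ℤ} {a b : WittVector p R}
    (h : Gr r (WittVector.map φ a) (WittVector.map φ b)) : Gr r a b := by
  unfold Gr at *
  split_ifs at *
  · exact WittVector.map_injective φ hφ
      (by rw [h, map_mul, map_pow, map_natCast, map_verschiebung])
  · exact WittVector.map_injective φ hφ (by rw [h, map_mul, map_pow, map_natCast, map_frob])

theorem Gr.closed {r : ℤ} {a b : WittVector p R}
    (h : ∀ m, ∃ a' b', Gr r a' b' ∧ a - a' ∈ Vm p R m ∧ b - b' ∈ Vm p R m) : Gr r a b := by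
  unfold Gr at *
  split_ifs at *
  · rw [← sub_eq_zero]
    refine Vm_sep _ fun m => ?_
    obtain ⟨a', b', h1, h2, h3⟩ := h m
    have h4 := (Vm p R m).sub_mem h2 (Ideal.mul_mem_left _ ((p : WittVector p R) ^ (r - 1).toNat)
      (Vm_anti (Nat.le_succ m) (V_mem_Vm h3)))
    rw [map_sub, h1] at h4
    convert h4 using 1; ring
  · rw [← sub_eq_zero]
    refine Vm_sep _ fun m => ?_
    obtain ⟨a', b', h1, h2, h3⟩ := h (m + 1)
    have h4 := (Vm p R m).sub_mem (Vm_anti (Nat.le_succ m) h3)
      (Ideal.mul_mem_left _ ((p : WittVector p R) ^ (-r).toNat) (frob_mem_Vm h2))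
    rw [map_sub, h1] at h4
    convert h4 using 1; ring

/-- In `W(R)[1/p]` the relation reads `p^r b = f(a)`. -/
theorem Gr.toT_eq {r : ℤ} {a b : WittVector p R} (h : Gr r a b) :
    fT p R (toT p R a) = ((pU p R ^ r : (T p R)ˣ) : T p R) * toT p R b := by
  rw [fT_toT]
  by_cases hr : 1 ≤ r
  · rw [gr_of_pos hr] at h
    obtain ⟨m, rfl⟩ : ∃ m : ℕ, r = m + 1 := ⟨(r - 1).toNat, by omega⟩
    have h1 : ((m : ℤ) + 1 - 1).toNat = m := by omega
    rw [h, h1, map_mul, map_pow, map_natCast, frobenius_verschiebung, zpow_add_one, zpow_natCast]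
    simp only [map_mul, map_pow, map_natCast, Units.val_mul, Units.val_pow_eq_pow_val, pU_val]
    ring
  · rw [gr_of_nonpos (by omega)] at h
    obtain ⟨m, rfl⟩ : ∃ m : ℕ, r = -m := ⟨(-r).toNat, by omega⟩
    have h1 : (- -(m : ℤ)).toNat = m := by omega
    rw [h, h1, map_mul, map_pow, map_natCast, ← mul_assoc, ← pU_val, ← Units.val_pow_eq_pow_val,
      ← Units.val_mul, zpow_neg, zpow_natCast, inv_mul_cancel, Units.val_one, one_mul]

end Graded

end

end Pool.Agent.MP_dc2c90_ag.H20
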