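import Pool.Agent.MP_dc2c90_ag.H20.B3

/-!
The structure maps `iota`, `zeta`, the elements `mu`, `b`, functoriality of `X`, `H`, `Act`.
-/

namespace Pool.Agent.MP_dc2c90_ag.H20

open WittVector

noncomputable section

variable {p : ℕ} [Fact p.Prime] {R R' R'' : Type} [CommRing R] [CommRing R'] [CommRing R'']
  {n : Type} [Fintype n] [DecidableEq n] {k : Type} [Field k] [CharP k p] {D : Data p k n}

theorem ghost_map (φ : R →+* R') (m : ℕ) (x : WittVector p R) :
    ghostComponent m (WittVector.map φ x) = φ (ghostComponent m x) := by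
  simp only [ghostComponent_apply, MvPolynomial.aeval_def, MvPolynomial.eval₂_comp_left,
    algebraMap_int_eq]
  congr 1
  exact RingHom.ext_int _ _

theorem toT_injective_field : Function.Injective (toT p k) := by
  rw [injective_iff_map_eq_zero]
  intro x hx
  obtain ⟨u, hu⟩ := toT_eq_zero_iff.1 hx
  exact (mul_eq_zero.1 hu).resolve_left (pow_ne_zero _ (WittVector.p_nonzero p k))

theorem ghost_ext_field {x y : WittVector p (WittVector p k)}
    (h : ∀ m, ghostComponent m x = ghostComponent m y) : x = y := by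
  let _ : Invertible (p : T p k) := (isUnit_p p k).invertible
  apply WittVector.map_injective (toT p k) toT_injective_field
  apply (ghostMap.bijective_of_invertible p (T p k)).1
  ext m
  rw [ghostMap_apply, ghostMap_apply, ghost_map, ghost_map, h]

theorem frob_zO (x : ℤ_[p]) : frobenius (zO p k x) = zO p k x := by
  simp only [zO, RingHom.comp_apply]
  rw [← map_frob, frobenius_zmodp]

theorem frob_comp_zO : (frobenius : WittVector p k →+* WittVector p k).comp (zO p k) = zO p k :=
  RingHom.ext frob_zO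

theorem Fi_zO (l : ℕ) (x : ℤ_[p]) : Fi p k l (zO p k x) = zO p k x := by
  induction l with
  | zero => rfl
  | succ l ih => rw [Fi_succ, ih, frob_zO]

omit [Fact p.Prime] in
theorem isNilpotent_p_field : IsNilpotent (p : k) := ⟨1, by simp⟩

namespace Data

omit [Fintype n] [DecidableEq n] [CharP k p] in
theorem map_comp_iota (φ : R →+* R') (χ : WittVector p k →+* R) :
    (WittVector.map φ).comp (D.iota χ) = D.iota (φ.comp χ) := by
  rw [iota, iota, ← RingHom.comp_assoc, map_comp_map]

omit [Fintype n] [DecidableEq n] [CharP k p] in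
theorem map_iota (φ : R →+* R') (χ : WittVector p k →+* R) (o : WittVector p k) :
    WittVector.map φ (D.iota χ o) = D.iota (φ.comp χ) o :=
  RingHom.congr_fun (map_comp_iota φ χ) o

omit [Fintype n] [DecidableEq n] in
theorem map_comp_zeta (φ : R →+* R') (χ : WittVector p k →+* R) :
    (WittVector.map φ).comp (D.zeta χ) = D.zeta (φ.comp χ) := by
  rw [zeta, zeta, ← RingHom.comp_assoc, map_comp_iota]

omit [Fintype n] [DecidableEq n] in
theorem mapT_comp_zeta (φ : R →+* R') (χ : WittVector p k →+* R) :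
    (locMap (WittVector.map φ)).comp ((toT p R).comp (D.zeta χ)) =
      (toT p R').comp (D.zeta (φ.comp χ)) := by
  rw [← RingHom.comp_assoc, locMap_comp_toT, RingHom.comp_assoc, map_comp_zeta]

omit [Fintype n] [DecidableEq n] [CharP k p] in
theorem iota_mem_WS {χ : WittVector p k →+* R} {B : Subring R} (hB : ∀ o, χ o ∈ B)
    (o : WittVector p k) : D.iota χ o ∈ WS p B :=
  mem_WS.2 fun _ => hB _

omit [Fintype n] [DecidableEq n] in
theorem zeta_mem_WS {χ : WittVector p k →+* R} {B : Subring R} (hB : ∀ o, χ o ∈ B) (x : ℤ_[p]) :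
    D.zeta χ x ∈ WS p B := iota_mem_WS hB _

theorem Good.frob_iota (hD : D.Good) (χ : WittVector p k →+* R) (o : WittVector p k) :
    frobenius (D.iota χ o) = D.iota χ (frobenius o) := by
  have h : frobenius (D.Δ o) = D.Δ (frobenius o) :=
    ghost_ext_field fun m => by
      rw [ghostComponent_frobenius, hD.ghost, hD.ghost, Function.iterate_succ_apply]
  simp only [iota, RingHom.comp_apply]
  rw [← map_frob, h]

theorem Good.Fi_iota (hD : D.Good) (χ : WittVector p k →+* R) (l : ℕ) (o : WittVector p k) :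
    Fi p R l (D.iota χ o) = D.iota χ (Fi p k l o) := by
  induction l with
  | zero => rfl
  | succ l ih => rw [Fi_succ, ih, hD.frob_iota, Fi_succ]

theorem Good.frob_comp_iota (hD : D.Good) (χ : WittVector p k →+* R) :
    (frobenius : WittVector p R →+* WittVector p R).comp (D.iota χ) = (D.iota χ).comp frobenius :=
  RingHom.ext (hD.frob_iota χ)

theorem Good.Fi_comp_iota (hD : D.Good) (χ : WittVector p k →+* R) (l : ℕ) :
    (Fi p R l).comp (D.iota χ) = (D.iota χ).comp (Fi p k l) :=
  RingHom.ext (hD.Fi_iota χ l)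

theorem Good.constantCoeff_iota (hD : D.Good) (χ : WittVector p k →+* R) (o : WittVector p k) :
    constantCoeff (D.iota χ o) = χ o := by
  have h := hD.ghost 0 o
  rw [ghostComponent_apply, wittPolynomial_zero, MvPolynomial.aeval_X] at h
  simp only [iota, RingHom.comp_apply, constantCoeff_apply, map_coeff, h]
  rfl

theorem Good.Fi_comp_zeta (hD : D.Good) (χ : WittVector p k →+* R) (l : ℕ) :
    (Fi p R l).comp (D.zeta χ) = D.zeta χ :=
  RingHom.ext fun x => by
    simp only [zeta, RingHom.comp_apply]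
    rw [hD.Fi_iota, Fi_zO]

theorem Good.frob_comp_zeta (hD : D.Good) (χ : WittVector p k →+* R) :
    (frobenius : WittVector p R →+* WittVector p R).comp (D.zeta χ) = D.zeta χ := by
  have := hD.Fi_comp_zeta χ 1
  rwa [Fi, pow_one] at this

theorem Good.fTi_comp_zeta (hD : D.Good) (χ : WittVector p k →+* R) (l : ℕ) :
    (fTi p R l).comp ((toT p R).comp (D.zeta χ)) = (toT p R).comp (D.zeta χ) := by
  rw [← RingHom.comp_assoc, fTi_comp_toT, RingHom.comp_assoc, hD.Fi_comp_zeta]

theorem Good.fT_comp_zeta (hD : D.Good) (χ : WittVector p k →+* R) :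
    (fT p R).comp ((toT p R).comp (D.zeta χ)) = (toT p R).comp (D.zeta χ) := by
  rw [← RingHom.comp_assoc, fT_comp_toT, RingHom.comp_assoc, hD.frob_comp_zeta]

omit [CharP k p] in
theorem mu_map (κ : WittVector p k →+* WittVector p R) (ψ : WittVector p R →+* WittVector p R') :
    (D.mu κ).map (locMap ψ) = D.mu (ψ.comp κ) := by
  have h : ∀ x : Matrix n n (WittVector p k),
      (x.map ((toT p R).comp (κ.comp frobenius))).map (locMap ψ) =
        x.map ((toT p R').comp ((ψ.comp κ).comp frobenius)) := fun x => by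
    ext1 i j; exact locMap_toT _ _
  rw [mu, mu, Matrix.map_mul, Matrix.map_mul, h, h, Matrix.diagonal_map (map_zero _)]
  simp only [map_pU_zpow]

omit [CharP k p] in
theorem b_map (κ : WittVector p k →+* WittVector p R) (ψ : WittVector p R →+* WittVector p R') :
    (D.b κ).map (locMap ψ) = D.b (ψ.comp κ) := by
  have h : ∀ x : Matrix n n (WittVector p k),
      (x.map ((toT p R).comp κ)).map (locMap ψ) = x.map ((toT p R').comp (ψ.comp κ)) := fun x => by
    ext1 i j; exact locMap_toT _ _
  rw [b, b, Matrix.map_mul, Matrix.map_mul, h, h, mu_map]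

theorem Good.mu_pt (hD : D.Good) (κ : WittVector p k →+* WittVector p R) :
    Pt D.I ((toT p R).comp (κ.comp (zO p k))) (D.mu κ) := by
  have h := hD.cochar (T p R) ((toT p R).comp (κ.comp frobenius)) (pU p R)
  rwa [RingHom.comp_assoc, RingHom.comp_assoc, frob_comp_zO] at h

theorem Good.b_pt (hD : D.Good) (κ : WittVector p k →+* WittVector p R) :
    Pt D.I ((toT p R).comp (κ.comp (zO p k))) (D.b κ) :=
  hD.pt_mul (hD.pt_mul (hD.u₁_mem.map _ (RingHom.comp_assoc _ _ _)) (hD.mu_pt κ))
    (hD.u₂_mem.map _ (RingHom.comp_assoc _ _ _))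

theorem Good.mu_inv (hD : D.Good) (κ : WittVector p k →+* WittVector p R) :
    (D.mu κ)⁻¹ = D.c.map ((toT p R).comp (κ.comp frobenius)) *
      Matrix.diagonal (fun i => ((pU p R ^ (-D.w i) : (T p R)ˣ) : T p R)) *
      D.c'.map ((toT p R).comp (κ.comp frobenius)) := by
  apply Matrix.inv_eq_right_inv
  rw [mu]
  simp only [Matrix.mul_assoc]
  rw [← Matrix.mul_assoc (D.c'.map _), hD.c'_mul_map, Matrix.one_mul,
    ← Matrix.mul_assoc (Matrix.diagonal _), Matrix.diagonal_mul_diagonal]
  simp only [← Units.val_mul, zpow_neg, mul_inv_cancel, Units.val_one, Matrix.diagonal_one,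
    Matrix.one_mul]
  exact hD.c_mul_map _

omit [CharP k p] in
theorem mu_mem_TS {χ : WittVector p k →+* R} {B : Subring R} (hB : ∀ o, χ o ∈ B) (i j : n) :
    D.mu (D.iota χ) i j ∈ TS p B := by
  refine mul_mem_matrix (mul_mem_matrix (fun i j => toT_mem_TS (iota_mem_WS hB _)) fun i j => ?_)
    (fun i j => toT_mem_TS (iota_mem_WS hB _)) i j
  rw [Matrix.diagonal_apply]
  split_ifs
  · exact pU_zpow_mem_TS B _
  · exact zero_mem _

omit [CharP k p] in
theorem b_mem_TS {χ : WittVector p k →+* R} {B : Subring R} (hB : ∀ o, χ o ∈ B) (i j : n) :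
    D.b (D.iota χ) i j ∈ TS p B :=
  mul_mem_matrix (mul_mem_matrix (fun _ _ => toT_mem_TS (iota_mem_WS hB _)) (mu_mem_TS hB))
    (fun _ _ => toT_mem_TS (iota_mem_WS hB _)) i j

end Data

omit [Fintype n] [DecidableEq n] in
theorem xmap_xmap (φ : R →+* R') (ψ : R' →+* R'') (x : XP p n R) :
    xmap ψ (xmap φ x) = xmap (ψ.comp φ) x := by
  refine Prod.ext ?_ ?_
  · ext1 i j; exact map_map _ _ _
  · ext1 i j
    change ((locMap _).comp (locMap _)) _ = _
    rw [locMap_comp, map_comp_map]; rfl

omit [Fintype n] [DecidableEq n] in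
theorem xmap_id (x : XP p n R) : xmap (RingHom.id R) x = x := by
  refine Prod.ext ?_ ?_
  · ext1 i j; simp [xmap]
  · ext1 i j; simp [xmap, locMap_id]

omit [Fintype n] [DecidableEq n] in
theorem hmap_hmap (φ : R →+* R') (ψ : R' →+* R'') (h : HP p n R) :
    hmap ψ (hmap φ h) = hmap (ψ.comp φ) h := by
  refine Prod.ext ?_ ?_ <;> ext1 i j <;> exact map_map _ _ _

omit [Fintype n] [DecidableEq n] in
theorem hmap_id (h : HP p n R) : hmap (RingHom.id R) h = h := by
  refine Prod.ext ?_ ?_ <;> ext1 i j <;> simp [hmap]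

omit [DecidableEq n] in
theorem hmap_mul (φ : R →+* R') (h h' : HP p n R) : hmap φ (h * h') = hmap φ h * hmap φ h' :=
  Prod.ext Matrix.map_mul Matrix.map_mul

omit [Fintype n] in
theorem hmap_one (φ : R →+* R') : hmap φ (1 : HP p n R) = 1 :=
  Prod.ext (Matrix.map_one _ (map_zero _) (map_one _)) (Matrix.map_one _ (map_zero _) (map_one _))

omit [Fintype n] [DecidableEq n] in
theorem hmap_injective {φ : R →+* R'} (hφ : Function.Injective φ) :
    Function.Injective (hmap (p := p) (n := n) φ) := fun _ _ h =>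
  Prod.ext (Matrix.map_injective (WittVector.map_injective φ hφ) (congrArg Prod.fst h))
    (Matrix.map_injective (WittVector.map_injective φ hφ) (congrArg Prod.snd h))

omit [Fintype n] [DecidableEq n] in
theorem xmap_injective {φ : R →+* R'} (hφ : Function.Injective φ) :
    Function.Injective (xmap (p := p) (n := n) φ) := fun _ _ h =>
  Prod.ext (Matrix.map_injective (WittVector.map_injective φ hφ) (congrArg Prod.fst h))
    (Matrix.map_injective (mapT_injective hφ) (congrArg Prod.snd h))

omit [Fintype n] [DecidableEq n] in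
theorem map_toT_map (ψ : WittVector p R →+* WittVector p R') (x : Matrix n n (WittVector p R)) :
    (x.map (toT p R)).map (locMap ψ) = (x.map ψ).map (toT p R') := by
  ext1 i j; exact locMap_toT _ _

omit [Fintype n] [DecidableEq n] in
theorem map_fT_map (φ : R →+* R') (g : Matrix n n (T p R)) :
    (g.map (fT p R)).map (locMap (WittVector.map φ)) =
      (g.map (locMap (WittVector.map φ))).map (fT p R') := by
  ext1 i j; exact mapT_fT _ _

omit [DecidableEq n] in
theorem Act.map (φ : R →+* R') {x y : XP p n R} {h : HP p n R} (ha : Act x h y) :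
    Act (xmap φ x) (hmap φ h) (xmap φ y) := by
  refine ⟨?_, ?_⟩
  · simp only [xmap, hmap, ← Matrix.map_mul, ha.1]
  · simp only [xmap, hmap]
    rw [ha.2, Matrix.map_mul, map_toT_map]

omit [DecidableEq n] in
theorem Act.of_map {φ : R →+* R'} (hφ : Function.Injective φ) {x y : XP p n R} {h : HP p n R}
    (ha : Act (xmap φ x) (hmap φ h) (xmap φ y)) : Act x h y := by
  refine ⟨Matrix.map_injective (WittVector.map_injective φ hφ) ?_,
    Matrix.map_injective (mapT_injective hφ) ?_⟩
  · simpa only [xmap, hmap, Matrix.map_mul] using ha.1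
  · have := ha.2
    simp only [xmap, hmap] at this
    change y.2.map _ = (x.2 * h.1.map (toT p R)).map _
    rw [this, Matrix.map_mul, map_toT_map]

theorem Act.one (x : XP p n R) : Act x 1 x :=
  ⟨by simp, by
    rw [Prod.fst_one, Matrix.map_one _ (map_zero _) (map_one _), Matrix.mul_one]⟩

omit [DecidableEq n] in
theorem Act.mul {x y z : XP p n R} {h h' : HP p n R} (ha : Act x h y) (hb : Act y h' z) :
    Act x (h * h') z := by
  refine ⟨?_, ?_⟩
  · rw [Prod.fst_mul, Prod.snd_mul, Matrix.mul_assoc, hb.1, ← Matrix.mul_assoc, ha.1,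
      Matrix.mul_assoc]
  · rw [Prod.fst_mul, Matrix.map_mul, hb.2, ha.2, Matrix.mul_assoc]

theorem Act.inv {x y : XP p n R} {h h' : HP p n R} (ha : Act x h y) (hh : h * h' = 1) :
    Act y h' x := by
  have h1 : h.1 * h'.1 = 1 := congrArg Prod.fst hh
  have h2 : h.2 * h'.2 = 1 := congrArg Prod.snd hh
  have h1' : h'.1 * h.1 = 1 := mul_eq_one_comm.1 h1
  refine ⟨?_, ?_⟩
  · calc h'.1 * x.1 = h'.1 * (x.1 * h.2) * h'.2 := by
          rw [Matrix.mul_assoc, Matrix.mul_assoc, h2, Matrix.mul_one]
      _ = y.1 * h'.2 := by rw [← ha.1, ← Matrix.mul_assoc, h1', Matrix.one_mul]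
  · rw [ha.2, Matrix.mul_assoc, ← Matrix.map_mul, h1, Matrix.map_one _ (map_zero _) (map_one _),
      Matrix.mul_one]

theorem Act.unique {x y y' : XP p n R} {h h' : HP p n R} (ha : Act x h y) (hb : Act x h y')
    (hh : h * h' = 1) : y = y' := by
  have h1 : h'.1 * h.1 = 1 := mul_eq_one_comm.1 (congrArg Prod.fst hh)
  refine Prod.ext ?_ (ha.2.trans hb.2.symm)
  rw [← Matrix.one_mul y.1, ← Matrix.one_mul y'.1, ← h1, Matrix.mul_assoc, Matrix.mul_assoc, ha.1,
    hb.1]

theorem hp_mul_eq_one_comm {h h' : HP p n R} (hh : h * h' = 1) : h' * h = 1 :=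
  Prod.ext (mul_eq_one_comm.1 (congrArg Prod.fst hh)) (mul_eq_one_comm.1 (congrArg Prod.snd hh))

namespace Data

theorem IsX.map {χ : WittVector p k →+* R} {x : XP p n R} (hx : D.IsX χ x) (φ : R →+* R')
    {χ' : WittVector p k →+* R'} (hχ : φ.comp χ = χ') : D.IsX χ' (xmap φ x) := by
  subst hχ
  refine ⟨hx.1.map _ (map_comp_zeta φ χ), hx.2.1.map _ (mapT_comp_zeta φ χ), ?_⟩
  have := congrArg (fun y => y.map (locMap (WittVector.map (p := p) φ))) hx.2.2
  simp only [Matrix.map_mul, b_map, mu_map, map_comp_iota, map_toT_map, map_fT_map] at this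
  exact this

theorem IsX.of_map {χ : WittVector p k →+* R} {x : XP p n R} {φ : R →+* R'}
    (hφ : Function.Injective φ) {χ' : WittVector p k →+* R'} (hχ : φ.comp χ = χ')
    (hx : D.IsX χ' (xmap φ x)) : D.IsX χ x := by
  subst hχ
  refine ⟨Pt.of_map (WittVector.map_injective φ hφ) (map_comp_zeta φ χ) hx.1,
    Pt.of_map (mapT_injective hφ) (mapT_comp_zeta φ χ) hx.2.1,
    Matrix.map_injective (mapT_injective hφ) ?_⟩
  simp only [Matrix.map_mul, b_map, mu_map, map_comp_iota, map_toT_map, map_fT_map]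
  exact hx.2.2

omit [DecidableEq n] [CharP k p] in
theorem conj_map (φ : R →+* R') (κ : WittVector p k →+* WittVector p R)
    (y : Matrix n n (WittVector p R)) (i j : n) :
    WittVector.map φ ((D.c'.map κ * y * D.c.map κ) i j) =
      (D.c'.map ((WittVector.map φ).comp κ) * y.map (WittVector.map φ) *
        D.c.map ((WittVector.map φ).comp κ)) i j := by
  rw [← Matrix.map_apply (f := WittVector.map φ), Matrix.map_mul, Matrix.map_mul]; rfl

omit [DecidableEq n] [CharP k p] in
theorem Graded.map {χ : WittVector p k →+* R} {h : HP p n R} (hh : D.Graded χ h) (φ : R →+* R')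
    {χ' : WittVector p k →+* R'} (hχ : φ.comp χ = χ') : D.Graded χ' (hmap φ h) := by
  subst hχ
  intro i j
  have := (hh i j).map φ
  rwa [conj_map, conj_map, ← RingHom.comp_assoc, map_comp_iota] at this

omit [DecidableEq n] [CharP k p] in
theorem Graded.of_map {χ : WittVector p k →+* R} {h : HP p n R} {φ : R →+* R'}
    (hφ : Function.Injective φ) {χ' : WittVector p k →+* R'} (hχ : φ.comp χ = χ')
    (hh : D.Graded χ' (hmap φ h)) : D.Graded χ h := by
  subst hχ
  intro i j
  refine Gr.of_map hφ ?_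
  rw [conj_map, conj_map, ← RingHom.comp_assoc, map_comp_iota]
  exact hh i j

omit [DecidableEq n] in
theorem IsH.map {χ : WittVector p k →+* R} {h : HP p n R} (hh : D.IsH χ h) (φ : R →+* R')
    {χ' : WittVector p k →+* R'} (hχ : φ.comp χ = χ') : D.IsH χ' (hmap φ h) :=
  ⟨hh.1.map _ (hχ ▸ map_comp_zeta φ χ), hh.2.1.map _ (hχ ▸ map_comp_zeta φ χ), hh.2.2.map φ hχ⟩

omit [DecidableEq n] in
theorem IsH.of_map {χ : WittVector p k →+* R} {h : HP p n R} {φ : R →+* R'}
    (hφ : Function.Injective φ) {χ' : WittVector p k →+* R'} (hχ : φ.comp χ = χ')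
    (hh : D.IsH χ' (hmap φ h)) : D.IsH χ h :=
  ⟨Pt.of_map (WittVector.map_injective φ hφ) (hχ ▸ map_comp_zeta φ χ) hh.1,
    Pt.of_map (WittVector.map_injective φ hφ) (hχ ▸ map_comp_zeta φ χ) hh.2.1,
    Graded.of_map hφ hχ hh.2.2⟩

end Data

end

end Pool.Agent.MP_dc2c90_ag.H20
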