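import Pool.Agent.MP_dc2c90_ag.H20.B4

/-!
`H(R)` is a group and acts on `X(R)`.
-/

namespace Pool.Agent.MP_dc2c90_ag.H20

open WittVector

noncomputable section

variable {p : ℕ} [Fact p.Prime] {R R' : Type} [CommRing R] [CommRing R']
  {n : Type} [Fintype n] [DecidableEq n] {k : Type} [Field k] [CharP k p] {D : Data p k n}

theorem Gr.one : Gr 0 (1 : WittVector p R) 1 := gr_zero_iff.2 (map_one _).symm

theorem Gr.prod {ι : Type} (s : Finset ι) {r : ι → ℤ} {a b : ι → WittVector p R}
    (h : ∀ i ∈ s, Gr (r i) (a i) (b i)) :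
    Gr (∑ i ∈ s, r i) (∏ i ∈ s, a i) (∏ i ∈ s, b i) := by
  classical
  induction s using Finset.induction_on with
  | empty => simpa using Gr.one
  | insert i s hi ih =>
    rw [Finset.sum_insert hi, Finset.prod_insert hi, Finset.prod_insert hi]
    exact (h i (Finset.mem_insert_self _ _)).mul (ih fun j hj => h j (Finset.mem_insert_of_mem hj))

theorem Gr.pow {r : ℤ} {a b : WittVector p R} (h : Gr r a b) (m : ℕ) :
    Gr (m • r) (a ^ m) (b ^ m) := by
  simpa using Gr.prod (Finset.range m) (r := fun _ => r) (a := fun _ => a) (b := fun _ => b)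
    fun _ _ => h

theorem Gr.det {u v : n → ℤ} {A B : Matrix n n (WittVector p R)}
    (h : ∀ i j, Gr (u j - v i) (A i j) (B i j)) : Gr (∑ j, u j - ∑ i, v i) A.det B.det := by
  rw [Matrix.det_apply', Matrix.det_apply']
  refine Gr.sum _ fun σ _ => ?_
  have h1 := Gr.prod Finset.univ (r := fun i => u i - v (σ i)) (a := fun i => A (σ i) i)
    (b := fun i => B (σ i) i) fun i _ => h _ _
  have h2 : Gr 0 (((Equiv.Perm.sign σ : ℤ) : WittVector p R)) ((Equiv.Perm.sign σ : ℤ) :
      WittVector p R) := gr_zero_iff.2 (map_intCast _ _).symm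
  have h3 := h2.mul h1
  rwa [zero_add, Finset.sum_sub_distrib, Equiv.sum_comp σ v] at h3

omit [DecidableEq n] in
theorem Gr.matrix_mul {w : n → ℤ} {A B A' B' : Matrix n n (WittVector p R)}
    (h : ∀ i j, Gr (w j - w i) (A i j) (B i j)) (h' : ∀ i j, Gr (w j - w i) (A' i j) (B' i j))
    (i j : n) : Gr (w j - w i) ((A * A') i j) ((B * B') i j) := by
  rw [Matrix.mul_apply, Matrix.mul_apply]
  refine Gr.sum _ fun l _ => ?_
  have := (h i l).mul (h' l j)
  rwa [show w l - w i + (w j - w l) = w j - w i by ring] at this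

omit [Fintype n] in
theorem Gr.matrix_one (w : n → ℤ) (i j : n) :
    Gr (w j - w i) ((1 : Matrix n n (WittVector p R)) i j)
      ((1 : Matrix n n (WittVector p R)) i j) := by
  rw [Matrix.one_apply]
  split_ifs with hij
  · rw [hij, sub_self]; exact Gr.one
  · exact Gr.zero _

theorem Gr.matrix_inv {w : n → ℤ} {A B : Matrix n n (WittVector p R)} (hA : IsUnit A)
    (h : ∀ i j, Gr (w j - w i) (A i j) (B i j)) (i j : n) :
    Gr (w j - w i) (A⁻¹ i j) (B⁻¹ i j) := by
  have hd := Gr.det h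
  rw [sub_self, gr_zero_iff] at hd
  obtain ⟨d, hd'⟩ := (Matrix.isUnit_iff_isUnit_det A).1 hA
  have hi : Gr 0 (Ring.inverse A.det) (Ring.inverse B.det) := by
    rw [gr_zero_iff, hd, ← hd', Ring.inverse_unit]
    exact Ring.inverse_unit (Units.map (frobenius : WittVector p R →+* WittVector p R).toMonoidHom d)
  have ha : Gr (w j - w i) (A.adjugate i j) (B.adjugate i j) := by
    rw [Matrix.adjugate_apply, Matrix.adjugate_apply]
    have h1 := Gr.det (u := w) (v := Function.update w j (w i))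
      (A := A.updateRow j (Pi.single i 1)) (B := B.updateRow j (Pi.single i 1)) fun a b => by
        by_cases ha : a = j
        · subst ha
          rw [Matrix.updateRow_self, Matrix.updateRow_self, Function.update_self]
          by_cases hb : b = i
          · subst hb; rw [Pi.single_eq_same, sub_self]; exact Gr.one
          · rw [Pi.single_eq_of_ne hb]; exact Gr.zero _
        · rw [Matrix.updateRow_ne ha, Matrix.updateRow_ne ha, Function.update_of_ne ha]
          exact h a b
    have h2 : ∑ a, w a - ∑ a, Function.update w j (w i) a = w j - w i := by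
      rw [Finset.sum_update_of_mem (Finset.mem_univ j),
        ← Finset.add_sum_erase _ w (Finset.mem_univ j), Finset.sdiff_singleton_eq_erase]
      ring
    rwa [h2] at h1
  have := hi.mul ha
  rw [zero_add] at this
  rw [Matrix.inv_def, Matrix.inv_def]
  exact this

namespace Data

theorem Good.conj_mul (hD : D.Good) {S : Type} [CommRing S] (κ : WittVector p k →+* S)
    (x y : Matrix n n S) :
    D.c'.map κ * (x * y) * D.c.map κ =
      (D.c'.map κ * x * D.c.map κ) * (D.c'.map κ * y * D.c.map κ) := by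
  simp only [Matrix.mul_assoc]
  rw [← Matrix.mul_assoc (D.c.map κ), hD.c_mul_map, Matrix.one_mul]

theorem Good.conj_one (hD : D.Good) {S : Type} [CommRing S] (κ : WittVector p k →+* S) :
    D.c'.map κ * 1 * D.c.map κ = 1 := by rw [Matrix.mul_one, hD.c'_mul_map]

theorem Good.conj_conj (hD : D.Good) {S : Type} [CommRing S] (κ : WittVector p k →+* S)
    (x : Matrix n n S) : D.c.map κ * (D.c'.map κ * x * D.c.map κ) * D.c'.map κ = x := by
  simp only [Matrix.mul_assoc]
  rw [hD.c_mul_map, Matrix.mul_one, ← Matrix.mul_assoc, hD.c_mul_map, Matrix.one_mul]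

theorem Good.conj_conj' (hD : D.Good) {S : Type} [CommRing S] (κ : WittVector p k →+* S)
    (x : Matrix n n S) : D.c'.map κ * (D.c.map κ * x * D.c'.map κ) * D.c.map κ = x := by
  simp only [Matrix.mul_assoc]
  rw [hD.c'_mul_map, Matrix.mul_one, ← Matrix.mul_assoc, hD.c'_mul_map, Matrix.one_mul]

theorem Good.conj_inv (hD : D.Good) {S : Type} [CommRing S] (κ : WittVector p k →+* S)
    {x : Matrix n n S} (hx : IsUnit x) :
    D.c'.map κ * x⁻¹ * D.c.map κ = (D.c'.map κ * x * D.c.map κ)⁻¹ := by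
  symm
  apply Matrix.inv_eq_right_inv
  rw [← hD.conj_mul, Matrix.mul_nonsing_inv _ ((Matrix.isUnit_iff_isUnit_det x).1 hx),
    hD.conj_one]

theorem Good.graded_one (hD : D.Good) (χ : WittVector p k →+* R) : D.Graded χ 1 := fun i j => by
  rw [Prod.fst_one, Prod.snd_one, hD.conj_one, hD.conj_one]
  exact Gr.matrix_one _ i j

theorem Good.graded_mul (hD : D.Good) {χ : WittVector p k →+* R} {h h' : HP p n R}
    (hh : D.Graded χ h) (hh' : D.Graded χ h') : D.Graded χ (h * h') := fun i j => by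
  rw [Prod.fst_mul, Prod.snd_mul, hD.conj_mul, hD.conj_mul]
  exact Gr.matrix_mul hh hh' i j

omit [DecidableEq n] [CharP k p] in
theorem Graded.add {χ : WittVector p k →+* R} {h h' : HP p n R}
    (hh : D.Graded χ h) (hh' : D.Graded χ h') : D.Graded χ (h + h') := fun i j => by
  simp only [Prod.fst_add, Prod.snd_add, Matrix.mul_add, Matrix.add_mul, Matrix.add_apply]
  exact (hh i j).add (hh' i j)

omit [DecidableEq n] [CharP k p] in
theorem Graded.sub {χ : WittVector p k →+* R} {h h' : HP p n R}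
    (hh : D.Graded χ h) (hh' : D.Graded χ h') : D.Graded χ (h - h') := fun i j => by
  simp only [Prod.fst_sub, Prod.snd_sub, Matrix.mul_sub, Matrix.sub_mul, Matrix.sub_apply]
  exact (hh i j).sub (hh' i j)

theorem Good.isH_one (hD : D.Good) (χ : WittVector p k →+* R) : D.IsH χ 1 :=
  ⟨hD.pt_one _, hD.pt_one _, hD.graded_one χ⟩

theorem Good.isH_mul (hD : D.Good) {χ : WittVector p k →+* R} {h h' : HP p n R}
    (hh : D.IsH χ h) (hh' : D.IsH χ h') : D.IsH χ (h * h') :=
  ⟨hD.pt_mul hh.1 hh'.1, hD.pt_mul hh.2.1 hh'.2.1, hD.graded_mul hh.2.2 hh'.2.2⟩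

end Data

/-- The componentwise inverse. -/
def hinv (h : HP p n R) : HP p n R := (h.1⁻¹, h.2⁻¹)

namespace Data

theorem Good.isH_inv (hD : D.Good) {χ : WittVector p k →+* R} {h : HP p n R} (hh : D.IsH χ h) :
    D.IsH χ (hinv h) := by
  refine ⟨hD.pt_inv hh.1, hD.pt_inv hh.2.1, fun i j => ?_⟩
  simp only [hinv]
  rw [hD.conj_inv _ (hD.isUnit hh.1), hD.conj_inv _ (hD.isUnit hh.2.1)]
  refine Gr.matrix_inv ?_ hh.2.2 i j
  exact ((IsUnit.of_mul_eq_one _ (hD.c'_mul_map _)).mul (hD.isUnit hh.1)).mul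
    (IsUnit.of_mul_eq_one _ (hD.c_mul_map _))

theorem Good.mul_hinv (hD : D.Good) {χ : WittVector p k →+* R} {h : HP p n R} (hh : D.IsH χ h) :
    h * hinv h = 1 := Prod.ext (hD.mul_inv hh.1) (hD.mul_inv hh.2.1)

theorem Good.hinv_mul (hD : D.Good) {χ : WittVector p k →+* R} {h : HP p n R} (hh : D.IsH χ h) :
    hinv h * h = 1 := Prod.ext (hD.inv_mul hh.1) (hD.inv_mul hh.2.1)

theorem Good.hmap_hinv (hD : D.Good) {χ : WittVector p k →+* R} {h : HP p n R} (hh : D.IsH χ h)
    (φ : R →+* R') : hmap φ (hinv h) = hinv (hmap φ h) :=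
  Prod.ext (map_inv_of_isUnit _ (hD.isUnit hh.1)) (map_inv_of_isUnit _ (hD.isUnit hh.2.1))

theorem Good.act_inv (hD : D.Good) {χ : WittVector p k →+* R} {x y : XP p n R} {h : HP p n R}
    (hh : D.IsH χ h) (ha : Act x h y) : Act y (hinv h) x := ha.inv (hD.mul_hinv hh)

/-- `μ' f(τ) = σ μ'` for graded pairs. -/
theorem Good.mu_mul_frob (hD : D.Good) {χ : WittVector p k →+* R} {h : HP p n R}
    (hh : D.Graded χ h) :
    D.mu (D.iota χ) * (h.1.map (toT p R)).map (fT p R) = h.2.map (toT p R) * D.mu (D.iota χ) := by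
  set κ : WittVector p k →+* T p R := (toT p R).comp ((D.iota χ).comp frobenius) with hκ
  have h1 : Matrix.diagonal (fun i => ((pU p R ^ D.w i : (T p R)ˣ) : T p R)) *
      (D.c'.map κ * (h.1.map (toT p R)).map (fT p R) * D.c.map κ) =
      (D.c'.map κ * h.2.map (toT p R) * D.c.map κ) *
        Matrix.diagonal (fun i => ((pU p R ^ D.w i : (T p R)ˣ) : T p R)) := by
    have e1 : D.c'.map κ * (h.1.map (toT p R)).map (fT p R) * D.c.map κ =
        ((D.c'.map (D.iota χ) * h.1 * D.c.map (D.iota χ)).map (toT p R)).map (fT p R) := by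
      have e : ∀ x : Matrix n n (WittVector p k),
          ((x.map (D.iota χ)).map (toT p R)).map (fT p R) = x.map κ := fun x => by
        ext1 i j
        simp only [Matrix.map_apply, hκ, RingHom.comp_apply, fT_toT, hD.frob_iota]
      simp only [Matrix.map_mul, e]
    have e2 : D.c'.map κ * h.2.map (toT p R) * D.c.map κ =
        (D.c'.map ((D.iota χ).comp frobenius) * h.2 *
          D.c.map ((D.iota χ).comp frobenius)).map (toT p R) := by
      simp only [Matrix.map_mul]; rfl
    rw [e1, e2]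
    ext1 i j
    rw [Matrix.diagonal_mul, Matrix.mul_diagonal, Matrix.map_apply, Matrix.map_apply,
      Matrix.map_apply, (hh i j).toT_eq, ← mul_assoc, ← Units.val_mul, ← zpow_add, mul_comm,
      add_sub_cancel]
  have h2 := congrArg (fun y => D.c.map κ * y * D.c'.map κ) h1
  simp only [Matrix.mul_assoc] at h2
  rw [hD.c_mul_map, Matrix.mul_one, ← Matrix.mul_assoc (D.c.map κ) (D.c'.map κ), hD.c_mul_map,
    Matrix.one_mul] at h2
  simp only [mu, Matrix.mul_assoc]
  exact h2

theorem Good.isX_of_act (hD : D.Good) {χ : WittVector p k →+* R} {x y : XP p n R} {h : HP p n R}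
    (hx : D.IsX χ x) (hh : D.IsH χ h) (ha : Act x h y) : D.IsX χ y := by
  have e : y.1 = h.1⁻¹ * (x.1 * h.2) := by
    rw [← ha.1, ← Matrix.mul_assoc, hD.inv_mul hh.1, Matrix.one_mul]
  refine ⟨?_, ?_, ?_⟩
  · rw [e]; exact hD.pt_mul (hD.pt_inv hh.1) (hD.pt_mul hx.1 hh.2.1)
  · rw [ha.2]; exact hD.pt_mul hx.2.1 (hh.1.map _ rfl)
  · rw [ha.2, Matrix.map_mul, ← Matrix.mul_assoc, hx.2.2, Matrix.mul_assoc,
      hD.mu_mul_frob hh.2.2, Matrix.mul_assoc x.2 (h.1.map _), ← Matrix.map_mul, ha.1,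
      Matrix.map_mul]
    simp only [Matrix.mul_assoc]

theorem Good.exists_act (hD : D.Good) {χ : WittVector p k →+* R} {h : HP p n R} (hh : D.IsH χ h)
    (x : XP p n R) : Act x h (h.1⁻¹ * (x.1 * h.2), x.2 * h.1.map (toT p R)) :=
  ⟨by rw [← Matrix.mul_assoc, hD.mul_inv hh.1, Matrix.one_mul], rfl⟩

theorem Good.act_unique (hD : D.Good) {χ : WittVector p k →+* R} {x y y' : XP p n R}
    {h : HP p n R} (hh : D.IsH χ h) (ha : Act x h y) (hb : Act x h y') : y = y' :=
  ha.unique hb (hD.mul_hinv hh)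

end Data

end

end Pool.Agent.MP_dc2c90_ag.H20
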