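import Pool.Agent.MP_dc2c90_ag.H20.B5

/-!
Covers, maps out of tensor products, congruences in `H`, descent to subrings.
-/

namespace Pool.Agent.MP_dc2c90_ag.H20

open WittVector TensorProduct

noncomputable section

/-- Base change of a faithfully flat cover. -/
theorem cov {C E A : Type} [CommRing C] [CommRing E] [CommRing A] {e : C →+* E}
    (he : e.FaithfullyFlat) (γ : C →+* A) :
    ∃ (A' : Type) (_ : CommRing A') (ψ : A →+* A') (a : E →+* A'),
      ψ.FaithfullyFlat ∧ a.comp e = ψ.comp γ := by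
  algebraize [e, γ]
  refine ⟨A ⊗[C] E, inferInstance, algebraMap A (A ⊗[C] E),
    (Algebra.TensorProduct.includeRight : E →ₐ[C] A ⊗[C] E).toRingHom, ?_, ?_⟩
  · rw [RingHom.faithfullyFlat_algebraMap_iff]; infer_instance
  · ext c
    have := (Algebra.TensorProduct.includeRight : E →ₐ[C] A ⊗[C] E).commutes c
    rw [IsScalarTower.algebraMap_apply C A (A ⊗[C] E)] at this
    exact this

theorem ff_comp {A B C : Type} [CommRing A] [CommRing B] [CommRing C] {f : A →+* B} {g : B →+* C}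
    (hf : f.FaithfullyFlat) (hg : g.FaithfullyFlat) : (g.comp f).FaithfullyFlat :=
  RingHom.FaithfullyFlat.stableUnderComposition f g hf hg

theorem ff_id (A : Type) [CommRing A] : (RingHom.id A).FaithfullyFlat :=
  RingHom.FaithfullyFlat.of_bijective Function.bijective_id

section Tensor

variable {Λ B B' R A : Type} [CommRing Λ] [CommRing B] [CommRing B'] [CommRing R] [CommRing A]
  [Algebra Λ B] [Algebra Λ B'] [Algebra Λ R]

/-- `r ↦ 1 ⊗ r`. -/
def inR (Λ B R : Type) [CommRing Λ] [CommRing B] [CommRing R] [Algebra Λ B] [Algebra Λ R] :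
    R →+* B ⊗[Λ] R :=
  (Algebra.TensorProduct.includeRight : R →ₐ[Λ] B ⊗[Λ] R).toRingHom

/-- `b ↦ b ⊗ 1`. -/
def inL (Λ B R : Type) [CommRing Λ] [CommRing B] [CommRing R] [Algebra Λ B] [Algebra Λ R] :
    B →+* B ⊗[Λ] R :=
  (Algebra.TensorProduct.includeLeft : B →ₐ[Λ] B ⊗[Λ] R).toRingHom

theorem inR_apply (r : R) : inR Λ B R r = 1 ⊗ₜ r := rfl

theorem inL_apply (b : B) : inL Λ B R b = b ⊗ₜ 1 := rfl

theorem inL_comp_algebraMap :
    (inL Λ B R).comp (algebraMap Λ B) = (inR Λ B R).comp (algebraMap Λ R) :=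
  RingHom.ext fun x => by
    simp only [RingHom.comp_apply, inL_apply, inR_apply]
    exact (Algebra.TensorProduct.tmul_one_eq_one_tmul x)

theorem inR_ff [Module.FaithfullyFlat Λ B] : (inR Λ B R).FaithfullyFlat := by
  have h1 : (algebraMap R (R ⊗[Λ] B)).FaithfullyFlat := by
    rw [RingHom.faithfullyFlat_algebraMap_iff]; infer_instance
  have h2 := ff_comp h1 (RingHom.FaithfullyFlat.of_bijective
    (f := (Algebra.TensorProduct.comm Λ R B).toRingEquiv.toRingHom)
    (Algebra.TensorProduct.comm Λ R B).bijective)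
  convert h2 using 1
  exact RingHom.ext fun _ => rfl

theorem tensor_hom_ext {θ θ' : B ⊗[Λ] R →+* A} (h1 : θ.comp (inL Λ B R) = θ'.comp (inL Λ B R))
    (h2 : θ.comp (inR Λ B R) = θ'.comp (inR Λ B R)) : θ = θ' :=
  Algebra.TensorProduct.ringHom_ext h1 h2

theorem exists_tensor_lift (α : B →+* A) (β : R →+* A)
    (h : α.comp (algebraMap Λ B) = β.comp (algebraMap Λ R)) :
    ∃ θ : B ⊗[Λ] R →+* A, θ.comp (inL Λ B R) = α ∧ θ.comp (inR Λ B R) = β := by
  let _ : Algebra Λ A := (α.comp (algebraMap Λ B)).toAlgebra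
  let α' : B →ₐ[Λ] A := { α with commutes' := fun _ => rfl }
  let β' : R →ₐ[Λ] A := { β with commutes' := fun x => (RingHom.congr_fun h x).symm }
  refine ⟨(Algebra.TensorProduct.productMap α' β').toRingHom, ?_, ?_⟩
  · ext b; simp [inL_apply, α']
  · ext r; simp [inR_apply, β']

/-- The map `B ⊗ R → B' ⊗ R'` induced by two `Λ`-algebra maps. -/
def tmap {R' : Type} [CommRing R'] [Algebra Λ R'] (α : B →ₐ[Λ] B') (β : R →ₐ[Λ] R') :
    B ⊗[Λ] R →+* B' ⊗[Λ] R' :=
  (Algebra.TensorProduct.map α β).toRingHom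

theorem tmap_comp_inL {R' : Type} [CommRing R'] [Algebra Λ R'] (α : B →ₐ[Λ] B') (β : R →ₐ[Λ] R') :
    (tmap α β).comp (inL Λ B R) = (inL Λ B' R').comp α.toRingHom :=
  RingHom.ext fun b => by simp [tmap, inL_apply]

theorem tmap_comp_inR {R' : Type} [CommRing R'] [Algebra Λ R'] (α : B →ₐ[Λ] B') (β : R →ₐ[Λ] R') :
    (tmap α β).comp (inR Λ B R) = (inR Λ B' R').comp β.toRingHom :=
  RingHom.ext fun b => by simp [tmap, inR_apply]

theorem tmap_comp_tmap {B'' R' R'' : Type} [CommRing B''] [CommRing R'] [CommRing R'']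
    [Algebra Λ B''] [Algebra Λ R'] [Algebra Λ R''] (α : B →ₐ[Λ] B') (β : R →ₐ[Λ] R')
    (α' : B' →ₐ[Λ] B'') (β' : R' →ₐ[Λ] R'') :
    (tmap α' β').comp (tmap α β) = tmap (α'.comp α) (β'.comp β) := by
  simp only [tmap, Algebra.TensorProduct.map_comp]; rfl

/-- Two maps from `B ⊗ R` and `B' ⊗ R` that agree on `R` glue to `(B ⊗ B') ⊗ R`. -/
theorem exists_tensor_lift₂ (α : B ⊗[Λ] R →+* A) (β : B' ⊗[Λ] R →+* A)
    (h : α.comp (inR Λ B R) = β.comp (inR Λ B' R)) :
    ∃ θ : (B ⊗[Λ] B') ⊗[Λ] R →+* A,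
      θ.comp (tmap Algebra.TensorProduct.includeLeft (AlgHom.id Λ R)) = α ∧
      θ.comp (tmap Algebra.TensorProduct.includeRight (AlgHom.id Λ R)) = β := by
  have e1 : (α.comp (inL Λ B R)).comp (algebraMap Λ B) =
      (α.comp (inR Λ B R)).comp (algebraMap Λ R) := by
    rw [RingHom.comp_assoc, inL_comp_algebraMap, RingHom.comp_assoc]
  have e2 : (β.comp (inL Λ B' R)).comp (algebraMap Λ B') =
      (β.comp (inR Λ B' R)).comp (algebraMap Λ R) := by
    rw [RingHom.comp_assoc, inL_comp_algebraMap, RingHom.comp_assoc]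
  obtain ⟨θ₁, h1, h2⟩ := exists_tensor_lift (Λ := Λ) (α.comp (inL Λ B R)) (β.comp (inL Λ B' R))
    (by rw [e1, e2, h])
  obtain ⟨θ, h3, h4⟩ := exists_tensor_lift (Λ := Λ) θ₁ (α.comp (inR Λ B R)) (by
    rw [← e1, ← h1]; rfl)
  refine ⟨θ, tensor_hom_ext ?_ ?_, tensor_hom_ext ?_ ?_⟩
  · rw [RingHom.comp_assoc, tmap_comp_inL, ← RingHom.comp_assoc, h3]; exact h1
  · rw [RingHom.comp_assoc, tmap_comp_inR, ← RingHom.comp_assoc, h4]; rfl
  · rw [RingHom.comp_assoc, tmap_comp_inL, ← RingHom.comp_assoc, h3]; exact h2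
  · rw [RingHom.comp_assoc, tmap_comp_inR, ← RingHom.comp_assoc, h4, h]; rfl

theorem tensor_hom_ext₂ {θ θ' : (B ⊗[Λ] B') ⊗[Λ] R →+* A}
    (h1 : θ.comp (tmap Algebra.TensorProduct.includeLeft (AlgHom.id Λ R)) =
      θ'.comp (tmap Algebra.TensorProduct.includeLeft (AlgHom.id Λ R)))
    (h2 : θ.comp (tmap Algebra.TensorProduct.includeRight (AlgHom.id Λ R)) =
      θ'.comp (tmap Algebra.TensorProduct.includeRight (AlgHom.id Λ R))) : θ = θ' := by
  refine tensor_hom_ext (tensor_hom_ext ?_ ?_) ?_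
  · have := congrArg (fun f => f.comp (inL Λ B R)) h1
    simp only [RingHom.comp_assoc, tmap_comp_inL] at this
    exact this
  · have := congrArg (fun f => f.comp (inL Λ B' R)) h2
    simp only [RingHom.comp_assoc, tmap_comp_inL] at this
    exact this
  · have := congrArg (fun f => f.comp (inR Λ B R)) h1
    simp only [RingHom.comp_assoc, tmap_comp_inR] at this
    exact this

end Tensor

variable {p : ℕ} [Fact p.Prime] {R R' : Type} [CommRing R] [CommRing R']
  {n : Type} [Fintype n] [DecidableEq n] {k : Type} [Field k] [CharP k p] {D : Data p k n}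

/-- All entries lie in `W(B)`. -/
def InWS {m m' : Type} (B : Subring R) (x : Matrix m m' (WittVector p R)) : Prop :=
  ∀ i j, x i j ∈ WS p B

/-- All entries lie in `W(B)[1/p]`. -/
def InTS {m m' : Type} (B : Subring R) (x : Matrix m m' (T p R)) : Prop :=
  ∀ i j, x i j ∈ TS p B

/-- Congruence modulo `(V^(m+1), V^m)`. -/
def Cong (m : ℕ) (h h' : HP p n R) : Prop :=
  (∀ i j, (h.1 - h'.1) i j ∈ Vm p R (m + 1)) ∧ ∀ i j, (h.2 - h'.2) i j ∈ Vm p R m

/-- `f^m(κ) ≡ 1` modulo `p^e` times the image of `W(R)`. -/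
def CC (m e : ℕ) (κ : Matrix n n (T p R)) : Prop :=
  ∃ Y : Matrix n n (WittVector p R),
    κ.map (fTi p R m) = 1 + (p : T p R) ^ e • Y.map (toT p R)

omit [Fact p.Prime] [CommRing R] in
theorem exists_finset_coeff {m m' : Type} [Finite m] [Finite m'] (x : Matrix m m' (WittVector p R))
    (M : ℕ) : ∃ s : Finset R, ∀ i j, ∀ l < M, (x i j).coeff l ∈ s := by
  have h : (Set.range fun t : m × m' × Fin M => (x t.1 t.2.1).coeff t.2.2).Finite :=
    Set.finite_range _
  exact ⟨h.toFinset, fun i j l hl => h.mem_toFinset.2 ⟨(i, j, ⟨l, hl⟩), rfl⟩⟩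

theorem InWS.mono {m m' : Type} {B B' : Subring R} (hB : B ≤ B') {x : Matrix m m' (WittVector p R)}
    (h : InWS B x) : InWS B' x := fun i j => WS_mono hB (h i j)

theorem InTS.mono {m m' : Type} {B B' : Subring R} (hB : B ≤ B') {x : Matrix m m' (T p R)}
    (h : InTS B x) : InTS B' x := fun i j => TS_mono hB (h i j)

theorem InWS.exists_map {m m' : Type} {B : Subring R} {x : Matrix m m' (WittVector p R)}
    (h : InWS B x) : ∃ y : Matrix m m' (WittVector p B), y.map (WittVector.map B.subtype) = x := by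
  choose y hy using h
  exact ⟨Matrix.of y, by ext1 i j; exact hy i j⟩

theorem InTS.exists_map {m m' : Type} {B : Subring R} {x : Matrix m m' (T p R)}
    (h : InTS B x) :
    ∃ y : Matrix m m' (T p B), y.map (locMap (WittVector.map B.subtype)) = x := by
  choose y hy using h
  exact ⟨Matrix.of y, by ext1 i j; exact hy i j⟩

theorem Data.IsX.exists_sub {χ : WittVector p k →+* R} {B : Subring R}
    {χB : WittVector p k →+* B} (hχ : B.subtype.comp χB = χ) {x : XP p n R} (hx : D.IsX χ x)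
    (h1 : InWS B x.1) (h2 : InTS B x.2) : ∃ x₁, D.IsX χB x₁ ∧ xmap B.subtype x₁ = x := by
  obtain ⟨U, hU⟩ := h1.exists_map
  obtain ⟨g, hg⟩ := h2.exists_map
  have e : xmap B.subtype (U, g) = x := Prod.ext hU hg
  exact ⟨(U, g), Data.IsX.of_map B.subtype_injective hχ (e ▸ hx), e⟩

omit [DecidableEq n] in
theorem Data.IsH.exists_sub {χ : WittVector p k →+* R} {B : Subring R}
    {χB : WittVector p k →+* B} (hχ : B.subtype.comp χB = χ) {h : HP p n R} (hh : D.IsH χ h)
    (h1 : InWS B h.1) (h2 : InWS B h.2) : ∃ h₁, D.IsH χB h₁ ∧ hmap B.subtype h₁ = h := by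
  obtain ⟨U, hU⟩ := h1.exists_map
  obtain ⟨g, hg⟩ := h2.exists_map
  have e : hmap B.subtype (U, g) = h := Prod.ext hU hg
  exact ⟨(U, g), Data.IsH.of_map B.subtype_injective hχ (e ▸ hh), e⟩

omit [Fintype n] [DecidableEq n] in
theorem Cong.refl (m : ℕ) (h : HP p n R) : Cong m h h :=
  ⟨fun i j => by simp, fun i j => by simp⟩

omit [Fintype n] [DecidableEq n] in
theorem Cong.symm {m : ℕ} {h h' : HP p n R} (H : Cong m h h') : Cong m h' h :=
  ⟨fun i j => by simpa using (Vm p R _).neg_mem (H.1 i j),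
    fun i j => by simpa using (Vm p R _).neg_mem (H.2 i j)⟩

omit [Fintype n] [DecidableEq n] in
theorem Cong.trans {m : ℕ} {h h' h'' : HP p n R} (H : Cong m h h') (H' : Cong m h' h'') :
    Cong m h h'' :=
  ⟨fun i j => by simpa using (Vm p R _).add_mem (H.1 i j) (H'.1 i j),
    fun i j => by simpa using (Vm p R _).add_mem (H.2 i j) (H'.2 i j)⟩

omit [Fintype n] [DecidableEq n] in
theorem Cong.anti {m m' : ℕ} (hm : m ≤ m') {h h' : HP p n R} (H : Cong m' h h') : Cong m h h' :=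
  ⟨fun i j => Vm_anti (by omega) (H.1 i j), fun i j => Vm_anti hm (H.2 i j)⟩

omit [DecidableEq n] in
theorem Cong.mul_left {m : ℕ} {h h' : HP p n R} (H : Cong m h h') (a : HP p n R) :
    Cong m (a * h) (a * h') :=
  ⟨fun i j => by
      rw [Prod.fst_mul, Prod.fst_mul, ← Matrix.mul_sub]; exact mul_mem_ideal_left _ H.1 i j,
    fun i j => by
      rw [Prod.snd_mul, Prod.snd_mul, ← Matrix.mul_sub]; exact mul_mem_ideal_left _ H.2 i j⟩

omit [DecidableEq n] in
theorem Cong.mul_right {m : ℕ} {h h' : HP p n R} (H : Cong m h h') (a : HP p n R) :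
    Cong m (h * a) (h' * a) :=
  ⟨fun i j => by
      rw [Prod.fst_mul, Prod.fst_mul, ← Matrix.sub_mul]; exact mul_mem_ideal_right _ H.1 i j,
    fun i j => by
      rw [Prod.snd_mul, Prod.snd_mul, ← Matrix.sub_mul]; exact mul_mem_ideal_right _ H.2 i j⟩

omit [Fintype n] [DecidableEq n] in
theorem Cong.map (φ : R →+* R') {m : ℕ} {h h' : HP p n R} (H : Cong m h h') :
    Cong m (hmap φ h) (hmap φ h') :=
  ⟨fun i j => by simpa [hmap] using map_mem_Vm φ (H.1 i j),
    fun i j => by simpa [hmap] using map_mem_Vm φ (H.2 i j)⟩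

omit [Fintype n] [DecidableEq n] in
theorem eq_of_cong {h h' : HP p n R} (H : ∀ m, Cong m h h') : h = h' := by
  refine Prod.ext ?_ ?_ <;> ext1 i j <;> rw [← sub_eq_zero]
  · exact Vm_sep _ fun m => Vm_anti (Nat.le_succ m) ((H m).1 i j)
  · exact Vm_sep _ fun m => (H m).2 i j

theorem CC.mul {m e : ℕ} {κ κ' : Matrix n n (T p R)} (h : CC m e κ) (h' : CC m e κ') :
    CC m e (κ * κ') := by
  obtain ⟨Y, hY⟩ := h
  obtain ⟨Y', hY'⟩ := h'
  refine ⟨Y + Y' + (p : WittVector p R) ^ e • (Y * Y'), ?_⟩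
  have e1 : ((p : WittVector p R) ^ e • (Y * Y')).map (toT p R) =
      (p : T p R) ^ e • (Y.map (toT p R) * Y'.map (toT p R)) := by
    rw [← Matrix.map_mul]; ext1 i j
    simp only [Matrix.map_apply, Matrix.smul_apply, smul_eq_mul, map_mul, map_pow, map_natCast]
  rw [Matrix.map_mul, hY, hY', Matrix.map_add _ (map_add _), Matrix.map_add _ (map_add _), e1]
  simp only [Matrix.add_mul, Matrix.mul_add, Matrix.one_mul, Matrix.mul_one, Matrix.smul_mul,
    Matrix.mul_smul, smul_add]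
  abel

omit [Fintype n] in
theorem one_add_Vi_map_fTi (m : ℕ) (Y : Matrix n n (WittVector p R)) :
    ((1 + Y.map (Vi p R m)).map (toT p R)).map (fTi p R m) =
      1 + (p : T p R) ^ m • Y.map (toT p R) := by
  ext1 i j
  simp only [Matrix.map_apply, Matrix.add_apply, Matrix.smul_apply, smul_eq_mul, map_add, fTi_toT,
    Fi_Vi, map_mul, map_pow, map_natCast, Matrix.one_apply]
  split_ifs <;> simp only [map_one, map_zero]

omit [Fintype n] in
theorem cc_one_add_Vi (m : ℕ) (Y : Matrix n n (WittVector p R)) :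
    CC m m ((1 + Y.map (Vi p R m)).map (toT p R)) := ⟨Y, one_add_Vi_map_fTi m Y⟩

omit [Fintype n] in
theorem CC.eq_one_add_Vi (hR : IsNilpotent (p : R)) {m : ℕ} {κ : Matrix n n (T p R)}
    (h : CC m m κ) :
    ∃ Y : Matrix n n (WittVector p R), κ = (1 + Y.map (Vi p R m)).map (toT p R) := by
  obtain ⟨Y, hY⟩ := h
  refine ⟨Y, Matrix.map_injective (fTi_injective hR m) ?_⟩
  change κ.map _ = ((1 + Y.map (Vi p R m)).map (toT p R)).map _
  rw [hY, one_add_Vi_map_fTi]

omit [Fintype n] in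
theorem CC.anti (hR : IsNilpotent (p : R)) {m m' : ℕ} (hm : m ≤ m') {κ : Matrix n n (T p R)}
    (h : CC m' m' κ) : CC m m κ := by
  obtain ⟨Y, rfl⟩ := h.eq_one_add_Vi hR
  obtain ⟨d, rfl⟩ := Nat.exists_eq_add_of_le hm
  have : Y.map (Vi p R (m + d)) = (Y.map (Vi p R d)).map (Vi p R m) := by
    ext1 i j; exact Vi_add m d _
  rw [this]; exact cc_one_add_Vi m _

end

end Pool.Agent.MP_dc2c90_ag.H20
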