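import Mathlib

/-!
Definitions for the Bueltel-Pappas Rapoport-Zink functor: the presheaf `X`, the display group `H`,
its action, objects of the fpqc quotient stack and their isomorphisms.
-/

namespace Pool.Agent.MP_dc2c90_ag.H20

noncomputable section

variable (p : ℕ) [Fact p.Prime]

/-- `T p R = W(R)[1/p]`. -/
abbrev T (R : Type) [CommRing R] : Type := Localization.Away (p : WittVector p R)

/-- The map `W(R) → W(R)[1/p]`. -/
abbrev toT (R : Type) [CommRing R] : WittVector p R →+* T p R :=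
  algebraMap (WittVector p R) (T p R)

theorem isUnit_p (R : Type) [CommRing R] : IsUnit (p : T p R) := by
  have h := IsLocalization.Away.algebraMap_isUnit (S := T p R) (p : WittVector p R)
  rwa [map_natCast] at h

/-- `p` as a unit of `W(R)[1/p]`. -/
def pU (R : Type) [CommRing R] : (T p R)ˣ := (isUnit_p p R).unit

variable {p}

/-- A ring map `W(R) → W(R')` extended to `W(R)[1/p] → W(R')[1/p]`. -/
def locMap {R R' : Type} [CommRing R] [CommRing R'] (φ : WittVector p R →+* WittVector p R') :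
    T p R →+* T p R' :=
  IsLocalization.Away.lift (p : WittVector p R) (g := (toT p R').comp φ)
    (by rw [map_natCast]; exact isUnit_p p R')

variable (p)

/-- The Frobenius `f` of `W(R)[1/p]`. -/
def fT (R : Type) [CommRing R] : T p R →+* T p R := locMap WittVector.frobenius

/-- The map `ℤ_p = W(𝔽_p) → W(k)`. -/
def zO (k : Type) [CommRing k] [CharP k p] : ℤ_[p] →+* WittVector p k :=
  (WittVector.map (ZMod.castHom (dvd_refl p) k)).comp (WittVector.equiv p).symm.toRingHom

variable {p}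
variable {n : Type} [Fintype n] [DecidableEq n]

/-- The matrix `g` over the `ℤ_p`-algebra `(S, ζ)` is a point of the closed subscheme of `M_n`
cut out by `I`. -/
def Pt (I : Ideal (MvPolynomial (n × n) ℤ_[p])) {S : Type} [CommRing S] (ζ : ℤ_[p] →+* S)
    (g : Matrix n n S) : Prop :=
  ∀ P ∈ I, MvPolynomial.eval₂ ζ (fun ij => g ij.1 ij.2) P = 0

/-- `x` lies in the Lie algebra: `1 + ε x` is a point over the dual numbers `S[ε]`. -/
def IsLie (I : Ideal (MvPolynomial (n × n) ℤ_[p])) {S : Type} [CommRing S] (ζ : ℤ_[p] →+* S)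
    (x : Matrix n n S) : Prop :=
  Pt I ((TrivSqZeroExt.inlHom S S).comp ζ)
    (Matrix.of fun i j => TrivSqZeroExt.inl ((1 : Matrix n n S) i j) + TrivSqZeroExt.inr (x i j))

/-- `(a, b)` is the pair (`τ`-image, `σ`-image) of an element of degree `r` of the graded Witt
ring `W(R)^⊕`. -/
def Gr {R : Type} [CommRing R] (r : ℤ) (a b : WittVector p R) : Prop :=
  if 1 ≤ r then a = (p : WittVector p R) ^ (r - 1).toNat * WittVector.verschiebung b
  else b = (p : WittVector p R) ^ (-r).toNat * WittVector.frobenius a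

/-- Raw data: `Δ : W(k) → W(W(k))`, the ideal `I` of `G ⊂ M_n` over `ℤ_p`, the cocharacter
`μ(t) = c · diag(t^w) · c'` with `c' = c⁻¹`, and `u₁, u₂` with `b = u₁ μ^σ(p) u₂`. -/
structure Data (p : ℕ) [Fact p.Prime] (k : Type) [CommRing k] (n : Type) where
  Δ : WittVector p k →+* WittVector p (WittVector p k)
  I : Ideal (MvPolynomial (n × n) ℤ_[p])
  c : Matrix n n (WittVector p k)
  c' : Matrix n n (WittVector p k)
  w : n → ℤ
  u₁ : Matrix n n (WittVector p k)
  u₂ : Matrix n n (WittVector p k)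

/-- Pairs `(U, g)` of a matrix over `W(R)` and a matrix over `W(R)[1/p]`. -/
abbrev XP (p : ℕ) [Fact p.Prime] (n : Type) (R : Type) [CommRing R] : Type :=
  Matrix n n (WittVector p R) × Matrix n n (T p R)

/-- Pairs `(τ, σ)` of matrices over `W(R)`, multiplied componentwise. -/
abbrev HP (p : ℕ) [Fact p.Prime] (n : Type) (R : Type) [CommRing R] : Type :=
  Matrix n n (WittVector p R) × Matrix n n (WittVector p R)

/-- Base change of `(U, g)` along a ring map. -/
def xmap {R R' : Type} [CommRing R] [CommRing R'] (φ : R →+* R') (x : XP p n R) : XP p n R' :=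
  (x.1.map (WittVector.map φ), x.2.map (locMap (WittVector.map φ)))

/-- Base change of `(τ, σ)` along a ring map. -/
def hmap {R R' : Type} [CommRing R] [CommRing R'] (φ : R →+* R') (h : HP p n R) : HP p n R' :=
  (h.1.map (WittVector.map φ), h.2.map (WittVector.map φ))

/-- `y = x · h`, that is `(U', g') = (τ⁻¹ U σ, g τ)`. -/
def Act {R : Type} [CommRing R] (x : XP p n R) (h : HP p n R) (y : XP p n R) : Prop :=
  h.1 * y.1 = x.1 * h.2 ∧ y.2 = x.2 * h.1.map (toT p R)

variable {k : Type} [Field k] [CharP k p]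

namespace Data

variable (D : Data p k n)

/-- The `W(k)`-algebra structure of `W(R)` for a `W(k)`-algebra `χ : W(k) → R`. -/
def iota {R : Type} [CommRing R] (χ : WittVector p k →+* R) :
    WittVector p k →+* WittVector p R :=
  (WittVector.map χ).comp D.Δ

/-- The `ℤ_p`-algebra structure of `W(R)`. -/
def zeta {R : Type} [CommRing R] (χ : WittVector p k →+* R) : ℤ_[p] →+* WittVector p R :=
  (D.iota χ).comp (zO p k)

/-- `μ^σ(p)` as a matrix over `W(R)[1/p]`, for `κ : W(k) → W(R)`. -/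
def mu {R : Type} [CommRing R] (κ : WittVector p k →+* WittVector p R) : Matrix n n (T p R) :=
  D.c.map ((toT p R).comp (κ.comp WittVector.frobenius)) *
    Matrix.diagonal (fun i => ((pU p R ^ D.w i : (T p R)ˣ) : T p R)) *
    D.c'.map ((toT p R).comp (κ.comp WittVector.frobenius))

/-- `b = u₁ μ^σ(p) u₂` as a matrix over `W(R)[1/p]`. -/
def b {R : Type} [CommRing R] (κ : WittVector p k →+* WittVector p R) : Matrix n n (T p R) :=
  D.u₁.map ((toT p R).comp κ) * D.mu κ * D.u₂.map ((toT p R).comp κ)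

/-- The hypotheses on the data. -/
structure Good : Prop where
  ghost : ∀ (m : ℕ) (x : WittVector p k),
    WittVector.ghostComponent m (D.Δ x) = (WittVector.frobenius)^[m] x
  smooth : Algebra.Smooth ℤ_[p] (MvPolynomial (n × n) ℤ_[p] ⧸ D.I)
  one_mem : ∀ (S : Type) [CommRing S] (ζ : ℤ_[p] →+* S), Pt D.I ζ (1 : Matrix n n S)
  mul_mem : ∀ (S : Type) [CommRing S] (ζ : ℤ_[p] →+* S) (g g' : Matrix n n S),
    Pt D.I ζ g → Pt D.I ζ g' → Pt D.I ζ (g * g')
  inv_mem : ∀ (S : Type) [CommRing S] (ζ : ℤ_[p] →+* S) (g : Matrix n n S),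
    Pt D.I ζ g → ∃ g', Pt D.I ζ g' ∧ g * g' = 1
  c_mul : D.c * D.c' = 1
  cochar : ∀ (S : Type) [CommRing S] (κ : WittVector p k →+* S) (t : Sˣ),
    Pt D.I (κ.comp (zO p k))
      (D.c.map κ * Matrix.diagonal (fun i => ((t ^ D.w i : Sˣ) : S)) * D.c'.map κ)
  minuscule : ∀ x : Matrix n n (WittVector p k), IsLie D.I (zO p k) x →
    ∀ i j, 2 ≤ D.w j - D.w i → (D.c' * x * D.c) i j = 0
  u₁_mem : Pt D.I (zO p k) D.u₁
  u₂_mem : Pt D.I (zO p k) D.u₂
  slope : ∀ x : Matrix n n (T p k), IsLie D.I ((toT p k).comp (zO p k)) x →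
    (p : T p k) • (D.b (RingHom.id _) * x.map (fT p k)) = x * D.b (RingHom.id _) → x = 0

/-- `(U, g) ∈ X(R)`: `U ∈ G(W(R))`, `g ∈ G(W(R)[1/p])`, `g⁻¹ b f(g) = U μ^σ(p)`. -/
def IsX {R : Type} [CommRing R] (χ : WittVector p k →+* R) (x : XP p n R) : Prop :=
  Pt D.I (D.zeta χ) x.1 ∧ Pt D.I ((toT p R).comp (D.zeta χ)) x.2 ∧
    D.b (D.iota χ) * x.2.map (fT p R) = x.2 * x.1.map (toT p R) * D.mu (D.iota χ)

/-- In the coordinates `c` (for `τ`) and `σ(c)` (for `σ`) the entry `(i, j)` of the pair has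
degree `w j - w i` in the graded Witt ring. -/
def Graded {R : Type} [CommRing R] (χ : WittVector p k →+* R) (h : HP p n R) : Prop :=
  ∀ i j, Gr (D.w j - D.w i) ((D.c'.map (D.iota χ) * h.1 * D.c.map (D.iota χ)) i j)
    ((D.c'.map ((D.iota χ).comp WittVector.frobenius) * h.2 *
      D.c.map ((D.iota χ).comp WittVector.frobenius)) i j)

/-- `(τ, σ)` is `(τ(h), σ(h))` for a point `h` of the display group `L⁺_μ G (R)`. -/
def IsH {R : Type} [CommRing R] (χ : WittVector p k →+* R) (h : HP p n R) : Prop :=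
  Pt D.I (D.zeta χ) h.1 ∧ Pt D.I (D.zeta χ) h.2 ∧ D.Graded χ h

/-- An object over `(R, χ)` of the fpqc stack `[X / L⁺_μ G]`: a faithfully flat `j : R → C`, a point
`x ∈ X(C)` and a descent datum: isomorphisms `h α β : α^* x → β^* x` for all pairs of
`R`-algebra maps `α, β : C → B`, natural in `B` and transitive. -/
structure Obj {R : Type} [CommRing R] (χ : WittVector p k →+* R) : Type 1 where
  C : Type
  [ring : CommRing C]
  j : R →+* C
  ff : j.FaithfullyFlat
  x : XP p n C
  hx : D.IsX (j.comp χ) x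
  h : ∀ (B : Type) [CommRing B], (C →+* B) → (C →+* B) → HP p n B
  hh : ∀ (B : Type) [CommRing B] (α β : C →+* B), α.comp j = β.comp j →
    D.IsH (α.comp (j.comp χ)) (h B α β)
  act : ∀ (B : Type) [CommRing B] (α β : C →+* B), α.comp j = β.comp j →
    Act (xmap α x) (h B α β) (xmap β x)
  nat : ∀ (B B' : Type) [CommRing B] [CommRing B'] (ψ : B →+* B') (α β : C →+* B),
    α.comp j = β.comp j → hmap ψ (h B α β) = h B' (ψ.comp α) (ψ.comp β)
  coc : ∀ (B : Type) [CommRing B] (α β γ : C →+* B), α.comp j = β.comp j → β.comp j = γ.comp j →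
    h B α β * h B β γ = h B α γ

instance Obj.instCommRing {D : Data p k n} {R : Type} [CommRing R] {χ : WittVector p k →+* R}
    (ξ : D.Obj χ) : CommRing ξ.C := ξ.ring

/-- The base changes of `ξ` along `φ₁ : R₁ → A` and of `η` along `φ₂ : R₂ → A` are isomorphic in the
stack: over a faithfully flat `e : A → A'` refining both covers there is an isomorphism `u` of the
two points of `X` that is compatible with the descent data. -/
def IsoOver {R₁ R₂ A : Type} [CommRing R₁] [CommRing R₂] [CommRing A]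
    {χ₁ : WittVector p k →+* R₁} {χ₂ : WittVector p k →+* R₂}
    (φ₁ : R₁ →+* A) (φ₂ : R₂ →+* A) (ξ : D.Obj χ₁) (η : D.Obj χ₂) : Prop :=
  ∃ (A' : Type) (_ : CommRing A') (e : A →+* A') (α : ξ.C →+* A') (β : η.C →+* A')
    (u : HP p n A'), e.FaithfullyFlat ∧ α.comp ξ.j = e.comp φ₁ ∧ β.comp η.j = e.comp φ₂ ∧
    D.IsH (e.comp (φ₁.comp χ₁)) u ∧ Act (xmap α ξ.x) u (xmap β η.x) ∧
    ∀ (B : Type) [CommRing B] (γ δ : A' →+* B), γ.comp e = δ.comp e →
      ξ.h B (γ.comp α) (δ.comp α) * hmap δ u = hmap γ u * η.h B (γ.comp β) (δ.comp β)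

end Data

/-- `A` with the maps `φ i` is the colimit of the directed system of rings `(R, f)`. -/
structure IsColim {ι : Type} [Preorder ι] (R : ι → Type) [∀ i, CommRing (R i)]
    (f : ∀ i j, i ≤ j → R i →+* R j) (A : Type) [CommRing A] (φ : ∀ i, R i →+* A) : Prop where
  nonempty : Nonempty ι
  directed : ∀ i j : ι, ∃ l, i ≤ l ∧ j ≤ l
  comp : ∀ i j l (hij : i ≤ j) (hjl : j ≤ l), (f j l hjl).comp (f i j hij) = f i l (hij.trans hjl)
  compat : ∀ i j (hij : i ≤ j), (φ j).comp (f i j hij) = φ i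
  surj : ∀ a : A, ∃ i r, φ i r = a
  zero : ∀ i r, φ i r = 0 → ∃ j hij, f i j hij r = 0

end

end Pool.Agent.MP_dc2c90_ag.H20
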