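import Pool.Agent.MP_dc2c90_ag.H20.SpecA

/-!
Smooth faithfully flat algebras over a directed colimit descend to a finite stage.
-/

namespace Pool.Agent.MP_dc2c90_ag.H20

open MvPolynomial TensorProduct

namespace RSmDesc

section colim

variable {ι : Type} [Preorder ι] {R : ι → Type} [∀ i, CommRing (R i)]
  {f : ∀ i j, i ≤ j → R i →+* R j} {A : Type} [CommRing A] {φ : ∀ i, R i →+* A}

theorem ub (h : IsColim R f A φ) {σ : Type} [Finite σ] (g : σ → ι) (i : ι) :
    ∃ l, i ≤ l ∧ ∀ s, g s ≤ l := by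
  have : Nonempty ι := h.nonempty
  have : IsDirectedOrder ι := ⟨h.directed⟩
  obtain ⟨l, hl⟩ := Finite.exists_le g
  obtain ⟨m, h1, h2⟩ := h.directed i l
  exact ⟨m, h1, fun s => (hl s).trans h2⟩

theorem lift_fin (h : IsColim R f A φ) {σ : Type} [Finite σ] (a : σ → A) (i : ι) :
    ∃ (l : ι) (_ : i ≤ l) (r : σ → R l), ∀ s, φ l (r s) = a s := by
  choose g r hr using fun s => h.surj (a s)
  obtain ⟨l, hil, hl⟩ := ub h g i
  refine ⟨l, hil, fun s => f _ _ (hl s) (r s), fun s => ?_⟩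
  rw [← hr s, ← h.compat _ _ (hl s)]
  rfl

theorem kill_fin (h : IsColim R f A φ) {σ : Type} [Finite σ] (i : ι) (r : σ → R i)
    (hr : ∀ s, φ i (r s) = 0) : ∃ (j : ι) (hij : i ≤ j), ∀ s, f i j hij (r s) = 0 := by
  choose g hg hz using fun s => h.zero i (r s) (hr s)
  obtain ⟨l, hil, hl⟩ := ub h g i
  refine ⟨l, hil, fun s => ?_⟩
  have := h.comp i (g s) l (hg s) (hl s)
  rw [← this, RingHom.comp_apply, hz s, map_zero]

theorem factor (h : IsColim R f A φ) (A₀ : Type) [CommRing A₀] [Algebra ℤ A₀]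
    [Algebra.FiniteType ℤ A₀] (g : A₀ →+* A) :
    ∃ (i : ι) (ψ : A₀ →+* R i), (φ i).comp ψ = g := by
  obtain ⟨n, π, hπ⟩ := Algebra.FiniteType.iff_quotient_mvPolynomial''.1
    (inferInstance : Algebra.FiniteType ℤ A₀)
  obtain ⟨i₀⟩ := h.nonempty
  obtain ⟨i, -, r, hr⟩ := lift_fin h (fun s : Fin n => g (π (X s))) i₀
  let θ : MvPolynomial (Fin n) ℤ →+* R i := eval₂Hom (Int.castRingHom _) r
  have hθ : (φ i).comp θ = g.comp π.toRingHom := by
    apply MvPolynomial.ringHom_ext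
    · intro z
      simp
    · intro s
      simp [θ, hr]
  obtain ⟨S, hS⟩ : (RingHom.ker π.toRingHom).FG :=
    (inferInstance : IsNoetherianRing (MvPolynomial (Fin n) ℤ)).noetherian _
  obtain ⟨j, hij, hj⟩ := kill_fin h i (fun s : S => θ s.1) (fun s => by
    have h1 : (s : MvPolynomial (Fin n) ℤ) ∈ RingHom.ker π.toRingHom := by
      rw [← hS]
      exact Ideal.subset_span s.2
    have h2 := RingHom.congr_fun hθ s.1
    rw [RingHom.comp_apply, RingHom.comp_apply, RingHom.mem_ker.1 h1, map_zero] at h2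
    exact h2)
  have hker : RingHom.ker π.toRingHom ≤ RingHom.ker ((f i j hij).comp θ) := by
    rw [← hS, Ideal.span_le]
    intro s hs
    exact hj ⟨s, hs⟩
  refine ⟨j, π.toRingHom.liftOfSurjective hπ ⟨(f i j hij).comp θ, hker⟩, ?_⟩
  ext x
  obtain ⟨y, rfl⟩ := hπ x
  have h3 : (π.toRingHom.liftOfSurjective hπ ⟨(f i j hij).comp θ, hker⟩) (π.toRingHom y) =
      ((f i j hij).comp θ) y := RingHom.liftOfRightInverse_comp_apply _ _ _ _ _
  have h4 := RingHom.congr_fun hθ y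
  have h5 := RingHom.congr_fun (h.compat i j hij) (θ y)
  simp only [RingHom.comp_apply] at h3 h4 h5 ⊢
  exact (congrArg (φ j) h3).trans (h5.trans h4)

theorem top_stage (h : IsColim R f A φ) {A₀ : Type} [CommRing A₀] (i : ι) (ψ : A₀ →+* R i)
    (I : Ideal A₀) (hI : I.map ((φ i).comp ψ) = ⊤) :
    ∃ (j : ι) (hij : i ≤ j), I.map ((f i j hij).comp ψ) = ⊤ := by
  have h1 : (1 : A) ∈ Submodule.span A (((φ i).comp ψ) '' (I : Set A₀)) := by
    have : (1 : A) ∈ I.map ((φ i).comp ψ) := by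
      rw [hI]
      trivial
    exact this
  obtain ⟨n, c, v, hv⟩ := Submodule.mem_span_set'.1 h1
  choose b hb hbv using fun s => (v s).2
  obtain ⟨l, hil, r, hr⟩ := lift_fin h c i
  obtain ⟨j, hlj, hj⟩ := h.zero l (∑ s, r s * f i l hil (ψ (b s)) - 1) (by
    rw [map_sub, map_one, map_sum, ← hv, sub_eq_zero]
    refine Finset.sum_congr rfl fun s _ => ?_
    have h5 := RingHom.congr_fun (h.compat i l hil) (ψ (b s))
    rw [RingHom.comp_apply] at h5
    rw [map_mul, hr, h5, smul_eq_mul, ← hbv s]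
    rfl)
  refine ⟨j, hil.trans hlj, ?_⟩
  rw [Ideal.eq_top_iff_one]
  rw [map_sub, map_one, sub_eq_zero, map_sum] at hj
  rw [← hj]
  refine Ideal.sum_mem _ fun s _ => ?_
  rw [map_mul]
  refine Ideal.mul_mem_left _ _ ?_
  have h6 := RingHom.congr_fun (h.comp i l j hil hlj) (ψ (b s))
  rw [RingHom.comp_apply] at h6
  rw [h6]
  exact Ideal.mem_map_of_mem ((f i j (hil.trans hlj)).comp ψ) (hb s)

end colim

theorem mem_range_baseChange (A₀ S B₀ : Type) [CommRing A₀] [CommRing S] [CommRing B₀]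
    [Algebra A₀ S] [Algebra A₀ B₀] (p : PrimeSpectrum S)
    (hp : PrimeSpectrum.comap (algebraMap A₀ S) p ∈
      Set.range (PrimeSpectrum.comap (algebraMap A₀ B₀))) :
    p ∈ Set.range (PrimeSpectrum.comap (algebraMap S (S ⊗[A₀] B₀))) := by
  rw [← PrimeSpectrum.nontrivial_iff_mem_rangeComap] at hp ⊢
  let k₀ := (PrimeSpectrum.comap (algebraMap A₀ S) p).asIdeal.ResidueField
  let k := p.asIdeal.ResidueField
  let g : k₀ →ₐ[A₀] k := Ideal.ResidueField.mapₐ _ _ (Algebra.ofId A₀ S) rfl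
  let : Algebra k₀ k := g.toRingHom.toAlgebra
  have : IsScalarTower A₀ k₀ k := IsScalarTower.of_algebraMap_eq fun x => (g.commutes x).symm
  have : Nontrivial (k₀ ⊗[A₀] B₀) := hp
  have : Nontrivial (k ⊗[k₀] (k₀ ⊗[A₀] B₀)) := inferInstance
  have : Nontrivial (k ⊗[A₀] B₀) :=
    (Algebra.TensorProduct.cancelBaseChange A₀ k₀ k₀ k B₀).symm.toEquiv.nontrivial
  exact (Algebra.TensorProduct.cancelBaseChange A₀ S S k B₀).toEquiv.nontrivial

theorem exists_ideal (A₀ B₀ : Type) [CommRing A₀] [CommRing B₀] [Algebra A₀ B₀]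
    [Algebra.Smooth A₀ B₀] : ∃ I : Ideal A₀, ∀ p : PrimeSpectrum A₀,
      p ∈ Set.range (PrimeSpectrum.comap (algebraMap A₀ B₀)) ↔ ¬ I ≤ p.asIdeal := by
  have ho : IsOpen (Set.range (PrimeSpectrum.comap (algebraMap A₀ B₀))) :=
    PrimeSpectrum.isOpenMap_comap_of_hasGoingDown_of_finitePresentation.isOpen_range
  obtain ⟨I, hI⟩ := (PrimeSpectrum.isClosed_iff_zeroLocus_ideal _).1 ho.isClosed_compl
  refine ⟨I, fun p => ?_⟩
  have : p ∈ (Set.range (PrimeSpectrum.comap (algebraMap A₀ B₀)))ᶜ ↔ I ≤ p.asIdeal := by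
    rw [hI, PrimeSpectrum.mem_zeroLocus]
    rfl
  rw [← this, Set.mem_compl_iff, not_not]

end RSmDesc

open RSmDesc in
theorem rSmDesc : SSmDesc := by
  intro ι _ R _ f A _ φ h C _ _ hs hff
  obtain ⟨A₀, B₀, _, _, _, _, _, -, hft, hsm, ⟨e⟩⟩ := Algebra.Smooth.exists_finiteType ℤ A C
  obtain ⟨i, ψ, hψ⟩ := factor h A₀ (algebraMap A₀ A)
  obtain ⟨I, hI⟩ := exists_ideal A₀ B₀
  have htop : I.map ((φ i).comp ψ) = ⊤ := by
    rw [hψ]
    by_contra hne
    obtain ⟨m, hm, hle⟩ := Ideal.exists_le_maximal _ hne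
    obtain ⟨q, hq⟩ := PrimeSpectrum.comap_surjective_of_faithfullyFlat (A := A) (B := C)
      ⟨m, hm.isPrime⟩
    let β : B₀ →+* C := (e.symm : A ⊗[A₀] B₀ →+* C).comp
      (Algebra.TensorProduct.includeRight (R := A₀) (A := A) (B := B₀)).toRingHom
    have hβ : β.comp (algebraMap A₀ B₀) = (algebraMap A C).comp (algebraMap A₀ A) := by
      ext x
      have h1 : (1 : A) ⊗ₜ[A₀] (algebraMap A₀ B₀ x) =
          algebraMap A (A ⊗[A₀] B₀) (algebraMap A₀ A x) := by
        rw [Algebra.TensorProduct.algebraMap_apply, Algebra.algebraMap_eq_smul_one x,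
          ← TensorProduct.smul_tmul, Algebra.algebraMap_eq_smul_one x]
        rfl
      change e.symm ((1 : A) ⊗ₜ[A₀] (algebraMap A₀ B₀ x)) = _
      rw [h1, AlgEquiv.commutes]
      rfl
    refine (hI (PrimeSpectrum.comap (algebraMap A₀ A) ⟨m, hm.isPrime⟩)).1
      ⟨PrimeSpectrum.comap β q, ?_⟩ (Ideal.map_le_iff_le_comap.1 hle)
    rw [← PrimeSpectrum.comap_comp_apply, hβ, PrimeSpectrum.comap_comp_apply, hq]
  obtain ⟨j, hij, hj⟩ := top_stage h i ψ I htop
  let : Algebra A₀ (R j) := ((f i j hij).comp ψ).toAlgebra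
  refine ⟨j, R j ⊗[A₀] B₀, inferInstance, inferInstance, ?_, ?_⟩
  · refine Module.FaithfullyFlat.of_comap_surjective fun p => ?_
    refine mem_range_baseChange A₀ (R j) B₀ p ((hI _).2 fun hle => ?_)
    have h2 : I.map ((f i j hij).comp ψ) ≤ p.asIdeal := Ideal.map_le_iff_le_comap.2 hle
    rw [hj] at h2
    exact p.isPrime.ne_top (top_le_iff.1 h2)
  · let : Algebra (R j) A := (φ j).toAlgebra
    have : IsScalarTower A₀ (R j) A := IsScalarTower.of_algebraMap_eq fun x => by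
      have h5 := RingHom.congr_fun (h.compat i j hij) (ψ x)
      have h6 := RingHom.congr_fun hψ x
      rw [RingHom.comp_apply] at h5 h6
      exact (h5.trans h6).symm
    refine ⟨((Algebra.TensorProduct.comm (R j) (R j ⊗[A₀] B₀) A).toRingEquiv.trans
      (Algebra.TensorProduct.cancelBaseChange A₀ (R j) (R j) A B₀).toRingEquiv).trans
      e.symm.toRingEquiv, fun a => ?_⟩
    change e.symm (Algebra.TensorProduct.cancelBaseChange A₀ (R j) (R j) A B₀
      (Algebra.TensorProduct.comm (R j) (R j ⊗[A₀] B₀) A (1 ⊗ₜ a))) = _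
    rw [Algebra.TensorProduct.comm_tmul, Algebra.TensorProduct.one_def,
      Algebra.TensorProduct.cancelBaseChange_tmul, one_smul]
    exact e.symm.commutes a

end Pool.Agent.MP_dc2c90_ag.H20
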