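import Pool.Agent.MP_dc2c90_ag.H20.SpecB
import Pool.Agent.MP_dc2c90_ag.H20.RSmDesc

/-!
From the core statements to arbitrary directed systems.
-/

namespace Pool.Agent.MP_dc2c90_ag.H20

open WittVector TensorProduct

noncomputable section

variable {p : ℕ} [Fact p.Prime] {n : Type} [Fintype n] [DecidableEq n] {k : Type} [Field k]
  [CharP k p] {D : Data p k n}

theorem IsColim.restrict {ι : Type} [Preorder ι] {R : ι → Type} [∀ i, CommRing (R i)]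
    {f : ∀ i j, i ≤ j → R i →+* R j} {A : Type} [CommRing A] {φ : ∀ i, R i →+* A}
    (h : IsColim R f A φ) (i : ι) :
    IsColim (fun j : {j // i ≤ j} => R j.1) (fun j l hjl => f j.1 l.1 hjl) A (fun j => φ j.1) where
  nonempty := ⟨⟨i, le_rfl⟩⟩
  directed j l := by
    obtain ⟨m, h1, h2⟩ := h.directed j.1 l.1
    exact ⟨⟨m, j.2.trans h1⟩, h1, h2⟩
  comp j l m h1 h2 := h.comp j.1 l.1 m.1 h1 h2
  compat j l h1 := h.compat j.1 l.1 h1
  surj a := by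
    obtain ⟨j, r, rfl⟩ := h.surj a
    obtain ⟨m, h1, h2⟩ := h.directed i j
    exact ⟨⟨m, h1⟩, f j m h2 r, RingHom.congr_fun (h.compat j m h2) r⟩
  zero j r hr := by
    obtain ⟨l, h1, h2⟩ := h.zero j.1 r hr
    exact ⟨⟨l, j.2.trans h1⟩, h1, h2⟩

theorem fin_surj (hI : SIso D) (ha : SA1a D) (hb : SA1b D) (hS : SCoreS D)
    {ι : Type} [Preorder ι] {R : ι → Type} [∀ i, CommRing (R i)]
    {f : ∀ i j, i ≤ j → R i →+* R j} {A : Type} [CommRing A] {φ : ∀ i, R i →+* A}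
    {χ : ∀ i, WittVector p k →+* R i} {χA : WittVector p k →+* A} (h : IsSys p R f A φ χ χA)
    (ξ : D.Obj χA) : ∃ (i : ι) (η : D.Obj (χ i)), D.IsoOver (RingHom.id A) (φ i) ξ η := by
  obtain ⟨i₀⟩ := h.colim.nonempty
  have hA : IsNilpotent (p : A) := isNilpotent_p_map (φ i₀) (h.nil i₀)
  obtain ⟨C₁, _, j₁, E, _, α, e, u, h1, h2, h3, h4, h5, h6⟩ := ha A χA hA ξ
  obtain ⟨η, hη, hiso⟩ := hb A χA ξ C₁ j₁ E α e u h1 h2 h3 h4 h5 h6
  let _ : Algebra A η.C := η.j.toAlgebra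
  obtain ⟨i, B, _, _, hB, ρ, hρ⟩ := rSmDesc ι R f A φ h.colim η.C hη.toAlgebra η.ff
  let inst : ∀ j : {j // i ≤ j}, Algebra (R i) (R j.1) := fun j => (f i j.1 j.2).toAlgebra
  let instA : Algebra (R i) A := (φ i).toAlgebra
  let f' : ∀ j l : {j // i ≤ j}, j ≤ l → (R j.1 →ₐ[R i] R l.1) := fun j l hjl =>
    { f j.1 l.1 hjl with
      commutes' := fun r => RingHom.congr_fun (h.colim.comp i j.1 l.1 j.2 hjl) r }
  let φ' : ∀ j : {j // i ≤ j}, R j.1 →ₐ[R i] A := fun j =>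
    { φ j.1 with commutes' := fun r => RingHom.congr_fun (h.colim.compat i j.1 j.2) r }
  obtain ⟨l, ζ, hζ⟩ := hS (R i) {j // i ≤ j} (fun j => R j.1) f' A φ' (fun j => χ j.1) χA
    ⟨h.colim.restrict i, fun j l hjl => h.fχ j.1 l.1 hjl, fun j => h.φχ j.1, fun j => h.nil j.1⟩
    B hB η ρ hρ
  exact ⟨l.1, ζ, hI.trans _ _ _ _ _ _ _ _ _ _ ξ η ζ rfl hiso hζ⟩

theorem fin_inj (hC : SCoreI D)
    {ι : Type} [Preorder ι] {R : ι → Type} [∀ i, CommRing (R i)]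
    {f : ∀ i j, i ≤ j → R i →+* R j} {A : Type} [CommRing A] {φ : ∀ i, R i →+* A}
    {χ : ∀ i, WittVector p k →+* R i} {χA : WittVector p k →+* A} (h : IsSys p R f A φ χ χA)
    (i : ι) (ξ η : D.Obj (χ i)) (hiso : D.IsoOver (φ i) (φ i) ξ η) :
    ∃ (j : ι) (hij : i ≤ j), D.IsoOver (f i j hij) (f i j hij) ξ η := by
  let inst : ∀ j : {j // i ≤ j}, Algebra (R i) (R j.1) := fun j => (f i j.1 j.2).toAlgebra
  let instA : Algebra (R i) A := (φ i).toAlgebra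
  let f' : ∀ j l : {j // i ≤ j}, j ≤ l → (R j.1 →ₐ[R i] R l.1) := fun j l hjl =>
    { f j.1 l.1 hjl with
      commutes' := fun r => RingHom.congr_fun (h.colim.comp i j.1 l.1 j.2 hjl) r }
  let φ' : ∀ j : {j // i ≤ j}, R j.1 →ₐ[R i] A := fun j =>
    { φ j.1 with commutes' := fun r => RingHom.congr_fun (h.colim.compat i j.1 j.2) r }
  have e1 : (fun j : {j // i ≤ j} => (algebraMap (R i) (R j.1)).comp (χ i)) =
      fun j : {j // i ≤ j} => χ j.1 :=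
    funext fun j => h.fχ i j.1 j.2
  have e2 : (algebraMap (R i) A).comp (χ i) = χA := h.φχ i
  obtain ⟨l, hl⟩ := hC (R i) {j // i ≤ j} (fun j => R j.1) f' A φ' (χ i)
    (by
      rw [e1, e2]
      exact ⟨h.colim.restrict i, fun j l hjl => h.fχ j.1 l.1 hjl, fun j => h.φχ j.1,
        fun j => h.nil j.1⟩)
    ξ η hiso
  exact ⟨l.1, l.2, hl⟩

end

end Pool.Agent.MP_dc2c90_ag.H20
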