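import Pool.Agent.MP_dc2c90_ag.H20.SpecA

/-!
Effective descent of a smooth affine scheme with a section.
-/

namespace Pool.Agent.MP_dc2c90_ag.H20

open TensorProduct Algebra.TensorProduct

namespace RDesc

theorem productMap_self {R C B A : Type} [CommRing R] [CommRing C] [CommRing B] [CommRing A]
    [Algebra R C] [Algebra R B] [Algebra R A] (ψ : C ⊗[R] B →ₐ[R] A) :
    productMap (ψ.comp includeLeft) (ψ.comp includeRight) = ψ :=
  Algebra.TensorProduct.ext' fun c x => by
    simp only [AlgHom.comp_apply, productMap_apply_tmul, ← map_mul, includeLeft_apply,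
      includeRight_apply, tmul_mul_tmul, mul_one, one_mul]

/-- The comonadic form of descent. -/
theorem bij {R C M : Type} [CommRing R] [CommRing C] [CommRing M] [Algebra R C] [Algebra R M]
    [Module.Flat R C] (ι : C →ₐ[R] M) (θ : M →ₐ[R] C ⊗[R] M) (h0 : θ.comp ι = includeLeft)
    (h1 : (productMap ι (AlgHom.id R M)).comp θ = AlgHom.id R M)
    (h2 : ∀ (A : Type) [CommRing A] [Algebra R A] (α : C →ₐ[R] A) (ρ : C ⊗[R] M →ₐ[R] A),
      (productMap α (ρ.comp θ)).comp θ = (productMap α (ρ.comp includeRight)).comp θ) :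
    Function.Bijective (productMap ι (AlgHom.equalizer θ includeRight).val) := by
  have hθ : Function.Injective θ :=
    Function.LeftInverse.injective (g := productMap ι (AlgHom.id R M)) (AlgHom.congr_fun h1)
  have hμ : ∀ z, θ (productMap ι (AlgHom.equalizer θ includeRight).val z) =
      (AlgHom.equalizer θ includeRight).val.toLinearMap.lTensor C z := by
    intro z
    induction z with
    | zero => simp
    | add x y hx hy => simp only [map_add, hx, hy]
    | tmul c m =>
      have e1 : θ (ι c) = c ⊗ₜ 1 := AlgHom.congr_fun h0 c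
      have e2 : θ m = 1 ⊗ₜ (m : M) := m.2
      simp [e1, e2]
  constructor
  · refine Function.Injective.of_comp (f := θ) ?_
    have := Module.Flat.lTensor_preserves_injective_linearMap (M := C)
      (AlgHom.equalizer θ includeRight).val.toLinearMap Subtype.val_injective
    rwa [← funext hμ] at this
  · intro m
    have hex : Function.Exact (AlgHom.equalizer θ includeRight).val.toLinearMap
        (θ.toLinearMap - (includeRight : M →ₐ[R] C ⊗[R] M).toLinearMap) := by
      intro y
      rw [LinearMap.sub_apply, sub_eq_zero]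
      exact ⟨fun h => ⟨⟨y, h⟩, rfl⟩, by rintro ⟨x, rfl⟩; exact x.2⟩
    obtain ⟨z, hz⟩ := (Module.Flat.lTensor_exact C hex (θ m)).1 (by
      rw [LinearMap.lTensor_sub, LinearMap.sub_apply, sub_eq_zero]
      have e : ∀ (f : M →ₐ[R] C ⊗[R] M) (y : C ⊗[R] M), f.toLinearMap.lTensor C y =
          productMap (S := C ⊗[R] (C ⊗[R] M)) includeLeft (includeRight.comp f) y := by
        intro f y
        induction y with
        | zero => simp
        | add x y hx hy => simp only [map_add, hx, hy]
        | tmul c x => simp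
      rw [e, e]
      exact AlgHom.congr_fun (h2 (C ⊗[R] (C ⊗[R] M)) includeLeft includeRight) m)
    exact ⟨z, hθ ((hμ z).trans hz)⟩

/-- The statement for an abstract coproduct `M` of `C` and `B`. -/
theorem main {R C B M : Type} [CommRing R] [CommRing C] [CommRing B] [CommRing M] [Algebra R C]
    [Algebra R B] [Algebra R M] [Algebra C M] [IsScalarTower R C M] [Module.FaithfullyFlat R C]
    [Algebra.Smooth C M] (s : B →ₐ[R] R) (ι : C →ₐ[R] M) (hι : ∀ c, ι c = algebraMap C M c)
    (κ : B →ₐ[R] M)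
    (L : ∀ (A : Type) [CommRing A] [Algebra R A], (C →ₐ[R] A) → (B →ₐ[R] A) → (M →ₐ[R] A))
    (L1 : ∀ (A : Type) [CommRing A] [Algebra R A] α b, (L A α b).comp ι = α)
    (L2 : ∀ (A : Type) [CommRing A] [Algebra R A] α b, (L A α b).comp κ = b)
    (L3 : ∀ (A : Type) [CommRing A] [Algebra R A] (f g : M →ₐ[R] A), f.comp ι = g.comp ι →
      f.comp κ = g.comp κ → f = g)
    (Φ : ∀ (A : Type) [CommRing A] [Algebra R A],
      (C →ₐ[R] A) → (C →ₐ[R] A) → (B →ₐ[R] A) → (B →ₐ[R] A))
    (nat : ∀ (A A' : Type) [CommRing A] [Algebra R A] [CommRing A'] [Algebra R A'] (ψ : A →ₐ[R] A')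
      (α β : C →ₐ[R] A) (b : B →ₐ[R] A),
      ψ.comp (Φ A α β b) = Φ A' (ψ.comp α) (ψ.comp β) (ψ.comp b))
    (refl : ∀ (A : Type) [CommRing A] [Algebra R A] (α : C →ₐ[R] A) (b : B →ₐ[R] A), Φ A α α b = b)
    (coc : ∀ (A : Type) [CommRing A] [Algebra R A] (α β γ : C →ₐ[R] A) (b : B →ₐ[R] A),
      Φ A α β (Φ A β γ b) = Φ A α γ b) :
    ∃ (C₁ : Type) (_ : CommRing C₁) (_ : Algebra R C₁),
      Algebra.Smooth R C₁ ∧ Module.FaithfullyFlat R C₁ ∧
      ∃ u : B →ₐ[R] C ⊗[R] C₁, ∀ (A : Type) [CommRing A] [Algebra R A] (α β : C →ₐ[R] A)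
        (γ : C₁ →ₐ[R] A),
        Φ A α β ((Algebra.TensorProduct.productMap β γ).comp u) =
          (Algebra.TensorProduct.productMap α γ).comp u := by
  obtain ⟨θ, hθ⟩ : ∃ θ : M →ₐ[R] C ⊗[R] M, θ = L (C ⊗[R] M) includeLeft
      (Φ (C ⊗[R] M) includeLeft (includeRight.comp ι) (includeRight.comp κ)) := ⟨_, rfl⟩
  have h0 : θ.comp ι = includeLeft := hθ ▸ L1 (C ⊗[R] M) _ _
  have h0' : θ.comp κ = Φ (C ⊗[R] M) includeLeft (includeRight.comp ι) (includeRight.comp κ) :=
    hθ ▸ L2 (C ⊗[R] M) _ _
  have k1 : ∀ (A : Type) [CommRing A] [Algebra R A] (α : C →ₐ[R] A) (f : M →ₐ[R] A),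
      ((productMap α f).comp θ).comp ι = α := by
    intro A _ _ α f
    rw [AlgHom.comp_assoc, h0, productMap_left]
  have k2 : ∀ (A : Type) [CommRing A] [Algebra R A] (α : C →ₐ[R] A) (f : M →ₐ[R] A),
      ((productMap α f).comp θ).comp κ = Φ A α (f.comp ι) (f.comp κ) := by
    intro A _ _ α f
    rw [AlgHom.comp_assoc, h0']
    refine (nat (C ⊗[R] M) A _ _ _ _).trans ?_
    rw [productMap_left, ← AlgHom.comp_assoc, ← AlgHom.comp_assoc, productMap_right]
  have h1 : (productMap ι (AlgHom.id R M)).comp θ = AlgHom.id R M :=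
    L3 _ _ _ (k1 _ _ _) ((k2 _ _ _).trans (refl _ _ _))
  have h2 : ∀ (A : Type) [CommRing A] [Algebra R A] (α : C →ₐ[R] A) (ρ : C ⊗[R] M →ₐ[R] A),
      (productMap α (ρ.comp θ)).comp θ = (productMap α (ρ.comp includeRight)).comp θ := by
    intro A _ _ α ρ
    refine L3 _ _ _ ((k1 _ _ _).trans (k1 _ _ _).symm) ?_
    have e1 := k1 A (ρ.comp includeLeft) (ρ.comp includeRight)
    have e2 := k2 A (ρ.comp includeLeft) (ρ.comp includeRight)
    rw [productMap_self] at e1 e2
    rw [k2, k2, e1, e2, coc]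
  have hb := bij ι θ h0 h1 h2
  let μ₀ : (C ⊗[R] AlgHom.equalizer θ includeRight) →ₐ[C] M :=
    Algebra.TensorProduct.lift (Algebra.ofId C M) (AlgHom.equalizer θ includeRight).val
      fun _ _ => Commute.all _ _
  have hμ₀ : ∀ z, productMap ι (AlgHom.equalizer θ includeRight).val z = μ₀ z := by
    intro z
    induction z with
    | zero => simp
    | add x y hx hy => simp only [map_add, hx, hy]
    | tmul c m =>
      rw [productMap_apply_tmul, hι]
      rfl
  let μ : (C ⊗[R] AlgHom.equalizer θ includeRight) ≃ₐ[C] M :=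
    AlgEquiv.ofBijective μ₀ (by rwa [← funext hμ₀])
  have hμ : ∀ c m, μ (c ⊗ₜ m) = ι c * m := fun c m => by
    rw [hι]
    rfl
  have : Algebra.Smooth C (C ⊗[R] AlgHom.equalizer θ includeRight) := .of_equiv μ.symm
  have hs : Algebra.Smooth R (AlgHom.equalizer θ includeRight) :=
    .of_smooth_tensorProduct_of_faithfullyFlat C
  refine ⟨AlgHom.equalizer θ includeRight, inferInstance, inferInstance, hs, ?_,
    (μ.symm.toAlgHom.restrictScalars R).comp κ, fun A _ _ α β γ => ?_⟩
  · refine .of_comap_surjective fun P => ?_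
    obtain ⟨Q, rfl⟩ := PrimeSpectrum.comap_surjective_of_faithfullyFlat (B := C) P
    let g : AlgHom.equalizer θ includeRight →ₐ[R] C :=
      (L C (AlgHom.id R C) ((Algebra.ofId R C).comp s)).comp
        (AlgHom.equalizer θ includeRight).val
    refine ⟨PrimeSpectrum.comap g.toRingHom Q, ?_⟩
    rw [← PrimeSpectrum.comap_comp_apply]
    exact congrArg (fun f => PrimeSpectrum.comap f Q) g.comp_algebraMap
  · let ν : M →ₐ[R] C ⊗[R] AlgHom.equalizer θ includeRight :=
      μ.symm.toAlgHom.restrictScalars R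
    have hν : ∀ z, ν (μ z) = z := μ.symm_apply_apply
    have hν1 : ν.comp ι = includeLeft := AlgHom.ext fun c => by
      refine Eq.trans (congrArg ν ?_) (hν (c ⊗ₜ 1))
      rw [hμ, OneMemClass.coe_one, mul_one]
      rfl
    have e1 : (((productMap β γ).comp ν).comp ι) = β := by
      rw [AlgHom.comp_assoc, hν1, productMap_left]
    have e2 := k2 A α ((productMap β γ).comp ν)
    rw [e1] at e2
    have e3 : ∀ z, ((productMap α ((productMap β γ).comp ν)).comp θ) (μ z) = productMap α γ z := by
      intro z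
      induction z with
      | zero => simp
      | add x y hx hy => simp only [map_add, hx, hy]
      | tmul c m =>
        have a1 : θ (ι c) = c ⊗ₜ 1 := AlgHom.congr_fun h0 c
        have a2 : θ m = 1 ⊗ₜ (m : M) := m.2
        have a3 : ν m = 1 ⊗ₜ m := by
          refine Eq.trans (congrArg ν ?_) (hν (1 ⊗ₜ m))
          rw [hμ, map_one, one_mul]
        rw [hμ, AlgHom.comp_apply, map_mul θ, a1, a2,
          map_mul, productMap_left_apply, productMap_right_apply, AlgHom.comp_apply, a3,
          productMap_right_apply, productMap_apply_tmul]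
    refine e2.symm.trans (AlgHom.ext fun b => ?_)
    have e4 := e3 (μ.symm (κ b))
    rw [AlgEquiv.apply_symm_apply] at e4
    exact e4

end RDesc

theorem rDesc : SDesc := by
  rintro R C B _ _ _ _ _ hff hsm ⟨s⟩ Φ nat refl coc
  exact RDesc.main (M := C ⊗[R] B) s includeLeft (fun _ => rfl) includeRight
    (fun _ _ _ α b => productMap α b) (fun _ _ _ α b => productMap_left α b)
    (fun _ _ _ α b => productMap_right α b)
    (fun _ _ _ _ _ h h' => Algebra.TensorProduct.ext h h') Φ nat refl coc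

end Pool.Agent.MP_dc2c90_ag.H20
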