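import Pool.Agent.MP_dc2c90_ag.H20.SpecB
import Pool.Agent.MP_dc2c90_ag.H20.RDesc

/-!
The torsor of an object is trivial over a smooth cover.
-/

namespace Pool.Agent.MP_dc2c90_ag.H20

open WittVector TensorProduct Algebra.TensorProduct

variable {p : ℕ} [Fact p.Prime] {n : Type} [Fintype n] [DecidableEq n] {k : Type} [Field k]
  [CharP k p] {D : Data p k n}

namespace RA1a

/-- Trivialisation modulo `V^m`. -/
theorem trunc (hD : D.Good) (h1 : STrunc D) {R : Type} [CommRing R] (χ : WittVector p k →+* R)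
    (hp : IsNilpotent (p : R)) (ξ : D.Obj χ) {m : ℕ} (hm : 1 ≤ m) :
    ∃ (C₁ : Type) (_ : CommRing C₁) (j₁ : R →+* C₁) (E : Type) (_ : CommRing E)
      (α : ξ.C →+* E) (e : C₁ →+* E) (u : HP p n E),
      j₁.Smooth ∧ j₁.FaithfullyFlat ∧ e.FaithfullyFlat ∧ α.comp ξ.j = e.comp j₁ ∧
      D.IsH (e.comp (j₁.comp χ)) u ∧
      ∀ (B : Type) [CommRing B] (a b : E →+* B), a.comp e = b.comp e →
        Cong m (ξ.h B (a.comp α) (b.comp α) * hmap b u) (hmap a u) := by
  let _ : Algebra R ξ.C := ξ.j.toAlgebra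
  have ff : Module.FaithfullyFlat R ξ.C := ξ.ff
  obtain ⟨B, _, _, sm, tr, nat, surj, iff⟩ := h1 R χ hp m hm
  choose sec hsec tsec using surj
  have cj : ∀ (A : Type) [CommRing A] [Algebra R A] (α : ξ.C →ₐ[R] A),
      α.toRingHom.comp ξ.j = algebraMap R A := fun A _ _ α => α.comp_algebraMap
  have cc : ∀ (A : Type) [CommRing A] [Algebra R A] (α β : ξ.C →ₐ[R] A),
      α.toRingHom.comp ξ.j = β.toRingHom.comp ξ.j := fun A _ _ α β =>
    (cj A α).trans (cj A β).symm
  have hh : ∀ (A : Type) [CommRing A] [Algebra R A] (α β : ξ.C →ₐ[R] A),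
      D.IsH ((algebraMap R A).comp χ) (ξ.h A α.toRingHom β.toRingHom) := fun A _ _ α β => by
    have := ξ.hh A _ _ (cc A α β)
    rwa [← RingHom.comp_assoc, cj] at this
  have key : ∀ (A : Type) [CommRing A] [Algebra R A] (f g : HP p n A),
      D.IsH ((algebraMap R A).comp χ) f → D.IsH ((algebraMap R A).comp χ) g →
      tr A (f * sec A (tr A g)) = tr A (f * g) := fun A _ _ f g hf hg =>
    (iff A _ _ (hD.isH_mul hf (hsec A _)) (hD.isH_mul hf hg)).2
      (((iff A _ _ (hsec A _) hg).1 (tsec A _)).mul_left f)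
  have mp : ∀ (A A' : Type) [CommRing A] [Algebra R A] [CommRing A'] [Algebra R A']
      (ψ : A →ₐ[R] A') (b : B →ₐ[R] A),
      D.IsH ((algebraMap R A').comp χ) (hmap ψ.toRingHom (sec A b)) ∧
        ψ.comp b = tr A' (hmap ψ.toRingHom (sec A b)) := fun A A' _ _ _ _ ψ b =>
    ⟨(hsec A b).map _ (congrArg (·.comp χ) ψ.comp_algebraMap), by
      rw [nat A A' ψ _ (hsec A b), tsec]⟩
  obtain ⟨C₁, _, _, sm1, ff1, u, hu⟩ := rDesc R ξ.C B ff sm ⟨tr R 1⟩
    (fun A _ _ α β b => tr A (ξ.h A α.toRingHom β.toRingHom * sec A b))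
    (fun A A' _ _ _ _ ψ α β b => by
      rw [← nat A A' ψ _ (hD.isH_mul (hh A α β) (hsec A b)), hmap_mul, ξ.nat A A' _ _ _ (cc A α β),
        (mp A A' ψ b).2, key A' _ _ (hh A' _ _) (mp A A' ψ b).1]
      rfl)
    (fun A _ _ α b => by
      have e := congrArg (hinv (ξ.h A α.toRingHom α.toRingHom) * ·) (ξ.coc A α.toRingHom _ _ rfl rfl)
      simp only [← mul_assoc, hD.hinv_mul (hh A α α), one_mul] at e
      rw [e, one_mul, tsec])
    (fun A _ _ α β γ b => by
      rw [key A _ _ (hh A α β) (hD.isH_mul (hh A β γ) (hsec A b)), ← mul_assoc,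
        ξ.coc A _ _ _ (cc A α β) (cc A β γ)])
  have e0 : (inR R ξ.C C₁).comp (algebraMap R C₁) = algebraMap R (ξ.C ⊗[R] C₁) :=
    (includeRight : C₁ →ₐ[R] ξ.C ⊗[R] C₁).comp_algebraMap
  refine ⟨C₁, inferInstance, algebraMap R C₁, ξ.C ⊗[R] C₁, inferInstance, inL R ξ.C C₁,
    inR R ξ.C C₁, sec _ u, RingHom.smooth_algebraMap.2 sm1,
    RingHom.faithfullyFlat_algebraMap_iff.2 ff1, inR_ff, inL_comp_algebraMap, ?_,
    fun A _ a b hab => ?_⟩
  · rw [← RingHom.comp_assoc, e0]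
    exact hsec _ u
  let _ : Algebra R A := (a.comp (algebraMap R (ξ.C ⊗[R] C₁))).toAlgebra
  let a' : ξ.C ⊗[R] C₁ →ₐ[R] A := { a with commutes' := fun _ => rfl }
  let b' : ξ.C ⊗[R] C₁ →ₐ[R] A := { b with
    commutes' := RingHom.congr_fun (f := b.comp (algebraMap R _)) (g := a.comp (algebraMap R _)) (by
      rw [← e0, ← RingHom.comp_assoc, ← hab, RingHom.comp_assoc]) }
  have ea : productMap (a'.comp includeLeft) (a'.comp includeRight) = a' :=
    Algebra.TensorProduct.ext (productMap_left _ _) (productMap_right _ _)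
  have eb : productMap (b'.comp includeLeft) (a'.comp includeRight) = b' :=
    Algebra.TensorProduct.ext (productMap_left _ _) ((productMap_right _ _).trans
      (AlgHom.ext (RingHom.congr_fun hab)))
  have k := hu A (a'.comp includeLeft) (b'.comp includeLeft) (a'.comp includeRight)
  rw [ea, eb, (mp _ A a' u).2, (mp _ A b' u).2, key A _ _ (hh A _ _) (mp _ A b' u).1] at k
  have r := (iff A _ _ (hD.isH_mul (hh A (a'.comp includeLeft) (b'.comp includeLeft))
    (mp _ A b' u).1) (mp _ A a' u).1).1 k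
  exact r

end RA1a

theorem rA1a (hD : D.Good) (h1 : STrunc D) (h2 : SLim D) : SA1a D := by
  intro R _ χ hp ξ
  obtain ⟨s, hs⟩ := id hp
  obtain ⟨C₁, _, j₁, E, _, α, e, u, sm, f1, f2, he, hu, hc⟩ :=
    RA1a.trunc hD h1 χ hp ξ (m := s + 1) (by omega)
  have c1 : ∀ (B : Type) [CommRing B] (a : E →+* B),
      (a.comp α).comp ξ.j = (a.comp e).comp j₁ := fun B _ a => by
    rw [RingHom.comp_assoc, he, RingHom.comp_assoc]
  have c2 : ∀ (B : Type) [CommRing B] (a b : E →+* B), a.comp e = b.comp e →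
      (a.comp α).comp ξ.j = (b.comp α).comp ξ.j := fun B _ a b h => by rw [c1, c1, h]
  have m1 : ∀ (B : Type) [CommRing B] (a : E →+* B),
      D.IsH (a.comp (e.comp (j₁.comp χ))) (hmap a u) := fun B _ a => hu.map a rfl
  obtain ⟨v, hv, hk⟩ := h2 C₁ E (j₁.comp χ) e s (s + 1)
    (fun B _ a b => hinv (hmap a u) * (ξ.h B (a.comp α) (b.comp α) * hmap b u)) f2
    (by simpa using congrArg j₁ hs) (by omega) (by omega)
    ⟨fun B _ a b h => by
      refine hD.isH_mul (hD.isH_inv (m1 B a)) (hD.isH_mul ?_ (hu.map b ?_))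
      · have := ξ.hh B _ _ (c2 B a b h)
        rwa [← RingHom.comp_assoc, c1] at this
      · rw [← RingHom.comp_assoc, ← h, RingHom.comp_assoc],
    fun B B' _ _ ψ a b h => by
      rw [hmap_mul, hmap_mul, hD.hmap_hinv (m1 B a), hmap_hmap, hmap_hmap,
        ξ.nat B B' ψ _ _ (c2 B a b h)]
      rfl,
    fun B _ a b c h h' => by
      rw [← ξ.coc B _ _ _ (c2 B a b h) (c2 B b c h')]
      simp only [mul_assoc]
      rw [← mul_assoc (hmap b u), hD.mul_hinv (m1 B b), one_mul]⟩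
    (fun B _ a b h => by
      rw [← hD.hinv_mul (m1 B a)]
      exact (hc B a b h).mul_left _)
  refine ⟨C₁, inferInstance, j₁, E, inferInstance, α, e, u * v, sm, f1, f2, he, hD.isH_mul hu hv,
    fun B _ a b h => ?_⟩
  rw [hmap_mul, hmap_mul, ← hk B a b h]
  simp only [mul_assoc]
  rw [← mul_assoc (hmap a u), hD.mul_hinv (m1 B a), one_mul]

end Pool.Agent.MP_dc2c90_ag.H20
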