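import Pool.Agent.MP_dc2c90_ag.H20.SpecA

/-! Dwork's lemma and the map `W(k) → W(W(k))`. -/

namespace Pool.Agent.MP_dc2c90_ag.H20

open Finset

namespace RDelta

variable {O : Type} [CommRing O] (p : ℕ)

/-- ghost coordinates of a sequence -/
def gh (y : ℕ → O) (n : ℕ) : O := ∑ i ∈ range (n + 1), (p : O) ^ i * y i ^ p ^ (n - i)

theorem gh_congr {y y' : ℕ → O} {n : ℕ} (h : ∀ i ≤ n, y i = y' i) : gh p y n = gh p y' n :=
  sum_congr rfl fun i hi => by rw [h i (Nat.lt_succ_iff.1 (mem_range.1 hi))]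

theorem cancel (ht : ∀ x : O, (p : O) * x = 0 → x = 0) (m : ℕ) {a b : O}
    (h : (p : O) ^ m * a = (p : O) ^ m * b) : a = b := by
  induction m with
  | zero => simpa using h
  | succ m ih =>
    refine ih (sub_eq_zero.1 (ht _ ?_))
    rw [mul_sub, ← mul_assoc, ← mul_assoc, ← pow_succ', h, sub_self]

theorem uniq (ht : ∀ x : O, (p : O) * x = 0 → x = 0) {y y' : ℕ → O} {n : ℕ}
    (h : ∀ m < n, gh p y m = gh p y' m) : ∀ m < n, y m = y' m := by
  intro m
  induction m using Nat.strong_induction_on with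
  | _ m ih =>
    intro hm
    have h1 := h m hm
    rw [gh, gh, sum_range_succ, sum_range_succ, Nat.sub_self, pow_zero, pow_one, pow_one,
      sum_congr rfl fun i hi => by rw [ih i (mem_range.1 hi) ((mem_range.1 hi).trans hm)]] at h1
    exact cancel p ht m (add_left_cancel h1)

theorem step (σ : O →+* O) (hσ : ∀ x, (p : O) ∣ σ x - x ^ p) (y : ℕ → O) (n : ℕ) :
    ∃ c, gh p (Function.update y (n + 1) c) (n + 1) = σ (gh p y n) := by
  have h1 : (p : O) ^ (n + 1) ∣ σ (gh p y n) -
      ∑ i ∈ range (n + 1), (p : O) ^ i * y i ^ p ^ (n + 1 - i) := by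
    rw [gh, map_sum, ← sum_sub_distrib]
    refine dvd_sum fun i hi => ?_
    have hi' : i ≤ n := Nat.lt_succ_iff.1 (mem_range.1 hi)
    have h2 := dvd_sub_pow_of_dvd_sub (hσ (y i)) (n - i)
    have e1 : n + 1 - i = (n - i) + 1 := by omega
    have e2 : n + 1 = i + (n - i + 1) := by omega
    rw [map_mul, map_pow, map_pow, map_natCast, ← mul_sub, e1, pow_succ' p (n - i), pow_mul]
    conv_lhs => rw [e2, pow_add]
    exact mul_dvd_mul_left _ h2
  obtain ⟨c, hc⟩ := h1
  refine ⟨c, ?_⟩
  rw [gh, sum_range_succ, Function.update_self, Nat.sub_self, pow_zero, pow_one, ← hc,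
    sum_congr rfl fun i hi => by rw [Function.update_of_ne (mem_range.1 hi).ne]]
  ring

theorem finite_stage (σ : O →+* O) (hσ : ∀ x, (p : O) ∣ σ x - x ^ p) (x : O) (n : ℕ) :
    ∃ y : ℕ → O, ∀ m < n + 1, gh p y m = σ^[m] x := by
  induction n with
  | zero =>
    refine ⟨fun _ => x, fun m hm => ?_⟩
    obtain rfl : m = 0 := by omega
    simp [gh]
  | succ n ih =>
    obtain ⟨y, hy⟩ := ih
    obtain ⟨c, hc⟩ := step p σ hσ y n
    refine ⟨Function.update y (n + 1) c, fun m hm => ?_⟩
    rcases Nat.lt_succ_iff_lt_or_eq.1 hm with h | rfl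
    · rw [← hy m h]
      exact gh_congr p fun i hi => Function.update_of_ne (by omega) _ _
    · rw [hc, hy n (Nat.lt_succ_self n), Function.iterate_succ_apply']

theorem dwork (ht : ∀ x : O, (p : O) * x = 0 → x = 0) (σ : O →+* O)
    (hσ : ∀ x, (p : O) ∣ σ x - x ^ p) (x : O) : ∃ y : ℕ → O, ∀ m, gh p y m = σ^[m] x := by
  choose Y hY using finite_stage p σ hσ x
  refine ⟨fun m => Y m m, fun m => ?_⟩
  rw [← hY m m (Nat.lt_succ_self m)]
  refine gh_congr p fun i hi => ?_
  exact uniq p ht (n := i + 1) (fun j hj => (hY i j hj).trans (hY m j (by omega)).symm) i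
    (Nat.lt_succ_self i)

variable [Fact p.Prime]

theorem ghost_eq (m : ℕ) (z : WittVector p O) :
    WittVector.ghostComponent m z = gh p z.coeff m := by
  rw [WittVector.ghostComponent_apply, aeval_wittPolynomial]; rfl

theorem ghost_inj (ht : ∀ x : O, (p : O) * x = 0 → x = 0) {z z' : WittVector p O}
    (h : ∀ m, WittVector.ghostComponent m z = WittVector.ghostComponent m z') : z = z' := by
  ext m
  exact uniq p ht (n := m + 1) (fun j _ => by rw [← ghost_eq, ← ghost_eq, h]) m
    (Nat.lt_succ_self m)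

theorem exists_hom (ht : ∀ x : O, (p : O) * x = 0 → x = 0) (σ : O →+* O)
    (hσ : ∀ x, (p : O) ∣ σ x - x ^ p) : ∃ Δ : O →+* WittVector p O, ∀ (m : ℕ) (x : O),
      WittVector.ghostComponent m (Δ x) = σ^[m] x := by
  choose y hy using dwork p ht σ hσ
  have h : ∀ (m : ℕ) (x : O), WittVector.ghostComponent m (WittVector.mk p (y x)) = (σ ^ m) x :=
    fun m x => by rw [ghost_eq, RingHom.coe_pow, ← hy]; rfl
  refine ⟨{ toFun := fun x => WittVector.mk p (y x)
            map_one' := ghost_inj p ht fun m => by rw [h, map_one, map_one]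
            map_mul' := fun a b => ghost_inj p ht fun m => by rw [map_mul, h, h, h, map_mul]
            map_zero' := ghost_inj p ht fun m => by rw [h, map_zero, map_zero]
            map_add' := fun a b => ghost_inj p ht fun m => by rw [map_add, h, h, h, map_add] },
    fun m x => ?_⟩
  rw [← RingHom.coe_pow]
  exact h m x

end RDelta

theorem rDelta : SDelta := by
  intro p _ k _ _ _
  refine RDelta.exists_hom p (fun x hx => ?_) WittVector.frobenius fun x => ?_
  · exact WittVector.eq_zero_of_p_mul_eq_zero x (by rwa [mul_comm])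
  · rw [← Ideal.mem_span_singleton, WittVector.mem_span_p_iff_coeff_zero_eq_zero]
    change WittVector.constantCoeff (WittVector.frobenius x - x ^ p) = 0
    rw [map_sub, map_pow, WittVector.constantCoeff_apply, WittVector.constantCoeff_apply,
      WittVector.coeff_frobenius_charP, sub_self]

end Pool.Agent.MP_dc2c90_ag.H20
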