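import Pool.Agent.MP_dc2c90_ag.H20.SpecB

/-!
Lifting to the display group with prescribed first component, and control of the congruence level
by the first component.
-/

namespace Pool.Agent.MP_dc2c90_ag.H20

open WittVector

noncomputable section

variable {p : ℕ} [Fact p.Prime] {n : Type} [Fintype n] [DecidableEq n] {k : Type} [Field k]
  [IsAlgClosed k] [CharP k p] {D : Data p k n} {π : Matrix (n × n) (n × n) ℤ_[p]}

namespace RLift

variable {R : Type} [CommRing R]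

omit [DecidableEq n] [IsAlgClosed k] [CharP k p] in
theorem conj_Vi (κ : WittVector p k →+* WittVector p R) (m : ℕ)
    (Y : Matrix n n (WittVector p R)) :
    D.c'.map κ * Y.map (Vi p R m) * D.c.map κ =
      (D.c'.map ((Fi p R m).comp κ) * Y * D.c.map ((Fi p R m).comp κ)).map (Vi p R m) := by
  rw [mul_map_Vi, map_Vi_mul]
  rfl

omit [IsAlgClosed k] in
theorem Fi_tau (hD : D.Good) (χ : WittVector p k →+* R) (m : ℕ) :
    (Fi p R (m + 1)).comp (D.iota χ) = (D.iota χ).comp (Fi p k (m + 1)) :=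
  hD.Fi_comp_iota χ (m + 1)

omit [IsAlgClosed k] in
theorem Fi_sigma (hD : D.Good) (χ : WittVector p k →+* R) (m : ℕ) :
    (Fi p R m).comp ((D.iota χ).comp frobenius) = (D.iota χ).comp (Fi p k (m + 1)) :=
  RingHom.ext fun x => by
    simp only [RingHom.comp_apply]
    rw [hD.Fi_iota, ← Fi_succ']

omit [Fintype n] [DecidableEq n] [IsAlgClosed k] in
theorem kappa_zO (χ : WittVector p k →+* R) (l : ℕ) :
    ((D.iota χ).comp (Fi p k l)).comp (zO p k) = D.zeta χ :=
  RingHom.ext fun x => by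
    simp only [Data.zeta, RingHom.comp_apply]
    rw [Fi_zO]

omit [IsAlgClosed k] in
theorem graded_iff (hD : D.Good) (χ : WittVector p k →+* R) (m : ℕ)
    (Y Y' : Matrix n n (WittVector p R)) :
    D.Graded χ (Y.map (Vi p R (m + 1)), Y'.map (Vi p R m)) ↔
      ∀ i j, Gr (D.w j - D.w i)
        (Vi p R (m + 1) ((D.c'.map ((D.iota χ).comp (Fi p k (m + 1))) * Y *
          D.c.map ((D.iota χ).comp (Fi p k (m + 1)))) i j))
        (Vi p R m ((D.c'.map ((D.iota χ).comp (Fi p k (m + 1))) * Y' *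
          D.c.map ((D.iota χ).comp (Fi p k (m + 1)))) i j)) := by
  unfold Data.Graded
  simp only [conj_Vi, Fi_tau hD, Fi_sigma hD, Matrix.map_apply]

omit [IsAlgClosed k] in
theorem quad (hD : D.Good) (hπ : IsProj D.I π) (χ : WittVector p k →+* R) (m : ℕ)
    (Y : Matrix n n (WittVector p R)) (hY : Pt D.I (D.zeta χ) (1 + Y.map (Vi p R m))) :
    ∃ Z : Matrix n n (WittVector p R),
      Y = app (π.map (D.zeta χ)) Y + (p : WittVector p R) ^ m • Z := by
  obtain ⟨N, hN⟩ := hπ.quad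
  have h := hN _ _ _ hY
  have e : (π.map (D.zeta χ)).map (Fi p R m) = π.map (D.zeta χ) := by
    rw [Matrix.map_map, ← RingHom.coe_comp, hD.Fi_comp_zeta]
  refine ⟨Matrix.of fun i j => ∑ kl : n × n, ∑ kl' : n × n, Y kl.1 kl.2 * Y kl'.1 kl'.2 *
    Fi p R m (MvPolynomial.eval₂ (D.zeta χ) (fun s => (Y.map (Vi p R m)) s.1 s.2)
      (N (i, j) kl kl')), ?_⟩
  ext1 i j
  rw [Matrix.add_apply, ← sub_eq_iff_eq_add']
  apply Vi_injective m
  have h1 := h i j
  rw [app_map_Vi, e, Matrix.sub_apply, Matrix.map_apply, Matrix.map_apply, ← map_sub] at h1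
  rw [h1, Matrix.smul_apply, Matrix.of_apply, smul_eq_mul, Finset.mul_sum, map_sum]
  refine Finset.sum_congr rfl fun kl _ => ?_
  rw [Finset.mul_sum, map_sum]
  refine Finset.sum_congr rfl fun kl' _ => ?_
  rw [Matrix.map_apply, Matrix.map_apply, Vi_mul_Vi, Vi_mul, mul_assoc]

omit [IsAlgClosed k] in
theorem high (hD : D.Good) (hπ : IsProj D.I π) (h1 : SDD D π) (χ : WittVector p k →+* R)
    (m l : ℕ) (Y : Matrix n n (WittVector p R))
    (hY : Pt D.I (D.zeta χ) (1 + Y.map (Vi p R m))) :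
    ∃ Z : Matrix n n (WittVector p R), ∀ i j, 2 ≤ D.w j - D.w i →
      (D.c'.map ((D.iota χ).comp (Fi p k l)) * Y * D.c.map ((D.iota χ).comp (Fi p k l))) i j =
        (p : WittVector p R) ^ m * Z i j := by
  obtain ⟨Z, hZ⟩ := quad hD hπ χ m Y hY
  refine ⟨D.c'.map ((D.iota χ).comp (Fi p k l)) * Z * D.c.map ((D.iota χ).comp (Fi p k l)),
    fun i j hij => ?_⟩
  have h0 := h1.minus _ ((D.iota χ).comp (Fi p k l)) (app (π.map (D.zeta χ)) Y)
    (by rw [kappa_zO]; exact hπ.lie _ _ _) i j hij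
  conv_lhs => rw [hZ]
  rw [Matrix.mul_add, Matrix.add_mul, Matrix.add_apply, h0, zero_add, Matrix.mul_smul,
    Matrix.smul_mul, Matrix.smul_apply, smul_eq_mul]

theorem gr_nonpos {r : ℤ} (hr : r ≤ 0) (m : ℕ) (a b : WittVector p R) :
    Gr r (Vi p R (m + 1) a) (Vi p R m b) ↔ b = (p : WittVector p R) ^ (1 - r).toNat * a := by
  have e : (1 - r).toNat = (-r).toNat + 1 := by omega
  rw [gr_of_nonpos hr, frob_Vi_succ, ← Vi_p_mul, (Vi_injective m).eq_iff, e, pow_succ, mul_assoc]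

theorem gr_pos {r : ℤ} (hr : 1 ≤ r) (m : ℕ) (a b : WittVector p R) :
    Gr r (Vi p R (m + 1) a) (Vi p R m b) ↔ a = (p : WittVector p R) ^ (r - 1).toNat * b := by
  rw [gr_of_pos hr, ← Vi_succ, ← Vi_p_mul, (Vi_injective (m + 1)).eq_iff]

omit [IsAlgClosed k] in
theorem eval_mem (hD : D.Good) {S : Type} [CommRing S] (ζ : ℤ_[p] →+* S) (𝔞 : Ideal S)
    (a : Matrix n n S) (ha : ∀ i j, a i j ∈ 𝔞) (P : MvPolynomial (n × n) ℤ_[p]) (hP : P ∈ D.I) :
    MvPolynomial.eval₂ ζ (fun ij => (1 + a) ij.1 ij.2) P ∈ 𝔞 := by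
  rw [← Ideal.Quotient.eq_zero_iff_mem, map_eval₂_matrix]
  have e : (1 + a).map (Ideal.Quotient.mk 𝔞) = 1 := by
    ext i j
    rw [Matrix.map_apply, Matrix.add_apply, map_add, Ideal.Quotient.eq_zero_iff_mem.2 (ha i j),
      add_zero, ← Matrix.map_apply (f := Ideal.Quotient.mk 𝔞),
      Matrix.map_one _ (map_zero _) (map_one _)]
  rw [e]
  exact hD.pt_one _ P hP

end RLift

open RLift

omit [IsAlgClosed k] in
theorem RLift.exists_graded (hD : D.Good) (hπ : IsProj D.I π) (h1 : SDD D π) {R : Type}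
    [CommRing R] (χ : WittVector p k →+* R) (M : ℕ) (Y : Matrix n n (WittVector p R))
    (hw : ∀ i j, D.w j - D.w i ≤ M) (hY : Pt D.I (D.zeta χ) (1 + Y.map (Vi p R (M + 1)))) :
    ∃ Y₀ : Matrix n n (WittVector p R),
      D.Graded χ (1 + Y.map (Vi p R (M + 1)), 1 + Y₀.map (Vi p R M)) := by
  obtain ⟨Z, hZ⟩ := high hD hπ h1 χ (M + 1) (M + 1) Y hY
  obtain ⟨Yc, hYc⟩ : ∃ Yc : Matrix n n (WittVector p R), ∀ i j, Gr (D.w j - D.w i)
      (Vi p R (M + 1) ((D.c'.map ((D.iota χ).comp (Fi p k (M + 1))) * Y *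
        D.c.map ((D.iota χ).comp (Fi p k (M + 1)))) i j)) (Vi p R M (Yc i j)) := by
    generalize (D.c'.map ((D.iota χ).comp (Fi p k (M + 1))) * Y *
        D.c.map ((D.iota χ).comp (Fi p k (M + 1)))) = A at hZ
    refine ⟨Matrix.of fun i j => if D.w j - D.w i ≤ 1 then
      (p : WittVector p R) ^ (1 - (D.w j - D.w i)).toNat * A i j
      else (p : WittVector p R) ^ (M + 2 - (D.w j - D.w i)).toNat * Z i j, fun i j => ?_⟩
    rw [Matrix.of_apply]
    rcases le_or_gt (D.w j - D.w i) 0 with h | h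
    · rw [gr_nonpos h, if_pos (by omega)]
    · rw [gr_pos h]
      split_ifs with h'
      · have e : D.w j - D.w i = 1 := by omega
        rw [e, sub_self, Int.toNat_zero, pow_zero, one_mul, one_mul]
      · have e : M + 1 = (D.w j - D.w i - 1).toNat + (M + 2 - (D.w j - D.w i)).toNat := by
          have := hw i j
          omega
        rw [hZ i j (by omega), ← mul_assoc, ← pow_add, ← e]
  refine ⟨D.c.map ((D.iota χ).comp (Fi p k (M + 1))) * Yc *
    D.c'.map ((D.iota χ).comp (Fi p k (M + 1))), ?_⟩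
  refine (hD.graded_one χ).add (h' := (_, _)) ((graded_iff hD χ M Y _).2 fun i j => ?_)
  rw [hD.conj_conj']
  exact hYc i j

omit [IsAlgClosed k] in
theorem rLift (hD : D.Good) (hπ : IsProj D.I π) (h1 : SDD D π) (h2 : SHG D) : SLift D := by
  refine ⟨1 + Finset.univ.sup fun ij : n × n => (D.w ij.2 - D.w ij.1).toNat,
    fun R _ χ hp M Y hM hY => ?_⟩
  have hw : ∀ i j, D.w j - D.w i ≤ M := fun i j => by
    have := Finset.le_sup (f := fun ij : n × n => (D.w ij.2 - D.w ij.1).toNat)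
      (Finset.mem_univ (i, j))
    simp only at this
    omega
  obtain ⟨Y₀, hg⟩ := exists_graded hD hπ h1 χ M Y hw hY
  obtain ⟨h, hh, e1, e2, -, -⟩ := h2 R χ
    (1 + Y.map (Vi p R (M + 1)), 1 + Y₀.map (Vi p R M)) ⊥ (Vm p R M) ⊤
    (fun m => ⟨1, by rw [pow_one]; exact bot_le⟩) (vnil_Vm hp (by omega)) vclosed_zero
    (vclosed_Vm M) (fun _ => trivial) hg (fun _ _ => mem_WS_top _)
    (fun _ _ => mem_WS_top _) (fun P hP => Ideal.mem_bot.2 (hY P hP))
    (fun P hP => eval_mem hD _ _ _ (fun i j => Vi_mem_Vm M _) P hP)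
  have e3 : ∀ i j, (h.2 - 1) i j ∈ Vm p R M := fun i j => by
    have := (Vm p R M).add_mem (e2 i j) (Vi_mem_Vm M (Y₀ i j))
    convert this using 1
    simp only [Matrix.sub_apply, Matrix.add_apply, Matrix.map_apply]
    ring
  obtain ⟨Y', hY'⟩ := exists_map_Vi e3
  refine ⟨Y', ?_⟩
  have e4 : h = (1 + Y.map (Vi p R (M + 1)), 1 + Y'.map (Vi p R M)) := by
    refine Prod.ext ?_ ?_
    · ext1 i j
      exact sub_eq_zero.1 (Ideal.mem_bot.1 (e1 i j))
    · rw [← hY', add_sub_cancel]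
  rw [← e4]
  exact hh

omit [IsAlgClosed k] in
theorem rLead (hD : D.Good) (hπ : IsProj D.I π) (h1 : SDD D π) : SLead D := by
  intro R _ χ s m h hs hsm _ hh hc h2
  refine ⟨h2, ?_⟩
  obtain ⟨Y, hY⟩ := exists_map_Vi hc.1
  obtain ⟨Y', hY'⟩ := exists_map_Vi hc.2
  have hY1 : ∀ i j, Y i j ∈ Vm p R 1 := fun i j => by
    have := h2 i j
    rw [show h.1 - 1 = h.1 - (1 : HP p n R).1 from rfl, hY] at this
    exact Vi_mem_Vm_add.1 this
  have hg : D.Graded χ (Y.map (Vi p R (m + 1)), Y'.map (Vi p R m)) := by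
    rw [← hY, ← hY']
    exact hh.2.2.sub (hD.graded_one χ)
  rw [graded_iff hD] at hg
  have hpt : Pt D.I (D.zeta χ) (1 + Y'.map (Vi p R m)) := by
    rw [← hY']
    simpa using hh.2.1
  obtain ⟨Z, hZ⟩ := high hD hπ h1 χ m (m + 1) Y' hpt
  set κ := (D.iota χ).comp (Fi p k (m + 1)) with hκ
  have hYc : ∀ i j, (D.c'.map κ * Y * D.c.map κ) i j ∈ Vm p R 1 :=
    mul_mem_ideal_right _ (mul_mem_ideal_left _ hY1)
  have hY'c : ∀ i j, (D.c'.map κ * Y' * D.c.map κ) i j ∈ Vm p R 1 := fun i j => by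
    have hij := hg i j
    rcases le_or_gt (D.w j - D.w i) 0 with h0 | h0
    · rw [(gr_nonpos h0 _ _ _).1 hij]
      exact Ideal.mul_mem_left _ _ (hYc i j)
    · by_cases h' : D.w j - D.w i = 1
      · have := (gr_pos h0 _ _ _).1 hij
        rw [h', sub_self, Int.toNat_zero, pow_zero, one_mul] at this
        exact this ▸ hYc i j
      · obtain ⟨t, rfl⟩ := Nat.exists_eq_add_of_le hsm
        rw [hZ i j (by omega), pow_add, mul_assoc]
        exact Ideal.mul_mem_right _ _ (p_pow_mem_Vm_one hs)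
  intro i j
  rw [hY', Matrix.map_apply, Vi_mem_Vm_add, ← hD.conj_conj κ Y']
  exact mul_mem_ideal_right _ (mul_mem_ideal_left _ hY'c) i j

end

end Pool.Agent.MP_dc2c90_ag.H20
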