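import Pool.Agent.MP_dc2c90_ag.H20.Defs

/-!
Auxiliary definitions and the statements of the abstract steps (no display theory involved).
-/

namespace Pool.Agent.MP_dc2c90_ag.H20

open MvPolynomial TensorProduct

noncomputable section

/-- `A · F(A) ⋯ F^(i-1)(A)`. -/
def twProd {S d : Type} [CommRing S] [Fintype d] [DecidableEq d] (F : S →+* S)
    (A : Matrix d d S) : ℕ → Matrix d d S
  | 0 => 1
  | i + 1 => A * (twProd F A i).map F

/-- A linear operator on `M_n(S)`, given as a matrix indexed by `n × n`, applied to `x`. -/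
def app {S n : Type} [CommRing S] [Fintype n] (A : Matrix (n × n) (n × n) S)
    (x : Matrix n n S) : Matrix n n S :=
  Matrix.of fun i j => ∑ kl : n × n, A (i, j) kl * x kl.1 kl.2

/-- The operator `x ↦ U * x * U'`. -/
def adM {S n : Type} [CommRing S] (U U' : Matrix n n S) : Matrix (n × n) (n × n) S :=
  Matrix.of fun ij kl => U ij.1 kl.1 * U' kl.2 ij.2

/-- Newton data: `X ↦ X - Q(X)` squares the ideal of errors. -/
structure IsNewton {Λ σ : Type} [CommRing Λ] (I : Ideal (MvPolynomial σ Λ))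
    (Q : σ → MvPolynomial σ Λ) : Prop where
  mem : ∀ s, Q s ∈ I
  sq : ∀ P ∈ I, MvPolynomial.aeval (fun s => X s - Q s) P ∈ I ^ 2

/-- `π` is a projector onto the Lie algebra, with second order Taylor remainders. -/
structure IsProj {p : ℕ} [Fact p.Prime] {n : Type} [Fintype n] [DecidableEq n]
    (I : Ideal (MvPolynomial (n × n) ℤ_[p])) (π : Matrix (n × n) (n × n) ℤ_[p]) : Prop where
  lie : ∀ (S : Type) [CommRing S] (ζ : ℤ_[p] →+* S) (x : Matrix n n S),
    IsLie I ζ (app (π.map ζ) x)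
  fix : ∀ (S : Type) [CommRing S] (ζ : ℤ_[p] →+* S) (x : Matrix n n S),
    IsLie I ζ x → app (π.map ζ) x = x
  quad : ∃ N : n × n → n × n → n × n → MvPolynomial (n × n) ℤ_[p],
    ∀ (S : Type) [CommRing S] (ζ : ℤ_[p] →+* S) (a : Matrix n n S), Pt I ζ (1 + a) →
      ∀ i j, (a - app (π.map ζ) a) i j = ∑ kl : n × n, ∑ kl' : n × n,
        a kl.1 kl.2 * a kl'.1 kl'.2 * eval₂ ζ (fun s => a s.1 s.2) (N (i, j) kl kl')
  tayl : ∀ P ∈ I, ∃ N : n × n → n × n → MvPolynomial (n × n) ℤ_[p],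
    ∀ (S : Type) [CommRing S] (ζ : ℤ_[p] →+* S) (a : Matrix n n S), IsLie I ζ a →
      eval₂ ζ (fun s => (1 + a) s.1 s.2) P = ∑ kl : n × n, ∑ kl' : n × n,
        a kl.1 kl.2 * a kl'.1 kl'.2 * eval₂ ζ (fun s => a s.1 s.2) (N kl kl')

/-- The subring generated by the image of `χ` and a finite set. -/
def gen {O R : Type} [CommRing O] [CommRing R] (χ : O →+* R) (s : Finset R) : Subring R :=
  Subring.closure (Set.range χ ∪ (s : Set R))

theorem mem_gen_of_range {O R : Type} [CommRing O] [CommRing R] (χ : O →+* R) (s : Finset R)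
    (o : O) : χ o ∈ gen χ s :=
  Subring.subset_closure (Or.inl ⟨o, rfl⟩)

theorem mem_gen_of_mem {O R : Type} [CommRing O] [CommRing R] (χ : O →+* R) {s : Finset R}
    {r : R} (hr : r ∈ s) : r ∈ gen χ s :=
  Subring.subset_closure (Or.inr hr)

theorem gen_mono {O R : Type} [CommRing O] [CommRing R] (χ : O →+* R) {s s' : Finset R}
    (h : s ⊆ s') : gen χ s ≤ gen χ s' :=
  Subring.closure_mono (Set.union_subset_union_right _ (by exact_mod_cast h))

/-- `χ` with values in `gen χ s`. -/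
def genχ {O R : Type} [CommRing O] [CommRing R] (χ : O →+* R) (s : Finset R) : O →+* gen χ s :=
  χ.codRestrict (gen χ s) (mem_gen_of_range χ s)

/-- The ideal of `G` over `W(k)` in the coordinates `c`. -/
def Data.Ic {p : ℕ} [Fact p.Prime] {n : Type} [Fintype n] [DecidableEq n] {k : Type} [Field k]
    [CharP k p] (D : Data p k n) : Ideal (MvPolynomial (n × n) (WittVector p k)) :=
  Ideal.map (eval₂Hom ((C : WittVector p k →+* MvPolynomial (n × n) (WittVector p k)).comp (zO p k))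
    (fun ij : n × n => ((D.c.map C * Matrix.of (fun i j => X (i, j)) * D.c'.map C :
      Matrix n n (MvPolynomial (n × n) (WittVector p k))) ij.1 ij.2))) D.I

/-- Abstract Hensel lemma by Newton iteration, with closed side constraints `Dc`. -/
def SHens : Prop :=
  ∀ (Λ A σ : Type) [CommRing Λ] [CommRing A] [Fintype σ] (κ : Λ →+* A) (J : ℕ → Ideal A)
    (I : Ideal (MvPolynomial σ Λ)) (Q : σ → MvPolynomial σ Λ) (𝔞 : Ideal A) (Dc : σ → Set A)
    (y : σ → A),
    (∀ x : ℕ → A, (∀ m, ∃ K, ∀ l ≥ K, ∀ l' ≥ K, x l - x l' ∈ J m) →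
      ∃ z, ∀ m, ∃ K, ∀ l ≥ K, x l - z ∈ J m) →
    (∀ z, (∀ m, z ∈ J m) → z = 0) →
    IsNewton I Q →
    (∀ m, ∃ K, 𝔞 ^ K ≤ J m) →
    (∀ z, (∀ m, ∃ a ∈ 𝔞, z - a ∈ J m) → z ∈ 𝔞) →
    (∀ s z, (∀ m, ∃ a ∈ Dc s, z - a ∈ J m) → z ∈ Dc s) →
    (∀ y' : σ → A, (∀ s, y' s ∈ Dc s) → ∀ s, y' s - eval₂ κ y' (Q s) ∈ Dc s) →
    (∀ s, y s ∈ Dc s) → (∀ P ∈ I, eval₂ κ y P ∈ 𝔞) →
    ∃ y' : σ → A, (∀ P ∈ I, eval₂ κ y' P = 0) ∧ (∀ s, y' s - y s ∈ 𝔞) ∧ ∀ s, y' s ∈ Dc s

/-- Newton data exist for formally smooth quotients. -/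
def SNewt : Prop :=
  ∀ (Λ σ : Type) [CommRing Λ] (I : Ideal (MvPolynomial σ Λ)),
    Algebra.FormallySmooth Λ (MvPolynomial σ Λ ⧸ I) → ∃ Q, IsNewton I Q

/-- The projector `1 - dQ(1)`. -/
def SProj : Prop :=
  ∀ (p : ℕ) [Fact p.Prime] (n : Type) [Fintype n] [DecidableEq n]
    (I : Ideal (MvPolynomial (n × n) ℤ_[p])) (Q : n × n → MvPolynomial (n × n) ℤ_[p]),
    IsNewton I Q → Pt I (RingHom.id ℤ_[p]) (1 : Matrix n n ℤ_[p]) → ∃ π, IsProj I π

/-- Homogeneous Newton data in the coordinates `c`. -/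
def SGNewt : Prop :=
  ∀ (p : ℕ) [Fact p.Prime] (k : Type) [Field k] [CharP k p] (n : Type) [Fintype n]
    [DecidableEq n] (D : Data p k n), D.Good →
    (∃ Qc, IsNewton D.Ic Qc ∧ ∀ ij : n × n,
      IsWeightedHomogeneous (fun kl : n × n => D.w kl.2 - D.w kl.1) (Qc ij) (D.w ij.2 - D.w ij.1)) ∧
    ∀ (S : Type) [CommRing S] (κ : WittVector p k →+* S) (y : Matrix n n S) (𝔞 : Ideal S),
      (∀ P ∈ D.Ic, eval₂ κ (fun ij => y ij.1 ij.2) P ∈ 𝔞) ↔
      ∀ P ∈ D.I, eval₂ (κ.comp (zO p k)) (fun ij => (D.c.map κ * y * D.c'.map κ) ij.1 ij.2) P ∈ 𝔞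

/-- Witt vectors with all coordinates divisible by `p`. -/
def SW1 : Prop :=
  ∀ (p : ℕ) [Fact p.Prime] (R : Type) [CommRing R] (z : WittVector p R),
    (∀ l, (p : R) ∣ z.coeff l) →
    (∃ z', WittVector.frobenius z = (p : WittVector p R) * z') ∧
    ∀ s : ℕ, (p : R) ^ s = 0 → (p : WittVector p R) ^ s * z = 0

/-- Torsion Witt vectors become divisible after Frobenius twists. -/
def STF : Prop :=
  ∀ (p : ℕ) [Fact p.Prime] (R : Type) [CommRing R] (v u : ℕ), ∃ l : ℕ, ∀ z : WittVector p R,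
    (p : WittVector p R) ^ v * z = 0 →
    ∃ z', ((WittVector.frobenius : WittVector p R →+* WittVector p R) ^ l) z =
      (p : WittVector p R) ^ u * z'

/-- Bounded torsion over Noetherian rings. -/
def SBT : Prop :=
  ∀ (p : ℕ) [Fact p.Prime] (R : Type) [CommRing R] [IsNoetherianRing R], IsNilpotent (p : R) →
    ∃ s : ℕ, ∀ (z : WittVector p R) (u : ℕ), (p : WittVector p R) ^ u * z = 0 →
      (p : WittVector p R) ^ s * z = 0

/-- Frobenius-linear maps over an algebraically closed field. -/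
def SSlopeK : Prop :=
  ∀ (p : ℕ) [Fact p.Prime] (k : Type) [Field k] [IsAlgClosed k] [CharP k p] (d : Type) [Fintype d]
    [DecidableEq d] (A : Matrix d d k),
    (∀ v : d → k, ∃ x : d → k, x - A.mulVec (fun i => x i ^ p) = v) ∧
    ((∀ x : d → k, A.mulVec (fun i => x i ^ p) = x → x = 0) →
      ∃ c, twProd (frobenius k p) A c = 0)

/-- No fixed vector implies nilpotent modulo `p`. -/
def SSlope : Prop :=
  ∀ (p : ℕ) [Fact p.Prime] (k : Type) [Field k] [IsAlgClosed k] [CharP k p] (d : Type) [Fintype d]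
    [DecidableEq d] (A : Matrix d d (WittVector p k)),
    (∀ x : d → WittVector p k, A.mulVec (fun i => WittVector.frobenius (x i)) = x → x = 0) →
    ∃ c, ∀ i j, (p : WittVector p k) ∣ twProd WittVector.frobenius A c i j

/-- Newton iteration with denominators. -/
def SHD : Prop :=
  ∀ (Λ σ : Type) [CommRing Λ] [Fintype σ] (I : Ideal (MvPolynomial σ Λ))
    (Q : σ → MvPolynomial σ Λ), IsNewton I Q →
    ∀ gens : Finset (MvPolynomial σ Λ), Ideal.span (gens : Set (MvPolynomial σ Λ)) = I →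
    ∀ N : ℕ, ∃ a : ℕ, ∀ (A : Type) [CommRing A] (ζ : Λ →+* A) (B : Subring A) (ϖ : A),
      IsUnit ϖ → ϖ ∈ B → (∀ x, ζ x ∈ B) →
      (∀ z : ℕ → A, (∀ l, z l ∈ B) →
        ∃ y, ∀ K, ∃ r ∈ B, y = ∑ l ∈ Finset.range K, ϖ ^ l * z l + ϖ ^ K * r) →
      (∀ y, (∀ K, ∃ r ∈ B, y = ϖ ^ K * r) → y = 0) →
      ∀ (y : σ → A) (e : ℕ), (∀ s, ϖ ^ N * y s ∈ B) →
        (∀ P ∈ gens, ∃ r ∈ B, eval₂ ζ y P = ϖ ^ (e + a) * r) →
        ∃ Y : σ → A, (∀ s, Y s ∈ B) ∧ ∀ P ∈ I, eval₂ ζ (fun s => y s + ϖ ^ e * Y s) P = 0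

/-- Amitsur complex, degree zero. -/
def SAmit0 : Prop :=
  ∀ (A A' : Type) [CommRing A] [CommRing A'] (e : A →+* A'), e.FaithfullyFlat → ∀ z : A',
    (∀ (B : Type) [CommRing B] (γ δ : A' →+* B), γ.comp e = δ.comp e → γ z = δ z) →
    ∃ a, e a = z

/-- Amitsur complex, degree one. -/
def SAmit1 : Prop :=
  ∀ (A A' : Type) [CommRing A] [CommRing A'] (e : A →+* A'), e.FaithfullyFlat →
    ∀ z : ∀ (B : Type) [CommRing B], (A' →+* B) → (A' →+* B) → B,
    (∀ (B B' : Type) [CommRing B] [CommRing B'] (ψ : B →+* B') (α β : A' →+* B),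
      α.comp e = β.comp e → ψ (z B α β) = z B' (ψ.comp α) (ψ.comp β)) →
    (∀ (B : Type) [CommRing B] (α β γ : A' →+* B), α.comp e = β.comp e → β.comp e = γ.comp e →
      z B α β + z B β γ = z B α γ) →
    ∃ ζ : A', ∀ (B : Type) [CommRing B] (α β : A' →+* B), α.comp e = β.comp e →
      z B α β = α ζ - β ζ

/-- Effective descent of a smooth affine scheme with a section, in functor of points form. -/
def SDesc : Prop :=
  ∀ (R C B : Type) [CommRing R] [CommRing C] [CommRing B] [Algebra R C] [Algebra R B],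
    Module.FaithfullyFlat R C → Algebra.Smooth R B → Nonempty (B →ₐ[R] R) →
    ∀ Φ : ∀ (A : Type) [CommRing A] [Algebra R A],
      (C →ₐ[R] A) → (C →ₐ[R] A) → (B →ₐ[R] A) → (B →ₐ[R] A),
    (∀ (A A' : Type) [CommRing A] [Algebra R A] [CommRing A'] [Algebra R A'] (ψ : A →ₐ[R] A')
      (α β : C →ₐ[R] A) (b : B →ₐ[R] A),
      ψ.comp (Φ A α β b) = Φ A' (ψ.comp α) (ψ.comp β) (ψ.comp b)) →
    (∀ (A : Type) [CommRing A] [Algebra R A] (α : C →ₐ[R] A) (b : B →ₐ[R] A), Φ A α α b = b) →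
    (∀ (A : Type) [CommRing A] [Algebra R A] (α β γ : C →ₐ[R] A) (b : B →ₐ[R] A),
      Φ A α β (Φ A β γ b) = Φ A α γ b) →
    ∃ (C₁ : Type) (_ : CommRing C₁) (_ : Algebra R C₁),
      Algebra.Smooth R C₁ ∧ Module.FaithfullyFlat R C₁ ∧
      ∃ u : B →ₐ[R] C ⊗[R] C₁, ∀ (A : Type) [CommRing A] [Algebra R A] (α β : C →ₐ[R] A)
        (γ : C₁ →ₐ[R] A),
        Φ A α β ((Algebra.TensorProduct.productMap β γ).comp u) =
          (Algebra.TensorProduct.productMap α γ).comp u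

/-- Smooth covers descend to a finite stage. -/
def SSmDesc : Prop :=
  ∀ (ι : Type) [Preorder ι] (R : ι → Type) [∀ i, CommRing (R i)]
    (f : ∀ i j, i ≤ j → R i →+* R j) (A : Type) [CommRing A] (φ : ∀ i, R i →+* A),
    IsColim R f A φ → ∀ (C : Type) [CommRing C] [Algebra A C],
    Algebra.Smooth A C → Module.FaithfullyFlat A C →
    ∃ (i : ι) (B : Type) (_ : CommRing B) (_ : Algebra (R i) B), Module.FaithfullyFlat (R i) B ∧
      (letI : Algebra (R i) A := (φ i).toAlgebra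
       ∃ ρ : B ⊗[R i] A ≃+* C, ∀ a : A, ρ (1 ⊗ₜ a) = algebraMap A C a)

/-- Tensor products commute with directed colimits. -/
def STens : Prop :=
  ∀ (Λ ι : Type) [CommRing Λ] [Preorder ι] (R : ι → Type) [∀ i, CommRing (R i)]
    [∀ i, Algebra Λ (R i)] (f : ∀ i j, i ≤ j → R i →ₐ[Λ] R j) (A : Type) [CommRing A]
    [Algebra Λ A] (φ : ∀ i, R i →ₐ[Λ] A),
    IsColim R (fun i j h => (f i j h).toRingHom) A (fun i => (φ i).toRingHom) →
    ∀ (B : Type) [CommRing B] [Algebra Λ B],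
    IsColim (fun i => B ⊗[Λ] R i)
      (fun i j h => (Algebra.TensorProduct.map (AlgHom.id Λ B) (f i j h)).toRingHom) (B ⊗[Λ] A)
      (fun i => (Algebra.TensorProduct.map (AlgHom.id Λ B) (φ i)).toRingHom)

/-- Finitely generated subalgebras over a Noetherian base are Noetherian. -/
def SNoeth : Prop :=
  ∀ (O R : Type) [CommRing O] [CommRing R] [IsNoetherianRing O] (χ : O →+* R) (s : Finset R),
    IsNoetherianRing (gen χ s)

/-- Finitely generated subalgebras of the colimit factor through a finite stage. -/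
def SFP : Prop :=
  ∀ (O : Type) [CommRing O] [IsNoetherianRing O] (ι : Type) [Preorder ι] (R : ι → Type)
    [∀ i, CommRing (R i)] (f : ∀ i j, i ≤ j → R i →+* R j) (A : Type) [CommRing A]
    (φ : ∀ i, R i →+* A), IsColim R f A φ →
    ∀ (χ : ∀ i, O →+* R i) (χA : O →+* A), (∀ i j h, (f i j h).comp (χ i) = χ j) →
    (∀ i, (φ i).comp (χ i) = χA) →
    (∀ s : Finset A, ∃ (i : ι) (ψ : gen χA s →+* R i),
      (φ i).comp ψ = (gen χA s).subtype ∧ ψ.comp (genχ χA s) = χ i) ∧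
    (∀ (i : ι) (s₀ : Finset (R i)) (s : Finset A) (ρ : gen (χ i) s₀ →+* gen χA s),
      (gen χA s).subtype.comp ρ = (φ i).comp (gen (χ i) s₀).subtype →
      ∃ (j : ι) (hij : i ≤ j) (ψ : gen χA s →+* R j),
        (φ j).comp ψ = (gen χA s).subtype ∧ ψ.comp (genχ χA s) = χ j ∧
        ψ.comp ρ = (f i j hij).comp (gen (χ i) s₀).subtype) ∧
    (∀ (i : ι) (s₀ : Finset (R i)), ∃ (j : ι) (hij : i ≤ j),
      ∀ r ∈ gen (χ i) s₀, φ i r = 0 → f i j hij r = 0)

/-- Existence of `Δ : W(k) → W(W(k))`. -/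
def SDelta : Prop :=
  ∀ (p : ℕ) [Fact p.Prime] (k : Type) [Field k] [IsAlgClosed k] [CharP k p],
    ∃ Δ : WittVector p k →+* WittVector p (WittVector p k), ∀ (m : ℕ) (x : WittVector p k),
      WittVector.ghostComponent m (Δ x) = (WittVector.frobenius)^[m] x

end

end Pool.Agent.MP_dc2c90_ag.H20
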