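import Pool.Agent.MP_dc2c90_ag.H20.B6

/-!
Statements of the display-theoretic steps, for fixed data `D` and a fixed projector `π`.
-/

namespace Pool.Agent.MP_dc2c90_ag.H20

open WittVector MvPolynomial TensorProduct

noncomputable section

variable {p : ℕ} [Fact p.Prime] {n : Type} [Fintype n] [DecidableEq n] {k : Type} [Field k]
  [CharP k p]

/-- A directed system of `p`-nilpotent `O`-algebras with its colimit. -/
structure IsSys (p : ℕ) {O ι : Type} [CommRing O] [Preorder ι] (R : ι → Type)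
    [∀ i, CommRing (R i)] (f : ∀ i j, i ≤ j → R i →+* R j) (A : Type) [CommRing A]
    (φ : ∀ i, R i →+* A) (χ : ∀ i, O →+* R i) (χA : O →+* A) : Prop where
  colim : IsColim R f A φ
  fχ : ∀ i j h, (f i j h).comp (χ i) = χ j
  φχ : ∀ i, (φ i).comp (χ i) = χA
  nil : ∀ i, IsNilpotent (p : R i)

/-- Families indexed by pairs of ring maps out of `E`. -/
abbrev Fam (p : ℕ) [Fact p.Prime] (n : Type) (E : Type) [CommRing E] : Type 1 :=
  ∀ (B : Type) [CommRing B], (E →+* B) → (E →+* B) → HP p n B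

namespace Data

variable (D : Data p k n) (π : Matrix (n × n) (n × n) ℤ_[p])

/-- The scalar `p^(1-r)` for `r ≤ 1`, zero for `r ≥ 2`. -/
def sc (i j : n) : WittVector p k :=
  if D.w j - D.w i ≤ 1 then (p : WittVector p k) ^ (1 - (D.w j - D.w i)).toNat else 0

/-- `p Ad(μ(p))` on the Lie algebra, precomposed with the projector. -/
def DD : Matrix (n × n) (n × n) (WittVector p k) :=
  adM D.c D.c' * Matrix.diagonal (fun ij : n × n => D.sc ij.1 ij.2) * adM D.c' D.c *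
    π.map (zO p k)

/-- `ψ_U = Ad(U) ∘ σ(DD)`. -/
def psi {R : Type} [CommRing R] (χ : WittVector p k →+* R) (U : Matrix n n (WittVector p R)) :
    Matrix (n × n) (n × n) (WittVector p R) :=
  adM U U⁻¹ * (D.DD π).map ((D.iota χ).comp frobenius)

/-- `A_i(U) = ψ F(ψ) ⋯ F^(i-1)(ψ)`. -/
def AA {R : Type} [CommRing R] (χ : WittVector p k →+* R) (U : Matrix n n (WittVector p R))
    (i : ℕ) : Matrix (n × n) (n × n) (WittVector p R) :=
  twProd frobenius (D.psi π χ U) i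

/-- `Φ_i(U) = (U μ') f(U μ') ⋯ f^(i-1)(U μ')`. -/
def Phi {R : Type} [CommRing R] (χ : WittVector p k →+* R) (U : Matrix n n (WittVector p R))
    (i : ℕ) : Matrix n n (T p R) :=
  twProd (fT p R) (U.map (toT p R) * D.mu (D.iota χ)) i

/-- A cocycle with values in `H` for the cover `e`. -/
structure IsCoc {A E : Type} [CommRing A] [CommRing E] (χ : WittVector p k →+* A) (e : A →+* E)
    (κ : Fam p n E) : Prop where
  hh : ∀ (B : Type) [CommRing B] (a b : E →+* B), a.comp e = b.comp e →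
    D.IsH (a.comp (e.comp χ)) (κ B a b)
  nat : ∀ (B B' : Type) [CommRing B] [CommRing B'] (ψ : B →+* B') (a b : E →+* B),
    a.comp e = b.comp e → hmap ψ (κ B a b) = κ B' (ψ.comp a) (ψ.comp b)
  coc : ∀ (B : Type) [CommRing B] (a b c : E →+* B), a.comp e = b.comp e → b.comp e = c.comp e →
    κ B a b * κ B b c = κ B a c

end Data

variable (D : Data p k n) (π : Matrix (n × n) (n × n) ℤ_[p])

/-- Hensel for `G(W(R))`. -/
def SHN : Prop :=
  ∀ (R : Type) [CommRing R] (χ : WittVector p k →+* R) (y : Matrix n n (WittVector p R))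
    (𝔞 : Ideal (WittVector p R)) (B : Subring R), VNil 𝔞 → VClosed (𝔞 : Set (WittVector p R)) →
    (∀ o, χ o ∈ B) → InWS B y →
    (∀ P ∈ D.I, eval₂ (D.zeta χ) (fun ij => y ij.1 ij.2) P ∈ 𝔞) →
    ∃ y', Pt D.I (D.zeta χ) y' ∧ (∀ i j, (y' - y) i j ∈ 𝔞) ∧ InWS B y'

/-- Hensel for the display group. -/
def SHG : Prop :=
  ∀ (R : Type) [CommRing R] (χ : WittVector p k →+* R) (y : HP p n R)
    (𝔞₁ 𝔞₂ : Ideal (WittVector p R)) (B : Subring R), VNil 𝔞₁ → VNil 𝔞₂ →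
    VClosed (𝔞₁ : Set (WittVector p R)) → VClosed (𝔞₂ : Set (WittVector p R)) →
    (∀ o, χ o ∈ B) → D.Graded χ y → InWS B y.1 → InWS B y.2 →
    (∀ P ∈ D.I, eval₂ (D.zeta χ) (fun ij => y.1 ij.1 ij.2) P ∈ 𝔞₁) →
    (∀ P ∈ D.I, eval₂ (D.zeta χ) (fun ij => y.2 ij.1 ij.2) P ∈ 𝔞₂) →
    ∃ h, D.IsH χ h ∧ (∀ i j, (h.1 - y.1) i j ∈ 𝔞₁) ∧ (∀ i j, (h.2 - y.2) i j ∈ 𝔞₂) ∧
      InWS B h.1 ∧ InWS B h.2

/-- Approximation in `G(W(R))`. -/
def SAppG : Prop :=
  ∀ (R : Type) [CommRing R] (χ : WittVector p k →+* R), IsNilpotent (p : R) →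
    ∀ (U : Matrix n n (WittVector p R)) (M : ℕ) (B : Subring R), Pt D.I (D.zeta χ) U → 1 ≤ M →
    (∀ o, χ o ∈ B) → (∀ i j, ∀ l < M, (U i j).coeff l ∈ B) →
    ∃ U₀, Pt D.I (D.zeta χ) U₀ ∧ InWS B U₀ ∧ ∀ i j, (U - U₀) i j ∈ Vm p R M

/-- Approximation in the display group. -/
def SAppH : Prop :=
  ∀ (R : Type) [CommRing R] (χ : WittVector p k →+* R), IsNilpotent (p : R) →
    ∀ (h : HP p n R) (M : ℕ) (B : Subring R), D.IsH χ h → 1 ≤ M → (∀ o, χ o ∈ B) →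
    (∀ i j, ∀ l < M + 1, (h.1 i j).coeff l ∈ B) → (∀ i j, ∀ l < M + 1, (h.2 i j).coeff l ∈ B) →
    ∃ h₀, D.IsH χ h₀ ∧ InWS B h₀.1 ∧ InWS B h₀.2 ∧ Cong M h h₀

/-- Properties of `DD`. -/
structure SDD : Prop where
  ππ : π * π = π
  ad : ∀ (S : Type) [CommRing S] (ζ : ℤ_[p] →+* S) (g : Matrix n n S), Pt D.I ζ g →
    π.map ζ * (adM g g⁻¹ * π.map ζ) = adM g g⁻¹ * π.map ζ
  left : π.map (zO p k) * D.DD π = D.DD π
  right : D.DD π * π.map (zO p k) = D.DD π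
  lie : ∀ (S : Type) [CommRing S] (κ : WittVector p k →+* S) (x : Matrix n n S),
    IsLie D.I (κ.comp (zO p k)) (app ((D.DD π).map κ) x)
  minus : ∀ (S : Type) [CommRing S] (κ : WittVector p k →+* S) (x : Matrix n n S),
    IsLie D.I (κ.comp (zO p k)) x → ∀ i j, 2 ≤ D.w j - D.w i →
      (D.c'.map κ * x * D.c.map κ) i j = 0
  coord : ∀ (S : Type) [CommRing S] (κ : WittVector p k →+* S) (x : Matrix n n S) (i j : n),
    (D.c'.map κ * app ((D.DD π).map κ) x * D.c.map κ) i j =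
      κ (D.sc i j) * (D.c'.map κ * app (π.map (κ.comp (zO p k))) x * D.c.map κ) i j
  mu : ∀ (R : Type) [CommRing R] (κ : WittVector p k →+* WittVector p R),
    (p : T p R) • (adM (D.mu κ) (D.mu κ)⁻¹ * π.map ((toT p R).comp (κ.comp (zO p k)))) =
      (D.DD π).map ((toT p R).comp (κ.comp frobenius))

/-- `p^i Ad(Φ_i) = A_i` on the Lie algebra; `Φ_i` is a bounded point. -/
structure SPhi : Prop where
  gen : ∀ (R : Type) [CommRing R] (χ : WittVector p k →+* R) (β : Matrix n n (T p R))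
    (A : Matrix (n × n) (n × n) (WittVector p R)), Pt D.I ((toT p R).comp (D.zeta χ)) β →
    (p : T p R) • (adM β β⁻¹ * π.map ((toT p R).comp (D.zeta χ))) = A.map (toT p R) →
    ∀ i, Pt D.I ((toT p R).comp (D.zeta χ)) (twProd (fT p R) β i) ∧
      (p : T p R) ^ i • (adM (twProd (fT p R) β i) (twProd (fT p R) β i)⁻¹ *
        π.map ((toT p R).comp (D.zeta χ))) =
      (twProd frobenius A i).map (toT p R) * π.map ((toT p R).comp (D.zeta χ))
  pt : ∀ (R : Type) [CommRing R] (χ : WittVector p k →+* R) (U : Matrix n n (WittVector p R)),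
    Pt D.I (D.zeta χ) U → ∀ i, Pt D.I ((toT p R).comp (D.zeta χ)) (D.Phi χ U i)
  ad : ∀ (R : Type) [CommRing R] (χ : WittVector p k →+* R) (U : Matrix n n (WittVector p R)),
    Pt D.I (D.zeta χ) U → ∀ i,
    (p : T p R) ^ i • (adM (D.Phi χ U i) (D.Phi χ U i)⁻¹ * π.map ((toT p R).comp (D.zeta χ))) =
      (D.AA π χ U i).map (toT p R) * π.map ((toT p R).comp (D.zeta χ))
  bdd : ∃ W : ℕ, ∀ (R : Type) [CommRing R] (χ : WittVector p k →+* R)
    (U : Matrix n n (WittVector p R)), Pt D.I (D.zeta χ) U → ∀ i,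
    ∃ Φ Φ' : Matrix n n (WittVector p R),
      (p : T p R) ^ (i * W) • D.Phi χ U i = Φ.map (toT p R) ∧
      (p : T p R) ^ (i * W) • (D.Phi χ U i)⁻¹ = Φ'.map (toT p R)

/-- The slope condition: `(p Ad(b) σ)^i` is divisible by `p^j` on the Lie algebra. -/
def SSlopeB : Prop :=
  ∀ j : ℕ, ∃ i : ℕ, 1 ≤ i ∧ ∃ Y : Matrix (n × n) (n × n) (WittVector p k),
    ∀ (R : Type) [CommRing R] (χ : WittVector p k →+* R),
    (p : T p R) ^ i • (adM (twProd (fT p R) (D.b (D.iota χ)) i)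
        (twProd (fT p R) (D.b (D.iota χ)) i)⁻¹ * π.map ((toT p R).comp (D.zeta χ))) =
      (p : T p R) ^ j • Y.map ((toT p R).comp (D.iota χ))

/-- Adjoint nilpotence of every point of `X`. -/
def SAdNil : Prop :=
  ∀ (R : Type) [CommRing R] (χ : WittVector p k →+* R) (x : XP p n R), D.IsX χ x → ∀ u : ℕ,
    ∃ (i l₀ : ℕ) (Z : Matrix (n × n) (n × n) (WittVector p R)),
      (D.AA π χ x.1 i).map (Fi p R l₀) = (p : WittVector p R) ^ u • Z

/-- `A_i(U)` depends continuously on `U` and is defined over the ring of definition of `U`. -/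
structure SACong : Prop where
  cong : ∀ (R : Type) [CommRing R] (χ : WittVector p k →+* R)
    (U U' : Matrix n n (WittVector p R)) (M i : ℕ), Pt D.I (D.zeta χ) U → Pt D.I (D.zeta χ) U' →
    (∀ a b, (U - U') a b ∈ Vm p R (M + i)) →
    ∀ s t, (D.AA π χ U i - D.AA π χ U' i) s t ∈ Vm p R M
  psi : ∀ (R : Type) [CommRing R] (χ : WittVector p k →+* R) (U : Matrix n n (WittVector p R))
    (B : Subring R), Pt D.I (D.zeta χ) U → (∀ o, χ o ∈ B) → InWS B U → InWS B (D.psi π χ U)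
  aa : ∀ (R : Type) [CommRing R] (χ : WittVector p k →+* R) (U : Matrix n n (WittVector p R))
    (B : Subring R), Pt D.I (D.zeta χ) U → (∀ o, χ o ∈ B) → InWS B U →
    ∀ i, InWS B (D.AA π χ U i)
  twist : ∀ (R : Type) [CommRing R] (χ : WittVector p k →+* R) (U : Matrix n n (WittVector p R))
    (M : ℕ) (Y : Matrix n n (WittVector p R)), Pt D.I (D.zeta χ) U →
    app ((D.psi π χ U).map (Fi p R M)) Y =
      U.map (Fi p R M) * app ((D.DD π).map ((D.iota χ).comp (Fi p k (M + 1)))) Y *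
        U⁻¹.map (Fi p R M)
  recur : ∀ (R : Type) [CommRing R] (B : Subring R)
    (ψ : Matrix (n × n) (n × n) (WittVector p R)) (M : ℕ) (Y : Matrix n n (WittVector p R)),
    InWS B ψ → InWS B (Y.map (Vi p R 1) - app (ψ.map (Fi p R M)) Y) →
    ∀ i l, i + l = M + 1 →
      InWS B (Y.map (Vi p R i) - app ((twProd frobenius ψ i).map (Fi p R l)) Y)

/-- Contraction. -/
def SContr : Prop :=
  ∀ i : ℕ, ∃ m₀ : ℕ, ∀ (R : Type) [CommRing R] (χ : WittVector p k →+* R)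
    (U : Matrix n n (WittVector p R)) (a e m : ℕ) (κ : Matrix n n (T p R)),
    Pt D.I (D.zeta χ) U → Pt D.I ((toT p R).comp (D.zeta χ)) κ → e + a = i + m → a + m₀ ≤ e →
    CC (i + m) e κ →
    (∃ Z, (D.AA π χ U i).map (Fi p R m) = (p : WittVector p R) ^ a • Z) →
    CC m m (D.Phi χ U i * κ.map (fTi p R i) * (D.Phi χ U i)⁻¹)

/-- Integral lift of a point close to `1`. -/
def SInt : Prop :=
  ∀ (R : Type) [CommRing R] (χ : WittVector p k →+* R), IsNilpotent (p : R) →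
    ∀ (m : ℕ) (κ : Matrix n n (T p R)), 1 ≤ m → Pt D.I ((toT p R).comp (D.zeta χ)) κ →
    CC m m κ → ∃ Y : Matrix n n (WittVector p R),
      Pt D.I (D.zeta χ) (1 + Y.map (Vi p R m)) ∧ (1 + Y.map (Vi p R m)).map (toT p R) = κ

/-- Lift to the display group with prescribed `τ`. -/
def SLift : Prop :=
  ∃ M₀ : ℕ, ∀ (R : Type) [CommRing R] (χ : WittVector p k →+* R), IsNilpotent (p : R) →
    ∀ (M : ℕ) (Y : Matrix n n (WittVector p R)), M₀ ≤ M →
    Pt D.I (D.zeta χ) (1 + Y.map (Vi p R (M + 1))) →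
    ∃ Y' : Matrix n n (WittVector p R),
      D.IsH χ (1 + Y.map (Vi p R (M + 1)), 1 + Y'.map (Vi p R M))

/-- Linearisation modulo `W(B)`. -/
def SLin : Prop :=
  ∃ r₀ : ℕ, ∀ (R : Type) [CommRing R] (χ : WittVector p k →+* R) (B : Subring R) (u M : ℕ)
    (Y Y' : Matrix n n (WittVector p R)), (∀ o, χ o ∈ B) → 2 * (u + r₀) ≤ M →
    D.IsH χ (1 + Y.map (Vi p R (M + 1)), 1 + Y'.map (Vi p R M)) →
    InWS B ((p : WittVector p R) ^ u • Y) →
    InWS B (Y' - app ((D.DD π).map ((D.iota χ).comp (Fi p k (M + 1)))) Y)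

/-- Isomorphisms are defined over finitely generated subalgebras. -/
def SF : Prop :=
  ∀ (R : Type) [CommRing R] (χ : WittVector p k →+* R), IsNilpotent (p : R) →
    ∀ (s₀ : Finset R) (x y : XP p n R) (h : HP p n R), D.IsX χ x → D.IsX χ y → D.IsH χ h →
    Act x h y → InWS (gen χ s₀) x.1 → InTS (gen χ s₀) x.2 → InWS (gen χ s₀) y.1 →
    InTS (gen χ s₀) y.2 → ∃ s : Finset R, s₀ ⊆ s ∧ InWS (gen χ s) h.1 ∧ InWS (gen χ s) h.2

/-- Approximation in `G(W(R)[1/p])`. -/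
def SAppT : Prop :=
  ∀ (R : Type) [CommRing R] (χ : WittVector p k →+* R), IsNilpotent (p : R) →
    ∀ g : Matrix n n (T p R), Pt D.I ((toT p R).comp (D.zeta χ)) g → ∃ a : ℕ, ∀ e : ℕ,
    ∃ (s : Finset R) (g' : Matrix n n (T p R)), Pt D.I ((toT p R).comp (D.zeta χ)) g' ∧
      InTS (gen χ s) g' ∧ CC (e + a) e (g⁻¹ * g')

/-- First round: the quasi-isogeny is defined over a finitely generated subalgebra. -/
def SE1 : Prop :=
  ∀ (R : Type) [CommRing R] (χ : WittVector p k →+* R), IsNilpotent (p : R) →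
    ∀ x : XP p n R, D.IsX χ x →
    ∃ (s : Finset R) (h : HP p n R) (y : XP p n R), D.IsH χ h ∧ Act x h y ∧ InTS (gen χ s) y.2

/-- Second round: the display too. -/
def SE2 : Prop :=
  ∀ (R : Type) [CommRing R] (χ : WittVector p k →+* R), IsNilpotent (p : R) →
    ∀ (s₀ : Finset R) (x : XP p n R), D.IsX χ x → InTS (gen χ s₀) x.2 →
    ∃ (s : Finset R) (h : HP p n R) (y : XP p n R), D.IsH χ h ∧ Act x h y ∧
      InWS (gen χ s) y.1 ∧ InTS (gen χ s) y.2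

/-- Banal groupoid: essential surjectivity. -/
def SEss : Prop :=
  ∀ (ι : Type) [Preorder ι] (R : ι → Type) [∀ i, CommRing (R i)]
    (f : ∀ i j, i ≤ j → R i →+* R j) (A : Type) [CommRing A] (φ : ∀ i, R i →+* A)
    (χ : ∀ i, WittVector p k →+* R i) (χA : WittVector p k →+* A), IsSys p R f A φ χ χA →
    ∀ x : XP p n A, D.IsX χA x → ∃ (i : ι) (x₀ : XP p n (R i)) (h : HP p n A),
      D.IsX (χ i) x₀ ∧ D.IsH χA h ∧ Act (xmap (φ i) x₀) h x

/-- Banal groupoid: fullness. -/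
def SFull : Prop :=
  ∀ (ι : Type) [Preorder ι] (R : ι → Type) [∀ i, CommRing (R i)]
    (f : ∀ i j, i ≤ j → R i →+* R j) (A : Type) [CommRing A] (φ : ∀ i, R i →+* A)
    (χ : ∀ i, WittVector p k →+* R i) (χA : WittVector p k →+* A), IsSys p R f A φ χ χA →
    ∀ (i : ι) (x y : XP p n (R i)) (h : HP p n A), D.IsX (χ i) x → D.IsX (χ i) y → D.IsH χA h →
    Act (xmap (φ i) x) h (xmap (φ i) y) →
    ∃ (j : ι) (hij : i ≤ j) (h₀ : HP p n (R j)), D.IsH (χ j) h₀ ∧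
      Act (xmap (f i j hij) x) h₀ (xmap (f i j hij) y) ∧ hmap (φ j) h₀ = h

/-- Banal groupoid: faithfulness. -/
def SFaith : Prop :=
  ∀ (ι : Type) [Preorder ι] (R : ι → Type) [∀ i, CommRing (R i)]
    (f : ∀ i j, i ≤ j → R i →+* R j) (A : Type) [CommRing A] (φ : ∀ i, R i →+* A)
    (χ : ∀ i, WittVector p k →+* R i) (χA : WittVector p k →+* A), IsSys p R f A φ χ χA →
    ∀ (i : ι) (x y : XP p n (R i)) (h h' : HP p n (R i)), D.IsX (χ i) x → D.IsH (χ i) h →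
    D.IsH (χ i) h' → Act x h y → Act x h' y → hmap (φ i) h = hmap (φ i) h' →
    ∃ (j : ι) (hij : i ≤ j), hmap (f i j hij) h = hmap (f i j hij) h'

/-- `H` and `X` are fpqc sheaves. -/
structure SSheaf : Prop where
  sH : ∀ (A A' : Type) [CommRing A] [CommRing A'] (χ : WittVector p k →+* A) (e : A →+* A'),
    e.FaithfullyFlat → ∀ h : HP p n A', D.IsH (e.comp χ) h →
    (∀ (B : Type) [CommRing B] (γ δ : A' →+* B), γ.comp e = δ.comp e → hmap γ h = hmap δ h) →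
    ∃ h₀, D.IsH χ h₀ ∧ hmap e h₀ = h
  sX : ∀ (A A' : Type) [CommRing A] [CommRing A'] (χ : WittVector p k →+* A) (e : A →+* A'),
    e.FaithfullyFlat → ∀ x : XP p n A', D.IsX (e.comp χ) x →
    (∀ (B : Type) [CommRing B] (γ δ : A' →+* B), γ.comp e = δ.comp e → xmap γ x = xmap δ x) →
    ∃ x₀, D.IsX χ x₀ ∧ xmap e x₀ = x

/-- The truncated display group is a smooth affine scheme. -/
def STrunc : Prop :=
  ∀ (R : Type) [CommRing R] (χ : WittVector p k →+* R), IsNilpotent (p : R) → ∀ m : ℕ, 1 ≤ m →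
    ∃ (B : Type) (_ : CommRing B) (_ : Algebra R B), Algebra.Smooth R B ∧
    ∃ tr : ∀ (A : Type) [CommRing A] [Algebra R A], HP p n A → (B →ₐ[R] A),
      (∀ (A A' : Type) [CommRing A] [Algebra R A] [CommRing A'] [Algebra R A'] (ψ : A →ₐ[R] A')
        (h : HP p n A), D.IsH ((algebraMap R A).comp χ) h →
        tr A' (hmap ψ.toRingHom h) = ψ.comp (tr A h)) ∧
      (∀ (A : Type) [CommRing A] [Algebra R A] (b : B →ₐ[R] A),
        ∃ h, D.IsH ((algebraMap R A).comp χ) h ∧ tr A h = b) ∧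
      (∀ (A : Type) [CommRing A] [Algebra R A] (h h' : HP p n A),
        D.IsH ((algebraMap R A).comp χ) h → D.IsH ((algebraMap R A).comp χ) h' →
        (tr A h = tr A h' ↔ Cong m h h'))

/-- The `τ`-part controls the congruence level. -/
def SLead : Prop :=
  ∀ (R : Type) [CommRing R] (χ : WittVector p k →+* R) (s m : ℕ) (h : HP p n R),
    (p : R) ^ s = 0 → s ≤ m → 1 ≤ m → D.IsH χ h → Cong m h 1 →
    (∀ i j, (h.1 - 1) i j ∈ Vm p R (m + 2)) → Cong (m + 1) h 1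

/-- One step of the trivialisation of a cocycle close to `1`. -/
def SStep : Prop :=
  ∀ (A E : Type) [CommRing A] [CommRing E] (χ : WittVector p k →+* A) (e : A →+* E) (s m : ℕ)
    (κ : Fam p n E), e.FaithfullyFlat → (p : A) ^ s = 0 → s ≤ m → 1 ≤ m → D.IsCoc χ e κ →
    (∀ (B : Type) [CommRing B] (a b : E →+* B), a.comp e = b.comp e → Cong m (κ B a b) 1) →
    ∃ v, D.IsH (e.comp χ) v ∧ Cong m v 1 ∧
      ∀ (B : Type) [CommRing B] (a b : E →+* B), a.comp e = b.comp e →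
        Cong (m + 1) (κ B a b * hmap b v) (hmap a v)

/-- A cocycle close to `1` is a coboundary. -/
def SLim : Prop :=
  ∀ (A E : Type) [CommRing A] [CommRing E] (χ : WittVector p k →+* A) (e : A →+* E) (s m : ℕ)
    (κ : Fam p n E), e.FaithfullyFlat → (p : A) ^ s = 0 → s ≤ m → 1 ≤ m → D.IsCoc χ e κ →
    (∀ (B : Type) [CommRing B] (a b : E →+* B), a.comp e = b.comp e → Cong m (κ B a b) 1) →
    ∃ v, D.IsH (e.comp χ) v ∧
      ∀ (B : Type) [CommRing B] (a b : E →+* B), a.comp e = b.comp e →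
        κ B a b * hmap b v = hmap a v

/-- The torsor of an object is trivial over a smooth cover. -/
def SA1a : Prop :=
  ∀ (R : Type) [CommRing R] (χ : WittVector p k →+* R), IsNilpotent (p : R) → ∀ ξ : D.Obj χ,
    ∃ (C₁ : Type) (_ : CommRing C₁) (j₁ : R →+* C₁) (E : Type) (_ : CommRing E)
      (α : ξ.C →+* E) (e : C₁ →+* E) (u : HP p n E),
      j₁.Smooth ∧ j₁.FaithfullyFlat ∧ e.FaithfullyFlat ∧ α.comp ξ.j = e.comp j₁ ∧
      D.IsH (e.comp (j₁.comp χ)) u ∧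
      ∀ (B : Type) [CommRing B] (a b : E →+* B), a.comp e = b.comp e →
        ξ.h B (a.comp α) (b.comp α) * hmap b u = hmap a u

/-- Passing to the smooth cover. -/
def SA1b : Prop :=
  ∀ (R : Type) [CommRing R] (χ : WittVector p k →+* R) (ξ : D.Obj χ)
    (C₁ : Type) [CommRing C₁] (j₁ : R →+* C₁) (E : Type) [CommRing E]
    (α : ξ.C →+* E) (e : C₁ →+* E) (u : HP p n E),
    j₁.Smooth → j₁.FaithfullyFlat → e.FaithfullyFlat → α.comp ξ.j = e.comp j₁ →
    D.IsH (e.comp (j₁.comp χ)) u →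
    (∀ (B : Type) [CommRing B] (a b : E →+* B), a.comp e = b.comp e →
      ξ.h B (a.comp α) (b.comp α) * hmap b u = hmap a u) →
    ∃ η : D.Obj χ, η.j.Smooth ∧ D.IsoOver (RingHom.id R) (RingHom.id R) ξ η

/-- Formal properties of `IsoOver`. -/
structure SIso : Prop where
  refl : ∀ (R A : Type) [CommRing R] [CommRing A] (χ : WittVector p k →+* R) (φ : R →+* A)
    (ξ : D.Obj χ), D.IsoOver φ φ ξ ξ
  symm : ∀ (R₁ R₂ A : Type) [CommRing R₁] [CommRing R₂] [CommRing A]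
    (χ₁ : WittVector p k →+* R₁) (χ₂ : WittVector p k →+* R₂) (φ₁ : R₁ →+* A) (φ₂ : R₂ →+* A)
    (ξ : D.Obj χ₁) (η : D.Obj χ₂), φ₁.comp χ₁ = φ₂.comp χ₂ → D.IsoOver φ₁ φ₂ ξ η →
    D.IsoOver φ₂ φ₁ η ξ
  trans : ∀ (R₁ R₂ R₃ A : Type) [CommRing R₁] [CommRing R₂] [CommRing R₃] [CommRing A]
    (χ₁ : WittVector p k →+* R₁) (χ₂ : WittVector p k →+* R₂) (χ₃ : WittVector p k →+* R₃)
    (φ₁ : R₁ →+* A) (φ₂ : R₂ →+* A) (φ₃ : R₃ →+* A) (ξ : D.Obj χ₁) (η : D.Obj χ₂)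
    (ζ : D.Obj χ₃), φ₁.comp χ₁ = φ₂.comp χ₂ → D.IsoOver φ₁ φ₂ ξ η → D.IsoOver φ₂ φ₃ η ζ →
    D.IsoOver φ₁ φ₃ ξ ζ
  mono : ∀ (R₁ R₂ A A₁ : Type) [CommRing R₁] [CommRing R₂] [CommRing A] [CommRing A₁]
    (χ₁ : WittVector p k →+* R₁) (χ₂ : WittVector p k →+* R₂) (φ₁ : R₁ →+* A) (φ₂ : R₂ →+* A)
    (ψ : A →+* A₁) (ξ : D.Obj χ₁) (η : D.Obj χ₂), D.IsoOver φ₁ φ₂ ξ η →
    D.IsoOver (ψ.comp φ₁) (ψ.comp φ₂) ξ η
  base : ∀ (R A : Type) [CommRing R] [CommRing A] (χ : WittVector p k →+* R)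
    (χA : WittVector p k →+* A) (φ : R →+* A) (ξ : D.Obj χ), φ.comp χ = χA →
    ∃ η : D.Obj χA, D.IsoOver φ (RingHom.id A) ξ η

/-- An isomorphism in the stack is realised on every common refinement of the two covers. -/
def SNorm : Prop :=
  ∀ (R₁ R₂ A : Type) [CommRing R₁] [CommRing R₂] [CommRing A]
    (χ₁ : WittVector p k →+* R₁) (χ₂ : WittVector p k →+* R₂) (φ₁ : R₁ →+* A) (φ₂ : R₂ →+* A)
    (ξ : D.Obj χ₁) (η : D.Obj χ₂), φ₁.comp χ₁ = φ₂.comp χ₂ → D.IsoOver φ₁ φ₂ ξ η →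
    ∀ (A₁ : Type) [CommRing A₁] (e : A →+* A₁) (α : ξ.C →+* A₁) (β : η.C →+* A₁),
    α.comp ξ.j = e.comp φ₁ → β.comp η.j = e.comp φ₂ →
    ∃ u : HP p n A₁, D.IsH (e.comp (φ₁.comp χ₁)) u ∧ Act (xmap α ξ.x) u (xmap β η.x) ∧
      ∀ (B : Type) [CommRing B] (γ δ : A₁ →+* B), γ.comp e = δ.comp e →
        ξ.h B (γ.comp α) (δ.comp α) * hmap δ u = hmap γ u * η.h B (γ.comp β) (δ.comp β)

/-- Objects whose cover comes from the base of the system descend to a finite stage. -/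
def SCoreS : Prop :=
  ∀ (Λ ι : Type) [CommRing Λ] [Preorder ι] (R : ι → Type) [∀ i, CommRing (R i)]
    [∀ i, Algebra Λ (R i)] (f : ∀ i j, i ≤ j → R i →ₐ[Λ] R j) (A : Type) [CommRing A]
    [Algebra Λ A] (φ : ∀ i, R i →ₐ[Λ] A) (χ : ∀ i, WittVector p k →+* R i)
    (χA : WittVector p k →+* A),
    IsSys p R (fun i j h => (f i j h).toRingHom) A (fun i => (φ i).toRingHom) χ χA →
    ∀ (B : Type) [CommRing B] [Algebra Λ B], Module.FaithfullyFlat Λ B →
    ∀ (η : D.Obj χA) (ρ : B ⊗[Λ] A ≃+* η.C), (∀ a : A, ρ (1 ⊗ₜ a) = η.j a) →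
    ∃ (l : ι) (ζ : D.Obj (χ l)), D.IsoOver (RingHom.id A) (φ l).toRingHom η ζ

/-- Isomorphisms descend to a finite stage. -/
def SCoreI : Prop :=
  ∀ (Λ ι : Type) [CommRing Λ] [Preorder ι] (R : ι → Type) [∀ i, CommRing (R i)]
    [∀ i, Algebra Λ (R i)] (f : ∀ i j, i ≤ j → R i →ₐ[Λ] R j) (A : Type) [CommRing A]
    [Algebra Λ A] (φ : ∀ i, R i →ₐ[Λ] A) (χΛ : WittVector p k →+* Λ),
    IsSys p R (fun i j h => (f i j h).toRingHom) A (fun i => (φ i).toRingHom)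
      (fun i => (algebraMap Λ (R i)).comp χΛ) ((algebraMap Λ A).comp χΛ) →
    ∀ ξ η : D.Obj χΛ, D.IsoOver (algebraMap Λ A) (algebraMap Λ A) ξ η →
    ∃ l : ι, D.IsoOver (algebraMap Λ (R l)) (algebraMap Λ (R l)) ξ η

end

end Pool.Agent.MP_dc2c90_ag.H20
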